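import Pool.Agent.W_MP_aeed81_al.MFacts

set_option linter.unusedVariables false
set_option linter.unusedSectionVars false

namespace Pool.Agent.W_MP_aeed81_al

open Finset

variable {n r : ℕ}

/-- code of a tight move -/
def enc (q : TQ n r) : (ℕ × ℕ) × (ℕ × Finset ℕ) :=
  ((q.s, q.t), (q.j, (range (r + 1)).filter (fun i => q.m i = 1 ∨ q.m i = q.s + q.t + 1)))

theorem TQ.m_eq (q : TQ n r) (i : ℕ) : q.m i =
    (if i ∈ (range (r + 1)).filter (fun i => q.m i = 1 ∨ q.m i = q.s + q.t + 1) then 1 else 0) +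
      (if i = q.j + 1 then q.s + q.t else 0) := by
  obtain ⟨b1, b2, b3, b4⟩ := q.bad
  have h1 := q.vd.1 i
  have h2 := q.hst
  have h3 := q.hj
  have h4 := b3 i
  simp only [mem_filter, mem_range]
  by_cases hi : i = q.j + 1
  · subst hi
    rw [if_pos rfl]
    split_ifs <;> omega
  · rw [if_neg hi]
    by_cases hir : i ≤ r
    · have := h4 hir hi
      split_ifs <;> omega
    · have := h1 (by omega)
      split_ifs <;> omega

theorem enc_injective : Function.Injective (enc (n := n) (r := r)) := by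
  intro q q' h
  have h1 : q.s = q'.s := congrArg (fun z => z.1.1) h
  have h2 : q.t = q'.t := congrArg (fun z => z.1.2) h
  have h3 : q.j = q'.j := congrArg (fun z => z.2.1) h
  have h4 : (range (r + 1)).filter (fun i => q.m i = 1 ∨ q.m i = q.s + q.t + 1) =
    (range (r + 1)).filter (fun i => q'.m i = 1 ∨ q'.m i = q'.s + q'.t + 1) :=
    congrArg (fun z => z.2.2) h
  refine TQ.ext ?_ h3 h1 h2
  funext i
  rw [q.m_eq, q'.m_eq, h4, h1, h2, h3]

/-- sum of the gaps -/
theorem sum_dec (δ : Finset ℕ) (hδ : δ ⊆ range (r + 1)) (j d : ℕ) (hj : j < r) :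
    ∑ i ∈ range (r + 1), ((if i ∈ δ then 1 else 0) + (if i = j + 1 then d else 0)) =
      δ.card + d := by
  rw [Finset.sum_add_distrib, Finset.sum_ite_mem, Finset.inter_eq_right.2 hδ]
  simp
  omega

/-- codes -/
def B1 (n r : ℕ) : Finset (ℕ × Finset ℕ) :=
  ((range r) ×ˢ (range (r + 1)).powerset).filter
    (fun p => p.2.card + 3 = n - r ∧ ¬ ∀ i ∈ p.2, i ≤ p.1)
def B2 (n r : ℕ) : Finset (ℕ × Finset ℕ) :=
  ((range r) ×ˢ (range (r + 1)).powerset).filter (fun p => p.2.card + 3 = n - r)
def B3 (n r : ℕ) : Finset (ℕ × Finset ℕ) :=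
  ((range r) ×ˢ (range (r + 1)).powerset).filter (fun p => p.2.card + 4 = n - r)

def QQ (n r : ℕ) : Finset ((ℕ × ℕ) × (ℕ × Finset ℕ)) :=
  (({(1, 2)} : Finset (ℕ × ℕ)) ×ˢ B1 n r) ∪ ((({(2, 1)} : Finset (ℕ × ℕ)) ×ˢ B2 n r) ∪
    (({(2, 2)} : Finset (ℕ × ℕ)) ×ˢ B3 n r))

theorem mem_QQ (s t j : ℕ) (δ : Finset ℕ) : ((s, t), (j, δ)) ∈ QQ n r ↔
    ((s = 1 ∧ t = 2) ∨ (s = 2 ∧ t = 1) ∨ (s = 2 ∧ t = 2)) ∧ j < r ∧ δ ⊆ range (r + 1) ∧
      δ.card + (s + t) = n - r ∧ ¬ (s = 1 ∧ t = 2 ∧ ∀ i ∈ δ, i ≤ j) := by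
  simp only [QQ, B1, B2, B3, mem_union, mem_product, mem_singleton, mem_filter, mem_range,
    mem_powerset, Prod.mk.injEq]
  constructor
  · rintro (⟨⟨rfl, rfl⟩, ⟨h1, h2⟩, h3, h4⟩ | ⟨⟨rfl, rfl⟩, ⟨h1, h2⟩, h3⟩ |
      ⟨⟨rfl, rfl⟩, ⟨h1, h2⟩, h3⟩)
    · exact ⟨Or.inl ⟨rfl, rfl⟩, h1, h2, h3, fun h => h4 h.2.2⟩
    · exact ⟨Or.inr (Or.inl ⟨rfl, rfl⟩), h1, h2, h3, fun h => by omega⟩
    · exact ⟨Or.inr (Or.inr ⟨rfl, rfl⟩), h1, h2, h3, fun h => by omega⟩
  · rintro ⟨h0 | h0 | h0, h1, h2, h3, h4⟩
    · obtain ⟨rfl, rfl⟩ := h0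
      exact Or.inl ⟨⟨rfl, rfl⟩, ⟨h1, h2⟩, h3, fun h => h4 ⟨rfl, rfl, h⟩⟩
    · obtain ⟨rfl, rfl⟩ := h0
      exact Or.inr (Or.inl ⟨⟨rfl, rfl⟩, ⟨h1, h2⟩, h3⟩)
    · obtain ⟨rfl, rfl⟩ := h0
      exact Or.inr (Or.inr ⟨⟨rfl, rfl⟩, ⟨h1, h2⟩, h3⟩)

theorem range_enc : Set.range (enc (n := n) (r := r)) = (QQ n r : Set _) := by
  ext ⟨⟨s, t⟩, ⟨j, δ⟩⟩
  rw [Finset.mem_coe, mem_QQ]
  constructor
  · rintro ⟨q, hq⟩
    have h1 : q.s = s := congrArg (fun z => z.1.1) hq
    have h2 : q.t = t := congrArg (fun z => z.1.2) hq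
    have h3 : q.j = j := congrArg (fun z => z.2.1) hq
    have h4 : (range (r + 1)).filter (fun i => q.m i = 1 ∨ q.m i = q.s + q.t + 1) = δ :=
      congrArg (fun z => z.2.2) hq
    have hm := q.m_eq
    rw [h4] at hm
    have hδ : δ ⊆ range (r + 1) := by rw [← h4]; exact filter_subset _ _
    obtain ⟨b1, b2, b3, b4⟩ := q.bad
    have hj := q.hj
    subst h1
    subst h2
    subst h3
    refine ⟨b1, hj, hδ, ?_, ?_⟩
    · have hsum : ∑ i ∈ range (r + 1), q.m i = δ.card + (q.s + q.t) := by
        rw [← sum_dec δ hδ q.j (q.s + q.t) hj]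
        exact Finset.sum_congr rfl (fun i _ => hm i)
      have hp := q.vd.2
      unfold pos at hp
      omega
    · rintro ⟨a1, a2, a3⟩
      apply b4
      refine ⟨a1, a2, ?_, ?_⟩
      · rw [hm, if_pos rfl, if_neg (fun h => by have := a3 _ h; omega)]
        omega
      · intro i h1 h2
        rw [hm, if_neg (fun h => by have := a3 _ h; omega), if_neg (by omega)]
  · rintro ⟨h1, h2, h3, h4, h5⟩
    let m : ℕ → ℕ := fun i => (if i ∈ δ then 1 else 0) + (if i = j + 1 then s + t else 0)
    have hm : ∀ i, m i = (if i ∈ δ then 1 else 0) + (if i = j + 1 then s + t else 0) := fun _ => rfl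
    have hnot : ∀ i, r < i → i ∉ δ := by
      intro i hi hc
      have := h3 hc
      rw [mem_range] at this
      omega
    have vd : Vd n r m := by
      constructor
      · intro i hi
        rw [hm, if_neg (hnot i hi), if_neg (by omega)]
      · unfold pos
        rw [sum_dec δ h3 j (s + t) h2]
        omega
    have hmj : s + t ≤ m (j + 1) := by
      rw [hm, if_pos rfl]; omega
    have bad : Bad r m j s t := by
      refine ⟨h1, ?_, ?_, ?_⟩
      · rw [hm, if_pos rfl]; split_ifs <;> omega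
      · intro i h6 h7
        rw [hm, if_neg h7]; split_ifs <;> omega
      · rintro ⟨a1, a2, a3, a4⟩
        apply h5
        refine ⟨a1, a2, ?_⟩
        intro i hi
        by_contra hc
        have hir := h3 hi
        rw [mem_range] at hir
        by_cases hij : i = j + 1
        · rw [hm, if_pos rfl, ← hij, if_pos hi] at a3
          omega
        · have := a4 i (by omega) (by omega)
          rw [hm, if_pos hi] at this
          omega
    refine ⟨⟨m, j, s, t, vd, h2, by omega, by omega, hmj, bad⟩, ?_⟩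
    unfold enc
    simp only [Prod.mk.injEq, true_and]
    ext i
    simp only [mem_filter, mem_range]
    constructor
    · rintro ⟨a1, a2⟩
      by_contra hc
      rw [hm, if_neg hc] at a2
      split_ifs at a2 <;> omega
    · intro hi
      have hir := h3 hi
      rw [mem_range] at hir
      refine ⟨hir, ?_⟩
      rw [hm, if_pos hi]
      split_ifs <;> omega

theorem finite_TQ : Finite (TQ n r) := by
  have h : (Set.range (enc (n := n) (r := r))).Finite := by
    rw [range_enc]; exact Finset.finite_toSet _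
  have := h.to_subtype
  exact Finite.of_injective (fun q : TQ n r => (⟨enc q, ⟨q, rfl⟩⟩ : Set.range (enc (n := n) (r := r))))
    (fun a b hab => enc_injective (congrArg Subtype.val hab))

theorem card_TQ_QQ : Nat.card (TQ n r) = (QQ n r).card := by
  have e : TQ n r ≃ Set.range (enc (n := n) (r := r)) := Equiv.ofInjective _ enc_injective
  rw [Nat.card_congr e, range_enc]
  simp

theorem card_QQ : (QQ n r).card = (B1 n r).card + ((B2 n r).card + (B3 n r).card) := by
  unfold QQ
  rw [card_union_of_disjoint, card_union_of_disjoint, card_product, card_product, card_product]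
  · simp
  · rw [Finset.disjoint_left]
    rintro ⟨⟨s, t⟩, p⟩ h1 h2
    simp only [mem_product, mem_singleton, Prod.mk.injEq] at h1 h2
    omega
  · rw [Finset.disjoint_left]
    rintro ⟨⟨s, t⟩, p⟩ h1 h2
    simp only [mem_union, mem_product, mem_singleton, Prod.mk.injEq] at h1 h2
    omega

theorem card_B2 (h : 3 ≤ n - r) : (B2 n r).card = r * (r + 1).choose (n - r - 3) := by
  have : B2 n r = range r ×ˢ powersetCard (n - r - 3) (range (r + 1)) := by
    ext ⟨j, δ⟩
    simp only [B2, mem_filter, mem_product, mem_powerset, mem_powersetCard]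
    constructor
    · rintro ⟨⟨h1, h2⟩, h3⟩
      exact ⟨h1, h2, by omega⟩
    · rintro ⟨h1, h2, h3⟩
      exact ⟨⟨h1, h2⟩, by omega⟩
  rw [this, card_product, card_powersetCard, card_range, card_range]

theorem card_B3 (h : 4 ≤ n - r) : (B3 n r).card = r * (r + 1).choose (n - r - 4) := by
  have : B3 n r = range r ×ˢ powersetCard (n - r - 4) (range (r + 1)) := by
    ext ⟨j, δ⟩
    simp only [B3, mem_filter, mem_product, mem_powerset, mem_powersetCard]
    constructor
    · rintro ⟨⟨h1, h2⟩, h3⟩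
      exact ⟨h1, h2, by omega⟩
    · rintro ⟨h1, h2, h3⟩
      exact ⟨⟨h1, h2⟩, by omega⟩
  rw [this, card_product, card_powersetCard, card_range, card_range]

theorem hockey (k : ℕ) : ∀ r : ℕ, ∑ j ∈ range r, (j + 1).choose (k + 1) = (r + 1).choose (k + 2) := by
  intro r
  induction r with
  | zero => simp [Nat.choose_eq_zero_of_lt (show 0 + 1 < k + 2 by omega)]
  | succ r ih =>
    rw [Finset.sum_range_succ, ih, Nat.choose_succ_succ (r + 1) (k + 1)]
    ring

theorem card_B1 (h : 3 ≤ n - r) : (B1 n r).card + ∑ j ∈ range r, (j + 1).choose (n - r - 3) =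
    r * (r + 1).choose (n - r - 3) := by
  classical
  have h1 := Finset.card_filter_add_card_filter_not (s := B2 n r) (fun p => ∀ i ∈ p.2, i ≤ p.1)
  have h2 : (B2 n r).filter (fun p => ¬ ∀ i ∈ p.2, i ≤ p.1) = B1 n r := by
    ext p
    simp only [B1, B2, mem_filter, and_assoc]
  have h3 : ((B2 n r).filter (fun p => ∀ i ∈ p.2, i ≤ p.1)).card =
      ∑ j ∈ range r, (j + 1).choose (n - r - 3) := by
    rw [Finset.card_eq_sum_card_fiberwise (f := Prod.fst) (t := range r)]
    · apply Finset.sum_congr rfl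
      intro j hj
      have : ((B2 n r).filter (fun p => ∀ i ∈ p.2, i ≤ p.1)).filter (fun p => p.1 = j) =
          ({j} : Finset ℕ) ×ˢ powersetCard (n - r - 3) (range (j + 1)) := by
        rw [mem_range] at hj
        ext ⟨k, δ⟩
        simp only [B2, mem_filter, mem_product, mem_powerset, mem_powersetCard, mem_singleton,
          mem_range]
        constructor
        · rintro ⟨⟨⟨⟨a1, a2⟩, a3⟩, a4⟩, a5⟩
          refine ⟨a5, ?_, by omega⟩
          intro i hi
          have := a4 i hi
          rw [mem_range]; omega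
        · rintro ⟨a1, a2, a3⟩
          subst a1
          refine ⟨⟨⟨⟨hj, ?_⟩, by omega⟩, ?_⟩, rfl⟩
          · intro i hi
            have := a2 hi
            rw [mem_range] at this ⊢
            omega
          · intro i hi
            have := a2 hi
            rw [mem_range] at this
            omega
      rw [this, card_product, card_powersetCard, card_range, card_singleton, one_mul]
    · intro p hp
      simp only [B2, coe_filter, Set.mem_ofPred_eq, mem_filter, mem_product] at hp
      exact hp.1.1.1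
  rw [h2, h3] at h1
  rw [← card_B2 h, ← h1]
  ring

/-- The rank of the free group. -/
def mrank (r M : ℕ) : ℕ :=
  if M ≤ 2 then 0 else if M = 3 then r
  else 2 * r * (r + 1).choose (M - 3) + r * (r + 1).choose (M - 4) - (r + 1).choose (M - 2)

theorem card_TQ : Nat.card (TQ n r) = mrank r (n - r) := by
  rw [card_TQ_QQ, card_QQ]
  unfold mrank
  by_cases h2 : n - r ≤ 2
  · rw [if_pos h2]
    have e1 : B1 n r = ∅ := by
      apply Finset.filter_false_of_mem
      intro p hp h; omega
    have e2 : B2 n r = ∅ := by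
      apply Finset.filter_false_of_mem
      intro p hp h; omega
    have e3 : B3 n r = ∅ := by
      apply Finset.filter_false_of_mem
      intro p hp h; omega
    rw [e1, e2, e3]; rfl
  · rw [if_neg h2]
    have c1 := card_B1 (n := n) (r := r) (by omega)
    have c2 := card_B2 (n := n) (r := r) (by omega)
    by_cases h3 : n - r = 3
    · rw [if_pos h3]
      have e3 : B3 n r = ∅ := by
        apply Finset.filter_false_of_mem
        intro p hp h; omega
      rw [h3] at c1 c2
      simp at c1 c2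
      rw [e3, c1, c2]
      simp
    · rw [if_neg h3]
      have c3 := card_B3 (n := n) (r := r) (by omega)
      obtain ⟨k, hk⟩ : ∃ k, n - r = k + 4 := ⟨n - r - 4, by omega⟩
      rw [hk] at c1 c2 c3 ⊢
      have a1 : k + 4 - 3 = k + 1 := by omega
      have a2 : k + 4 - 4 = k := by omega
      have a3 : k + 4 - 2 = k + 2 := by omega
      rw [a1] at c1 c2
      rw [a2] at c3
      rw [a1, a2, a3]
      rw [hockey k r] at c1
      rw [c2, c3]
      have : 2 * r * (r + 1).choose (k + 1) = r * (r + 1).choose (k + 1) + r * (r + 1).choose (k + 1) := by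
        ring
      omega

theorem freeEquiv (n r : ℕ) : Nonempty (FreeGroup (Fin (mrank r (n - r))) ≃* FreeGroup (TQ n r)) := by
  have := finite_TQ (n := n) (r := r)
  exact ⟨FreeGroup.freeGroupCongr (Finite.equivFinOfCardEq (card_TQ (n := n) (r := r))).symm⟩

end Pool.Agent.W_MP_aeed81_al
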