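import Pool.Agent.W_MP_aeed81_al.MBridge
import Pool.Agent.W_MP_aeed81_al.MCount

set_option linter.unusedVariables false
set_option linter.unusedSectionVars false

namespace Pool.Agent.W_MP_aeed81_al

open Sum MD

variable {n : ℕ}

theorem PM_vert (f : MD n) (i : Fin n) : (PM f).1 (inl i) (inr i) ↔ f.X i = true := by
  change (inr i = inl i ∨ inr i = wM f (inl i)) ↔ _
  cases h : f.X i <;> simp [wM, h]

/-- projections without two neighbouring points off the vertical blocks -/
theorem motzkin_iso (f : MD n) (hf : ∀ i, f.X i = true ∨ f.X (i + 1) = true) :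
    HClassIso (xm f) PUnit.{1} := by
  obtain ⟨Φ, h1, h2⟩ := lift_PGM (n := n) (opr (fun _ _ => (1 : PUnit.{1})))
    (PGM_opr _ (fun _ => rfl) (fun _ _ _ => rfl) (fun _ _ _ _ _ => rfl))
  exact iso_case PGM_xm f hf xm_gen Φ h1 h2

theorem motzkin_free (f : MD n) (hf : ∃ i, f.X i = false ∧ f.X (i + 1) = false) :
    HClassIso (xm f) (FreeGroup (Fin (mrank (dX f).card (n - (dX f).card)))) := by
  obtain ⟨m, hm1, hm2⟩ := exists_gap n f.X f.big
  obtain ⟨i, hi1, hi2⟩ := hf
  obtain ⟨l, hl, _, _⟩ := same_gap m i (by rw [hm1]; exact hi1) (by rw [hm1]; exact hi2)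
  change Vd n (dX f).card m at hm2
  have hlr : l ≤ (dX f).card := by
    by_contra hc
    have := hm2.1 l (by omega)
    omega
  obtain ⟨Φ, h1, h2⟩ := lift_PGM (n := n) (opr (lam n (dX f).card)) PGM_lam
  obtain ⟨e⟩ := freeEquiv n (dX f).card
  exact (free_case PGM_xm hm2 ⟨l, hlr, hl⟩ f hm1.symm xm_gen Φ h1 h2).congr e

/-- The maximal subgroups of `PG(P(M_n))`. -/
theorem motzkin_main (n : ℕ) (p : Proj (Motzkin n)) :
    ((∀ i j : Fin n, (j : ℕ) = i + 1 → p.1 (inl i) (inr i) ∨ p.1 (inl j) (inr j)) →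
      HClassIso (gen p) PUnit.{1}) ∧
    ((∃ i j : Fin n, (j : ℕ) = i + 1 ∧ ¬ p.1 (inl i) (inr i) ∧ ¬ p.1 (inl j) (inr j)) →
      HClassIso (gen p) (FreeGroup (Fin (mrank (drank p.1) (n - drank p.1))))) := by
  obtain ⟨f, rfl⟩ := exists_PM p
  have hd : drank (PM f).1 = (dX f).card := drank_DM f
  constructor
  · intro h
    apply motzkin_iso
    intro i
    by_cases hi : i + 1 < n
    · have := h ⟨i, by omega⟩ ⟨i + 1, hi⟩ rfl
      rw [PM_vert, PM_vert] at this
      exact this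
    · exact Or.inr (f.big _ (by omega))
  · rintro ⟨i, j, hij, h1, h2⟩
    rw [PM_vert] at h1 h2
    rw [hd]
    apply motzkin_free
    refine ⟨i, by simpa using h1, ?_⟩
    rw [← hij]
    simpa using h2

end Pool.Agent.W_MP_aeed81_al
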