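import Mathlib

set_option linter.unusedVariables false

namespace Pool.Agent.W_MP_aeed81_al

/-- The hook relations. -/
structure HookSys {V M : Type*} [Semigroup M] (h : V → V → M) : Prop where
  symm : ∀ i j, h i j = h j i
  idem : ∀ i j, i ≠ j → h i j * h i j = h i j
  comm : ∀ i j k l, i ≠ j → i ≠ k → i ≠ l → j ≠ k → j ≠ l → k ≠ l →
    h i j * h k l = h k l * h i j
  tri : ∀ i j k, i ≠ j → i ≠ k → j ≠ k → h i j * h j k * h i j = h i j
  r4 : ∀ a b c d, a ≠ b → a ≠ c → a ≠ d → b ≠ c → b ≠ d → c ≠ d →
    h b c * h a b * h c d * h b c = h b c * h a d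
  s4 : ∀ a b c d, a ≠ b → a ≠ c → a ≠ d → b ≠ c → b ≠ d → c ≠ d →
    h a b * h c d * h b c = h a b * h c d * h b c * h a d
  s4' : ∀ a b c d, a ≠ b → a ≠ c → a ≠ d → b ≠ c → b ≠ d → c ≠ d →
    h b c * h a b * h c d = h a d * h b c * h a b * h c d

namespace HookSys

variable {V M : Type*} [Semigroup M] {h : V → V → M} (H : HookSys h)
include H

/-- `F4`: leaving `{i,j}` by `{j,k}` and coming back. -/
theorem back {s : M} {i j k : V} (hij : i ≠ j) (hik : i ≠ k) (hjk : j ≠ k)
    (hs : s * h i j = s) : s * h j k * h i j = s := by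
  have := H.tri i j k hij hik hjk
  calc s * h j k * h i j = s * h i j * h j k * h i j := by rw [hs]
    _ = s * (h i j * h j k * h i j) := by simp only [mul_assoc]
    _ = s := by rw [this, hs]

theorem back' {s : M} {i j k : V} (hij : i ≠ j) (hik : i ≠ k) (hjk : j ≠ k)
    (hs : s * h i j = s) : s * h i k * h i j = s := by
  have := H.back (s := s) hij.symm hjk hik (by rw [H.symm, hs])
  rw [H.symm i j]; exact this

theorem commR {s : M} {i j k l : V} (h1 : i ≠ j) (h2 : i ≠ k) (h3 : i ≠ l) (h4 : j ≠ k)
    (h5 : j ≠ l) (h6 : k ≠ l) : s * h i j * h k l = s * h k l * h i j := by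
  rw [mul_assoc, H.comm i j k l h1 h2 h3 h4 h5 h6, mul_assoc]

/-- exchange -/
theorem exch {s : M} {i j b c : V} (h1 : i ≠ j) (h2 : i ≠ b) (h3 : i ≠ c) (h4 : j ≠ b)
    (h5 : j ≠ c) (h6 : b ≠ c) (hs : s * h i b = s) (ht : s * h j c = s) :
    s * h i j = s * h b c := by
  have e1 : s * h i j = s * h i j * h b c := by
    have := H.s4 b i j c h2.symm h4.symm h6 h1 h3 h5
    calc s * h i j = s * h i b * h j c * h i j := by rw [hs, ht]
      _ = s * (h b i * h j c * h i j) := by rw [H.symm i b]; simp only [mul_assoc]
      _ = s * h i b * h j c * h i j * h b c := by rw [this, H.symm i b]; simp only [mul_assoc]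
      _ = s * h i j * h b c := by rw [hs, ht]
  have e2 : s * h b c = s * h b c * h i j := by
    have := H.s4 i b c j h2 h3 h1 h6 h4.symm h5.symm
    calc s * h b c = s * h i b * h j c * h b c := by rw [hs, ht]
      _ = s * (h i b * h c j * h b c) := by rw [H.symm j c]; simp only [mul_assoc]
      _ = s * h i b * h j c * h b c * h i j := by rw [this, H.symm j c]; simp only [mul_assoc]
      _ = s * h b c * h i j := by rw [hs, ht]
  rw [e1, e2]
  exact H.commR h1 h2 h3 h4 h5 h6

/-- `Θ`: over `{i,j}`: `[kl][jk] = [jk][il]`. -/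
theorem theta {s : M} {i j k l : V} (h1 : i ≠ j) (h2 : i ≠ k) (h3 : i ≠ l) (h4 : j ≠ k)
    (h5 : j ≠ l) (h6 : k ≠ l) (hs : s * h i j = s) :
    s * h k l * h j k = s * h j k * h i l := by
  -- s [jk][il] = s [ij][kj][il] = s [kl][ij][kj][il] = s [kl][jk][il] = s [kl] [jk]
  have e1 : s * h j k * h i l = s * h k l * h j k * h i l := by
    have := H.s4' k j i l h4.symm h2.symm h6 h1.symm h5 h3
    calc s * h j k * h i l = s * (h j i * h k j * h i l) := by
            rw [H.symm j i, ← mul_assoc, ← mul_assoc, hs, H.symm k j]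
      _ = s * h k l * h i j * h j k * h i l := by
            rw [this, H.symm j i, H.symm k j]; simp only [mul_assoc]
      _ = s * h i j * h k l * h j k * h i l := by
            rw [H.commR (s := s) h6 h2.symm h4.symm h3.symm h5.symm h1]
      _ = s * h k l * h j k * h i l := by rw [hs]
  have e2 : s * h k l * h j k = s * h k l * h j k * h i l := by
    have := H.s4 i j k l h1 h2 h3 h4 h5 h6
    calc s * h k l * h j k = s * (h i j * h k l * h j k) := by
            simp only [← mul_assoc]; rw [hs]
      _ = s * h i j * h k l * h j k * h i l := by rw [this]; simp only [mul_assoc]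
      _ = s * h k l * h j k * h i l := by rw [hs]
  rw [e1, e2]
  rw [mul_assoc (s * h k l * h j k), H.idem _ _ h3]

theorem byprod {s : M} {i j b c : V} (h1 : i ≠ j) (h2 : i ≠ b) (h3 : i ≠ c) (h4 : j ≠ b)
    (h5 : j ≠ c) (h6 : b ≠ c) (hs : s * h i b = s) (ht : s * h j c = s) :
    s * h i j * h b c = s * h i j := by
  have := H.exch h1 h2 h3 h4 h5 h6 hs ht
  rw [this, mul_assoc, H.idem _ _ h6]

theorem over_comm {s : M} {i j k l : V} (h1 : i ≠ j) (h2 : i ≠ k) (h3 : i ≠ l) (h4 : j ≠ k)
    (h5 : j ≠ l) (h6 : k ≠ l) (hs : s * h i j = s) : s * h k l * h i j = s * h k l := by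
  rw [← H.commR h1 h2 h3 h4 h5 h6, hs]

theorem over_self {s : M} {i j : V} (h1 : i ≠ j) : s * h i j * h i j = s * h i j := by
  rw [mul_assoc, H.idem _ _ h1]

theorem over_self' {s : M} {i j : V} (h1 : i ≠ j) : s * h i j * h j i = s * h i j := by
  rw [H.symm j i, H.over_self h1]

/-- theta, read the other way -/
theorem over_symm {s : M} {i j : V} (hs : s * h i j = s) : s * h j i = s := by
  rw [H.symm]; exact hs

/-- All triangles agree, first part. -/
theorem tri1 {s : M} {a b c d v : V} (ab : a ≠ b) (ac : a ≠ c) (ad : a ≠ d) (av : a ≠ v)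
    (bc : b ≠ c) (bd : b ≠ d) (bv : b ≠ v) (cd : c ≠ d) (cv : c ≠ v) (dv : d ≠ v)
    (hs : s * h a b = s) (ht : s * h c d = s) :
    s * h a v * h b v * h a b = s * h a d * h a c * h a b := by
  have e1 : s * h a v * h b v * h a b
      = s * h a v * h b v * h a b * h a c * h a b :=
    (H.back' ab ac bc (H.over_self ab)).symm
  have o2 : s * h a v * h b v * h c d = s * h a v * h b v :=
    H.over_comm cd bc.symm cv bd.symm dv bv (H.over_comm cd ac.symm cv ad.symm dv av ht)
  have e2 : s * h a v * h b v * h a b * h a c = s * h a v * h b v * h a c * h b d := by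
    have := H.theta (s := s * h a v * h b v) (i := d) (j := c) (k := a) (l := b)
      cd.symm ad.symm bd.symm ac.symm bc.symm ab (H.over_symm o2)
    rw [H.symm c a, H.symm d b] at this
    exact this
  have e3 : s * h a v * h b v * h a c = s * h a v * h a c * h b v :=
    H.commR bv ab.symm bc av.symm cv.symm ac
  have e4 : s * h a v * h a c * h b v = s * h a v * h b c * h a c := by
    have := H.theta (s := s * h a v) (i := v) (j := a) (k := c) (l := b)
      av.symm cv.symm bv.symm ac ab bc.symm (H.over_self' av)
    rw [H.symm c b, H.symm v b] at this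
    exact this.symm
  have e5 : s * h a v * h b c * h a c * h b d = s * h a v * h b c * h a d * h a c := by
    have := H.theta (s := s * h a v * h b c) (i := b) (j := c) (k := a) (l := d)
      bc ab.symm bd ac.symm cd ad (H.over_self bc)
    rw [H.symm c a] at this
    exact this.symm
  have e6 : s * h a v * h b c * h a d = s * h a v * h a d * h b c :=
    H.commR bc ab.symm bd ac.symm cd ad
  have o7 : s * h a v * h c d = s * h a v := H.over_comm cd ac.symm cv ad.symm dv av ht
  have e7 : s * h a v * h a d * h b c = s * h a v * h a b * h a d := by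
    have := H.theta (s := s * h a v) (i := c) (j := d) (k := a) (l := b)
      cd ac.symm bc.symm ad.symm bd.symm ab o7
    rw [H.symm d a, H.symm c b] at this
    exact this.symm
  have e8 : s * h a v * h a b = s := H.back' ab av bv hs
  rw [e1, e2, e3, e4, e5, e6, e7, e8]

/-- All triangles agree, second part. -/
theorem tri2 {s : M} {a b c d v : V} (ab : a ≠ b) (ac : a ≠ c) (ad : a ≠ d) (av : a ≠ v)
    (bc : b ≠ c) (bd : b ≠ d) (bv : b ≠ v) (cd : c ≠ d) (cv : c ≠ v) (dv : d ≠ v)
    (hs : s * h a b = s) (ht : s * h c d = s) :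
    s * h b v * h a v * h a b = s * h a d * h a c * h a b := by
  have e1 : s * h a d * h c d = s := by
    rw [H.symm a d, H.symm c d]
    exact H.back' cd.symm ad.symm ac.symm (H.over_symm ht)
  have o2 : s * h a d * h b c = s * h a d := H.byprod ad ab ac bd.symm cd.symm bc hs (H.over_symm ht)
  have e2 : s * h a d * h c d * h b v = s * h a d * h d v * h c d := by
    have := H.theta (s := s * h a d) (i := b) (j := c) (k := d) (l := v)
      bc bd bv cd cv dv o2
    exact this.symm
  have e3 : s * h a d * h d v * h c d * h a v = s * h a d * h d v * h a c * h c d := by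
    have := H.theta (s := s * h a d * h d v) (i := v) (j := d) (k := c) (l := a)
      dv.symm cv.symm av.symm cd.symm ad.symm ac.symm (H.over_self' dv)
    rw [H.symm c a, H.symm d c, H.symm v a] at this
    exact this.symm
  have e4 : s * h a d * h d v * h a c = s * h a d * h a c * h d v :=
    H.commR dv ad.symm cd.symm av.symm cv.symm ac
  have e5 : s * h a d * h a c * h d v * h c d * h a b = s * h a d * h a c * h d v * h a b * h c d :=
    H.commR cd ac.symm bc.symm ad.symm bd.symm ab
  have o6 : s * h a d * h a c * h d v * h c a = s * h a d * h a c * h d v :=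
    H.over_symm (H.over_comm ac ad av cd cv dv (H.over_self ac))
  have e6 : s * h a d * h a c * h d v * h a b * h c d
      = s * h a d * h a c * h d v * h b d * h a b := by
    have := H.theta (s := s * h a d * h a c * h d v) (i := c) (j := a) (k := b) (l := d)
      ac.symm bc.symm cd ab ad bd o6
    exact this.symm
  have o7 : s * h a d * h a c * h b d = s * h a d * h a c := by
    have := H.byprod (s := s * h a d) ac ad ab cd bc.symm bd.symm (H.over_self ad)
      (H.over_symm o2)
    rw [H.symm b d]; exact this
  have e7 : s * h a d * h a c * h d v * h b d = s * h a d * h a c := by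
    exact H.back bd bv dv o7
  calc s * h b v * h a v * h a b = s * h a d * h c d * h b v * h a v * h a b := by rw [e1]
    _ = s * h a d * h a c * h d v * h c d * h a b := by rw [e2, e3, e4]
    _ = s * h a d * h a c * h a b := by rw [e5, e6, e7]

/-- `F2`, generic case. -/
theorem f2gen {s : M} {i j k l c d : V} (ij : i ≠ j) (ik : i ≠ k) (il : i ≠ l) (ic : i ≠ c)
    (id : i ≠ d) (jk : j ≠ k) (jl : j ≠ l) (jc : j ≠ c) (jd : j ≠ d) (kl : k ≠ l) (kc : k ≠ c)
    (kd : k ≠ d) (lc : l ≠ c) (ld : l ≠ d) (cd : c ≠ d)
    (hs : s * h i j = s) (ht : s * h c d = s) :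
    s * h j k * h k l = s * h i l * h k l := by
  have e1 : s * h i d * h c d = s := by
    rw [H.symm i d, H.symm c d]
    exact H.back' cd.symm id.symm ic.symm (H.over_symm ht)
  have o2 : s * h i d * h j c = s * h i d :=
    H.byprod id ij ic jd.symm cd.symm jc hs (H.over_symm ht)
  have e2 : s * h i d * h c d * h j k = s * h i d * h k d * h c d := by
    have := H.theta (s := s * h i d) (i := j) (j := c) (k := d) (l := k)
      jc jd jk cd kc.symm kd.symm o2
    rw [H.symm d k] at this
    exact this.symm
  have e3 : s * h i d * h k d * h c d * h k l = s * h i d * h k d * h l c * h c d := by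
    have := H.theta (s := s * h i d * h k d) (i := k) (j := d) (k := c) (l := l)
      kd kc kl cd.symm ld.symm lc.symm (H.over_self kd)
    rw [H.symm c l, H.symm d c] at this
    exact this.symm
  have e4 : s * h i d * h k d * h l c = s * h i d * h l c * h k d :=
    H.commR kd kl kc ld.symm cd.symm lc
  have e5 : s * h i d * h l c = s * h i l * h i d := by
    have := H.theta (s := s) (i := c) (j := d) (k := i) (l := l)
      cd ic.symm lc.symm id.symm ld.symm il ht
    rw [H.symm d i, H.symm c l] at this
    exact this.symm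
  have o6 : s * h i l * h c d = s * h i l := H.over_comm cd ic.symm lc.symm id.symm ld.symm il ht
  have o7 : s * h i l * h i d * h l c = s * h i l * h i d :=
    H.byprod id il ic ld.symm cd.symm lc (H.over_self il) (H.over_symm o6)
  have e6 : s * h i l * h i d * h k d * h c d = s * h i l * h i d * h c d * h k l := by
    have := H.theta (s := s * h i l * h i d) (i := l) (j := c) (k := d) (l := k)
      lc ld kl.symm cd kc.symm kd.symm o7
    rw [H.symm d k, H.symm l k] at this
    exact this
  have e7 : s * h i l * h i d * h c d = s * h i l := by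
    have := H.back' (s := s * h i l) cd.symm id.symm ic.symm (H.over_symm o6)
    rw [H.symm i d, H.symm c d]; exact this
  calc s * h j k * h k l = s * h i d * h c d * h j k * h k l := by rw [e1]
    _ = s * h i l * h i d * h k d * h c d := by rw [e2, e3, e4, e5]
    _ = s * h i l * h k l := by rw [e6, e7]

end HookSys

end Pool.Agent.W_MP_aeed81_al
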