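import Pool.Agent.W_MP_aeed81_al.Graph2

set_option linter.unusedVariables false
set_option linter.unusedSectionVars false

namespace Pool.Agent.W_MP_aeed81_al

open TGraph

/-- the zero operator -/
def zop (Ω : Type*) : ROp Ω := ROp.of (fun _ => none) rfl

theorem zop_mul {Ω : Type*} (f : ROp Ω) : zop Ω * f = zop Ω := by
  apply ROp.ext; intro x; exact f.2

theorem top_case {n : ℕ} : HClassIso (xg (n := n) Inv.one) PUnit.{1} := by
  have H : HookSys (fun (_ _ : Fin n) => zop (PUnit × PUnit)) := by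
    constructor <;> intros <;> simp only [zop_mul]
  obtain ⟨Y, R, Y1, Yh⟩ := exists_X H
  obtain ⟨Φ, Φm, Φx⟩ := lift_hookRep Y R
  have e1 : Φ (xg Inv.one) = 1 := by rw [Φx, Y1]
  apply hclass_of_cover Φ Φm (gens := {a | a = xg Inv.one ∨ ∃ i j, i ≠ j ∧ a = xg (hookI i j)})
    ?_ ?_ (xg Inv.one) (hookRep_xg.idem _) PUnit.unit ?_ ?_ (fun _ => xg Inv.one)
    (fun _ => xg Inv.one) rfl (fun _ _ => (hookRep_xg.idem _).symm) rfl ?_ ?_
  · intro P h1 h2
    apply xg_induction
    · apply Inv.induction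
      · exact h1 _ (Or.inl rfl)
      · intro q i hi ih
        rw [hookRep_xg.rc q i hi]
        exact h2 _ _ (h1 _ (Or.inr ⟨i, q i, Ne.symm hi, rfl⟩)) ih
    · exact h2
  · rintro a (rfl | ⟨i, j, hij, rfl⟩) g d h
    · rw [e1]; rfl
    · rw [Φx, Yh i j hij]; rfl
  · rw [e1]; rfl
  · intro d g _ _; rfl
  · intro g; rw [e1]; rfl
  · rintro a (rfl | ⟨i, j, hij, rfl⟩) d d' h hact
    · rfl
    · rw [Φx, Yh i j hij] at hact
      have : (none : Option (PUnit × PUnit)) = some (d', h) := hact
      simp at this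

section rank2

variable {n : ℕ}

/-- two-element subsets -/
def D2 (n : ℕ) : Type := {s : Finset (Fin n) // s.card = 2}

instance : Fintype (D2 n) := inferInstanceAs (Fintype {s : Finset (Fin n) // s.card = 2})
instance : DecidableEq (D2 n) := inferInstanceAs (DecidableEq {s : Finset (Fin n) // s.card = 2})

theorem D2_card : Fintype.card (D2 n) = n.choose 2 := by
  have : Fintype.card {s : Finset (Fin n) // s.card = 2} = n.choose 2 := by
    rw [Fintype.card_finset_len]; simp
  exact this

theorem D2_pair (s : D2 n) : ∃ p : Fin n × Fin n, p.1 ≠ p.2 ∧ s.1 = {p.1, p.2} := by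
  obtain ⟨a, b, h1, h2⟩ := Finset.card_eq_two.1 s.2
  exact ⟨(a, b), h1, h2⟩

/-- constructor -/
def mk2 {i j : Fin n} (h : i ≠ j) : D2 n := ⟨{i, j}, Finset.card_pair h⟩

/-- the projection of a two-element set -/
noncomputable def Q2 (s : D2 n) : Inv (Fin n) :=
  hookI (D2_pair s).choose.1 (D2_pair s).choose.2

theorem Q2_mk {s : D2 n} {i j : Fin n} (hij : i ≠ j) (h : s.1 = {i, j}) : Q2 s = hookI i j := by
  unfold Q2
  obtain ⟨h1, h2⟩ := (D2_pair s).choose_spec
  set a := (D2_pair s).choose.1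
  set b := (D2_pair s).choose.2
  rw [h] at h2
  have hi : i ∈ ({a, b} : Finset (Fin n)) := by rw [← h2]; simp
  have hj : j ∈ ({a, b} : Finset (Fin n)) := by rw [← h2]; simp
  simp only [Finset.mem_insert, Finset.mem_singleton] at hi hj
  rcases hi with hi | hi <;> rcases hj with hj | hj
  · exact absurd (hi.trans hj.symm) hij
  · rw [hi, hj]
  · rw [hi, hj, hookI_symm]
  · exact absurd (hi.trans hj.symm) hij

theorem thI_hook {i j k l : Fin n} (hij : i ≠ j) (hkl : k ≠ l)
    (h : i = k ∨ i = l ∨ j = k ∨ j = l) : thI i j (hookI k l) = hookI i j := by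
  apply Inv.ext
  intro x
  simp only [thI, hookI]
  grind (splits := 40)

theorem D2_nonempty (s : D2 n) : s.1.Nonempty := by
  rw [← Finset.card_pos, s.2]; norm_num

/-- an element -/
noncomputable def D2.el (s : D2 n) : Fin n := (D2_nonempty s).choose

theorem D2.el_mem (s : D2 n) : s.el ∈ s.1 := (D2_nonempty s).choose_spec

theorem D2.not_disjoint_self (s : D2 n) : ¬ Disjoint s.1 s.1 := fun h =>
  Finset.disjoint_left.1 h s.el_mem s.el_mem

theorem D2.el_ne {s t : D2 n} (h : ¬ ¬ Disjoint s.1 t.1) : s.el ≠ t.el := by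
  intro e
  have h1 := s.el_mem
  rw [e] at h1
  exact h fun h' => Finset.disjoint_left.1 h' h1 t.el_mem

open Classical in
/-- the graph of projections of rank `n - 2` -/
noncomputable def G2 (d0 : D2 n) : TGraph (D2 n) where
  adj s t := ¬ Disjoint s.1 t.1
  symm h h' := h h'.symm
  refl s := s.not_disjoint_self
  d0 := d0
  par d := if h : ¬ Disjoint d0.1 d.1 then d0 else mk2 (D2.el_ne h)
  ord := fun d => (Fintype.equivFin (D2 n) d).val
  ord_inj := by
    intro a b h
    exact (Fintype.equivFin (D2 n)).injective (Fin.ext h)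
  adj_par d := by
    by_cases h : ¬ Disjoint d0.1 d.1
    · rw [dif_pos h]; exact h
    · rw [dif_neg h]
      intro h'
      have h1 : d.el ∈ (mk2 (D2.el_ne h)).1 := by simp [mk2]
      exact Finset.disjoint_left.1 h' h1 d.el_mem
  adj_par0 d := by
    by_cases h : ¬ Disjoint d0.1 d.1
    · rw [dif_pos h]
      exact d0.not_disjoint_self
    · rw [dif_neg h]
      intro h'
      exact Finset.disjoint_left.1 h' d0.el_mem (by simp [mk2])
  par_of_adj d h := by rw [dif_pos h]

theorem rank2_case (d0 : D2 n) : HClassIso (xg (Q2 d0)) (FreeGroup (G2 d0).Edge) := by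
  classical
  let c : Fin n → Fin n → D2 n := fun i j => if h : i = j then d0 else mk2 h
  have hc : ∀ {i j} (h : i ≠ j), c i j = mk2 h := fun h => dif_neg h
  have hcs : ∀ {i j} (h : i ≠ j), (c i j).1 = {i, j} := fun h => by rw [hc h]; rfl
  have adjI : ∀ {d : D2 n} {i j : Fin n}, i ≠ j → (G2 d0).adj d (c i j) →
      ∃ k l, k ≠ l ∧ d.1 = {k, l} ∧ (i = k ∨ i = l ∨ j = k ∨ j = l) := by
    intro d i j hij h
    obtain ⟨⟨k, l⟩, hkl, hd⟩ := D2_pair d
    refine ⟨k, l, hkl, hd, ?_⟩
    by_contra hcon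
    push Not at hcon
    apply h
    rw [hd, hcs hij, Finset.disjoint_left]
    intro a ha hb
    simp only [Finset.mem_insert, Finset.mem_singleton] at ha hb
    rcases ha with rfl | rfl <;> rcases hb with h | h <;> simp_all
  apply graph_case (G2 d0) Q2 c
  · intro i j
    by_cases h : i = j
    · rw [h]
    · rw [hc h, hc (Ne.symm h)]
      exact Subtype.ext (Finset.pair_comm i j)
  · intro i j k ij ik jk h
    rw [hcs ij, hcs jk, Finset.disjoint_left] at h
    exact h (a := j) (by simp) (by simp)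
  · right
    intro i j k l ij ik il jk jl kl h
    apply h
    rw [hcs ij, hcs kl, Finset.disjoint_left]
    intro a ha hb
    simp only [Finset.mem_insert, Finset.mem_singleton] at ha hb
    rcases ha with rfl | rfl <;> rcases hb with h | h <;> simp_all
  · intro d i hi
    obtain ⟨⟨k, l⟩, hkl, hd⟩ := D2_pair d
    rw [Q2_mk hkl hd] at hi ⊢
    apply Subtype.ext
    rw [hd]
    by_cases h1 : i = k
    · have : (hookI k l) i = l := by simp [hookI, h1]
      rw [this, h1, hcs hkl]
    · by_cases h2 : i = l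
      · have h3 : l ≠ k := Ne.symm hkl
        have : (hookI k l) i = k := by simp [hookI, h2, h3]
        rw [this, h2, hcs h3, Finset.pair_comm]
      · exact absurd (by simp [hookI, h1, h2]) hi
  · intro d
    obtain ⟨⟨k, l⟩, hkl, hd⟩ := D2_pair d
    refine ⟨k, ?_⟩
    rw [Q2_mk hkl hd]
    simpa [hookI] using Ne.symm hkl
  · intro d i j hij h
    obtain ⟨k, l, hkl, hd, h2⟩ := adjI hij h
    rw [Q2_mk hkl hd, Q2_mk hij (hcs hij)]
    exact thI_hook hij hkl h2
  · intro d b h
    obtain ⟨⟨i, j⟩, hij, hd⟩ := D2_pair d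
    have hd' : d = c i j := Subtype.ext (by rw [hd, hcs hij])
    have h' : (G2 d0).adj b (c i j) := by rw [← hd']; exact (G2 d0).symm h
    obtain ⟨k, l, hkl, hb, h2⟩ := adjI hij h'
    rw [Q2_mk hij hd, Q2_mk hkl hb, (hookRep_xg.conjH hij _).1]
    rw [thI_hook hij hkl h2]

end rank2

end Pool.Agent.W_MP_aeed81_al
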