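import Pool.Agent.W_MP_aeed81_al.Hk

set_option linter.unusedVariables false
set_option linter.unusedSectionVars false

namespace Pool.Agent.W_MP_aeed81_al

variable {W : Type*} [DecidableEq W]

theorem hk_back {i j k : W} {w : W → W} (h : FPI w) (hij : w i = j) (ik : i ≠ k) (jk : j ≠ k) :
    hk i j (hk j k w) = w := by
  obtain ⟨h1, h2⟩ := h
  funext x
  have a1 := h1 x
  have a2 := h1 i
  have a3 := h1 k
  have b1 := h2 x
  have b2 := h2 i
  have b3 := h2 k
  clear h1 h2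
  simp only [hk]
  grind (splits := 40)

theorem hk_tri {i j k : W} {w : W → W} (h : FPI w) (ij : i ≠ j) (ik : i ≠ k) (jk : j ≠ k) :
    hk i j (hk j k (hk i j w)) = hk i j w :=
  hk_back (hk_fpi ij h) (hk_left _ _ _) ik jk

theorem hk_idem {i j : W} {w : W → W} (h : FPI w) (ij : i ≠ j) : hk i j (hk i j w) = hk i j w :=
  hk_of_eq (hk_fpi ij h) (hk_left _ _ _)

/-- over `{b,c}`: `[ab][cd][bc] = [ad]` -/
theorem hk_r4' {a b c d : W} {w : W → W} (h : FPI w) (hbc : w b = c) (ab : a ≠ b) (ac : a ≠ c)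
    (ad : a ≠ d) (bd : b ≠ d) (cd : c ≠ d) :
    hk b c (hk c d (hk a b w)) = hk a d w := by
  obtain ⟨h1, h2⟩ := h
  funext x
  have a1 := h1 x
  have a2 := h1 a
  have a3 := h1 b
  have a4 := h1 d
  have b1 := h2 x
  have b2 := h2 a
  have b3 := h2 b
  have b4 := h2 d
  clear h1 h2
  simp only [hk]
  grind (splits := 60)

theorem hk_r4 {a b c d : W} {w : W → W} (h : FPI w) (ab : a ≠ b) (ac : a ≠ c)
    (ad : a ≠ d) (bc : b ≠ c) (bd : b ≠ d) (cd : c ≠ d) :
    hk b c (hk c d (hk a b (hk b c w))) = hk a d (hk b c w) :=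
  hk_r4' (hk_fpi bc h) (hk_left _ _ _) ab ac ad bd cd

/-- by-product of an exchange -/
theorem hk_byprod {a b c d : W} {w : W → W} (h : FPI w) (hab : w a = b) (hcd : w c = d)
    (ac : a ≠ c) (bc : b ≠ c) : hk b c w a = d := by
  obtain ⟨h1, h2⟩ := h
  have a2 := h1 a
  have a3 := h1 c
  have b2 := h2 a
  have b3 := h2 c
  clear h1 h2
  simp only [hk]
  grind (splits := 40)

theorem hk_keep {i j k : W} {w : W → W} (h : FPI w) (ki : k ≠ i) (kj : k ≠ j) (h3 : w k ≠ i)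
    (h4 : w k ≠ j) : hk i j w k = w k := by
  obtain ⟨h1, h2⟩ := h
  have a2 := h1 i
  have a3 := h1 j
  simp only [hk]
  grind (splits := 40)

theorem hk_s4 {a b c d : W} {w : W → W} (h : FPI w) (ab : a ≠ b) (ac : a ≠ c)
    (ad : a ≠ d) (bc : b ≠ c) (bd : b ≠ d) (cd : c ≠ d) :
    hk a d (hk b c (hk c d (hk a b w))) = hk b c (hk c d (hk a b w)) := by
  have f1 := hk_fpi ab h
  have f2 := hk_fpi cd f1
  have f3 := hk_fpi bc f2
  apply hk_of_eq f3
  have e1 : hk c d (hk a b w) a = b := by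
    rw [hk_keep f1 ac ad (by rw [hk_left]; exact bc) (by rw [hk_left]; exact bd), hk_left]
  have e2 : hk c d (hk a b w) c = d := hk_left _ _ _
  exact hk_byprod f2 e1 e2 ac bc

/-- over `{b,c}`: `[ad][ab][cd] = [ab][cd]` -/
theorem hk_s4'' {a b c d : W} {w : W → W} (h : FPI w) (hbc : w b = c) (ab : a ≠ b) (ac : a ≠ c)
    (ad : a ≠ d) (bd : b ≠ d) (cd : c ≠ d) :
    hk c d (hk a b (hk a d w)) = hk c d (hk a b w) := by
  obtain ⟨h1, h2⟩ := h
  funext x
  have a1 := h1 x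
  have a2 := h1 a
  have a3 := h1 b
  have a4 := h1 d
  have b1 := h2 x
  have b2 := h2 a
  have b3 := h2 b
  have b4 := h2 d
  clear h1 h2
  simp only [hk]
  grind (splits := 80)

theorem hk_s4' {a b c d : W} {w : W → W} (h : FPI w) (ab : a ≠ b) (ac : a ≠ c)
    (ad : a ≠ d) (bc : b ≠ c) (bd : b ≠ d) (cd : c ≠ d) :
    hk c d (hk a b (hk b c (hk a d w))) = hk c d (hk a b (hk b c w)) := by
  rw [hk_comm bc ab.symm bd ac.symm cd ad h]
  exact hk_s4'' (hk_fpi bc h) (hk_left _ _ _) ab ac ad bd cd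

end Pool.Agent.W_MP_aeed81_al
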