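import Pool.Agent.W_MP_aeed81_al.Alg

set_option linter.unusedVariables false
set_option linter.unusedSectionVars false

namespace Pool.Agent.W_MP_aeed81_al

variable {V : Type*} [DecidableEq V]

/-- involutions of `V` -/
def Inv (V : Type*) : Type _ := {q : V → V // ∀ x, q (q x) = x}

instance : CoeFun (Inv V) (fun _ => V → V) := ⟨Subtype.val⟩

theorem Inv.ext {p q : Inv V} (h : ∀ x, p x = q x) : p = q := Subtype.ext (funext h)

/-- the identity -/
def Inv.one : Inv V := ⟨fun x => x, fun _ => rfl⟩

/-- the transposition of `i` and `j` -/
def hookI (i j : V) : Inv V := ⟨fun x => if x = i then j else if x = j then i else x, by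
  intro x; grind⟩

/-- remove the pair of `i` -/
def eraseI (q : Inv V) (i : V) : Inv V := ⟨fun x => if x = i ∨ x = q i then x else q x, by
  have h := q.2
  intro x
  have a1 := h x
  have a2 := h i
  grind⟩

/-- conjugation of a projection by a hook -/
def thI (i j : V) (q : Inv V) : Inv V :=
  ⟨fun x => if x = i then j else if x = j then i else
    if x = q i then (if q j = j then x else q j) else
    if x = q j then (if q i = i then x else q i) else q x, by
    have h := q.2
    intro x
    have a1 := h x
    have a2 := h i
    have a3 := h j
    grind⟩

theorem hookI_symm (i j : V) : hookI i j = hookI j i := by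
  apply Inv.ext; intro x; simp only [hookI]; grind

theorem hookI_self (i : V) : hookI i i = Inv.one := by
  apply Inv.ext; intro x; simp only [hookI, Inv.one]; grind

theorem eraseI_apply_self (q : Inv V) (i : V) : eraseI q i i = i := by simp [eraseI]

theorem Inv.induction [Fintype V] {P : Inv V → Prop} (h1 : P Inv.one)
    (hr : ∀ q i, q i ≠ i → P (eraseI q i) → P q) : ∀ q, P q := by
  have key : ∀ (m : ℕ) (q : Inv V), (Finset.univ.filter (fun x => q x ≠ x)).card = m → P q := by
    intro m
    induction m using Nat.strong_induction_on with
    | _ m ih =>
      intro q hq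
      by_cases hex : ∃ i, q i ≠ i
      · obtain ⟨i, hi⟩ := hex
        apply hr q i hi
        apply ih _ _ _ rfl
        rw [← hq]
        apply Finset.card_lt_card
        rw [Finset.ssubset_iff_of_subset]
        · exact ⟨i, by simpa using hi, by simp [eraseI]⟩
        · intro x hx
          simp only [Finset.mem_filter, Finset.mem_univ, true_and] at hx ⊢
          simp only [eraseI] at hx
          grind
      · push Not at hex
        have : q = Inv.one := Inv.ext hex
        rw [this]; exact h1
  exact fun q => key _ q rfl

/-- A semigroup with elements `X q` for the involutions `q`, which are products of hooks. -/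
structure HookRep {M : Type*} [Semigroup M] (X : Inv V → M) : Prop where
  one_mul : ∀ q, X Inv.one * X q = X q
  mul_one : ∀ q, X q * X Inv.one = X q
  rc : ∀ q i, q i ≠ i → X q = X (hookI i (q i)) * X (eraseI q i)
  hs : HookSys (fun i j => X (hookI i j))

namespace HookRep

variable {M : Type*} [Semigroup M] {X : Inv V → M} (R : HookRep X)
include R

theorem commH [Fintype V] {i j : V} (hij : i ≠ j) : ∀ q : Inv V, q i = i → q j = j →
    X (hookI i j) * X q = X q * X (hookI i j) := by
  apply Inv.induction
  · intro _ _
    rw [R.one_mul, R.mul_one]
  · intro q a ha ih hi hj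
    have ai : a ≠ i := by rintro rfl; exact ha hi
    have aj : a ≠ j := by rintro rfl; exact ha hj
    have qai : q a ≠ i := by
      intro h; apply ai; rw [← q.2 a, h, hi]
    have qaj : q a ≠ j := by
      intro h; apply aj; rw [← q.2 a, h, hj]
    have e1 : eraseI q a i = i := by simp only [eraseI]; grind
    have e2 : eraseI q a j = j := by simp only [eraseI]; grind
    have hc := R.hs.comm i j a (q a) hij ai.symm qai.symm aj.symm qaj.symm (Ne.symm ha)
    rw [R.rc q a ha, ← mul_assoc, hc, mul_assoc, ih e1 e2, mul_assoc]

theorem rc' [Fintype V] (q : Inv V) (i : V) (hi : q i ≠ i) :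
    X q = X (eraseI q i) * X (hookI i (q i)) := by
  rw [R.rc q i hi]
  apply R.commH (Ne.symm hi)
  · simp [eraseI]
  · simp [eraseI]

theorem idem [Fintype V] : ∀ q : Inv V, X q * X q = X q := by
  apply Inv.induction
  · exact R.one_mul _
  · intro q i hi ih
    have h1 := R.rc q i hi
    have h2 := R.rc' q i hi
    calc X q * X q = (X (hookI i (q i)) * X (eraseI q i)) * (X (eraseI q i) * X (hookI i (q i))) := by
            rw [← h1, ← h2]
      _ = X (hookI i (q i)) * (X (eraseI q i) * X (eraseI q i)) * X (hookI i (q i)) := by
            simp only [mul_assoc]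
      _ = X (hookI i (q i)) * (X (eraseI q i) * X (hookI i (q i))) := by rw [ih, mul_assoc]
      _ = X (hookI i (q i)) * X q := by rw [← h2]
      _ = X q := by rw [h1, ← mul_assoc, R.hs.idem _ _ (Ne.symm hi)]

/-- insert a pair of fixed points -/
theorem ins [Fintype V] {q r : Inv V} {i j : V} (hij : i ≠ j) (h1 : r i = j)
    (h2 : eraseI r i = q) : X r = X (hookI i j) * X q := by
  rw [R.rc r i (by rw [h1]; exact hij.symm), h1, h2]

theorem conjH [Fintype V] {i j : V} (hij : i ≠ j) (q : Inv V) :
    X (hookI i j) * X q * X (hookI i j) = X (thI i j q) ∧
      X q * X (hookI i j) = X q * X (thI i j q) := by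
  have idh := R.hs.idem i j hij
  by_cases h1 : q i = j
  · have e : thI i j q = q := by
      apply Inv.ext; intro x
      have := q.2 x; have := q.2 i
      simp only [thI]; grind
    have hi : q i ≠ i := by rw [h1]; exact hij.symm
    have a1 := R.rc q i hi
    have a2 := R.rc' q i hi
    rw [h1] at a1 a2
    have b1 : X (hookI i j) * X q = X q := by rw [a1, ← mul_assoc, idh]
    have b2 : X q * X (hookI i j) = X q := by rw [a2, mul_assoc, idh]
    rw [e, b1, b2, R.idem]
    exact ⟨rfl, rfl⟩
  by_cases h2 : q i = i
  · by_cases h3 : q j = j
    · -- both fixed
      have c := R.commH hij q h2 h3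
      have e : X (thI i j q) = X (hookI i j) * X q := by
        apply R.ins hij
        · simp [thI]
        · apply Inv.ext; intro x
          have := q.2 x; have := q.2 i; have := q.2 j
          simp only [thI, eraseI]; grind
      constructor
      · rw [c, mul_assoc, idh, e, c]
      · rw [e, c, ← mul_assoc, R.idem]
    · -- i fixed, j moved
      have a1 := R.rc' q j h3
      have a1' := R.rc q j h3
      set q1 := eraseI q j with hq1
      have qji : q j ≠ i := by
        intro h; apply hij; rw [← q.2 j, h, h2]
      have f1 : q1 i = i := by simp only [hq1, eraseI]; grind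
      have f2 : q1 j = j := by simp [hq1, eraseI]
      have f3 : q1 (q j) = q j := by simp [hq1, eraseI]
      have c := R.commH hij q1 f1 f2
      have c2 := R.commH (Ne.symm h3) q1 f2 f3
      have e : X (thI i j q) = X (hookI i j) * X q1 := by
        apply R.ins hij
        · simp [thI]
        · apply Inv.ext; intro x
          have := q.2 x; have := q.2 i; have := q.2 j
          simp only [thI, hq1, eraseI]; grind
      have t := R.hs.tri j i (q j) hij.symm (Ne.symm h3) (Ne.symm qji)
      have t' := R.hs.tri i j (q j) hij (Ne.symm qji) (Ne.symm h3)
      constructor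
      · rw [a1', e]
        calc X (hookI i j) * (X (hookI j (q j)) * X q1) * X (hookI i j)
            = X (hookI i j) * X (hookI j (q j)) * (X q1 * X (hookI i j)) := by
              simp only [mul_assoc]
          _ = (X (hookI i j) * X (hookI j (q j)) * X (hookI i j)) * X q1 := by
              rw [← c]; simp only [mul_assoc]
          _ = X (hookI i j) * X q1 := by rw [t']
      · rw [e, a1]
        calc X q1 * X (hookI j (q j)) * X (hookI i j)
            = (X q1 * X q1) * X (hookI j (q j)) * X (hookI i j) := by rw [R.idem]
          _ = X q1 * (X q1 * X (hookI j (q j))) * X (hookI i j) := by simp only [mul_assoc]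
          _ = X q1 * X (hookI j (q j)) * (X q1 * X (hookI i j)) := by
              rw [show X q1 * (X q1 * X (hookI j (q j))) = X q1 * (X (hookI j (q j)) * X q1) by
                rw [c2]]
              simp only [mul_assoc]
          _ = X q1 * X (hookI j (q j)) * (X (hookI i j) * X q1) := by rw [c]
  · by_cases h3 : q j = j
    · -- i moved, j fixed
      have a1 := R.rc' q i h2
      have a1' := R.rc q i h2
      set q1 := eraseI q i with hq1
      have f1 : q1 i = i := by simp [hq1, eraseI]
      have f2 : q1 j = j := by simp only [hq1, eraseI]; grind
      have f3 : q1 (q i) = q i := by simp [hq1, eraseI]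
      have c := R.commH hij q1 f1 f2
      have c2 := R.commH (Ne.symm h2) q1 f1 f3
      have e : X (thI i j q) = X (hookI i j) * X q1 := by
        apply R.ins hij
        · simp [thI]
        · apply Inv.ext; intro x
          have := q.2 x; have := q.2 i; have := q.2 j
          simp only [thI, hq1, eraseI]; grind
      have t := R.hs.tri j i (q i) hij.symm (Ne.symm h1) (Ne.symm h2)
      rw [hookI_symm j i] at t
      constructor
      · rw [a1', e]
        calc X (hookI i j) * (X (hookI i (q i)) * X q1) * X (hookI i j)
            = X (hookI i j) * X (hookI i (q i)) * (X q1 * X (hookI i j)) := by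
              simp only [mul_assoc]
          _ = (X (hookI i j) * X (hookI i (q i)) * X (hookI i j)) * X q1 := by
              rw [← c]; simp only [mul_assoc]
          _ = X (hookI i j) * X q1 := by rw [t]
      · rw [e, a1]
        calc X q1 * X (hookI i (q i)) * X (hookI i j)
            = (X q1 * X q1) * X (hookI i (q i)) * X (hookI i j) := by rw [R.idem]
          _ = X q1 * (X q1 * X (hookI i (q i))) * X (hookI i j) := by simp only [mul_assoc]
          _ = X q1 * X (hookI i (q i)) * (X q1 * X (hookI i j)) := by
              rw [show X q1 * (X q1 * X (hookI i (q i))) = X q1 * (X (hookI i (q i)) * X q1) by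
                rw [c2]]
              simp only [mul_assoc]
          _ = X q1 * X (hookI i (q i)) * (X (hookI i j) * X q1) := by rw [c]
    · -- both moved
      set a := q i with ha
      set b := q j with hb
      have qa : q a = i := q.2 i
      have qb : q b = j := q.2 j
      have bi : b ≠ i := by
        intro h; apply h1; rw [← qb, h]
      have ab : a ≠ b := by
        intro h; apply hij; rw [← qa, h, qb]
      set q1 := eraseI q i with hq1
      have g1 : q1 j = b := by simp only [hq1, eraseI]; grind
      set q2 := eraseI q1 j with hq2
      have a1 := R.rc q i h2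
      have a2 := R.rc q1 j (by rw [g1]; exact h3)
      rw [g1] at a2
      rw [← hq1] at a1
      rw [← hq2] at a2
      have f1 : q2 i = i := by simp only [hq2, hq1, eraseI]; grind
      have f2 : q2 j = j := by simp [hq2, eraseI]
      have f3 : q2 a = a := by simp only [hq2, hq1, eraseI]; grind
      have f4 : q2 b = b := by simp only [hq2, hq1, eraseI]; grind
      have c := R.commH hij q2 f1 f2
      have c2 := R.commH (Ne.symm h2) q2 f1 f3
      have c3 := R.commH (Ne.symm h3) q2 f2 f4
      have c4 := R.commH ab q2 f3 f4
      have e : X (thI i j q) = X (hookI i j) * (X (hookI a b) * X q2) := by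
        have e1 : X (eraseI (thI i j q) i) = X (hookI a b) * X q2 := by
          apply R.ins ab
          · simp only [thI, eraseI]; grind
          · apply Inv.ext; intro x
            have := q.2 x
            simp only [thI, hq2, hq1, eraseI]; grind
        rw [← e1]
        apply R.ins hij
        · simp [thI]
        · rfl
      have r := R.hs.r4 a i j b h2 h1 ab hij bi.symm (Ne.symm h3)
      have s := R.hs.s4 a i j b h2 h1 ab hij bi.symm (Ne.symm h3)
      rw [hookI_symm a i] at r s
      have q12 : X q = X (hookI i a) * X (hookI j b) * X q2 := by
        rw [a1, a2, mul_assoc]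
      have q12' : X q = X q2 * X (hookI i a) * X (hookI j b) := by
        rw [q12, mul_assoc, c3, ← mul_assoc, c2]
      constructor
      · rw [q12, e]
        calc X (hookI i j) * (X (hookI i a) * X (hookI j b) * X q2) * X (hookI i j)
            = X (hookI i j) * X (hookI i a) * X (hookI j b) * (X q2 * X (hookI i j)) := by
              simp only [mul_assoc]
          _ = (X (hookI i j) * X (hookI i a) * X (hookI j b) * X (hookI i j)) * X q2 := by
              rw [← c]; simp only [mul_assoc]
          _ = X (hookI i j) * (X (hookI a b) * X q2) := by rw [r, mul_assoc]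
      · rw [e]
        calc X q * X (hookI i j)
            = X q2 * (X (hookI i a) * X (hookI j b) * X (hookI i j)) := by
              rw [q12']; simp only [mul_assoc]
          _ = X q2 * (X (hookI i a) * X (hookI j b) * X (hookI i j) * X (hookI a b)) := by rw [← s]
          _ = (X q2 * X q2) * X (hookI i a) * X (hookI j b) * X (hookI i j) * X (hookI a b) := by
              rw [R.idem]; simp only [mul_assoc]
          _ = X q2 * (X (hookI i a) * X (hookI j b)) * (X (hookI i j) * (X (hookI a b) * X q2)) := by
              rw [c4]
              simp only [mul_assoc]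
              congr 1
              rw [← mul_assoc (X q2) (X (hookI i a)), ← c2]
              simp only [mul_assoc]
              congr 1
              rw [← mul_assoc (X q2) (X (hookI j b)), ← c3]
              simp only [mul_assoc]
              congr 1
              rw [← mul_assoc (X q2) (X (hookI i j)), ← c]
              simp only [mul_assoc]
          _ = X q * (X (hookI i j) * (X (hookI a b) * X q2)) := by
              rw [q12']; simp only [mul_assoc]

/-- `X p X q` is idempotent. -/
theorem sq [Fintype V] : ∀ q p : Inv V, X p * X q * (X p * X q) = X p * X q := by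
  intro q
  induction q using Inv.induction with
  | h1 =>
    intro p
    rw [R.mul_one, R.idem]
  | hr q i hi ih =>
    intro p
    have hi' : i ≠ q i := Ne.symm hi
    set h := X (hookI i (q i)) with hh
    have idh : h * h = h := R.hs.idem i (q i) hi'
    have a1 : X q = h * X (eraseI q i) := R.rc q i hi
    have a2 : X q = X (eraseI q i) * h := R.rc' q i hi
    have b2 : X q * h = X q := by rw [a2, mul_assoc, idh]
    have e1 := (R.conjH hi' p).2
    have e2 := (R.conjH hi' p).1
    rw [← hh] at e1 e2
    set r := thI i (q i) p with hr
    have ihr := ih r
    symm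
    calc X p * X q = X p * h * X (eraseI q i) := by rw [a1, mul_assoc]
      _ = X p * (X r * X (eraseI q i)) := by rw [e1, mul_assoc]
      _ = X p * (X r * X (eraseI q i) * (X r * X (eraseI q i))) := by rw [ihr]
      _ = X p * X r * X (eraseI q i) * (X r * X (eraseI q i)) := by simp only [mul_assoc]
      _ = X p * h * X (eraseI q i) * (X r * X (eraseI q i)) := by rw [e1]
      _ = X p * X q * (X r * X (eraseI q i)) := by rw [a1]; simp only [mul_assoc]
      _ = X p * X q * (h * X p * h * X (eraseI q i)) := by rw [e2]
      _ = X p * (X q * h) * X p * (h * X (eraseI q i)) := by simp only [mul_assoc]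
      _ = X p * X q * (X p * X q) := by rw [b2, ← a1]; simp only [mul_assoc]

end HookRep

/-- The product `p q p` is given by one involution in all hook representations. -/
theorem exists_conj [Fintype V] (p q : Inv V) : ∃ m : Inv V, ∀ {M : Type} [Semigroup M]
    (X : Inv V → M), HookRep X → X p * X q * X p = X m := by
  revert q
  induction p using Inv.induction with
  | h1 => exact fun q => ⟨q, fun X R => by rw [R.one_mul, R.mul_one]⟩
  | hr p i hi ih =>
    intro q
    obtain ⟨m, hm⟩ := ih q
    refine ⟨thI i (p i) m, fun X R => ?_⟩
    rw [← (R.conjH (Ne.symm hi) m).1, ← hm X R]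
    calc X p * X q * X p = (X (hookI i (p i)) * X (eraseI p i)) * X q *
          (X (eraseI p i) * X (hookI i (p i))) := by rw [← R.rc p i hi, ← R.rc' p i hi]
      _ = _ := by simp only [mul_assoc]

end Pool.Agent.W_MP_aeed81_al
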