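import Pool.Agent.W_MP_aeed81_al.Diag
import Pool.Agent.W_MP_aeed81_al.HkId
import Pool.Agent.W_MP_aeed81_al.HookRep

set_option linter.unusedVariables false
set_option linter.unusedSectionVars false
set_option warn.classDefReducibility false

namespace Pool.Agent.W_MP_aeed81_al

open Sum

variable {n : ℕ}

/-- the fixed point free involution of the diagram `D q` -/
def wOf (q : Inv (Fin n)) : Fin n ⊕ Fin n → Fin n ⊕ Fin n
  | inl i => if q i = i then inr i else inl (q i)
  | inr i => if q i = i then inl i else inr (q i)

theorem wOf_fpi (q : Inv (Fin n)) : FPI (wOf q) := by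
  constructor
  · rintro (i | i)
    · by_cases h : q i = i
      · simp [wOf, h]
      · have : q (q i) ≠ q i := by rw [q.2 i]; exact Ne.symm h
        simp [wOf, h, q.2 i, Ne.symm h]
    · by_cases h : q i = i
      · simp [wOf, h]
      · simp [wOf, h, q.2 i, Ne.symm h]
  · rintro (i | i)
    · by_cases h : q i = i
      · simp [wOf, h]
      · simp [wOf, h]
    · by_cases h : q i = i
      · simp [wOf, h]
      · simp [wOf, h]

/-- The diagram of a fixed point free involution. -/
def RF (w : Fin n ⊕ Fin n → Fin n ⊕ Fin n) (hw : FPI w) : Diagram n := relOf w hw.inv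

/-- The projection with hooks `q`. -/
def DP (q : Inv (Fin n)) : Diagram n := RF (wOf q) (wOf_fpi q)

theorem closed_hook {i j : Fin n} (hij : i ≠ j) (s u : Fin n → Prop) :
    Closed (DP (hookI i j)) (two s u) ↔
      (s i ↔ s j) ∧ (u i ↔ u j) ∧ ∀ k, k ≠ i → k ≠ j → (s k ↔ u k) := by
  unfold DP RF
  rw [closed_relOf]
  constructor
  · intro h
    refine ⟨?_, ?_, ?_⟩
    · have := h (inl i)
      simpa [wOf, hookI, hij.symm] using this
    · have := h (inr i)
      simpa [wOf, hookI, hij.symm] using this
    · intro k h1 h2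
      have := h (inl k)
      simpa [wOf, hookI, h1, h2] using this
  · rintro ⟨h1, h2, h3⟩ (k | k)
    · by_cases ki : k = i
      · subst ki; simpa [wOf, hookI, hij.symm] using h1
      by_cases kj : k = j
      · subst kj; simpa [wOf, hookI, hij, hij.symm] using h1.symm
      simpa [wOf, hookI, ki, kj] using h3 k ki kj
    · by_cases ki : k = i
      · subst ki; simpa [wOf, hookI, hij.symm] using h2
      by_cases kj : k = j
      · subst kj; simpa [wOf, hookI, hij, hij.symm] using h2.symm
      simpa [wOf, hookI, ki, kj] using (h3 k ki kj).symm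

theorem RF_congr {w w' : Fin n ⊕ Fin n → Fin n ⊕ Fin n} {hw : FPI w} {hw' : FPI w'}
    (h : w = w') : RF w hw = RF w' hw' := by subst h; rfl

/-- left multiplication by a hook -/
theorem hook_dmul {i j : Fin n} (hij : i ≠ j) (w : Fin n ⊕ Fin n → Fin n ⊕ Fin n) (hw : FPI w) :
    dmul (DP (hookI i j)) (RF w hw) =
      RF (hk (inl i) (inl j) w) (hk_fpi (by simpa using hij) hw) := by
  have hij' : (inl i : Fin n ⊕ Fin n) ≠ inl j := by simpa using hij
  apply closed_ext
  intro S
  rw [← two_eta S]
  generalize (fun i => S (inl i)) = s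
  generalize (fun i => S (inr i)) = t
  rw [closed_dmul]
  unfold RF
  rw [closed_relOf]
  constructor
  · rintro ⟨u, h1, h2⟩ x
    rw [closed_hook hij] at h1
    rw [closed_relOf] at h2
    obtain ⟨h1, h3, h4⟩ := h1
    have agree : ∀ x, x ≠ inl i → x ≠ inl j → (two s t x ↔ two u t x) := by
      rintro (k | k) ha hb
      · exact h4 k (by simpa using ha) (by simpa using hb)
      · exact Iff.rfl
    by_cases xi : x = inl i
    · subst xi; rw [hk_left]; exact h1
    by_cases xj : x = inl j
    · subst xj; rw [hk_right hij']; exact h1.symm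
    by_cases xa : x = w (inl i)
    · have e : hk (inl i) (inl j) w x = w (inl j) := by
        simp only [hk]; rw [if_neg xi, if_neg xj, if_pos xa]
      rw [e, agree x xi xj]
      have hji : w (inl j) ≠ inl i := by
        intro h; apply xj; rw [xa, ← h, hw.inv]
      rw [agree _ hji (hw.ne _)]
      rw [xa, ← h2 (inl i), ← h2 (inl j)]
      exact h3
    by_cases xb : x = w (inl j)
    · have e : hk (inl i) (inl j) w x = w (inl i) := by
        simp only [hk]; rw [if_neg xi, if_neg xj, if_neg xa, if_pos xb]
      rw [e, agree x xi xj]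
      have hji : w (inl i) ≠ inl j := by
        intro h; apply xi; rw [xb, ← h, hw.inv]
      rw [agree _ (hw.ne _) hji]
      rw [xb, ← h2 (inl i), ← h2 (inl j)]
      exact h3.symm
    · have e : hk (inl i) (inl j) w x = w x := by
        simp only [hk]; rw [if_neg xi, if_neg xj, if_neg xa, if_neg xb]
      rw [e, agree x xi xj, agree]
      · exact h2 x
      · intro h; apply xa; rw [← h, hw.inv]
      · intro h; apply xb; rw [← h, hw.inv]
  · intro h
    have hsij : s i ↔ s j := by
      have := h (inl i)
      rw [hk_left] at this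
      exact this
    by_cases hwij : w (inl i) = inl j
    · rw [hk_of_eq hw hwij] at h
      refine ⟨s, (closed_hook hij _ _).2 ⟨hsij, hsij, fun _ _ _ => Iff.rfl⟩, ?_⟩
      rw [closed_relOf]; exact h
    · have hwji : w (inl j) ≠ inl i := by
        intro e; apply hwij; rw [← e, hw.inv]
      let u : Fin n → Prop := fun k => if k = i ∨ k = j then two s t (w (inl i)) else s k
      have ui : u i ↔ two s t (w (inl i)) := by simp [u]
      have uj : u j ↔ two s t (w (inl i)) := by simp [u]
      have agree : ∀ x, x ≠ inl i → x ≠ inl j → (two s t x ↔ two u t x) := by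
        rintro (k | k) ha hb
        · have h1 : k ≠ i := by simpa using ha
          have h2 : k ≠ j := by simpa using hb
          simp [u, h1, h2]
        · exact Iff.rfl
      refine ⟨u, (closed_hook hij _ _).2 ⟨hsij, ui.trans uj.symm, fun k h1 h2 => by
        simp [u, h1, h2]⟩, ?_⟩
      rw [closed_relOf]
      have hab : two s t (w (inl i)) ↔ two s t (w (inl j)) := by
        have := h (w (inl i))
        have e : hk (inl i) (inl j) w (w (inl i)) = w (inl j) := by
          simp [hk, hw.ne, hwij]
        rw [e] at this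
        exact this
      intro x
      by_cases xi : x = inl i
      · subst xi
        rw [← agree _ (hw.ne _) hwij]; exact ui
      by_cases xj : x = inl j
      · subst xj
        rw [← agree _ hwji (hw.ne _)]
        exact uj.trans hab
      by_cases xa : w x = inl i
      · have : x = w (inl i) := by rw [← xa, hw.inv]
        rw [xa, ← agree x xi xj, this]; exact ui.symm
      by_cases xb : w x = inl j
      · have : x = w (inl j) := by rw [← xb, hw.inv]
        rw [xb, ← agree x xi xj, this]; exact (uj.trans hab).symm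
      · rw [← agree x xi xj, ← agree _ xa xb]
        have e : hk (inl i) (inl j) w x = w x := by
          simp only [hk]; rw [if_neg xi, if_neg xj, if_neg, if_neg]
          · intro h; apply xb; rw [h, hw.inv]
          · intro h; apply xa; rw [h, hw.inv]
        rw [h x, e]

theorem one_dmul (a : Diagram n) : dmul (DP Inv.one) a = a := by
  apply closed_ext
  intro S
  rw [← two_eta S]
  generalize (fun i => S (inl i)) = s
  generalize (fun i => S (inr i)) = t
  rw [closed_dmul]
  have key : ∀ u, Closed (DP Inv.one) (two s u) ↔ ∀ k, s k ↔ u k := by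
    intro u
    unfold DP RF
    rw [closed_relOf]
    constructor
    · intro h k
      have := h (inl k)
      simpa [wOf, Inv.one] using this
    · rintro h (k | k)
      · simpa [wOf, Inv.one] using h k
      · simpa [wOf, Inv.one] using (h k).symm
  constructor
  · rintro ⟨u, h1, h2⟩
    rw [key] at h1
    have : s = u := funext fun k => propext (h1 k)
    rw [this]; exact h2
  · intro h
    exact ⟨s, (key s).2 fun _ => Iff.rfl, h⟩

theorem dstar_RF {w : Fin n ⊕ Fin n → Fin n ⊕ Fin n} (hw : FPI w)
    (hw' : FPI (fun x => (w x.swap).swap)) : dstar (RF w hw) = RF (fun x => (w x.swap).swap) hw' := by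
  apply closed_ext
  intro S
  rw [← two_eta S, closed_dstar]
  generalize (fun i => S (inl i)) = s
  generalize (fun i => S (inr i)) = t
  unfold RF
  rw [closed_relOf, closed_relOf]
  have sw : ∀ x : Fin n ⊕ Fin n, two t s x = two s t x.swap := by rintro (k | k) <;> rfl
  constructor
  · intro h x
    have := h x.swap
    rw [sw, sw, Sum.swap_swap] at this
    exact this
  · intro h x
    have := h x.swap
    simp only [Sum.swap_swap] at this
    rw [sw, sw]
    exact this

theorem dstar_DP (q : Inv (Fin n)) : dstar (DP q) = DP q := by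
  have e : (fun x => (wOf q x.swap).swap) = wOf q := by
    funext x
    rcases x with k | k <;> by_cases h : q k = k <;> simp [wOf, h]
  have hw' : FPI (fun x => (wOf q x.swap).swap) := by rw [e]; exact wOf_fpi q
  unfold DP
  rw [dstar_RF (wOf_fpi q) hw']
  exact RF_congr e

theorem dmul_one (a : Diagram n) : dmul a (DP Inv.one) = a := by
  have := one_dmul (dstar a)
  rw [← dstar_DP Inv.one, ← dstar_dmul] at this
  have h2 := congrArg dstar this
  rwa [dstar_dstar, dstar_dstar] at h2

/-- the diagrams as a semigroup -/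
def Dg (n : ℕ) : Type := Diagram n

instance : Semigroup (Dg n) where
  mul a b := dmul (n := n) a b
  mul_assoc a b c := dmul_assoc (n := n) a b c

theorem Dg_mul (a b : Dg n) : a * b = dmul (n := n) a b := rfl

/-- `DP` as an element of the semigroup -/
def DPg (q : Inv (Fin n)) : Dg n := DP q

/-- `RF` as an element of the semigroup -/
def RFg (w : Fin n ⊕ Fin n → Fin n ⊕ Fin n) (hw : FPI w) : Dg n := RF w hw

theorem inl_ne' {i j : Fin n} (h : i ≠ j) : (inl i : Fin n ⊕ Fin n) ≠ inl j := by simpa using h

theorem hookRep_DP : HookRep (V := Fin n) (M := Dg n) DPg := by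
  have mul1 : ∀ a : Dg n, a * DPg Inv.one = a := fun a => dmul_one a
  have ext1 : ∀ {a b : Dg n}, a * RFg (wOf Inv.one) (wOf_fpi _) = b * RFg (wOf Inv.one) (wOf_fpi _) →
      a = b := by
    intro a b h
    have h2 : a * DPg Inv.one = b * DPg Inv.one := h
    rwa [mul1, mul1] at h2
  have A : ∀ {i j : Fin n} (hij : i ≠ j) (w : Fin n ⊕ Fin n → Fin n ⊕ Fin n) (hw : FPI w),
      DPg (hookI i j) * RFg w hw =
        RFg (hk (inl i) (inl j) w) (hk_fpi (by simpa using hij) hw) :=
    fun hij w hw => hook_dmul hij w hw
  constructor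
  · intro q; exact one_dmul _
  · intro q; exact dmul_one _
  · intro q i hi
    change DP q = dmul (DP (hookI i (q i))) (DP (eraseI q i))
    unfold DP
    have := hook_dmul (Ne.symm hi) (wOf (eraseI q i)) (wOf_fpi _)
    unfold DP at this
    rw [this]
    apply RF_congr
    have e1 : wOf (eraseI q i) (inl i) = inr i := by simp [wOf, eraseI]
    have e2 : wOf (eraseI q i) (inl (q i)) = inr (q i) := by simp [wOf, eraseI]
    funext x
    simp only [hk, e1, e2]
    rcases x with k | k
    · by_cases ki : k = i
      · subst ki; simp [wOf, hi]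
      by_cases kj : k = q i
      · subst kj; simp [wOf, q.2 i, Ne.symm hi, hi]
      by_cases hk : q k = k
      · simp [wOf, hk, eraseI, ki, kj]
      · simp [wOf, hk, eraseI, ki, kj]
    · by_cases ki : k = i
      · subst ki; simp [wOf, hi]
      by_cases kj : k = q i
      · subst kj; simp [wOf, q.2 i, Ne.symm hi, hi]
      by_cases hk : q k = k
      · simp [wOf, hk, eraseI, ki, kj]
      · simp [wOf, hk, eraseI, ki, kj]
  · constructor
    · intro i j; rw [hookI_symm]
    · intro i j hij
      apply ext1
      simp only [mul_assoc]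
      rw [A hij, A hij]
      exact RF_congr (hk_idem (wOf_fpi _) (inl_ne' hij))
    · intro i j k l h1 h2 h3 h4 h5 h6
      apply ext1
      simp only [mul_assoc]
      rw [A h6, A h1, A h1, A h6]
      exact RF_congr (hk_comm (inl_ne' h1) (inl_ne' h2) (inl_ne' h3) (inl_ne' h4) (inl_ne' h5)
        (inl_ne' h6) (wOf_fpi _))
    · intro i j k h1 h2 h3
      apply ext1
      simp only [mul_assoc]
      rw [A h1, A h3, A h1]
      exact RF_congr (hk_tri (wOf_fpi _) (inl_ne' h1) (inl_ne' h2) (inl_ne' h3))
    · intro a b c d ab ac ad bc bd cd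
      apply ext1
      simp only [mul_assoc]
      rw [A bc, A cd, A ab, A bc, A ad, A bc]
      apply RF_congr
      have f := hk_fpi (inl_ne' bc) (wOf_fpi (Inv.one : Inv (Fin n)))
      rw [hk_comm (inl_ne' ab) (inl_ne' ac) (inl_ne' ad) (inl_ne' bc) (inl_ne' bd) (inl_ne' cd) f]
      rw [hk_r4 (wOf_fpi _) (inl_ne' ab) (inl_ne' ac) (inl_ne' ad) (inl_ne' bc) (inl_ne' bd)
        (inl_ne' cd)]
      exact hk_comm (inl_ne' ad) (inl_ne' ab) (inl_ne' ac) (inl_ne' bd.symm) (inl_ne' cd.symm)
        (inl_ne' bc) (wOf_fpi _)
    · intro a b c d ab ac ad bc bd cd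
      apply ext1
      simp only [mul_assoc]
      rw [A bc, A cd, A ab, A ad, A bc, A cd, A ab]
      apply RF_congr
      have f := hk_fpi (inl_ne' bc) (wOf_fpi (Inv.one : Inv (Fin n)))
      have f' := hk_fpi (inl_ne' bc) (hk_fpi (inl_ne' ad) (wOf_fpi (Inv.one : Inv (Fin n))))
      rw [hk_comm (inl_ne' ab) (inl_ne' ac) (inl_ne' ad) (inl_ne' bc) (inl_ne' bd) (inl_ne' cd) f,
        hk_comm (inl_ne' ab) (inl_ne' ac) (inl_ne' ad) (inl_ne' bc) (inl_ne' bd) (inl_ne' cd) f']
      exact (hk_s4' (wOf_fpi _) (inl_ne' ab) (inl_ne' ac) (inl_ne' ad) (inl_ne' bc) (inl_ne' bd)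
        (inl_ne' cd)).symm
    · intro a b c d ab ac ad bc bd cd
      apply ext1
      simp only [mul_assoc]
      rw [A cd, A ab, A bc, A ad]
      apply RF_congr
      rw [hk_comm (inl_ne' ab) (inl_ne' ac) (inl_ne' ad) (inl_ne' bc) (inl_ne' bd) (inl_ne' cd)
        (wOf_fpi _)]
      exact (hk_s4 (wOf_fpi _) (inl_ne' ab) (inl_ne' ac) (inl_ne' ad) (inl_ne' bc) (inl_ne' bd)
        (inl_ne' cd)).symm

end Pool.Agent.W_MP_aeed81_al
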