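import Pool.Agent.W_MP_aeed81_al.Count

set_option linter.unusedVariables false
set_option linter.unusedSectionVars false

namespace Pool.Agent.W_MP_aeed81_al

open TGraph

/-- the three perfect matchings of four points -/
def Q4 (d : Fin 3) : Inv (Fin 4) := ⟨fun x =>
  match d with
  | 0 => ![1, 0, 3, 2] x
  | 1 => ![2, 3, 0, 1] x
  | 2 => ![3, 2, 1, 0] x, by revert d; decide⟩

/-- index of the matching that contains a pair -/
def c4 (i j : Fin 4) : Fin 3 :=
  if (i = 0 ∧ j = 2) ∨ (i = 2 ∧ j = 0) ∨ (i = 1 ∧ j = 3) ∨ (i = 3 ∧ j = 1) then 1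
  else if (i = 0 ∧ j = 3) ∨ (i = 3 ∧ j = 0) ∨ (i = 1 ∧ j = 2) ∨ (i = 2 ∧ j = 1) then 2
  else 0

/-- complete graph on the three matchings -/
def G4 (d0 : Fin 3) : TGraph (Fin 3) where
  adj _ _ := True
  symm _ := trivial
  refl _ := trivial
  d0 := d0
  par _ := d0
  ord d := d.val
  ord_inj := Fin.val_injective
  adj_par _ := trivial
  adj_par0 _ := trivial
  par_of_adj _ _ := rfl

theorem four_case (d0 : Fin 3) : HClassIso (xg (Q4 d0)) (FreeGroup (G4 d0).Edge) := by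
  apply graph_case (G4 d0) Q4 c4
  · decide
  · intro i j k _ _ _; trivial
  · left
    have key : ∀ i j k l : Fin 4, (i ≠ j ∧ i ≠ k ∧ i ≠ l ∧ j ≠ k ∧ j ≠ l ∧ k ≠ l) →
        c4 i j = c4 k l := by decide
    exact fun i j k l h1 h2 h3 h4 h5 h6 => key i j k l ⟨h1, h2, h3, h4, h5, h6⟩
  · decide
  · decide
  · have key : ∀ (d : Fin 3) (i j : Fin 4), i ≠ j → ∀ x, (thI i j (Q4 d)) x = (Q4 (c4 i j)) x := by
      decide
    intro d i j hij _
    exact Inv.ext (key d i j hij)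
  · intro d b _
    have key : ∀ d b : Fin 3, ∃ i j k l : Fin 4, (i ≠ j ∧ k ≠ l) ∧
        ((Q4 d) i = j ∧ ∀ x, (eraseI (Q4 d) i) x = (hookI k l) x) ∧
        ∀ x, (thI i j (thI k l (Q4 b))) x = (Q4 d) x := by decide
    obtain ⟨i, j, k, l, ⟨hij, hkl⟩, ⟨h1, h2⟩, h3⟩ := key d b
    have e2 : eraseI (Q4 d) i = hookI k l := Inv.ext h2
    have e3 : thI i j (thI k l (Q4 b)) = Q4 d := Inv.ext h3
    have hi : (Q4 d) i ≠ i := by rw [h1]; exact Ne.symm hij
    have a1 := hookRep_xg.rc (Q4 d) i hi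
    have a2 := hookRep_xg.rc' (Q4 d) i hi
    rw [h1, e2] at a1 a2
    calc xg (Q4 d) * xg (Q4 b) * xg (Q4 d)
        = (xg (hookI i j) * xg (hookI k l)) * xg (Q4 b) * (xg (hookI k l) * xg (hookI i j)) := by
          rw [← a1, ← a2]
      _ = xg (hookI i j) * (xg (hookI k l) * xg (Q4 b) * xg (hookI k l)) * xg (hookI i j) := by
          simp only [mul_assoc]
      _ = xg (Q4 d) := by
          rw [(hookRep_xg.conjH hkl _).1, (hookRep_xg.conjH hij _).1, e3]

theorem four_count (d0 : Fin 3) : Nat.card (G4 d0).Edge = 1 := by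
  classical
  have h := edge_count (G4 d0)
  have : (Finset.univ.filter (fun p : Fin 3 × Fin 3 => (G4 d0).adj p.1 p.2 ∧
      (G4 d0).ord p.1 < (G4 d0).ord p.2)) = Finset.univ.filter (fun p : Fin 3 × Fin 3 =>
      p.1.val < p.2.val) := by
    ext p
    simp only [Finset.mem_filter, Finset.mem_univ, true_and]
    exact ⟨fun h => h.2, fun h => ⟨trivial, h⟩⟩
  rw [this] at h
  have h2 : (Finset.univ.filter (fun p : Fin 3 × Fin 3 => p.1.val < p.2.val)).card = 3 := by decide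
  rw [h2, Fintype.card_fin] at h
  omega

/-- the free group of rank one -/
def freeOne : FreeGroup (Fin 1) ≃* Multiplicative ℤ :=
  MonoidHom.toMulEquiv (FreeGroup.lift (fun _ => Multiplicative.ofAdd (1 : ℤ)))
    (zpowersHom (FreeGroup (Fin 1)) (FreeGroup.of 0))
    (by
      apply FreeGroup.ext_hom
      intro a
      have : a = 0 := Subsingleton.elim _ _
      subst this
      simp [zpowersHom_apply])
    (by
      apply MonoidHom.ext_mint
      simp [zpowersHom_apply])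

theorem HClassIso.free {S : Type*} [Mul S] {e : S} {ι : Type} {N : ℕ}
    (h : HClassIso e (FreeGroup ι)) (hN : Nat.card ι = N) [Finite ι] :
    HClassIso e (FreeGroup (Fin N)) := by
  subst hN
  exact h.congr (FreeGroup.freeGroupCongr (Finite.equivFin ι).symm)

theorem q4_cases (q : Inv (Fin 4)) (h : ∀ i, q i ≠ i) : ∃ d, q = Q4 d := by
  have h0 := q.2 0
  have h1 := q.2 1
  have h2 := q.2 2
  have h3 := q.2 3
  have n0 := h 0
  have n1 := h 1
  have n2 := h 2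
  have n3 := h 3
  have key : ∀ a b c d : Fin 4, ((![a, b, c, d] : Fin 4 → Fin 4) a = 0 ∧
      (![a, b, c, d] : Fin 4 → Fin 4) b = 1 ∧ (![a, b, c, d] : Fin 4 → Fin 4) c = 2 ∧
      (![a, b, c, d] : Fin 4 → Fin 4) d = 3 ∧ a ≠ 0 ∧ b ≠ 1 ∧ c ≠ 2 ∧ d ≠ 3) →
      ∃ e : Fin 3, ∀ x, (![a, b, c, d] : Fin 4 → Fin 4) x = (Q4 e) x := by decide
  have hq : q.1 = ![q.1 0, q.1 1, q.1 2, q.1 3] := by
    funext x; fin_cases x <;> rfl
  have e : ∀ x, q.1 x = (![q.1 0, q.1 1, q.1 2, q.1 3] : Fin 4 → Fin 4) x := congrFun hq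
  rw [e (q.1 0)] at h0
  rw [e (q.1 1)] at h1
  rw [e (q.1 2)] at h2
  rw [e (q.1 3)] at h3
  obtain ⟨d, hd⟩ := key _ _ _ _ ⟨h0, h1, h2, h3, n0, n1, n2, n3⟩
  exact ⟨d, Inv.ext (fun x => (e x).trans (hd x))⟩

end Pool.Agent.W_MP_aeed81_al
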