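import Pool.Agent.W_MP_aeed81_al.BDiag

set_option linter.unusedVariables false
set_option linter.unusedSectionVars false
set_option warn.classDefReducibility false

namespace Pool.Agent.W_MP_aeed81_al

open Sum

variable {n : ℕ}

theorem RF_mem_Brauer (w : Fin n ⊕ Fin n → Fin n ⊕ Fin n) (hw : FPI w) : RF w hw ∈ Brauer n := by
  rintro B ⟨y, rfl⟩
  have : {x | RF w hw x y} = {y, w y} := by
    ext x
    constructor
    · rintro (h | h)
      · left; exact h.symm
      · right; rw [h, hw.inv]; rfl
    · rintro (rfl | rfl)
      · exact Or.inl rfl
      · right; rw [hw.inv]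
  rw [this]
  exact Set.ncard_pair (Ne.symm (hw.ne y))

theorem exists_RF {a : Diagram n} (ha : a ∈ Brauer n) : ∃ w, ∃ hw : FPI w, a = RF w hw := by
  have key : ∀ x, ∃ y, y ≠ x ∧ a x y ∧ ∀ z, a x z → z = x ∨ z = y := by
    intro x
    have h1 := ha {z | a z x} ⟨x, rfl⟩
    rw [Set.ncard_eq_two] at h1
    obtain ⟨y, z, hyz, hc⟩ := h1
    have hx : x ∈ ({y, z} : Set (Fin n ⊕ Fin n)) := by rw [← hc]; exact a.refl x
    have hall : ∀ u, a x u → u = y ∨ u = z := by
      intro u hu
      have : u ∈ ({y, z} : Set (Fin n ⊕ Fin n)) := by rw [← hc]; exact a.symm hu
      simpa using this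
    have hy : a x y := by
      have : y ∈ {z | a z x} := by rw [hc]; simp
      exact a.symm this
    have hz : a x z := by
      have : z ∈ {z | a z x} := by rw [hc]; simp
      exact a.symm this
    rcases hx with rfl | hx
    · exact ⟨z, hyz.symm, hz, hall⟩
    · have hx' : x = z := hx
      subst hx'
      exact ⟨y, hyz, hy, fun u hu => (hall u hu).symm⟩
  choose w h1 h2 h3 using key
  have inv : ∀ x, w (w x) = x := by
    intro x
    rcases h3 (w x) x (a.symm (h2 x)) with h | h
    · exact absurd h.symm (h1 x)
    · exact h.symm
  refine ⟨w, ⟨inv, h1⟩, ?_⟩
  ext x y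
  constructor
  · intro h; exact h3 x y h
  · rintro (rfl | rfl)
    · exact a.refl _
    · exact h2 _

theorem RF_injective {w w' : Fin n ⊕ Fin n → Fin n ⊕ Fin n} {hw : FPI w} {hw' : FPI w'}
    (h : RF w hw = RF w' hw') : w = w' := relOf_injective h

theorem DP_mem (q : Inv (Fin n)) : DP q ∈ Brauer n := RF_mem_Brauer _ _

theorem DP_idem (q : Inv (Fin n)) : dmul (DP q) (DP q) = DP q := hookRep_DP.idem q

theorem DP_injective {p q : Inv (Fin n)} (h : DP p = DP q) : p = q := by
  have := RF_injective h
  apply Inv.ext
  intro i
  have h1 := congrFun this (inl i)
  by_cases hp : p i = i <;> by_cases hq : q i = i <;> simp [wOf, hp, hq] at h1 ⊢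
  exact h1

theorem proj_eq_DP {a : Diagram n} (ha : a ∈ Brauer n) (h1 : dmul a a = a) (h2 : dstar a = a) :
    ∃ q, a = DP q := by
  obtain ⟨w, hw, rfl⟩ := exists_RF ha
  have hw' : FPI (fun x => (w x.swap).swap) := by
    constructor
    · intro x; simp [hw.inv]
    · intro x h
      apply hw.ne x.swap
      have := congrArg Sum.swap h
      simpa using this
  have e := RF_injective (h2.symm.trans (dstar_RF hw hw'))
  have sw : ∀ x, w x.swap = (w x).swap := by
    intro x
    have h3 : w x = (w x.swap).swap := congrFun e x
    rw [h3, Sum.swap_swap]
  have diag : ∀ i j, w (inl i) = inr j → i = j := by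
    intro i j hij
    -- {i, j'} is closed
    have hc : Closed (RF w hw) (two (fun k => k = i) (fun k => k = j)) := by
      unfold RF
      rw [closed_relOf]
      have hji : w (inr j) = inl i := by rw [← hij, hw.inv]
      rintro (k | k)
      · constructor
        · intro h
          have h' : k = i := h
          subst h'; rw [hij]; rfl
        · intro h
          rcases hk : w (inl k) with l | l
          · rw [hk] at h
            have h' : l = i := h
            subst h'
            have := hw.inv (inl k)
            rw [hk, hij] at this
            simp at this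
          · rw [hk] at h
            have h' : l = j := h
            subst h'
            have := hw.inv (inl k)
            rw [hk, hji] at this
            have h2 : i = k := by simpa using this
            exact h2.symm
      · constructor
        · intro h
          have h' : k = j := h
          subst h'; rw [hji]; rfl
        · intro h
          rcases hk : w (inr k) with l | l
          · rw [hk] at h
            have h' : l = i := h
            subst h'
            have := hw.inv (inr k)
            rw [hk, hij] at this
            have h2 : j = k := by simpa using this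
            exact h2.symm
          · rw [hk] at h
            have h' : l = j := h
            subst h'
            have := hw.inv (inr k)
            rw [hk, hji] at this
            simp at this
    rw [← h1, closed_dmul] at hc
    obtain ⟨u, c1, c2⟩ := hc
    unfold RF at c1 c2
    rw [closed_relOf] at c1 c2
    have a1 := c1 (inl i)
    rw [hij] at a1
    have uj : u j := a1.1 rfl
    have a2 := c2 (inl j)
    have hji : w (inl j) = inr i := by
      have := sw (inr j)
      have h3 : w (inr j) = inl i := by rw [← hij, hw.inv]
      rw [h3] at this
      exact this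
    rw [hji] at a2
    exact a2.1 uj
  let q : Fin n → Fin n := fun i => match w (inl i) with
    | inl j => j
    | inr _ => i
  have q1 : ∀ i j, w (inl i) = inl j → q i = j := by
    intro i j h; simp only [q, h]
  have q2 : ∀ i j, w (inl i) = inr j → q i = i := by
    intro i j h; simp only [q, h]
  have hq : ∀ i, q (q i) = i := by
    intro i
    rcases h : w (inl i) with j | j
    · rw [q1 i j h]
      apply q1
      rw [← h, hw.inv]
    · rw [q2 i j h, q2 i j h]
  refine ⟨⟨q, hq⟩, ?_⟩
  apply RF_congr
  funext x
  have up : ∀ i, w (inl i) = wOf ⟨q, hq⟩ (inl i) := by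
    intro i
    rcases h : w (inl i) with j | j
    · have e1 := q1 i j h
      have : j ≠ i := by rintro rfl; exact hw.ne _ h
      simp [wOf, e1, this]
    · have e1 := q2 i j h
      have := diag i j h
      subst this
      simp [wOf, e1]
  rcases x with i | i
  · exact up i
  · have := sw (inl i)
    simp only [Sum.swap_inl] at this
    rw [this, up i]
    by_cases h : q i = i <;> simp [wOf, h]

theorem drank_DP (q : Inv (Fin n)) :
    drank (DP q) = Fintype.card {i : Fin n // q i = i} := by
  have e : {B : Set (Fin n ⊕ Fin n) | B ∈ (DP q).classes ∧ (∃ i, inl i ∈ B) ∧ ∃ j, inr j ∈ B} =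
      (fun i : Fin n => ({inl i, inr i} : Set (Fin n ⊕ Fin n))) '' {i | q i = i} := by
    ext B
    constructor
    · rintro ⟨⟨y, rfl⟩, ⟨i, hi⟩, ⟨j, hj⟩⟩
      have hij : DP q (inl i) (inr j) := (DP q).trans hi ((DP q).symm hj)
      have : inr j = wOf q (inl i) := by
        rcases hij with h | h
        · simp at h
        · exact h
      have hqi : q i = i := by
        by_contra hcon
        simp [wOf, hcon] at this
      have hji : j = i := by simpa [wOf, hqi] using this
      subst hji
      refine ⟨j, hqi, ?_⟩
      ext x
      constructor
      · rintro (rfl | h)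
        · exact hi
        · have : x = inr j := h
          subst this; exact hj
      · intro hx
        have : DP q (inl j) x := (DP q).trans hi ((DP q).symm hx)
        rcases this with h | h
        · left; exact h
        · right
          rw [h]
          simp [wOf, hqi]
    · rintro ⟨i, hi, rfl⟩
      have hqi : q i = i := hi
      refine ⟨⟨inl i, ?_⟩, ⟨i, by simp⟩, ⟨i, by simp⟩⟩
      ext x
      constructor
      · rintro (rfl | h)
        · exact (DP q).refl _
        · have : x = inr i := h
          subst this
          right; simp [wOf, hqi]
      · intro hx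
        rcases (DP q).symm hx with h | h
        · left; exact h
        · right; rw [h]; simp [wOf, hqi]
  unfold drank
  rw [e, Set.ncard_image_of_injective]
  · rw [Fintype.card_subtype, ← Set.ncard_coe_finset]
    congr 1
    ext i
    simp
  · intro i j h
    have h' : ({inl i, inr i} : Set (Fin n ⊕ Fin n)) = {inl j, inr j} := h
    have : inl i ∈ ({inl j, inr j} : Set (Fin n ⊕ Fin n)) := by rw [← h']; simp
    simpa using this

end Pool.Agent.W_MP_aeed81_al
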