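import Pool.Agent.W_MP_aeed81_al.PGbase
import Pool.Agent.W_MP_aeed81_al.BProj

set_option linter.unusedVariables false
set_option linter.unusedSectionVars false
set_option warn.classDefReducibility false

namespace Pool.Agent.W_MP_aeed81_al

variable {n : ℕ}

/-- the projection `D q` -/
def BP (q : Inv (Fin n)) : Proj (Brauer n) := ⟨DP q, DP_mem q, DP_idem q, dstar_DP q⟩

theorem exists_BP (p : Proj (Brauer n)) : ∃ q, p = BP q := by
  obtain ⟨q, hq⟩ := proj_eq_DP p.2.1 p.2.2.1 p.2.2.2
  exact ⟨q, Subtype.ext hq⟩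

/-- Relations that make `X` a hook representation. -/
theorem hookRep_of_rel {M : Type*} [Semigroup M] (X : Inv (Fin n) → M)
    (h1 : ∀ p, X p * X p = X p) (h2 : ∀ p q, X p * X q * (X p * X q) = X p * X q)
    (h3 : ∀ p q s, DPg p * DPg q * DPg p = DPg s → X p * X q * X p = X s) : HookRep X := by
  have D := hookRep_DP (n := n)
  have inj : ∀ {p q : Inv (Fin n)}, DPg p = DPg q → p = q := fun h => DP_injective h
  have comm_of : ∀ {p q s : Inv (Fin n)}, DPg p * DPg q * DPg p = DPg s →
      DPg q * DPg p * DPg q = DPg s → X p * X q = X s := by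
    intro p q s e1 e2
    have a1 := h3 p q s e1
    have a2 := h3 q p s e2
    calc X p * X q = X p * X q * X p * X q := by rw [mul_assoc (X p * X q), h2]
      _ = X s * X q := by rw [a1]
      _ = X q * X p * (X q * X q) := by rw [← a2]; simp only [mul_assoc]
      _ = X s := by rw [h1, a2]
  have mul_comm_of : ∀ {p q s : Inv (Fin n)}, DPg p * DPg q = DPg s → DPg q * DPg p = DPg s →
      X p * X q = X s := by
    intro p q s e1 e2
    apply comm_of
    · rw [e1, ← e2, mul_assoc, D.idem]
    · rw [e2, ← e1, mul_assoc, D.idem]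
  have X1 : ∀ q, X Inv.one * X q = X q := fun q => mul_comm_of (D.one_mul q) (D.mul_one q)
  have X1' : ∀ q, X q * X Inv.one = X q := fun q => mul_comm_of (D.mul_one q) (D.one_mul q)
  have disj : ∀ i j k l : Fin n, i ≠ j → i ≠ k → i ≠ l → j ≠ k → j ≠ l → k ≠ l →
      ∃ s, DPg (hookI i j) * DPg (hookI k l) = DPg s ∧ X (hookI i j) * X (hookI k l) = X s ∧
        X (hookI k l) * X (hookI i j) = X s := by
    intro i j k l ij ik il jk jl kl
    have c := D.hs.comm i j k l ij ik il jk jl kl
    have e := (D.conjH ij (hookI k l)).1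
    rw [c, mul_assoc, D.idem, ← c] at e
    exact ⟨_, e, mul_comm_of e (c ▸ e), mul_comm_of (c ▸ e) e⟩
  refine ⟨X1, X1', ?_, ?_⟩
  · intro q i hi
    exact (mul_comm_of (D.rc q i hi).symm (D.rc' q i hi).symm).symm
  · constructor
    · intro i j; rw [hookI_symm]
    · intro i j _; exact h1 _
    · intro i j k l ij ik il jk jl kl
      obtain ⟨s, _, e2, e3⟩ := disj i j k l ij ik il jk jl kl
      rw [e2, e3]
    · intro i j k ij ik jk
      exact h3 _ _ _ (D.hs.tri i j k ij ik jk)
    · intro a b c d ab ac ad bc bd cd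
      obtain ⟨s, s1, s2, s3⟩ := disj a b c d ab ac ad bc bd cd
      obtain ⟨t, t1, t2, t3⟩ := disj b c a d bc ab.symm bd ac.symm cd ad
      have r := D.hs.r4 a b c d ab ac ad bc bd cd
      calc X (hookI b c) * X (hookI a b) * X (hookI c d) * X (hookI b c)
          = X (hookI b c) * X s * X (hookI b c) := by rw [← s2]; simp only [mul_assoc]
        _ = X t := h3 _ _ _ (by rw [← s1, ← t1, ← r]; simp only [mul_assoc])
        _ = X (hookI b c) * X (hookI a d) := t2.symm
    · intro a b c d ab ac ad bc bd cd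
      obtain ⟨s, s1, s2, s3⟩ := disj a b c d ab ac ad bc bd cd
      obtain ⟨t, t1, t2, t3⟩ := disj b c a d bc ab.symm bd ac.symm cd ad
      have r := D.hs.r4 a b c d ab ac ad bc bd cd
      have e : X (hookI b c) * X s * X (hookI b c) = X t :=
        h3 _ _ _ (by rw [← s1, ← t1, ← r]; simp only [mul_assoc])
      rw [s2]
      calc X s * X (hookI b c) = X s * (X (hookI b c) * X s * X (hookI b c)) := by
            rw [← h2]; simp only [mul_assoc]
        _ = X s * X (hookI b c) * X (hookI a d) := by rw [e, ← t2, mul_assoc]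
    · intro a b c d ab ac ad bc bd cd
      obtain ⟨s, s1, s2, s3⟩ := disj a b c d ab ac ad bc bd cd
      obtain ⟨t, t1, t2, t3⟩ := disj b c a d bc ab.symm bd ac.symm cd ad
      have r := D.hs.r4 a b c d ab ac ad bc bd cd
      have e : X (hookI b c) * X s * X (hookI b c) = X t :=
        h3 _ _ _ (by rw [← s1, ← t1, ← r]; simp only [mul_assoc])
      calc X (hookI b c) * X (hookI a b) * X (hookI c d) = X (hookI b c) * X s := by
            rw [← s2, mul_assoc]
        _ = X (hookI b c) * X s * X (hookI b c) * X s := by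
            rw [mul_assoc (X (hookI b c) * X s), h2]
        _ = X (hookI a d) * X (hookI b c) * X s := by rw [e, ← t3]
        _ = X (hookI a d) * X (hookI b c) * X (hookI a b) * X (hookI c d) := by
            rw [← s2]; simp only [mul_assoc]

/-- generator of `PG(P(B_n))` for the involution `q` -/
def xg (q : Inv (Fin n)) : PG (Brauer n) := gen (BP q)

theorem hookRep_xg : HookRep (xg (n := n)) := by
  apply hookRep_of_rel
  · intro p; exact gen_idem _
  · intro p q; exact gen_sq _ _
  · intro p q s h; exact gen_conj _ _ _ h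

/-- universal property -/
theorem lift_hookRep {T : Type} [Semigroup T] (Y : Inv (Fin n) → T) (R : HookRep Y) :
    ∃ Φ : PG (Brauer n) → T, (∀ a b, Φ (a * b) = Φ a * Φ b) ∧ ∀ q, Φ (xg q) = Y q := by
  choose f hf using exists_BP (n := n)
  have inj : ∀ {p q : Inv (Fin n)}, BP p = BP q → p = q := fun h =>
    DP_injective (congrArg Subtype.val h)
  obtain ⟨Φ, h1, h2⟩ := PG_lift (S := Brauer n) (fun p => Y (f p)) (fun p => R.idem _)
    (fun p q => R.sq _ _) (by
      intro p q s h
      obtain ⟨m, hm⟩ := exists_conj (f p) (f q)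
      have e1 := hm DPg hookRep_DP
      have e2 := hm Y R
      have e5 : ∀ p : Proj (Brauer n), p.1 = DP (f p) := fun p => congrArg Subtype.val (hf p)
      have e3 : DP (f s) = DP m := by
        have e4 : dmul (dmul (DP (f p)) (DP (f q))) (DP (f p)) = DP m := e1
        rw [← e4, ← e5, ← e5, ← e5, h]
      rw [e2, DP_injective e3])
  refine ⟨Φ, h1, fun q => ?_⟩
  rw [xg, h2]
  rw [inj (hf (BP q)).symm]

theorem xg_induction {P : PG (Brauer n) → Prop} (h1 : ∀ q, P (xg q))
    (h2 : ∀ a b, P a → P b → P (a * b)) : ∀ a, P a := by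
  apply PG_induction _ h2
  intro p
  obtain ⟨q, rfl⟩ := exists_BP p
  exact h1 q

end Pool.Agent.W_MP_aeed81_al
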