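import Pool.Agent.W_MP_aeed81_al.Upper2

set_option linter.unusedVariables false
set_option linter.unusedSectionVars false

namespace Pool.Agent.W_MP_aeed81_al

open Sum

variable {V L M : Type*} [DecidableEq V] [DecidableEq L] [Semigroup M]

/-- equality up to `ζ` -/
def zset (e ζ : M) (h1 : ζ * ζ = e) : Setoid M where
  r s t := s = t ∨ (e * s = s ∧ e * t = t ∧ s = ζ * t)
  iseqv := by
    refine ⟨fun s => Or.inl rfl, ?_, ?_⟩
    · rintro s t (h | ⟨a, b, c⟩)
      · exact Or.inl h.symm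
      · right
        refine ⟨b, a, ?_⟩
        rw [c, ← mul_assoc, h1, b]
    · rintro s t u (h | ⟨a, b, c⟩) (h' | ⟨a', b', c'⟩)
      · exact Or.inl (h.trans h')
      · subst h; exact Or.inr ⟨a', b', c'⟩
      · subst h'; exact Or.inr ⟨a, b, c⟩
      · left
        rw [c, c', ← mul_assoc, h1, b']

variable {h : V → V → M} (H : HookSys h) {e : M} {w0 : V ⊕ L → V ⊕ L} (f0 : FPI w0)
  (l0 : LV w0) (he : ∀ i j, w0 (inl i) = inl j → e * h i j = e) (hee : e * e = e)
  (hE : ∀ s, (∀ i j, w0 (inl i) = inl j → s * h i j = s) → s * e = s)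
  [Fintype V] [Fintype L] (hc : Fintype.card L + 4 ≤ Fintype.card V)
  (h5 : 5 ≤ Fintype.card V)

/-- right multiplication on the quotient -/
def actQ (h : V → V → M) (e ζ : M) (h1 : ζ * ζ = e) :
    V ⊕ L → V ⊕ L → Quotient (zset e ζ h1) → Quotient (zset e ζ h1)
  | inl i, inl j => Quotient.map (fun s => s * h i j) (by
      rintro s t (hst | ⟨a, b, c⟩)
      · exact Or.inl (by rw [hst])
      · right
        refine ⟨by rw [← mul_assoc, a], by rw [← mul_assoc, b], by rw [c, mul_assoc]⟩)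
  | _, _ => id

def GoodQ (h : V → V → M) (e ζ : M) (h1 : ζ * ζ = e) (w0 : V ⊕ L → V ⊕ L)
    (x : Quotient (zset e ζ h1)) (w : V ⊕ L → V ⊕ L) : Prop :=
  ∃ s, Good h e w0 s w ∧ Quotient.mk (zset e ζ h1) s = x

/-- the vertices as a finset -/
def VF (V L : Type*) [Fintype V] [DecidableEq V] [DecidableEq L] : Finset (V ⊕ L) :=
  Finset.univ.image inl

theorem mem_VF {x : V ⊕ L} : x ∈ VF V L ↔ ∃ v, x = inl v := by
  simp [VF, eq_comm]

theorem inl_mem_VF (v : V) : (inl v : V ⊕ L) ∈ VF V L := mem_VF.2 ⟨v, rfl⟩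

include H f0 he hee hE hc h5 in
theorem repQ {i0 c0 j0 : V} (z1 : w0 (inl i0) = inl c0) (z2 : j0 ≠ i0) (z3 : j0 ≠ c0) :
    Rep (VF V L) (actQ h e (Tri h e i0 c0 j0) (zeta_sq H f0 he hE hc h5 z1 z2 z3))
      (GoodQ h e (Tri h e i0 c0 j0) (zeta_sq H f0 he hE hc h5 z1 z2 z3) w0) := by
  set ζ := Tri h e i0 c0 j0 with hζ
  set hz := zeta_sq H f0 he hE hc h5 z1 z2 z3
  constructor
  · rintro x w ⟨s, g, rfl⟩
    exact g.fpi f0
  · rintro x w i j ⟨s, g, rfl⟩ hi hj hij hn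
    obtain ⟨i, rfl⟩ := mem_VF.1 hi
    obtain ⟨j, rfl⟩ := mem_VF.1 hj
    refine ⟨s * h i j, g.step (by simpa using hij) ?_, rfl⟩
    simpa [mem_VF] using hn
  · intro i j x
    induction x using Quotient.inductionOn with
    | _ s =>
    rcases i with i | i <;> rcases j with j | j
    · change Quotient.mk (zset e ζ hz) (s * h i j) = Quotient.mk (zset e ζ hz) (s * h j i)
      rw [H.symm i j]
    · rfl
    · rfl
    · rfl
  · rintro x w i j ⟨s, g, rfl⟩ hi hj hij
    obtain ⟨i, rfl⟩ := mem_VF.1 hi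
    obtain ⟨j, rfl⟩ := mem_VF.1 hj
    change Quotient.mk (zset e ζ hz) (s * h i j) = Quotient.mk (zset e ζ hz) s
    rw [g.ovr H f0 he hij]
  · intro i j k l x hi hj hk hl h1 h2 h3 h4 h5 h6
    obtain ⟨i, rfl⟩ := mem_VF.1 hi
    obtain ⟨j, rfl⟩ := mem_VF.1 hj
    obtain ⟨k, rfl⟩ := mem_VF.1 hk
    obtain ⟨l, rfl⟩ := mem_VF.1 hl
    induction x using Quotient.inductionOn with
    | _ s =>
    change Quotient.mk (zset e ζ hz) (s * h k l * h i j) =
      Quotient.mk (zset e ζ hz) (s * h i j * h k l)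
    rw [H.commR (s := s) (i := i) (j := j) (k := k) (l := l) (by simpa using h1) (by simpa using h2) (by simpa using h3) (by simpa using h4)
      (by simpa using h5) (by simpa using h6)]
  · rintro x w i j k ⟨s, g, rfl⟩ hi hj hk ik jk hij
    obtain ⟨i, rfl⟩ := mem_VF.1 hi
    obtain ⟨j, rfl⟩ := mem_VF.1 hj
    obtain ⟨k, rfl⟩ := mem_VF.1 hk
    change Quotient.mk (zset e ζ hz) (s * h j k * h i j) = Quotient.mk (zset e ζ hz) s
    rw [H.back (ne_of_w (g.fpi f0) hij) (by simpa using ik) (by simpa using jk) (g.ovr H f0 he hij)]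
  · rintro x w i j b c ⟨s, g, rfl⟩ hi hj hb hc hij hwb hwc hbj
    obtain ⟨i, rfl⟩ := mem_VF.1 hi
    obtain ⟨j, rfl⟩ := mem_VF.1 hj
    obtain ⟨b, rfl⟩ := mem_VF.1 hb
    obtain ⟨c, rfl⟩ := mem_VF.1 hc
    change Quotient.mk (zset e ζ hz) (s * h i j) = Quotient.mk (zset e ζ hz) (s * h b c)
    have hf := g.fpi f0
    have h1 : i ≠ j := by simpa using hij
    have h2 : b ≠ j := by simpa using hbj
    have h3 : c ≠ i := by
      rintro rfl
      apply hbj
      rw [← hwb, ← hwc, hf.inv]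
    have h4 : b ≠ c := by
      rintro rfl
      apply hij
      rw [← hf.inv (inl i), hwb, ← hwc, hf.inv]
    rw [H.exch h1 (ne_of_w hf hwb) h3.symm h2.symm (ne_of_w hf hwc) h4 (g.ovr H f0 he hwb)
      (g.ovr H f0 he hwc)]
  · rintro x w i j k ⟨s, g, rfl⟩ hi hj hk ik jk hij
    obtain ⟨i, rfl⟩ := mem_VF.1 hi
    obtain ⟨j, rfl⟩ := mem_VF.1 hj
    obtain ⟨k, rfl⟩ := mem_VF.1 hk
    change Quotient.mk (zset e ζ hz) (s * h i k * h j k) = Quotient.mk (zset e ζ hz) (s * h j k)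
    apply Quotient.sound
    right
    have hs := g.emul hee
    refine ⟨by rw [← mul_assoc, ← mul_assoc, hs], by rw [← mul_assoc, hs], ?_⟩
    exact F1_zeta H f0 he hE hc h5 z1 z2 z3 g hij (by simpa using Ne.symm ik)
      (by simpa using Ne.symm jk)
  · rintro x w i j k l ⟨s, g, rfl⟩ hi hj hk hl ik jk il jl kl hij
    obtain ⟨i, rfl⟩ := mem_VF.1 hi
    obtain ⟨j, rfl⟩ := mem_VF.1 hj
    obtain ⟨k, rfl⟩ := mem_VF.1 hk
    obtain ⟨l, rfl⟩ := mem_VF.1 hl
    change Quotient.mk (zset e ζ hz) (s * h j k * h k l) =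
      Quotient.mk (zset e ζ hz) (s * h i l * h k l)
    rw [F2_exact H f0 he hc g hij (by simpa using Ne.symm ik) (by simpa using Ne.symm jk)
      (by simpa using Ne.symm il) (by simpa using Ne.symm jl) (by simpa using kl)]

include f0 l0 in
theorem cls_iff {w : V ⊕ L → V ⊕ L} : Cls (VF V L) w0 w ↔ FPI w ∧ LV w := by
  constructor
  · rintro ⟨h1, h2⟩
    refine ⟨h1, fun l => ?_⟩
    have := (h2 (inr l) (by simp [mem_VF])).2 (mem_VF.2 (l0 l))
    exact mem_VF.1 this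
  · rintro ⟨h1, h2⟩
    refine ⟨h1, fun x hx => ?_⟩
    rcases x with v | l
    · exact absurd (inl_mem_VF v) hx
    · exact ⟨fun h => absurd (mem_VF.2 (l0 l)) h, fun _ => mem_VF.2 (h2 l)⟩

include H f0 l0 he hee hE hc h5 in
/-- The upper bound: every state is reached, and the elements over a state agree up to `ζ`. -/
theorem upper {i0 c0 j0 : V} (z1 : w0 (inl i0) = inl c0) (z2 : j0 ≠ i0) (z3 : j0 ≠ c0) :
    (∀ w, FPI w → LV w → ∃ s, Good h e w0 s w) ∧
    (∀ w s t, Good h e w0 s w → Good h e w0 t w → s = t ∨ s = Tri h e i0 c0 j0 * t) := by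
  have R := repQ H f0 he hee hE hc h5 z1 z2 z3
  set ζ := Tri h e i0 c0 j0 with hζ
  set hz := zeta_sq H f0 he hE hc h5 z1 z2 z3
  obtain ⟨y, hy1, hy2, hy3⟩ := section_exists R _ (VF V L) rfl (Finset.Subset.refl _)
    (Quotient.mk (zset e ζ hz) e) w0 ⟨e, Good.base, rfl⟩
    ⟨inl i0, inl_mem_VF _, by rw [z1]; exact inl_mem_VF _⟩
  constructor
  · intro w hf hl
    obtain ⟨s, g, _⟩ := hy2 w ((cls_iff f0 l0).2 ⟨hf, hl⟩)
    exact ⟨s, g⟩
  · have key : ∀ s w, Good h e w0 s w → Quotient.mk (zset e ζ hz) s = y w := by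
      intro s w g
      induction g with
      | base => exact hy1.symm
      | @step s w i j g hij hn ih =>
        rw [hy3 w ((cls_iff f0 l0).2 ⟨g.fpi f0, g.lv f0 l0⟩) (inl i) (inl_mem_VF _) (inl j)
          (inl_mem_VF _) (inl_ne hij) (by simpa [mem_VF] using hn), ← ih]
        rfl
    intro w s t gs gt
    have := (key s w gs).trans (key t w gt).symm
    rcases Quotient.exact this with h | ⟨_, _, h⟩
    · exact Or.inl h
    · exact Or.inr h

end Pool.Agent.W_MP_aeed81_al
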