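import Pool.Agent.W_MP_aeed81_al.Oper2
import Pool.Agent.W_MP_aeed81_al.Upper3
import Pool.Agent.W_MP_aeed81_al.BPG

set_option linter.unusedVariables false
set_option linter.unusedSectionVars false

namespace Pool.Agent.W_MP_aeed81_al

open Sum

section relabel
variable {V L : Type*} [DecidableEq V] [DecidableEq L]

/-- permute labels -/
def rl (π : Equiv.Perm L) : V ⊕ L → V ⊕ L := Sum.map id π

theorem rl_rl (π ρ : Equiv.Perm L) (x : V ⊕ L) : rl π (rl ρ x) = rl (π * ρ) x := by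
  cases x <;> rfl

theorem rl_one (x : V ⊕ L) : rl 1 x = x := by cases x <;> rfl

theorem rl_inv (π : Equiv.Perm L) (x : V ⊕ L) : rl π (rl π⁻¹ x) = x := by
  rw [rl_rl, mul_inv_cancel, rl_one]

theorem rl_inv' (π : Equiv.Perm L) (x : V ⊕ L) : rl π⁻¹ (rl π x) = x := by
  rw [rl_rl, inv_mul_cancel, rl_one]

/-- relabelled state -/
def rlw (π : Equiv.Perm L) (w : V ⊕ L → V ⊕ L) : V ⊕ L → V ⊕ L := fun x => rl π (w (rl π⁻¹ x))

theorem rlw_fpi {π : Equiv.Perm L} {w : V ⊕ L → V ⊕ L} (hf : FPI w) : FPI (rlw π w) := by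
  constructor
  · intro x
    unfold rlw
    rw [rl_inv', hf.inv, rl_inv]
  · intro x h
    unfold rlw at h
    apply hf.ne (rl π⁻¹ x)
    have := congrArg (rl π⁻¹) h
    rwa [rl_inv'] at this

theorem rlw_LV {π : Equiv.Perm L} {w : V ⊕ L → V ⊕ L} (hl : LV w) : LV (rlw π w) := by
  intro l
  obtain ⟨v, hv⟩ := hl (π⁻¹ l)
  refine ⟨v, ?_⟩
  unfold rlw
  change rl π (w (inr (π⁻¹ l))) = _
  rw [hv]; rfl

theorem rlw_mul (π ρ : Equiv.Perm L) (w : V ⊕ L → V ⊕ L) : rlw (π * ρ) w = rlw π (rlw ρ w) := by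
  funext x
  unfold rlw
  rw [rl_rl, rl_rl, mul_inv_rev]

theorem rlw_one (w : V ⊕ L → V ⊕ L) : rlw 1 w = w := by
  funext x
  unfold rlw
  rw [inv_one, rl_one, rl_one]

theorem rlw_inl (π : Equiv.Perm L) (w : V ⊕ L → V ⊕ L) (i : V) :
    rlw π w (inl i) = rl π (w (inl i)) := rfl

theorem rl_eq_inl {π : Equiv.Perm L} {x : V ⊕ L} {v : V} : rl π x = inl v ↔ x = inl v := by
  cases x <;> simp [rl]

theorem hk_rlw {i j : V} (π : Equiv.Perm L) (w : V ⊕ L → V ⊕ L) :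
    hk (inl i) (inl j) (rlw π w) = rlw π (hk (inl i) (inl j) w) := by
  funext x
  have e : ∀ a b : V ⊕ L, a = rl π b ↔ rl π⁻¹ a = b := by
    intro a b
    constructor
    · rintro rfl; rw [rl_inv']
    · rintro rfl; rw [rl_inv]
  have e2 : ∀ v : V, x = inl v ↔ rl π⁻¹ x = inl v := by
    intro v; rw [rl_eq_inl]
  unfold rlw hk
  simp only [e2]
  have h1 : rl π⁻¹ (inl i : V ⊕ L) = inl i := rfl
  have h2 : rl π⁻¹ (inl j : V ⊕ L) = inl j := rfl
  rw [h1, h2]
  simp only [e x]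
  by_cases c1 : rl π⁻¹ x = inl i
  · rw [if_pos c1, if_pos c1]; rfl
  by_cases c2 : rl π⁻¹ x = inl j
  · rw [if_neg c1, if_pos c2, if_neg c1, if_pos c2]; rfl
  rw [if_neg c1, if_neg c2, if_neg c1, if_neg c2]
  by_cases c3 : rl π⁻¹ x = w (inl i)
  · rw [if_pos c3, if_pos c3]
  · rw [if_neg c3, if_neg c3]
    by_cases c4 : rl π⁻¹ x = w (inl j)
    · rw [if_pos c4, if_pos c4]
    · rw [if_neg c4, if_neg c4]

end relabel

section acts
variable {V L : Type*} [DecidableEq V] [DecidableEq L] {Z : Type*} [CommGroup Z]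

/-- the group acting on signed states -/
def gsO (g : Equiv.Perm L × Z) (ω : Om V L Z) : Om V L Z :=
  ⟨(rlw g.1 ω.1.1, g.2 * ω.1.2), rlw_fpi ω.2.1, rlw_LV ω.2.2⟩

theorem Om.ext {ω η : Om V L Z} (h1 : ω.1.1 = η.1.1) (h2 : ω.1.2 = η.1.2) : ω = η :=
  Subtype.ext (Prod.ext h1 h2)

theorem gsO_mul (g h : Equiv.Perm L × Z) (ω : Om V L Z) : gsO (g * h) ω = gsO g (gsO h ω) := by
  apply Om.ext
  · exact rlw_mul _ _ _
  · exact mul_assoc _ _ _

theorem gsO_one (ω : Om V L Z) : gsO 1 ω = ω := by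
  apply Om.ext
  · exact rlw_one _
  · exact one_mul _

/-- operators commuting with the group -/
def CommG (f : ROp (Om V L Z)) : Prop :=
  ∀ (g : Equiv.Perm L × Z) ω, f.1 (some (gsO g ω)) = (f.1 (some ω)).map (gsO g)

theorem CommG.opt {f : ROp (Om V L Z)} (hf : CommG f) (g : Equiv.Perm L × Z)
    (x : Option (Om V L Z)) : f.1 (x.map (gsO g)) = (f.1 x).map (gsO g) := by
  rcases x with _ | ω
  · change f.1 none = (f.1 none).map _
    rw [f.2]; rfl
  · exact hf g ω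

theorem CommG.mul {f f' : ROp (Om V L Z)} (hf : CommG f) (hf' : CommG f') : CommG (f * f') := by
  intro g ω
  rw [ROp.mul_val, ROp.mul_val, hf, hf'.opt]

theorem commG_one : CommG (1 : ROp (Om V L Z)) := fun _ _ => rfl

theorem commG_oph (σ : Z) (i j : V) : CommG (oph (L := L) σ i j) := by
  by_cases h : i = j
  · unfold oph; rw [dif_pos h]; exact commG_one
  · intro g ω
    rw [oph_val σ h, oph_val σ h]
    change opS σ i j h (gsO g ω) = (opS σ i j h ω).map (gsO g)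
    have hnz : nz (gsO g ω).1.1 i j ↔ nz ω.1.1 i j := by
      unfold nz gsO
      simp only [rlw_inl, rl_eq_inl]
    unfold opS
    by_cases hn : nz ω.1.1 i j
    · rw [dif_pos hn, dif_pos (hnz.2 hn)]
      apply congrArg some
      apply Om.ext
      · exact hk_rlw _ _
      · have : sg σ (gsO g ω).1.1 i j = sg σ ω.1.1 i j := by
          unfold sg gsO
          simp only [rlw_inl, rl_eq_inl]
        change g.2 * ω.1.2 * sg σ (gsO g ω).1.1 i j = g.2 * (ω.1.2 * sg σ ω.1.1 i j)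
        rw [this, mul_assoc]
    · rw [dif_neg hn, dif_neg (fun h' => hn (hnz.1 h'))]; rfl

theorem oph_pos (σ : Z) {i j : V} (h : i ≠ j) (ω : Om V L Z) (hn : nz ω.1.1 i j) :
    (oph σ i j).1 (some ω) = some ⟨(hk (inl i) (inl j) ω.1.1, ω.1.2 * sg σ ω.1.1 i j),
      hk_fpi (inl_neV h) ω.2.1, LV.hk ω.2.1 ω.2.2 hn⟩ := by
  rw [oph_val σ h]
  change opS σ i j h ω = _
  unfold opS
  rw [dif_pos hn]

theorem oph_neg (σ : Z) {i j : V} (h : i ≠ j) (ω : Om V L Z) (hn : ¬ nz ω.1.1 i j) :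
    (oph σ i j).1 (some ω) = none := by
  rw [oph_val σ h]
  change opS σ i j h ω = _
  unfold opS
  rw [dif_neg hn]

end acts

end Pool.Agent.W_MP_aeed81_al
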