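import Pool.Agent.W_MP_aeed81_al.BMain

set_option linter.unusedVariables false
set_option linter.unusedSectionVars false

namespace Pool.Agent.W_MP_aeed81_al

open Sum

variable {n r : ℕ} {Z : Type} [CommGroup Z] {σ : Z}

/-- the base state -/
def base0 (q0 : Inv (Fin n)) (β : {i : Fin n // q0 i = i} ≃ Fin r) :
    Fin n ⊕ Fin r → Fin n ⊕ Fin r
  | inl i => if h : q0 i = i then inr (β ⟨i, h⟩) else inl (q0 i)
  | inr l => inl (β.symm l).1

theorem base0_fpi (q0 : Inv (Fin n)) (β : {i : Fin n // q0 i = i} ≃ Fin r) :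
    FPI (base0 q0 β) := by
  constructor
  · rintro (i | l)
    · by_cases h : q0 i = i
      · simp only [base0, dif_pos h, Equiv.symm_apply_apply]
      · have : ¬ q0 (q0 i) = q0 i := by rw [q0.2 i]; exact Ne.symm h
        simp [base0, h, q0.2 i, Ne.symm h]
    · have := (β.symm l).2
      simp only [base0, dif_pos this]
      simp
  · rintro (i | l)
    · by_cases h : q0 i = i
      · simp [base0, dif_pos h]
      · simp [base0, h]
    · simp [base0]

theorem base0_LV (q0 : Inv (Fin n)) (β : {i : Fin n // q0 i = i} ≃ Fin r) : LV (base0 q0 β) :=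
  fun l => ⟨_, rfl⟩

theorem base0_inl {q0 : Inv (Fin n)} {β : {i : Fin n // q0 i = i} ≃ Fin r} {i j : Fin n} :
    base0 q0 β (inl i) = inl j ↔ q0 i = j ∧ i ≠ j := by
  by_cases h : q0 i = i
  · simp only [base0, dif_pos h]
    constructor
    · intro h; simp at h
    · rintro ⟨h1, h2⟩; exact absurd (h.symm.trans h1) h2
  · simp only [base0, dif_neg h]
    constructor
    · intro h'
      have : q0 i = j := by simpa using h'
      exact ⟨this, fun e => h (this.trans e.symm)⟩
    · rintro ⟨h1, h2⟩; rw [h1]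

/-- elements over all hooks of `q` are fixed by `X q` -/
theorem mul_X_of_hooks {M : Type*} [Semigroup M] {X : Inv (Fin n) → M} (R : HookRep X) {s : M}
    (hs : s * X Inv.one = s) : ∀ q : Inv (Fin n),
      (∀ i, q i ≠ i → s * X (hookI i (q i)) = s) → s * X q = s := by
  apply Inv.induction
  · intro _; exact hs
  · intro q i hi ih h
    rw [R.rc q i hi, ← mul_assoc, h i hi]
    apply ih
    intro k hk
    have h1 : ¬ (k = i ∨ k = q i) := by
      intro h'
      apply hk
      simp [eraseI, h']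
    have h2 : (eraseI q i) k = q k := by simp only [eraseI]; rw [if_neg h1]
    rw [h2] at hk ⊢
    exact h k hk

theorem PG_mul_one (s : PG (Brauer n)) : s * xg Inv.one = s := by
  induction s using xg_induction with
  | h1 q => exact hookRep_xg.mul_one q
  | h2 a b _ ih => rw [mul_assoc, ih]

/-- the hooks of `PG` -/
def hx (i j : Fin n) : PG (Brauer n) := xg (hookI i j)

theorem hookSys_hx : HookSys (hx (n := n)) := hookRep_xg.hs

section Main

variable (hσ : σ * σ = 1) {Y : Inv (Fin n) → ROp (Om (Fin n) (Fin r) Z)} (R : HookRep Y)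
  (Y1 : Y Inv.one = 1) (Yh : ∀ i j, i ≠ j → Y (hookI i j) = oph σ i j)
  {Φ : PG (Brauer n) → ROp (Om (Fin n) (Fin r) Z)} (Φm : ∀ a b, Φ (a * b) = Φ a * Φ b)
  (Φx : ∀ q, Φ (xg q) = Y q)
  {q0 : Inv (Fin n)} {β : {i : Fin n // q0 i = i} ≃ Fin r}

include R Y1 Yh in
theorem commG_Y : ∀ q, CommG (Y q) := by
  apply Inv.induction
  · rw [Y1]; exact commG_one
  · intro q i hi ih
    rw [R.rc q i hi]
    apply CommG.mul _ ih
    rw [Yh _ _ (Ne.symm hi)]
    exact commG_oph σ _ _

include R Y1 Yh Φm Φx in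
theorem commG_Φ (a : PG (Brauer n)) : CommG (Φ a) := by
  induction a using xg_induction with
  | h1 q => rw [Φx]; exact commG_Y R Y1 Yh q
  | h2 a b iha ihb => rw [Φm]; exact iha.mul ihb

include Yh in
theorem Y_hook_matched {ω : Om (Fin n) (Fin r) Z} {i j : Fin n} (hij : i ≠ j)
    (h : ω.1.1 (inl i) = inl j) : (Y (hookI i j)).1 (some ω) = some ω := by
  rw [Yh i j hij]
  apply map_inj
  rw [oph_map σ hij]
  change rop σ i j ω.1 = some ω.1
  obtain ⟨⟨w, ε⟩, hw⟩ := ω
  exact rop_matched σ hw.1 h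

include R Y1 Yh in
theorem Y_matched : ∀ (q : Inv (Fin n)) (ω : Om (Fin n) (Fin r) Z),
    (∀ i, q i ≠ i → ω.1.1 (inl i) = inl (q i)) → (Y q).1 (some ω) = some ω := by
  apply Inv.induction
  · intro ω _; rw [Y1]; rfl
  · intro q i hi ih ω h
    rw [R.rc q i hi, ROp.mul_val, Y_hook_matched Yh (Ne.symm hi) (h i hi)]
    apply ih
    intro k hk
    have h1 : ¬ (k = i ∨ k = q i) := by
      intro h'
      apply hk
      simp [eraseI, h']
    have h2 : (eraseI q i) k = q k := by simp only [eraseI]; rw [if_neg h1]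
    rw [h2] at hk ⊢
    exact h k hk

include R Yh in
theorem Y_result {q : Inv (Fin n)} {x : Option (Om (Fin n) (Fin r) Z)}
    {ω : Om (Fin n) (Fin r) Z} (h : (Y q).1 x = some ω) {i : Fin n} (hi : q i ≠ i) :
    ω.1.1 (inl i) = inl (q i) := by
  rw [R.rc' q i hi, ROp.mul_val, Yh _ _ (Ne.symm hi)] at h
  rcases hx : (Y (eraseI q i)).1 x with _ | η
  · rw [hx] at h
    have := (oph (L := Fin r) σ i (q i)).2
    rw [this] at h
    simp at h
  · rw [hx] at h
    by_cases hn : nz η.1.1 i (q i)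
    · rw [oph_pos σ (Ne.symm hi) η hn] at h
      have := Option.some.inj h
      rw [← this]
      exact hk_left _ _ _
    · rw [oph_neg σ (Ne.symm hi) η hn] at h
      simp at h

/-- the base point -/
def pt0 (q0 : Inv (Fin n)) (β : {i : Fin n // q0 i = i} ≃ Fin r) (z : Z) :
    Om (Fin n) (Fin r) Z := ⟨(base0 q0 β, z), base0_fpi q0 β, base0_LV q0 β⟩

include Φm Φx Yh in
theorem act_good {s : PG (Brauer n)} {w : Fin n ⊕ Fin r → Fin n ⊕ Fin r}
    (h0 : (Φ (xg q0)).1 (some (pt0 q0 β 1)) = some (pt0 q0 β 1))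
    (g : Good hx (xg q0) (base0 q0 β) s w) :
    ∃ ω : Om (Fin n) (Fin r) Z, (Φ s).1 (some (pt0 q0 β 1)) = some ω ∧ ω.1.1 = w := by
  induction g with
  | base => exact ⟨_, h0, rfl⟩
  | @step s w i j g hij hn ih =>
    obtain ⟨ω, h1, h2⟩ := ih
    rw [Φm, ROp.mul_val, h1]
    unfold hx
    rw [Φx, Yh i j hij]
    have hn' : nz ω.1.1 i j := by rw [h2]; exact hn
    rw [oph_pos σ hij ω hn']
    exact ⟨_, rfl, by rw [← h2]⟩

include Φm Φx Yh R Y1 in
theorem good_mul (h0 : (Φ (xg q0)).1 (some (pt0 q0 β 1)) = some (pt0 q0 β 1))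
    (a : PG (Brauer n)) : ∀ (t : PG (Brauer n)) (w : Fin n ⊕ Fin r → Fin n ⊕ Fin r),
      Good hx (xg q0) (base0 q0 β) t w →
      (∃ w', Good hx (xg q0) (base0 q0 β) (t * a) w') ∨
        (Φ (t * a)).1 (some (pt0 q0 β 1)) = none := by
  induction a using xg_induction with
  | h1 q =>
    induction q using Inv.induction with
    | h1 =>
      intro t w g
      rw [PG_mul_one]; exact Or.inl ⟨w, g⟩
    | hr q i hi ih =>
      intro t w g
      rw [hookRep_xg.rc q i hi, ← mul_assoc]
      obtain ⟨ω, h1, h2⟩ := act_good Yh Φm Φx h0 g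
      by_cases hn : nz w i (q i)
      · exact ih _ _ (g.step (Ne.symm hi) hn)
      · right
        rw [Φm, Φm, ROp.mul_val, ROp.mul_val, h1, Φx, Φx, Yh _ _ (Ne.symm hi),
          oph_neg σ (Ne.symm hi) ω (by rw [h2]; exact hn)]
        exact (Y _).2
  | h2 a b iha ihb =>
    intro t w g
    rw [← mul_assoc]
    rcases iha t w g with ⟨w', g'⟩ | h
    · exact ihb _ _ g'
    · right
      rw [Φm, ROp.mul_val, h]
      exact (Φ b).2

end Main

theorem generic_case (hσ : σ * σ = 1) (hσ1 : σ ≠ 1) (hZ : ∀ z : Z, z = 1 ∨ z = σ)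
    (q0 : Inv (Fin n)) (β : {i : Fin n // q0 i = i} ≃ Fin r) (hc : r + 4 ≤ n) (h5 : 5 ≤ n) :
    HClassIso (xg q0) (Equiv.Perm (Fin r) × Z) := by
  classical
  obtain ⟨Y, R, Y1, Yh⟩ := exists_X (hookSys_oph (V := Fin n) (L := Fin r) hσ)
  obtain ⟨Φ, Φm, Φx⟩ := lift_hookRep Y R
  have f0 := base0_fpi q0 β
  have l0 := base0_LV q0 β
  have hc' : Fintype.card (Fin r) + 4 ≤ Fintype.card (Fin n) := by simpa using hc
  have h5' : 5 ≤ Fintype.card (Fin n) := by simpa using h5
  have he : ∀ i j, base0 q0 β (inl i) = inl j → xg q0 * hx i j = xg q0 := by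
    intro i j hij
    obtain ⟨h1, h2⟩ := base0_inl.1 hij
    have h3 : q0 i ≠ i := by rw [h1]; exact h2.symm
    have h4 := hookRep_xg.rc' q0 i h3
    rw [h1] at h4
    rw [h4]
    unfold hx
    rw [mul_assoc, hookRep_xg.hs.idem i j h2]
  have hE : ∀ s : PG (Brauer n), (∀ i j, base0 q0 β (inl i) = inl j → s * hx i j = s) →
      s * xg q0 = s := by
    intro s h
    apply mul_X_of_hooks hookRep_xg (PG_mul_one s)
    intro i hi
    exact h i (q0 i) (base0_inl.2 ⟨rfl, Ne.symm hi⟩)
  have hee : xg q0 * xg q0 = xg q0 := hookRep_xg.idem q0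
  have hfixo : ∀ z : Z, (Φ (xg q0)).1 (some (pt0 q0 β z)) = some (pt0 q0 β z) := by
    intro z
    rw [Φx]
    apply Y_matched R Y1 Yh
    intro i hi
    exact base0_inl.2 ⟨rfl, Ne.symm hi⟩
  have h0 := hfixo 1
  -- an edge of the base state
  obtain ⟨i0, c0, z1, _, _⟩ := other_edge hc' f0 ⟨0, by omega⟩ ⟨0, by omega⟩
  obtain ⟨j0, z2, z3, _, _⟩ := fifth h5' i0 c0 i0 c0
  obtain ⟨U1, U2⟩ := upper (M := PG (Brauer n)) hookSys_hx f0 l0 he hee hE hc' h5' z1 z2.symm
    z3.symm
  set ζ := Tri hx (xg q0) i0 c0 j0 with hζ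
  have gζ : Good hx (xg q0) (base0 q0 β) ζ (base0 q0 β) :=
    tri_good f0 Good.base z1 z2.symm z3.symm
  have ic := ne_of_w f0 z1
  -- the action of ζ
  have aζ : (Φ ζ).1 (some (pt0 q0 β 1)) = some (pt0 q0 β σ) := by
    have f1 := hk_fpi (inl_neV (L := Fin r) z2) f0
    have e1 : hk (inl i0) (inl j0) (base0 q0 β) (inl j0) = inl i0 := hk_right (inl_neV z2) _
    have f2 := hk_fpi (inl_neV (L := Fin r) z3) f1
    have e2 : hk (inl c0) (inl j0) (hk (inl i0) (inl j0) (base0 q0 β)) (inl c0) = inl j0 :=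
      hk_left _ _ _
    have n1 : nz (base0 q0 β) i0 j0 := Or.inl ⟨c0, z1⟩
    have n2 : nz (hk (inl i0) (inl j0) (base0 q0 β)) c0 j0 := Or.inr ⟨i0, e1⟩
    have n3 : nz (hk (inl c0) (inl j0) (hk (inl i0) (inl j0) (base0 q0 β))) i0 c0 :=
      Or.inr ⟨j0, e2⟩
    have s1 : sg σ (base0 q0 β) i0 j0 = σ := by
      unfold sg; rw [if_neg]; rw [z1]; simpa using z3
    have s2 : sg σ (hk (inl i0) (inl j0) (base0 q0 β)) c0 j0 = σ := by
      unfold sg; rw [if_neg]; intro h
      have := f1.inv (inl c0)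
      rw [h, e1] at this
      exact ic (by simpa using this)
    have s3 : sg σ (hk (inl c0) (inl j0) (hk (inl i0) (inl j0) (base0 q0 β))) i0 c0 = σ := by
      unfold sg; rw [if_neg]; intro h
      have := f2.inv (inl i0)
      rw [h, e2] at this
      exact z2.symm (by simpa using this)
    obtain ⟨ω, o1, o2⟩ := act_good Yh Φm Φx h0 gζ
    have key : ((Φ ζ).1 (some (pt0 q0 β 1))).map Subtype.val = some
        (hk (inl i0) (inl c0) (hk (inl c0) (inl j0) (hk (inl i0) (inl j0) (base0 q0 β))),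
          1 * σ * σ * σ) := by
      rw [hζ]
      unfold Tri hx
      rw [Φm, Φm, Φm, ROp.mul_val, ROp.mul_val, ROp.mul_val, h0, Φx, Φx, Φx, Yh _ _ z2,
        Yh _ _ z3.symm.symm, Yh _ _ ic, oph_map σ ic, oph_map σ z3, oph_map σ z2]
      change ((rop σ i0 j0 (base0 q0 β, 1)).bind (rop σ c0 j0)).bind (rop σ i0 c0) = _
      rw [rop_pos σ n1, s1]
      change (rop σ c0 j0 (_, _)).bind (rop σ i0 c0) = _
      rw [rop_pos σ n2, s2]
      change rop σ i0 c0 (_, _) = _
      rw [rop_pos σ n3, s3]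
    rw [o1] at key ⊢
    have k2 : ω.1 = _ := Option.some.inj key
    apply congrArg some
    apply Om.ext
    · rw [o2]; rfl
    · rw [k2]
      change 1 * σ * σ * σ = σ
      rw [one_mul, hσ, one_mul]
  have actζ : ∀ t : PG (Brauer n), (Φ (ζ * t)).1 (some (pt0 q0 β 1)) =
      ((Φ t).1 (some (pt0 q0 β 1))).map (gsO (1, σ)) := by
    intro t
    have e : pt0 q0 β σ = gsO (1, σ) (pt0 q0 β 1) :=
      Om.ext (rlw_one _).symm (mul_one σ).symm
    rw [Φm, ROp.mul_val, aζ, ← commG_Φ R Y1 Yh Φm Φx t, e]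
  apply hclass_of_action (fun a x => (Φ a).1 x) (fun a b x => by rw [Φm]; rfl)
    (fun a => (Φ a).2) (G := Equiv.Perm (Fin r) × Z) gsO gsO_mul gsO_one
    (fun g a x => commG_Φ R Y1 Yh Φm Φx a g x) (xg q0) hee (pt0 q0 β 1) h0
  · -- free
    rintro ⟨π, z⟩ h
    have h1 : rlw π (base0 q0 β) = base0 q0 β := congrArg (fun ω => ω.1.1) h
    have h2 : z * 1 = 1 := congrArg (fun ω => ω.1.2) h
    rw [mul_one] at h2
    subst h2
    have : π⁻¹ = 1 := by
      ext l
      have h3 := congrFun h1 (inr l)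
      unfold rlw at h3
      change rl π (base0 q0 β (inr (π⁻¹ l))) = _ at h3
      change inl (β.symm (π⁻¹ l)).1 = inl (β.symm l).1 at h3
      have h4 : β.symm (π⁻¹ l) = β.symm l := Subtype.ext (by simpa using h3)
      have := β.symm.injective h4
      rw [this]; rfl
    have h5 : π = 1 := inv_eq_one.1 this
    rw [h5]; rfl
  · -- inj
    intro s t x hs ht hsx htx
    have Gs : ∀ s, xg q0 * s = s → (Φ s).1 (some (pt0 q0 β 1)) = some x →
        Good hx (xg q0) (base0 q0 β) s x.1.1 := by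
      intro s hs hsx
      rcases good_mul R Y1 Yh Φm Φx h0 s (xg q0) (base0 q0 β) Good.base with ⟨w', g⟩ | h
      · rw [hs] at g
        obtain ⟨ω, o1, o2⟩ := act_good Yh Φm Φx h0 g
        rw [hsx] at o1
        have := Option.some.inj o1
        rw [this, o2]; exact g
      · rw [hs, hsx] at h
        simp at h
    rcases U2 _ s t (Gs s hs hsx) (Gs t ht htx) with h | h
    · exact h
    · exfalso
      have h1 : (Φ s).1 (some (pt0 q0 β 1)) = (Φ (ζ * t)).1 (some (pt0 q0 β 1)) := by rw [h]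
      rw [actζ t] at h1
      change (Φ s).1 _ = some x at hsx
      change (Φ t).1 _ = some x at htx
      rw [hsx, htx] at h1
      have h2 : x = gsO (1, σ) x := Option.some.inj h1
      have h3 : x.1.2 = σ * x.1.2 := congrArg (fun ω => ω.1.2) h2
      exact hσ1 (by simpa using h3)
  · -- surj
    rintro ⟨π, z⟩
    obtain ⟨s, g⟩ := U1 (rlw π (base0 q0 β)) (rlw_fpi f0) (rlw_LV l0)
    obtain ⟨ω, o1, o2⟩ := act_good Yh Φm Φx h0 g
    have es := g.emul hee
    have eζ : xg q0 * ζ = ζ := gζ.emul hee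
    have cases : ω.1.2 = z ∨ σ * ω.1.2 = z := by
      rcases hZ ω.1.2 with h | h <;> rcases hZ z with h' | h'
      · left; rw [h, h']
      · right; rw [h, h', mul_one]
      · right; rw [h, h', hσ]
      · left; rw [h, h']
    rcases cases with h | h
    · refine ⟨s, es, ?_⟩
      change (Φ s).1 _ = _
      rw [o1]
      apply congrArg some
      apply Om.ext
      · exact o2
      · rw [h]; exact (mul_one z).symm
    · refine ⟨ζ * s, by rw [← mul_assoc, eζ], ?_⟩
      change (Φ (ζ * s)).1 _ = _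
      rw [actζ, o1]
      apply congrArg some
      apply Om.ext
      · change rlw 1 ω.1.1 = _
        rw [rlw_one, o2]; rfl
      · change σ * ω.1.2 = z * 1
        rw [h, mul_one]
  · -- fix
    rintro x hx _
    have hover : ∀ i, q0 i ≠ i → x.1.1 (inl i) = inl (q0 i) := by
      intro i hi
      have : (Y q0).1 (some x) = some x := by rw [← Φx]; exact hx
      exact Y_result R Yh this hi
    obtain ⟨⟨w, z⟩, hw, hl⟩ := x
    change ∀ i, q0 i ≠ i → w (inl i) = inl (q0 i) at hover
    have hl' := hl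
    choose f hf using hl'
    change ∀ l, w (inr l) = inl (f l) at hf
    have ffix : ∀ l, q0 (f l) = f l := by
      intro l
      by_contra h
      have h1 := hover _ h
      have h2 := hw.inv (inr l)
      change w (w (inr l)) = inr l at h2
      rw [hf, h1] at h2
      simp at h2
    let F : Fin r → {i : Fin n // q0 i = i} := fun l => ⟨f l, ffix l⟩
    have Finj : Function.Injective F := by
      intro a b hab
      have h1 : f a = f b := congrArg Subtype.val hab
      have h2 := hw.inv (inr a)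
      have h3 := hw.inv (inr b)
      change w (w (inr a)) = inr a at h2
      change w (w (inr b)) = inr b at h3
      rw [hf, h1, ← hf, h3] at h2
      simpa using h2.symm
    have hcard : Fintype.card (Fin r) = Fintype.card {i : Fin n // q0 i = i} :=
      (Fintype.card_congr β).symm
    have Fbij : Function.Bijective F := (Fintype.bijective_iff_injective_and_card F).2 ⟨Finj, hcard⟩
    let π' : Equiv.Perm (Fin r) := (Equiv.ofBijective F Fbij).trans β
    have hπ' : ∀ l, β.symm (π' l) = F l := by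
      intro l
      change β.symm (β (F l)) = F l
      simp
    refine ⟨(π'⁻¹, z), ?_⟩
    apply Om.ext
    · change w = rlw π'⁻¹ (base0 q0 β)
      have hr : ∀ l, w (inr l) = rlw π'⁻¹ (base0 q0 β) (inr l) := by
        intro l
        rw [hf]
        unfold rlw
        rw [inv_inv]
        change _ = rl π'⁻¹ (inl (β.symm (π' l)).1)
        rw [hπ']; rfl
      funext y
      rcases y with i | l
      · by_cases hi : q0 i = i
        · obtain ⟨l, hl⟩ := Fbij.2 ⟨i, hi⟩
          have h1 : f l = i := congrArg Subtype.val hl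
          have h2 := hf l
          rw [h1] at h2
          have h3 : w (inl i) = inr l := by
            rw [← h2]; exact hw.inv _
          have h4 := hr l
          rw [h2] at h4
          have h5 := (rlw_fpi (π := π'⁻¹) f0).inv (inr l)
          rw [← h4] at h5
          rw [h3, h5]
        · rw [hover i hi, rlw_inl, base0_inl.2 ⟨rfl, Ne.symm hi⟩]; rfl
      · exact hr l
    · exact (mul_one z).symm

end Pool.Agent.W_MP_aeed81_al
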