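import Pool.Agent.W_MP_aeed81_al.BFinal

set_option linter.unusedVariables false
set_option linter.unusedSectionVars false

namespace Pool.Agent.W_MP_aeed81_al

variable {n : ℕ}

/-- number of fixed points -/
def fixn (q : Inv (Fin n)) : ℕ := (Finset.univ.filter (fun i => q i = i)).card

theorem fixn_erase (q : Inv (Fin n)) {i : Fin n} (hi : q i ≠ i) :
    fixn (eraseI q i) = fixn q + 2 := by
  have e : Finset.univ.filter (fun k => (eraseI q i) k = k) =
      insert i (insert (q i) (Finset.univ.filter (fun k => q k = k))) := by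
    ext k
    simp only [Finset.mem_filter, Finset.mem_univ, true_and, Finset.mem_insert]
    simp only [eraseI]
    by_cases h1 : k = i
    · simp [h1]
    · by_cases h2 : k = q i
      · simp [h2]
      · simp [h1, h2]
  unfold fixn
  rw [e, Finset.card_insert_of_notMem, Finset.card_insert_of_notMem]
  · simp [q.2 i, Ne.symm hi]
  · simp [Ne.symm hi, hi]

theorem fixn_one : fixn (Inv.one : Inv (Fin n)) = n := by
  unfold fixn
  simp [Inv.one]

theorem eq_one_of_fixn {q : Inv (Fin n)} (h : fixn q = n) : q = Inv.one := by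
  apply Inv.ext
  intro i
  by_contra hi
  have h1 := fixn_erase q (i := i) hi
  have h2 : fixn (eraseI q i) ≤ n := by
    unfold fixn
    exact (Finset.card_filter_le _ _).trans (by simp)
  omega

theorem fixn_parity : ∀ q : Inv (Fin n), ∃ k, fixn q + 2 * k = n := by
  apply Inv.induction
  · exact ⟨0, by rw [fixn_one]; rfl⟩
  · intro q i hi ih
    obtain ⟨k, hk⟩ := ih
    rw [fixn_erase q hi] at hk
    exact ⟨k + 1, by omega⟩

theorem drank_eq (q : Inv (Fin n)) : drank (DP q) = fixn q := by
  rw [drank_DP, Fintype.card_subtype]; rfl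

theorem zmod2_cases : ∀ z : Multiplicative (ZMod 2), z = 1 ∨ z = Multiplicative.ofAdd 1 := by
  intro z
  have : ∀ z : ZMod 2, z = 0 ∨ z = 1 := by decide
  exact this (Multiplicative.toAdd z)

/-- The maximal subgroups of `PG(P(B_n))`. -/
theorem brauer_main (n : ℕ) (p : Proj (Brauer n)) :
    (drank p.1 = n ∧ HClassIso (gen p) PUnit.{1}) ∨
    (drank p.1 + 2 = n ∧
      HClassIso (gen p) (FreeGroup (Fin (n * (n - 1).choose 2 + 1 - n.choose 2)))) ∨
    (n = 4 ∧ drank p.1 = 0 ∧ HClassIso (gen p) (Multiplicative ℤ)) ∨
    (5 ≤ n ∧ drank p.1 + 4 ≤ n ∧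
      HClassIso (gen p) (Equiv.Perm (Fin (drank p.1)) × Multiplicative (ZMod 2))) := by
  obtain ⟨q, rfl⟩ := exists_BP p
  change (drank (DP q) = n ∧ HClassIso (xg q) PUnit.{1}) ∨
    (drank (DP q) + 2 = n ∧
      HClassIso (xg q) (FreeGroup (Fin (n * (n - 1).choose 2 + 1 - n.choose 2)))) ∨
    (n = 4 ∧ drank (DP q) = 0 ∧ HClassIso (xg q) (Multiplicative ℤ)) ∨
    (5 ≤ n ∧ drank (DP q) + 4 ≤ n ∧
      HClassIso (xg q) (Equiv.Perm (Fin (drank (DP q))) × Multiplicative (ZMod 2)))
  have hd := drank_eq q
  obtain ⟨k, hk⟩ := fixn_parity q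
  rw [hd]
  rcases k with _ | _ | k
  · left
    have : fixn q = n := by omega
    rw [eq_one_of_fixn this]
    exact ⟨fixn_one, top_case⟩
  · right; left
    refine ⟨by omega, ?_⟩
    have hex : ∃ i, q i ≠ i := by
      by_contra hcon
      push Not at hcon
      have : q = Inv.one := Inv.ext hcon
      rw [this, fixn_one] at hk
      omega
    obtain ⟨i, hi⟩ := hex
    have h1 := fixn_erase q hi
    have h2 : eraseI q i = Inv.one := eq_one_of_fixn (by omega)
    have h3 : q = hookI i (q i) := by
      apply Inv.ext
      intro x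
      have h4 : (eraseI q i) x = x := by rw [h2]; rfl
      simp only [eraseI] at h4
      simp only [hookI]
      have := q.2 i
      grind
    let d0 : D2 n := mk2 (Ne.symm hi)
    have h4 : Q2 d0 = q := by
      rw [Q2_mk (Ne.symm hi) rfl, ← h3]
    have h5 := rank2_case d0
    rw [h4] at h5
    have hn : 2 ≤ n := by omega
    have : Finite (G2 d0).Edge :=
      inferInstanceAs (Finite {p : D2 n × D2 n // _})
    exact h5.free (rank2_count hn d0)
  · by_cases hn : n = 4
    · right; right; left
      subst hn
      have hk0 : fixn q = 0 := by omega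
      refine ⟨rfl, hk0, ?_⟩
      have hno : ∀ i, q i ≠ i := by
        intro i hi
        unfold fixn at hk0
        rw [Finset.card_eq_zero] at hk0
        have : i ∈ Finset.univ.filter (fun i => q i = i) := by simp [hi]
        rw [hk0] at this
        simp at this
      obtain ⟨d, rfl⟩ := q4_cases q hno
      have : Finite (G4 d).Edge :=
        inferInstanceAs (Finite {p : Fin 3 × Fin 3 // _})
      exact ((four_case d).free (four_count d)).congr freeOne.symm
    · right; right; right
      refine ⟨by omega, by omega, ?_⟩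
      have hcard : Fintype.card {i : Fin n // q i = i} = fixn q := by
        rw [Fintype.card_subtype]; rfl
      have β : {i : Fin n // q i = i} ≃ Fin (fixn q) := Fintype.equivFinOfCardEq hcard
      apply generic_case (σ := Multiplicative.ofAdd (1 : ZMod 2)) (by decide) (by decide)
        zmod2_cases q β (by omega) (by omega)

end Pool.Agent.W_MP_aeed81_al
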