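import Pool.Agent.W_MP_aeed81_al.HookRep

set_option linter.unusedVariables false
set_option linter.unusedSectionVars false

namespace Pool.Agent.W_MP_aeed81_al

variable {V : Type*} [LinearOrder V] [Fintype V]

/-- the lower ends of the hooks of `q` -/
def low (q : Inv V) : Finset V := Finset.univ.filter (fun x => x < q x)

theorem mem_low {q : Inv V} {x : V} : x ∈ low q ↔ x < q x := by simp [low]

theorem low_comm {M : Type*} [Monoid M] {h : V → V → M} (H : HookSys h) (q : Inv V) :
    (low q : Set V).Pairwise (Function.onFun Commute (fun x => h x (q x))) := by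
  intro x hx y hy hxy
  have hx' : x < q x := mem_low.1 hx
  have hy' : y < q y := mem_low.1 hy
  have h1 := q.2 x
  have h2 := q.2 y
  have e1 : x ≠ q y := by
    intro h
    rw [h, h2] at hx'
    exact lt_asymm hx' hy'
  have e2 : y ≠ q x := by
    intro h
    rw [h, h1] at hy'
    exact lt_asymm hx' hy'
  have e3 : q x ≠ q y := by
    intro h
    exact hxy (by rw [← h1, h, h2])
  exact H.comm x (q x) y (q y) (ne_of_lt hx') hxy e1 e2.symm e3 (ne_of_lt hy')

/-- products of hooks -/
theorem exists_X {M : Type*} [Monoid M] {h : V → V → M} (H : HookSys h) :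
    ∃ X : Inv V → M, HookRep X ∧ X Inv.one = 1 ∧ (∀ i j, i ≠ j → X (hookI i j) = h i j) := by
  let X : Inv V → M := fun q => (low q).noncommProd (fun x => h x (q x)) (low_comm H q)
  have X1 : X Inv.one = 1 := by
    have : low (Inv.one : Inv V) = ∅ := by
      ext x
      rw [mem_low]
      simp [Inv.one]
    have e : X Inv.one = (∅ : Finset V).noncommProd (fun x => h x ((Inv.one : Inv V) x))
        (by simp) := Finset.noncommProd_congr this (fun _ _ => rfl) _
    rw [e, Finset.noncommProd_empty]
  have rec1 : ∀ (q : Inv V) i, i < q i → X q = h i (q i) * X (eraseI q i) := by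
    intro q i hi
    have e1 : (low q).erase i = low (eraseI q i) := by
      ext x
      rw [Finset.mem_erase, mem_low, mem_low]
      simp only [eraseI]
      constructor
      · rintro ⟨h1, h2⟩
        rw [if_neg]
        · exact h2
        · rintro (h3 | h3)
          · exact h1 h3
          · rw [h3, q.2 i] at h2
            exact lt_asymm h2 hi
      · intro h1
        by_cases h2 : x = i ∨ x = q i
        · rw [if_pos h2] at h1; exact absurd h1 (lt_irrefl _)
        · rw [if_neg h2] at h1
          push Not at h2
          exact ⟨h2.1, h1⟩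
    have e2 : X (eraseI q i) = ((low q).erase i).noncommProd (fun x => h x (q x))
        (fun _ hx _ hy hxy => low_comm H q (Finset.mem_of_mem_erase hx)
          (Finset.mem_of_mem_erase hy) hxy) := by
      apply Finset.noncommProd_congr e1.symm
      intro x hx
      have hx1 : x ≠ i := (Finset.mem_erase.1 hx).1
      have hx2 := mem_low.1 (Finset.mem_erase.1 hx).2
      simp only [eraseI]
      rw [if_neg]
      rintro (h3 | h3)
      · exact hx1 h3
      · rw [h3, q.2 i] at hx2
        exact lt_asymm hx2 hi
    rw [e2]
    exact (Finset.mul_noncommProd_erase (low q) (mem_low.2 hi) (fun x => h x (q x))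
      (low_comm H q)).symm
  have rec2 : ∀ (q : Inv V) i, q i ≠ i → X q = h i (q i) * X (eraseI q i) := by
    intro q i hi
    rcases lt_or_gt_of_ne hi with h1 | h1
    · have h2 : q i < q (q i) := by rw [q.2 i]; exact h1
      have e := rec1 q (q i) h2
      rw [q.2 i] at e
      have e3 : eraseI q (q i) = eraseI q i := by
        apply Inv.ext; intro x
        simp only [eraseI, q.2 i]
        simp only [or_comm]
      rw [e, e3, H.symm]
    · exact rec1 q i h1
  have Xh : ∀ i j, i ≠ j → X (hookI i j) = h i j := by
    intro i j hij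
    have e1 : (hookI i j) i = j := by simp [hookI]
    have e2 : eraseI (hookI i j) i = Inv.one := by
      apply Inv.ext; intro x
      simp only [eraseI, hookI, Inv.one]; grind
    rw [rec2 (hookI i j) i (by rw [e1]; exact hij.symm), e1, e2, X1, mul_one]
  refine ⟨X, ⟨?_, ?_, ?_, ?_⟩, X1, Xh⟩
  · intro q; rw [X1, one_mul]
  · intro q; rw [X1, mul_one]
  · intro q i hi
    rw [Xh i (q i) (Ne.symm hi)]
    exact rec2 q i hi
  · constructor
    · intro i j; rw [hookI_symm]
    · intro i j ij
      rw [Xh i j ij]; exact H.idem i j ij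
    · intro i j k l ij ik il jk jl kl
      rw [Xh i j ij, Xh k l kl]; exact H.comm i j k l ij ik il jk jl kl
    · intro i j k ij ik jk
      rw [Xh i j ij, Xh j k jk]; exact H.tri i j k ij ik jk
    · intro a b c d ab ac ad bc bd cd
      rw [Xh b c bc, Xh a b ab, Xh c d cd, Xh a d ad]; exact H.r4 a b c d ab ac ad bc bd cd
    · intro a b c d ab ac ad bc bd cd
      rw [Xh b c bc, Xh a b ab, Xh c d cd, Xh a d ad]; exact H.s4 a b c d ab ac ad bc bd cd
    · intro a b c d ab ac ad bc bd cd
      rw [Xh b c bc, Xh a b ab, Xh c d cd, Xh a d ad]; exact H.s4' a b c d ab ac ad bc bd cd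

end Pool.Agent.W_MP_aeed81_al
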