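import Pool.Agent.W_MP_aeed81_al.BCases

set_option linter.unusedVariables false
set_option linter.unusedSectionVars false

namespace Pool.Agent.W_MP_aeed81_al

open TGraph

section
variable {D : Type} [Fintype D] (G : TGraph D)

theorem TGraph.par_par (d : D) : G.par (G.par d) = G.d0 := G.par_of_adj _ (G.adj_par0 d)

theorem TGraph.par_ne {d : D} (h : d ≠ G.d0) : G.par d ≠ d := by
  intro e
  have := G.par_par d
  rw [e, e] at this
  exact h this

open Classical in
theorem tree_count : (Finset.univ.filter (fun p : D × D => G.adj p.1 p.2 ∧ G.ord p.1 < G.ord p.2 ∧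
    G.tree p.1 p.2)).card + 1 = Fintype.card D := by
  have h1 : (Finset.univ.filter (fun d : D => d ≠ G.d0)).card + 1 = Fintype.card D := by
    rw [Finset.filter_ne' Finset.univ G.d0, Finset.card_erase_of_mem (Finset.mem_univ _),
      Finset.card_univ]
    have : 0 < Fintype.card D := Fintype.card_pos_iff.2 ⟨G.d0⟩
    omega
  rw [← h1]
  congr 1
  symm
  apply Finset.card_bij (fun d _ => if G.ord d < G.ord (G.par d) then (d, G.par d) else (G.par d, d))
  · intro d hd
    have hd' : d ≠ G.d0 := by simpa using hd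
    have hne := G.par_ne hd'
    rw [Finset.mem_filter]
    refine ⟨Finset.mem_univ _, ?_⟩
    by_cases h : G.ord d < G.ord (G.par d)
    · rw [if_pos h]
      exact ⟨G.symm (G.adj_par d), h, Or.inr (Or.inl rfl)⟩
    · rw [if_neg h]
      refine ⟨G.adj_par d, ?_, Or.inr (Or.inr rfl)⟩
      have : G.ord (G.par d) ≠ G.ord d := fun e => hne (G.ord_inj e)
      change G.ord (G.par d) < G.ord d
      omega
  · intro d hd c hc h
    have hd' : d ≠ G.d0 := by simpa using hd
    have hc' : c ≠ G.d0 := by simpa using hc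
    have cross : ∀ {d c : D}, d ≠ G.d0 → c ≠ G.d0 → d = G.par c → G.par d = c → False := by
      intro d c hd hc h1 h2
      have := G.par_par c
      rw [← h1, h2] at this
      exact hc this
    by_cases h1 : G.ord d < G.ord (G.par d) <;> by_cases h2 : G.ord c < G.ord (G.par c)
    · simp only [if_pos h1, if_pos h2, Prod.mk.injEq] at h; exact h.1
    · simp only [if_pos h1, if_neg h2, Prod.mk.injEq] at h
      exact (cross hd' hc' h.1 h.2).elim
    · simp only [if_neg h1, if_pos h2, Prod.mk.injEq] at h
      exact (cross hd' hc' h.2 h.1).elim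
    · simp only [if_neg h1, if_neg h2, Prod.mk.injEq] at h; exact h.2
  · rintro ⟨a, b⟩ hp
    rw [Finset.mem_filter] at hp
    obtain ⟨_, h1, h2, h3⟩ := hp
    change G.ord a < G.ord b at h2
    change G.tree a b at h3
    have hab : a ≠ b := by rintro rfl; exact lt_irrefl _ h2
    rcases h3 with h3 | h3 | h3
    · exact absurd h3 hab
    · refine ⟨a, ?_, ?_⟩
      · simp only [Finset.mem_filter, Finset.mem_univ, true_and]
        rintro rfl
        apply hab
        rw [h3, G.par_of_adj _ (G.refl _)]
      · subst h3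
        rw [if_pos h2]
    · refine ⟨b, ?_, ?_⟩
      · simp only [Finset.mem_filter, Finset.mem_univ, true_and]
        rintro rfl
        apply hab
        rw [h3, G.par_of_adj _ (G.refl _)]
      · subst h3
        rw [if_neg (by omega)]

open Classical in
theorem edge_count : Nat.card G.Edge + Fintype.card D =
    (Finset.univ.filter (fun p : D × D => G.adj p.1 p.2 ∧ G.ord p.1 < G.ord p.2)).card + 1 := by
  have e1 : Nat.card G.Edge = (Finset.univ.filter (fun p : D × D => G.adj p.1 p.2 ∧
      ¬ G.tree p.1 p.2 ∧ G.ord p.1 < G.ord p.2)).card := by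
    have : Nat.card {p : D × D // G.adj p.1 p.2 ∧ ¬ G.tree p.1 p.2 ∧ G.ord p.1 < G.ord p.2} =
      (Finset.univ.filter (fun p : D × D => G.adj p.1 p.2 ∧
      ¬ G.tree p.1 p.2 ∧ G.ord p.1 < G.ord p.2)).card := by
      rw [Nat.card_eq_fintype_card, Fintype.card_subtype]
    exact this
  rw [e1, ← tree_count G]
  have h := Finset.card_filter_add_card_filter_not
    (s := Finset.univ.filter (fun p : D × D => G.adj p.1 p.2 ∧ G.ord p.1 < G.ord p.2))
    (fun p => G.tree p.1 p.2)
  rw [Finset.filter_filter, Finset.filter_filter] at h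
  have e2 : (Finset.univ.filter (fun p : D × D => G.adj p.1 p.2 ∧ G.ord p.1 < G.ord p.2 ∧
      G.tree p.1 p.2)) = Finset.univ.filter (fun p : D × D => (G.adj p.1 p.2 ∧
      G.ord p.1 < G.ord p.2) ∧ G.tree p.1 p.2) := by
    ext p; simp only [Finset.mem_filter, Finset.mem_univ, true_and]; tauto
  have e3 : (Finset.univ.filter (fun p : D × D => G.adj p.1 p.2 ∧
      ¬ G.tree p.1 p.2 ∧ G.ord p.1 < G.ord p.2)) = Finset.univ.filter (fun p : D × D =>
      (G.adj p.1 p.2 ∧ G.ord p.1 < G.ord p.2) ∧ ¬ G.tree p.1 p.2) := by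
    ext p; simp only [Finset.mem_filter, Finset.mem_univ, true_and]; tauto
  rw [e2, e3]
  omega

open Classical in
theorem double_count : 2 * (Finset.univ.filter (fun p : D × D => G.adj p.1 p.2 ∧
    G.ord p.1 < G.ord p.2)).card + Fintype.card D =
    ∑ d : D, (Finset.univ.filter (fun c => G.adj d c)).card := by
  have e1 : ∑ d : D, (Finset.univ.filter (fun c => G.adj d c)).card =
      (Finset.univ.filter (fun p : D × D => G.adj p.1 p.2)).card := by
    rw [Finset.card_filter, Fintype.sum_prod_type]
    apply Finset.sum_congr rfl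
    intro d _
    rw [Finset.card_filter]
  rw [e1]
  have h := Finset.card_filter_add_card_filter_not
    (s := Finset.univ.filter (fun p : D × D => G.adj p.1 p.2)) (fun p => G.ord p.1 < G.ord p.2)
  have h' := Finset.card_filter_add_card_filter_not
    (s := Finset.univ.filter (fun p : D × D => G.adj p.1 p.2 ∧ ¬ G.ord p.1 < G.ord p.2))
    (fun p => G.ord p.2 < G.ord p.1)
  rw [Finset.filter_filter, Finset.filter_filter] at h h'
  have h2 : (Finset.univ.filter (fun p : D × D => (G.adj p.1 p.2 ∧ ¬ G.ord p.1 < G.ord p.2) ∧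
      G.ord p.2 < G.ord p.1)).card = (Finset.univ.filter (fun p : D × D => G.adj p.1 p.2 ∧
      G.ord p.1 < G.ord p.2)).card := by
    apply Finset.card_bij (fun p _ => (p.2, p.1))
    · rintro ⟨a, b⟩ hp
      simp only [Finset.mem_filter, Finset.mem_univ, true_and] at hp ⊢
      exact ⟨G.symm hp.1.1, hp.2⟩
    · rintro ⟨a, b⟩ _ ⟨c, d⟩ _ h
      simp only [Prod.mk.injEq] at h ⊢
      exact ⟨h.2, h.1⟩
    · rintro ⟨a, b⟩ hp
      simp only [Finset.mem_filter, Finset.mem_univ, true_and] at hp
      refine ⟨(b, a), ?_, rfl⟩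
      simp only [Finset.mem_filter, Finset.mem_univ, true_and]
      exact ⟨⟨G.symm hp.1, by omega⟩, hp.2⟩
  have h3 : (Finset.univ.filter (fun p : D × D => (G.adj p.1 p.2 ∧ ¬ G.ord p.1 < G.ord p.2) ∧
      ¬ G.ord p.2 < G.ord p.1)).card = Fintype.card D := by
    rw [← Finset.card_univ]
    symm
    apply Finset.card_bij (fun d _ => (d, d))
    · intro d _
      simp only [Finset.mem_filter, Finset.mem_univ, true_and]
      exact ⟨⟨G.refl d, lt_irrefl _⟩, lt_irrefl _⟩
    · intro a _ b _ h; exact congrArg Prod.fst h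
    · rintro ⟨a, b⟩ hp
      simp only [Finset.mem_filter, Finset.mem_univ, true_and] at hp
      have : a = b := G.ord_inj (by omega)
      exact ⟨a, Finset.mem_univ _, by rw [this]⟩
  rw [h2, h3] at h'
  omega

end

/-- The number of free generators in rank `n - 2`. -/
theorem rank2_count {n : ℕ} (hn : 2 ≤ n) (d0 : D2 n) :
    Nat.card (G2 d0).Edge = n * (n - 1).choose 2 + 1 - n.choose 2 := by
  classical
  have h1 := edge_count (G2 d0)
  have h2 := double_count (G2 d0)
  have h3 : ∀ d : D2 n, (Finset.univ.filter (fun c => (G2 d0).adj d c)).card + (n - 2).choose 2 =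
      n.choose 2 := by
    intro d
    have h := Finset.card_filter_add_card_filter_not (s := (Finset.univ : Finset (D2 n)))
      (fun c => (G2 d0).adj d c)
    rw [Finset.card_univ, D2_card] at h
    rw [← h]
    congr 1
    have e : (n - 2).choose 2 = (Finset.powersetCard 2 (Finset.univ \ d.1)).card := by
      rw [Finset.card_powersetCard, Finset.card_sdiff_of_subset (Finset.subset_univ _), d.2]
      simp
    rw [e]
    symm
    apply Finset.card_bij (fun c _ => c.1)
    · intro c hc
      rw [Finset.mem_filter] at hc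
      have h4 : Disjoint d.1 c.1 := not_not.1 hc.2
      rw [Finset.mem_powersetCard]
      refine ⟨?_, c.2⟩
      intro x hx
      rw [Finset.mem_sdiff]
      exact ⟨Finset.mem_univ _, fun h5 => Finset.disjoint_left.1 h4 h5 hx⟩
    · intro a _ b _ h; exact Subtype.ext h
    · intro s hs
      rw [Finset.mem_powersetCard] at hs
      let t : D2 n := ⟨s, hs.2⟩
      refine ⟨t, ?_, rfl⟩
      rw [Finset.mem_filter]
      refine ⟨Finset.mem_univ _, not_not.2 ?_⟩
      change Disjoint d.1 s
      rw [Finset.disjoint_left]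
      intro x hx hx'
      exact (Finset.mem_sdiff.1 (hs.1 hx')).2 hx
  have h4 : ∑ d : D2 n, (Finset.univ.filter (fun c => (G2 d0).adj d c)).card =
      n.choose 2 * (n.choose 2 - (n - 2).choose 2) := by
    have : ∀ d ∈ (Finset.univ : Finset (D2 n)), (Finset.univ.filter (fun c => (G2 d0).adj d c)).card =
        n.choose 2 - (n - 2).choose 2 := by
      intro d _
      have := h3 d
      omega
    rw [Finset.sum_congr rfl this, Finset.sum_const, Finset.card_univ, D2_card, smul_eq_mul]
  rw [h4] at h2
  rw [D2_card] at h1 h2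
  obtain ⟨k, rfl⟩ : ∃ k, n = k + 2 := ⟨n - 2, by omega⟩
  have c1 : (k + 2).choose 2 * 2 = (k + 2) * (k + 1) := by
    rw [Nat.choose_two_right]
    have h6 : 2 ∣ (k + 2) * (k + 2 - 1) := (Nat.even_mul_pred_self (k + 2)).two_dvd
    rw [Nat.div_mul_cancel h6]; rfl
  have c2 : (k + 2 - 1).choose 2 * 2 = (k + 1) * k := by
    rw [Nat.choose_two_right]
    have h6 : 2 ∣ (k + 2 - 1) * (k + 2 - 1 - 1) := (Nat.even_mul_pred_self _).two_dvd
    rw [Nat.div_mul_cancel h6]; rfl
  have c3 : (k + 2).choose 2 - (k + 2 - 2).choose 2 = 2 * k + 1 := by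
    have h6 : (k + 2).choose 2 = (k + 1).choose 1 + (k + 1).choose 2 := Nat.choose_succ_succ _ _
    have h7 : (k + 1).choose 2 = k.choose 1 + k.choose 2 := Nat.choose_succ_succ _ _
    have h8 : k + 2 - 2 = k := rfl
    rw [h8, h6, h7]
    simp
    omega
  rw [c3] at h2
  set a := (k + 2).choose 2
  set b := (k + 2 - 1).choose 2
  set E := (Finset.univ.filter (fun p : D2 (k + 2) × D2 (k + 2) => (G2 d0).adj p.1 p.2 ∧
    (G2 d0).ord p.1 < (G2 d0).ord p.2)).card
  have h9 : E = (k + 2) * b := by
    have e1 : 2 * E = a * 2 * k := by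
      have : 2 * E + a = a * (2 * k) + a := by rw [h2]; ring
      have h10 : 2 * E = a * (2 * k) := by omega
      rw [h10]; ring
    have e2 : a * 2 * k = 2 * ((k + 2) * b) := by
      rw [c1]
      have : 2 * ((k + 2) * b) = (k + 2) * (b * 2) := by ring
      rw [this, c2]; ring
    omega
  rw [h9] at h1
  omega

end Pool.Agent.W_MP_aeed81_al
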