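import Mathlib

set_option warn.classDefReducibility false

namespace Pool.Agent.W_MP_aeed81_al

open Sum

/-- A set partition of the two rows: `inl i` is the upper vertex `i`, `inr i` the lower vertex
`i'`. The blocks are the classes of the setoid. -/
abbrev Diagram (n : ℕ) := Setoid (Fin n ⊕ Fin n)

/-- The upper diagram of a stack occupies the top row `inl i` and the middle row
`inr (inl i)`. -/
def upperPos {n : ℕ} : Fin n ⊕ Fin n → Fin n ⊕ Fin n ⊕ Fin n
  | inl i => inl i
  | inr i => inr (inl i)

/-- The lower diagram of a stack occupies the middle row `inr (inl i)` and the bottom row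
`inr (inr i)`. -/
def lowerPos {n : ℕ} : Fin n ⊕ Fin n → Fin n ⊕ Fin n ⊕ Fin n
  | inl i => inr (inl i)
  | inr i => inr (inr i)

/-- The top and the bottom row of a stack. -/
def outerPos {n : ℕ} : Fin n ⊕ Fin n → Fin n ⊕ Fin n ⊕ Fin n
  | inl i => inl i
  | inr i => inr (inr i)

/-- Two vertices of the stack of `a` above `b` are joined if they lie in one block of `a` or in
one block of `b`. -/
def StackAdj {n : ℕ} (a b : Diagram n) (u v : Fin n ⊕ Fin n ⊕ Fin n) : Prop :=
  (∃ x y, a x y ∧ u = upperPos x ∧ v = upperPos y) ∨
    (∃ x y, b x y ∧ u = lowerPos x ∧ v = lowerPos y)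

/-- The product of the partition monoid: connected components of the stacked graph, restricted to
the top and the bottom row. -/
def dmul {n : ℕ} (a b : Diagram n) : Diagram n :=
  Setoid.comap outerPos (Relation.EqvGen.setoid (StackAdj a b))

/-- The involution, exchanging the two rows. -/
def dstar {n : ℕ} (a : Diagram n) : Diagram n := Setoid.comap Sum.swap a

/-- The rank: the number of blocks that meet both rows. -/
noncomputable def drank {n : ℕ} (a : Diagram n) : ℕ :=
  Set.ncard {B : Set (Fin n ⊕ Fin n) | B ∈ a.classes ∧ (∃ i, inl i ∈ B) ∧ ∃ j, inr j ∈ B}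

/-- The Brauer monoid: every block has exactly two elements. -/
def Brauer (n : ℕ) : Set (Diagram n) := {a | ∀ B ∈ a.classes, B.ncard = 2}

/-- Position on the boundary of the rectangle, read around it: the upper row from left to right
and then the lower row from right to left. -/
def bpos {n : ℕ} : Fin n ⊕ Fin n → ℕ
  | inl i => i
  | inr i => 2 * n - 1 - i

/-- The Motzkin monoid: every block has at most two elements, and no two blocks cross. -/
def Motzkin (n : ℕ) : Set (Diagram n) :=
  {a | (∀ B ∈ a.classes, B.ncard ≤ 2) ∧
    ∀ x y u v, a x y → a u v → ¬ (bpos x < bpos u ∧ bpos u < bpos y ∧ bpos y < bpos v)}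

/-- The projections of a set `S` of diagrams. -/
def Proj {n : ℕ} (S : Set (Diagram n)) : Type := {p : Diagram n // p ∈ S ∧ dmul p p = p ∧ dstar p = p}

/-- The defining relations of the free projection-generated regular star-semigroup. -/
inductive PGRel {n : ℕ} (S : Set (Diagram n)) :
    FreeSemigroup (Proj S) → FreeSemigroup (Proj S) → Prop
  | idem (p : Proj S) : PGRel S (FreeSemigroup.of p * FreeSemigroup.of p) (FreeSemigroup.of p)
  | sq (p q : Proj S) :
      PGRel S ((FreeSemigroup.of p * FreeSemigroup.of q) * (FreeSemigroup.of p * FreeSemigroup.of q))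
        (FreeSemigroup.of p * FreeSemigroup.of q)
  | conj (p q s : Proj S) (h : dmul (dmul p.1 q.1) p.1 = s.1) :
      PGRel S (FreeSemigroup.of p * FreeSemigroup.of q * FreeSemigroup.of p) (FreeSemigroup.of s)

/-- `PG(P(S))`, the semigroup with generators `x_p` and the relations above. -/
abbrev PG {n : ℕ} (S : Set (Diagram n)) : Type := (conGen (PGRel S)).Quotient

/-- The generator `x_p`. -/
def gen {n : ℕ} {S : Set (Diagram n)} (p : Proj S) : PG S := (FreeSemigroup.of p : FreeSemigroup (Proj S))

/-- Green's relation `R`: equal principal right ideals. -/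
def GreenR {T : Type*} [Mul T] (a b : T) : Prop := a = b ∨ ((∃ x, a * x = b) ∧ ∃ y, b * y = a)

/-- Green's relation `L`: equal principal left ideals. -/
def GreenL {T : Type*} [Mul T] (a b : T) : Prop := a = b ∨ ((∃ x, x * a = b) ∧ ∃ y, y * b = a)

/-- The `H`-class of `e`, the maximal subgroup containing `e` when `e` is idempotent. -/
def HClass {T : Type*} [Mul T] (e : T) : Set T := {s | GreenR s e ∧ GreenL s e}

/-- The `H`-class of `e` is a group isomorphic to `G`: there is an injective multiplicative map
from `G` whose image is the `H`-class. -/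
def HClassIso {T : Type*} [Mul T] (e : T) (G : Type*) [Group G] : Prop :=
  ∃ φ : G → T, Function.Injective φ ∧ (∀ a b, φ (a * b) = φ a * φ b) ∧ Set.range φ = HClass e

end Pool.Agent.W_MP_aeed81_al
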