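import Pool.Agent.W_MP_aeed81_al.Defs

set_option linter.unusedVariables false
set_option linter.unusedSectionVars false
set_option warn.classDefReducibility false

namespace Pool.Agent.W_MP_aeed81_al

open Sum

/-- `S` is a union of blocks. -/
def Closed {α : Type*} (a : Setoid α) (S : α → Prop) : Prop := ∀ x y, a x y → (S x ↔ S y)

theorem closed_ext {α : Type*} {a b : Setoid α} (h : ∀ S, Closed a S ↔ Closed b S) : a = b := by
  have key : ∀ {a b : Setoid α}, (∀ S, Closed a S ↔ Closed b S) → ∀ x y, a x y → b x y := by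
    intro a b h x y hxy
    have h1 : Closed b (fun z => b x z) := by
      intro u v huv
      exact ⟨fun h => b.trans h huv, fun h => b.trans h (b.symm huv)⟩
    exact ((h _).2 h1 x y hxy).1 (b.refl x)
  ext x y
  exact ⟨key h x y, key (fun S => (h S).symm) x y⟩

/-- sets on two rows -/
abbrev two {α β : Type*} (s : α → Prop) (t : β → Prop) : α ⊕ β → Prop := Sum.elim s t

theorem two_eta {α β : Type*} (S : α ⊕ β → Prop) : two (fun i => S (inl i)) (fun i => S (inr i)) = S := by
  funext x; cases x <;> rfl

theorem closed_dmul {n : ℕ} (a b : Diagram n) (s t : Fin n → Prop) :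
    Closed (dmul a b) (two s t) ↔ ∃ u, Closed a (two s u) ∧ Closed b (two u t) := by
  constructor
  · intro h
    let E : Fin n ⊕ Fin n ⊕ Fin n → Prop := fun v =>
      ∃ x, two s t x ∧ Relation.EqvGen (StackAdj a b) (outerPos x) v
    have hE : ∀ u v, StackAdj a b u v → (E u ↔ E v) := by
      intro u v huv
      constructor
      · rintro ⟨x, hx, h1⟩
        exact ⟨x, hx, h1.trans _ _ _ (Relation.EqvGen.rel _ _ huv)⟩
      · rintro ⟨x, hx, h1⟩
        exact ⟨x, hx, h1.trans _ _ _ (Relation.EqvGen.symm _ _ (Relation.EqvGen.rel _ _ huv))⟩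
    have hout : ∀ x, E (outerPos x) ↔ two s t x := by
      intro x
      constructor
      · rintro ⟨y, hy, h1⟩
        exact (h y x h1).1 hy
      · intro hx
        exact ⟨x, hx, Relation.EqvGen.refl _⟩
    refine ⟨fun i => E (inr (inl i)), ?_, ?_⟩
    · intro x y hxy
      have h1 := hE (upperPos x) (upperPos y) (Or.inl ⟨x, y, hxy, rfl, rfl⟩)
      have h2 : ∀ z, E (upperPos z) ↔ two s (fun i => E (inr (inl i))) z := by
        rintro (i | i)
        · exact hout (inl i)
        · exact Iff.rfl
      rw [← h2, ← h2]; exact h1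
    · intro x y hxy
      have h1 := hE (lowerPos x) (lowerPos y) (Or.inr ⟨x, y, hxy, rfl, rfl⟩)
      have h2 : ∀ z, E (lowerPos z) ↔ two (fun i => E (inr (inl i))) t z := by
        rintro (i | i)
        · exact Iff.rfl
        · exact hout (inr i)
      rw [← h2, ← h2]; exact h1
  · rintro ⟨u, h1, h2⟩ x y hxy
    have key : ∀ p q, Relation.EqvGen (StackAdj a b) p q →
        (Sum.elim s (Sum.elim u t) p ↔ Sum.elim s (Sum.elim u t) q) := by
      intro p q hpq
      induction hpq with
      | rel p q h =>
        rcases h with ⟨x, y, hxy, rfl, rfl⟩ | ⟨x, y, hxy, rfl, rfl⟩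
        · have := h1 x y hxy
          rcases x with x | x <;> rcases y with y | y <;> exact this
        · have := h2 x y hxy
          rcases x with x | x <;> rcases y with y | y <;> exact this
      | refl => rfl
      | symm _ _ _ ih => exact ih.symm
      | trans _ _ _ _ _ ih1 ih2 => exact ih1.trans ih2
    have := key _ _ hxy
    rcases x with x | x <;> rcases y with y | y <;> exact this

theorem closed_dmul' {n : ℕ} (a b : Diagram n) (S : Fin n ⊕ Fin n → Prop) :
    Closed (dmul a b) S ↔ ∃ u, Closed a (two (fun i => S (inl i)) u) ∧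
      Closed b (two u (fun i => S (inr i))) := by
  rw [← closed_dmul, two_eta]

theorem dmul_assoc {n : ℕ} (a b c : Diagram n) : dmul (dmul a b) c = dmul a (dmul b c) := by
  apply closed_ext
  intro S
  rw [closed_dmul', closed_dmul']
  constructor
  · rintro ⟨u, h1, h2⟩
    rw [closed_dmul] at h1
    obtain ⟨v, h3, h4⟩ := h1
    exact ⟨v, h3, (closed_dmul _ _ _ _).2 ⟨u, h4, h2⟩⟩
  · rintro ⟨u, h1, h2⟩
    rw [closed_dmul] at h2
    obtain ⟨v, h3, h4⟩ := h2
    exact ⟨v, (closed_dmul _ _ _ _).2 ⟨u, h1, h3⟩, h4⟩

theorem closed_dstar {n : ℕ} (a : Diagram n) (s t : Fin n → Prop) :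
    Closed (dstar a) (two s t) ↔ Closed a (two t s) := by
  constructor
  · intro h x y hxy
    have := h x.swap y.swap (by
      change a x.swap.swap y.swap.swap
      rwa [Sum.swap_swap, Sum.swap_swap])
    rcases x with x | x <;> rcases y with y | y <;> exact this
  · intro h x y hxy
    have := h x.swap y.swap hxy
    rcases x with x | x <;> rcases y with y | y <;> exact this

theorem dstar_dmul {n : ℕ} (a b : Diagram n) : dstar (dmul a b) = dmul (dstar b) (dstar a) := by
  apply closed_ext
  intro S
  rw [← two_eta S, closed_dstar, closed_dmul, closed_dmul]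
  constructor
  · rintro ⟨u, h1, h2⟩
    exact ⟨u, (closed_dstar _ _ _).2 h2, (closed_dstar _ _ _).2 h1⟩
  · rintro ⟨u, h1, h2⟩
    exact ⟨u, (closed_dstar _ _ _).1 h2, (closed_dstar _ _ _).1 h1⟩

theorem dstar_dstar {n : ℕ} (a : Diagram n) : dstar (dstar a) = a := by
  apply closed_ext
  intro S
  rw [← two_eta S, closed_dstar, closed_dstar]

/-- The diagram of an involution (fixed points give singleton blocks). -/
def relOf {α : Type*} (w : α → α) (hw : ∀ x, w (w x) = x) : Setoid α where
  r x y := y = x ∨ y = w x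
  iseqv := by
    refine ⟨fun x => Or.inl rfl, ?_, ?_⟩
    · rintro x y (h | h)
      · exact Or.inl h.symm
      · right; rw [h, hw]
    · rintro x y z (h | h) (h' | h')
      · left; rw [h', h]
      · right; rw [h', h]
      · right; rw [h', h]
      · left; rw [h', h, hw]

theorem closed_relOf {α : Type*} (w : α → α) (hw : ∀ x, w (w x) = x) (S : α → Prop) :
    Closed (relOf w hw) S ↔ ∀ x, S x ↔ S (w x) := by
  constructor
  · intro h x
    exact h x (w x) (Or.inr rfl)
  · rintro h x y (rfl | rfl)
    · rfl
    · exact h x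

theorem relOf_injective {α : Type*} {w w' : α → α} {hw : ∀ x, w (w x) = x}
    {hw' : ∀ x, w' (w' x) = x} (h : relOf w hw = relOf w' hw') : w = w' := by
  funext x
  have h1 : relOf w' hw' x (w x) := by rw [← h]; exact Or.inr rfl
  have h2 : relOf w hw x (w' x) := by rw [h]; exact Or.inr rfl
  rcases h1 with h1 | h1
  · rcases h2 with h2 | h2
    · rw [h1, h2]
    · exact h2.symm
  · exact h1

end Pool.Agent.W_MP_aeed81_al
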