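import Pool.Agent.W_MP_aeed81_al.HClassThm

set_option linter.unusedVariables false
set_option linter.unusedSectionVars false

namespace Pool.Agent.W_MP_aeed81_al

/-- the group of units of the corner of an idempotent -/
def HG {S : Type*} [Semigroup S] (e : S) (he : e * e = e) : Type _ :=
  {p : S × S // (e * p.1 = p.1 ∧ p.1 * e = p.1) ∧ (e * p.2 = p.2 ∧ p.2 * e = p.2) ∧
    p.1 * p.2 = e ∧ p.2 * p.1 = e}

theorem HG.ext {S : Type*} [Semigroup S] {e : S} {he : e * e = e} {a b : HG e he}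
    (h1 : a.1.1 = b.1.1) (h2 : a.1.2 = b.1.2) : a = b := Subtype.ext (Prod.ext h1 h2)

/-- multiplication -/
def HG.mulE {S : Type*} [Semigroup S] {e : S} {he : e * e = e} (a b : HG e he) : HG e he :=
  ⟨(a.1.1 * b.1.1, b.1.2 * a.1.2), by
    obtain ⟨⟨u, v⟩, ⟨h1, h2⟩, ⟨h3, h4⟩, h5, h6⟩ := a
    obtain ⟨⟨u', v'⟩, ⟨k1, k2⟩, ⟨k3, k4⟩, k5, k6⟩ := b
    simp only at *
    refine ⟨⟨by rw [← mul_assoc, h1], by rw [mul_assoc, k2]⟩,
      ⟨by rw [← mul_assoc, k3], by rw [mul_assoc, h4]⟩, ?_, ?_⟩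
    · calc u * u' * (v' * v) = u * (u' * v') * v := by simp only [mul_assoc]
        _ = e := by rw [k5, h2, h5]
    · calc v' * v * (u * u') = v' * (v * u) * u' := by simp only [mul_assoc]
        _ = e := by rw [h6, k4, k6]⟩

instance {S : Type*} [Semigroup S] (e : S) (he : e * e = e) : Group (HG e he) where
  mul := HG.mulE
  one := ⟨(e, e), ⟨he, he⟩, ⟨he, he⟩, he, he⟩
  inv a := ⟨(a.1.2, a.1.1), a.2.2.1, a.2.1, a.2.2.2.2, a.2.2.2.1⟩
  mul_assoc a b c := HG.ext (mul_assoc _ _ _) (mul_assoc _ _ _).symm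
  one_mul a := HG.ext a.2.1.1 a.2.2.1.2
  mul_one a := HG.ext a.2.1.2 a.2.2.1.1
  inv_mul_cancel a := HG.ext a.2.2.2.2 a.2.2.2.2

theorem exists_psi {S : Type*} [Semigroup S] {e : S} (he : e * e = e) {ι : Type*}
    (u v : ι → S) (h1 : ∀ i, e * u i = u i) (h2 : ∀ i, u i * e = u i) (h3 : ∀ i, e * v i = v i)
    (h4 : ∀ i, v i * e = v i) (h5 : ∀ i, u i * v i = e) (h6 : ∀ i, v i * u i = e) :
    ∃ ψ : FreeGroup ι → S, ψ 1 = e ∧ (∀ g h, ψ (g * h) = ψ g * ψ h) ∧
      (∀ i, ψ (FreeGroup.of i) = u i) ∧ (∀ i, ψ (FreeGroup.of i)⁻¹ = v i) ∧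
      ∀ g, e * ψ g = ψ g ∧ ψ g * e = ψ g := by
  let f : ι → HG e he := fun i => ⟨(u i, v i), ⟨h1 i, h2 i⟩, ⟨h3 i, h4 i⟩, h5 i, h6 i⟩
  let F : FreeGroup ι →* HG e he := FreeGroup.lift f
  refine ⟨fun g => (F g).1.1, ?_, ?_, ?_, ?_, ?_⟩
  · change (F 1).1.1 = e
    rw [map_one]; rfl
  · intro g h
    change (F (g * h)).1.1 = _
    rw [map_mul]; rfl
  · intro i
    change (F (FreeGroup.of i)).1.1 = _
    have : F (FreeGroup.of i) = f i := by simp [F]
    rw [this]
  · intro i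
    change (F (FreeGroup.of i)⁻¹).1.1 = _
    rw [map_inv]
    have : F (FreeGroup.of i) = f i := by simp [F]
    rw [this]; rfl
  · intro g
    exact (F g).2.1

/-- The operator action on `D × F`. -/
theorem hclass_of_cover {S : Type*} [Semigroup S] {D F : Type*} [Group F]
    (Φ : S → ROp (D × F)) (Φm : ∀ a b, Φ (a * b) = Φ a * Φ b)
    (gens : Set S) (hgen : ∀ P : S → Prop, (∀ a ∈ gens, P a) → (∀ a b, P a → P b → P (a * b)) →
      ∀ a, P a)
    (comm : ∀ a ∈ gens, ∀ (g : F) (d : D) (h : F), (Φ a).1 (some (d, g * h)) =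
      ((Φ a).1 (some (d, h))).map (fun p => (p.1, g * p.2)))
    (e : S) (he : e * e = e) (d0 : D) (h0 : (Φ e).1 (some (d0, 1)) = some (d0, 1))
    (fix : ∀ d g, (Φ e).1 (some (d, g)) = some (d, g) → (∃ s, e * s = s ∧
      (Φ s).1 (some (d0, 1)) = some (d, g)) → d = d0)
    (T : D → S) (ψ : F → S) (ψ1 : ψ 1 = e) (ψm : ∀ g h, ψ (g * h) = ψ g * ψ h)
    (T0 : T d0 = e) (ψact : ∀ g, (Φ (ψ g)).1 (some (d0, 1)) = some (d0, g))
    (step : ∀ a ∈ gens, ∀ d d' h, (Φ a).1 (some (d, 1)) = some (d', h) →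
      T d * a = ψ h * T d') : HClassIso e F := by
  have comm' : ∀ a, ∀ (g : F) (d : D) (h : F), (Φ a).1 (some (d, g * h)) =
      ((Φ a).1 (some (d, h))).map (fun p => (p.1, g * p.2)) := by
    apply hgen
    · exact comm
    · intro a b iha ihb g d h
      rw [Φm, ROp.mul_val, ROp.mul_val, iha]
      rcases hx : (Φ a).1 (some (d, h)) with _ | ⟨d', h'⟩
      · change (Φ b).1 none = ((Φ b).1 none).map _
        rw [(Φ b).2]; rfl
      · exact ihb g d' h'
  have main : ∀ s, ∀ d g d' g', (Φ s).1 (some (d, g)) = some (d', g') →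
      ψ g * T d * s = ψ g' * T d' := by
    apply hgen
    · intro a ha d g d' g' h
      have h1 := comm' a g d 1
      rw [mul_one, h] at h1
      rcases hx : (Φ a).1 (some (d, 1)) with _ | ⟨d1, g1⟩
      · rw [hx] at h1; simp at h1
      · rw [hx] at h1
        have h2 : (d', g') = (d1, g * g1) := Option.some.inj h1
        have h3 := step a ha d d1 g1 hx
        have e1 : d' = d1 := congrArg Prod.fst h2
        have e2 : g' = g * g1 := congrArg Prod.snd h2
        rw [e1, e2, mul_assoc, h3, ψm, mul_assoc]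
    · intro a b iha ihb d g d' g' h
      rw [Φm, ROp.mul_val] at h
      rcases hx : (Φ a).1 (some (d, g)) with _ | ⟨d1, g1⟩
      · rw [hx] at h
        have := (Φ b).2
        rw [this] at h; simp at h
      · rw [hx] at h
        rw [← mul_assoc, iha _ _ _ _ hx, ihb _ _ _ _ h]
  have val : ∀ s d g, e * s = s → (Φ s).1 (some (d0, 1)) = some (d, g) → s = ψ g * T d := by
    intro s d g hs h
    have := main s d0 1 d g h
    rw [ψ1, T0, he, hs] at this
    exact this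
  apply hclass_of_action (fun a x => (Φ a).1 x) (fun a b x => by rw [Φm]; rfl)
    (fun a => (Φ a).2) (G := F) (fun g p => (p.1, g * p.2))
    (fun g h x => by simp [mul_assoc]) (fun x => by simp)
    (fun g a x => comm' a g x.1 x.2) e he (d0, 1) h0
  · intro g h
    have : g * 1 = 1 := congrArg Prod.snd h
    simpa using this
  · rintro s t ⟨d, g⟩ hs ht hsx htx
    rw [val s d g hs hsx, val t d g ht htx]
  · intro g
    refine ⟨ψ g, ?_, ?_⟩
    · have := ψm 1 g
      rw [one_mul, ψ1] at this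
      exact this.symm
    · change (Φ (ψ g)).1 _ = some (d0, g * 1)
      rw [ψact, mul_one]
  · rintro ⟨d, g⟩ h hs
    have := fix d g h hs
    exact ⟨g, by simp [this]⟩

theorem HClassIso.congr {S : Type*} [Mul S] {e : S} {G H : Type*} [Group G] [Group H]
    (h : HClassIso e G) (f : H ≃* G) : HClassIso e H := by
  obtain ⟨φ, h1, h2, h3⟩ := h
  refine ⟨fun x => φ (f x), h1.comp f.injective, fun a b => by simp [h2], ?_⟩
  rw [← h3]
  ext s
  constructor
  · rintro ⟨x, rfl⟩; exact ⟨f x, rfl⟩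
  · rintro ⟨x, rfl⟩; exact ⟨f.symm x, by simp⟩

end Pool.Agent.W_MP_aeed81_al
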