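import Pool.Agent.W_MP_aeed81_al.FreeThm
import Pool.Agent.W_MP_aeed81_al.Build

set_option linter.unusedVariables false
set_option linter.unusedSectionVars false

namespace Pool.Agent.W_MP_aeed81_al

/-- A graph with a tree of depth at most two. -/
structure TGraph (D : Type) where
  adj : D → D → Prop
  symm : ∀ {a b}, adj a b → adj b a
  refl : ∀ a, adj a a
  d0 : D
  par : D → D
  ord : D → ℕ
  ord_inj : Function.Injective ord
  adj_par : ∀ d, adj (par d) d
  adj_par0 : ∀ d, adj d0 (par d)
  par_of_adj : ∀ d, adj d0 d → par d = d0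

namespace TGraph

variable {D : Type} (G : TGraph D)

/-- tree edges and loops -/
def tree (d c : D) : Prop := d = c ∨ c = G.par d ∨ d = G.par c

theorem tree_symm {d c : D} : G.tree d c ↔ G.tree c d := by
  unfold tree
  constructor
  · rintro (h | h | h)
    · exact Or.inl h.symm
    · exact Or.inr (Or.inr h)
    · exact Or.inr (Or.inl h)
  · rintro (h | h | h)
    · exact Or.inl h.symm
    · exact Or.inr (Or.inr h)
    · exact Or.inr (Or.inl h)

/-- the edges outside the tree -/
def Edge : Type := {p : D × D // G.adj p.1 p.2 ∧ ¬ G.tree p.1 p.2 ∧ G.ord p.1 < G.ord p.2}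

/-- constructor -/
def mkE (d c : D) (h : G.adj d c ∧ ¬ G.tree d c ∧ G.ord d < G.ord c) : G.Edge := ⟨(d, c), h⟩

/-- lower end -/
def Edge.fst {G : TGraph D} (i : G.Edge) : D := i.1.1

/-- upper end -/
def Edge.snd {G : TGraph D} (i : G.Edge) : D := i.1.2

theorem Edge.prop {G : TGraph D} (i : G.Edge) :
    G.adj i.fst i.snd ∧ ¬ G.tree i.fst i.snd ∧ G.ord i.fst < G.ord i.snd := i.2

open Classical in
/-- the label of an edge -/
noncomputable def lam (d c : D) : FreeGroup G.Edge :=
  if h : G.adj d c ∧ ¬ G.tree d c ∧ G.ord d < G.ord c then FreeGroup.of (G.mkE d c h)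
  else if h : G.adj c d ∧ ¬ G.tree c d ∧ G.ord c < G.ord d then (FreeGroup.of (G.mkE c d h))⁻¹
  else 1

theorem lam_tree {d c : D} (h : G.tree d c) : G.lam d c = 1 := by
  unfold lam
  rw [dif_neg (fun h' => h'.2.1 h), dif_neg (fun h' => h'.2.1 (G.tree_symm.1 h))]

theorem lam_self (d : D) : G.lam d d = 1 := G.lam_tree (Or.inl rfl)

theorem lam_inv (d c : D) : G.lam d c * G.lam c d = 1 := by
  unfold lam
  by_cases h : G.adj d c ∧ ¬ G.tree d c ∧ G.ord d < G.ord c
  · have h' : ¬ (G.adj c d ∧ ¬ G.tree c d ∧ G.ord c < G.ord d) := fun h' => by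
      have := h.2.2; have := h'.2.2; omega
    rw [dif_pos h, dif_neg h', dif_pos h]
    simp
  · by_cases h' : G.adj c d ∧ ¬ G.tree c d ∧ G.ord c < G.ord d
    · rw [dif_neg h, dif_pos h', dif_pos h']
      simp
    · rw [dif_neg h, dif_neg h', dif_neg h', dif_neg h]
      simp

open Classical in
/-- moving to the vertex `c` -/
noncomputable def op (c : D) : ROp (D × FreeGroup G.Edge) :=
  ROp.of (fun x => x.bind (fun p => if G.adj p.1 c then some (c, p.2 * G.lam p.1 c) else none)) rfl

open Classical in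
theorem op_pos {c d : D} {g : FreeGroup G.Edge} (h : G.adj d c) :
    (G.op c).1 (some (d, g)) = some (c, g * G.lam d c) := by
  change (if G.adj d c then some (c, g * G.lam d c) else none) = _
  rw [if_pos h]

open Classical in
theorem op_neg {c d : D} {g : FreeGroup G.Edge} (h : ¬ G.adj d c) :
    (G.op c).1 (some (d, g)) = none := by
  change (if G.adj d c then some (c, g * G.lam d c) else none) = _
  rw [if_neg h]

theorem op_idem (c : D) : G.op c * G.op c = G.op c := by
  apply ROp.ext
  rintro ⟨d, g⟩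
  rw [ROp.mul_val]
  by_cases h : G.adj d c
  · rw [G.op_pos h, G.op_pos (G.refl c), G.lam_self, mul_one]
  · rw [G.op_neg h]; exact (G.op c).2

theorem op_tri {c b : D} (h : G.adj c b) : G.op c * G.op b * G.op c = G.op c := by
  apply ROp.ext
  rintro ⟨d, g⟩
  rw [ROp.mul_val, ROp.mul_val]
  by_cases h1 : G.adj d c
  · rw [G.op_pos h1, G.op_pos h, G.op_pos (G.symm h), mul_assoc, mul_assoc, G.lam_inv, mul_one]
  · rw [G.op_neg h1, (G.op b).2]; exact (G.op c).2

/-- the zero operator -/
def zeroOp : ROp (D × FreeGroup G.Edge) := ROp.of (fun _ => none) rfl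

theorem op_far {c b : D} (h : ¬ G.adj c b) : G.op c * G.op b = G.zeroOp := by
  apply ROp.ext
  rintro ⟨d, g⟩
  rw [ROp.mul_val]
  by_cases h1 : G.adj d c
  · rw [G.op_pos h1, G.op_neg h]; rfl
  · rw [G.op_neg h1]; exact (G.op b).2

theorem zero_mul' (f : ROp (D × FreeGroup G.Edge)) : G.zeroOp * f = G.zeroOp := by
  apply ROp.ext
  intro x
  exact f.2

theorem mul_zero' (f : ROp (D × FreeGroup G.Edge)) : f * G.zeroOp = G.zeroOp := by
  apply ROp.ext
  intro x
  rfl

/-- The hook relations for moves to `c i j`. -/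
theorem hookSys {V : Type} (c : V → V → D) (csymm : ∀ i j, c i j = c j i)
    (hadj : ∀ i j k, i ≠ j → i ≠ k → j ≠ k → G.adj (c i j) (c j k))
    (hdis : (∀ i j k l, i ≠ j → i ≠ k → i ≠ l → j ≠ k → j ≠ l → k ≠ l → c i j = c k l) ∨
      (∀ i j k l, i ≠ j → i ≠ k → i ≠ l → j ≠ k → j ≠ l → k ≠ l → ¬ G.adj (c i j) (c k l))) :
    HookSys (fun i j => G.op (c i j)) := by
  constructor
  · intro i j; rw [csymm]
  · intro i j _; exact G.op_idem _
  · intro i j k l ij ik il jk jl kl
    rcases hdis with h | h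
    · rw [h i j k l ij ik il jk jl kl]
    · rw [G.op_far (h i j k l ij ik il jk jl kl),
        G.op_far (h k l i j kl ik.symm jk.symm il.symm jl.symm ij)]
  · intro i j k ij ik jk
    exact G.op_tri (hadj i j k ij ik jk)
  · intro a b x d ab ax ad bx bd xd
    rcases hdis with h | h
    · have e1 : G.op (c a b) = G.op (c x d) := by rw [h a b x d ab ax ad bx bd xd]
      have e2 : G.op (c a d) = G.op (c b x) := by
        rw [h a d b x ad ab ax bd.symm xd.symm bx]
      have h2 : G.adj (c b x) (c a b) := by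
        have := hadj x b a bx.symm ax.symm ab.symm
        rwa [csymm x b, csymm b a] at this
      rw [← e1, e2, G.op_idem, mul_assoc (G.op (c b x)), G.op_idem, G.op_tri h2]
    · rw [mul_assoc (G.op (c b x)), G.op_far (h a b x d ab ax ad bx bd xd), G.mul_zero',
        G.zero_mul', G.op_far (h b x a d bx ab.symm bd ax.symm xd ad)]
  · intro a b x d ab ax ad bx bd xd
    rcases hdis with h | h
    · have e1 : G.op (c a b) = G.op (c x d) := by rw [h a b x d ab ax ad bx bd xd]
      have e2 : G.op (c a d) = G.op (c b x) := by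
        rw [h a d b x ad ab ax bd.symm xd.symm bx]
      rw [e2, mul_assoc _ (G.op (c b x)) (G.op (c b x)), G.op_idem]
    · rw [G.op_far (h a b x d ab ax ad bx bd xd), G.zero_mul', G.zero_mul']
  · intro a b x d ab ax ad bx bd xd
    rcases hdis with h | h
    · have e1 : G.op (c a b) = G.op (c x d) := by rw [h a b x d ab ax ad bx bd xd]
      have e2 : G.op (c a d) = G.op (c b x) := by
        rw [h a d b x ad ab ax bd.symm xd.symm bx]
      rw [e2, G.op_idem]
    · rw [mul_assoc (G.op (c b x)), mul_assoc (G.op (c a d) * G.op (c b x)),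
        G.op_far (h a b x d ab ax ad bx bd xd), G.mul_zero', G.mul_zero']

end TGraph

end Pool.Agent.W_MP_aeed81_al
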