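import Pool.Agent.W_MP_aeed81_al.Graph
import Pool.Agent.W_MP_aeed81_al.BPG
import Pool.Agent.W_MP_aeed81_al.BMain2

set_option linter.unusedVariables false
set_option linter.unusedSectionVars false

namespace Pool.Agent.W_MP_aeed81_al

open TGraph

/-- Free maximal subgroups from a graph of projections without two-dimensional cells. -/
theorem graph_case {n : ℕ} {D : Type} (G : TGraph D) (Q : D → Inv (Fin n))
    (c : Fin n → Fin n → D) (csymm : ∀ i j, c i j = c j i)
    (hadj : ∀ i j k, i ≠ j → i ≠ k → j ≠ k → G.adj (c i j) (c j k))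
    (hdis : (∀ i j k l, i ≠ j → i ≠ k → i ≠ l → j ≠ k → j ≠ l → k ≠ l → c i j = c k l) ∨
      (∀ i j k l, i ≠ j → i ≠ k → i ≠ l → j ≠ k → j ≠ l → k ≠ l → ¬ G.adj (c i j) (c k l)))
    (hQ : ∀ d i, Q d i ≠ i → c i (Q d i) = d) (hne : ∀ d, ∃ i, Q d i ≠ i)
    (hth : ∀ d i j, i ≠ j → G.adj d (c i j) → thI i j (Q d) = Q (c i j))
    (hconj : ∀ d b, G.adj d b → xg (Q d) * xg (Q b) * xg (Q d) = xg (Q d)) :
    HClassIso (xg (Q G.d0)) (FreeGroup G.Edge) := by
  obtain ⟨Y, R, Y1, Yh⟩ := exists_X (G.hookSys c csymm hadj hdis)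
  obtain ⟨Φ, Φm, Φx⟩ := lift_hookRep Y R
  set x : D → PG (Brauer n) := fun d => xg (Q d) with hx'
  have xi : ∀ d, x d * x d = x d := fun d => hookRep_xg.idem (Q d)
  -- action of `x c`
  have stay : ∀ (q : Inv (Fin n)) (b : D) (g : FreeGroup G.Edge),
      (∀ i, q i ≠ i → c i (q i) = b) → (Y q).1 (some (b, g)) = some (b, g) := by
    intro q b g
    induction q using Inv.induction with
    | h1 => intro _; rw [Y1]; rfl
    | hr q i hi ih =>
      intro h
      rw [R.rc q i hi, ROp.mul_val, Yh _ _ (Ne.symm hi)]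
      change (Y (eraseI q i)).1 ((G.op (c i (q i))).1 (some (b, g))) = _
      rw [h i hi, G.op_pos (G.refl b), G.lam_self, mul_one]
      apply ih
      intro k hk
      have h1 : ¬ (k = i ∨ k = q i) := by
        intro h'
        apply hk
        simp [eraseI, h']
      have h2 : (eraseI q i) k = q k := by simp only [eraseI]; rw [if_neg h1]
      rw [h2] at hk ⊢
      exact h k hk
  have move : ∀ (d b : D) (g : FreeGroup G.Edge), G.adj d b →
      (Φ (x b)).1 (some (d, g)) = some (b, g * G.lam d b) := by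
    intro d b g hdb
    rw [Φx]
    obtain ⟨i, hi⟩ := hne b
    rw [R.rc (Q b) i hi, ROp.mul_val, Yh _ _ (Ne.symm hi)]
    change (Y (eraseI (Q b) i)).1 ((G.op (c i (Q b i))).1 (some (d, g))) = _
    rw [hQ b i hi, G.op_pos hdb]
    apply stay
    intro k hk
    have h1 : ¬ (k = i ∨ k = Q b i) := by
      intro h'
      apply hk
      simp [eraseI, h']
    have h2 : (eraseI (Q b) i) k = Q b k := by simp only [eraseI]; rw [if_neg h1]
    rw [h2] at hk ⊢
    exact hQ b k hk
  -- paths
  set T : D → PG (Brauer n) := fun d => x G.d0 * x (G.par d) * x d with hT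
  set T' : D → PG (Brauer n) := fun d => x d * x (G.par d) * x G.d0 with hT'
  have pp : ∀ d, G.par (G.par d) = G.d0 := fun d => G.par_of_adj _ (G.adj_par0 d)
  have p0 : G.par G.d0 = G.d0 := G.par_of_adj _ (G.refl _)
  have TT' : ∀ d, T d * T' d = x G.d0 := by
    intro d
    simp only [hT, hT']
    calc x G.d0 * x (G.par d) * x d * (x d * x (G.par d) * x G.d0)
        = x G.d0 * x (G.par d) * (x d * x d) * x (G.par d) * x G.d0 := by simp only [mul_assoc]
      _ = x G.d0 * (x (G.par d) * x d * x (G.par d)) * x G.d0 := by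
          rw [xi]; simp only [mul_assoc]
      _ = x G.d0 := by rw [hconj _ _ (G.adj_par d), hconj _ _ (G.adj_par0 d)]
  have T'T : ∀ d, T' d * T d = x d := by
    intro d
    simp only [hT, hT']
    calc x d * x (G.par d) * x G.d0 * (x G.d0 * x (G.par d) * x d)
        = x d * x (G.par d) * (x G.d0 * x G.d0) * x (G.par d) * x d := by simp only [mul_assoc]
      _ = x d * (x (G.par d) * x G.d0 * x (G.par d)) * x d := by
          rw [xi]; simp only [mul_assoc]
      _ = x d := by
          rw [hconj _ _ (G.symm (G.adj_par0 d)), hconj _ _ (G.symm (G.adj_par d))]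
  have Tx : ∀ d, T d * x d = T d := by
    intro d; simp only [hT]; rw [mul_assoc, xi]
  have xT' : ∀ d, x d * T' d = T' d := by
    intro d; simp only [hT']; rw [← mul_assoc, ← mul_assoc, xi]
  have eT : ∀ d, x G.d0 * T d = T d := by
    intro d; simp only [hT]; rw [← mul_assoc, ← mul_assoc, xi]
  have T'e : ∀ d, T' d * x G.d0 = T' d := by
    intro d; simp only [hT']; rw [mul_assoc, xi]
  have cyc : ∀ a b, G.adj a b → T a * x b * T' b * (T b * x a * T' a) = x G.d0 := by
    intro a b hab
    calc T a * x b * T' b * (T b * x a * T' a)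
        = T a * x b * (T' b * T b) * x a * T' a := by simp only [mul_assoc]
      _ = T a * (x b * x b) * x a * T' a := by rw [T'T]; simp only [mul_assoc]
      _ = T a * x a * x b * x a * T' a := by rw [xi, Tx]
      _ = T a * (x a * x b * x a) * T' a := by simp only [mul_assoc]
      _ = x G.d0 := by rw [hconj _ _ hab, Tx, TT']
  have eu : ∀ a b, x G.d0 * (T a * x b * T' b) = T a * x b * T' b := by
    intro a b
    rw [mul_assoc (T a), ← mul_assoc (x G.d0) (T a), eT]
  have ue : ∀ a b, T a * x b * T' b * x G.d0 = T a * x b * T' b := by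
    intro a b
    rw [mul_assoc (T a * x b), T'e]
  obtain ⟨ψ, ψ1, ψm, ψu, ψv, ψe⟩ := exists_psi (xi G.d0) (ι := G.Edge)
    (fun i => T i.fst * x i.snd * T' i.snd) (fun i => T i.snd * x i.fst * T' i.fst)
    (fun i => eu _ _) (fun i => ue _ _) (fun i => eu _ _) (fun i => ue _ _)
    (fun i => cyc _ _ i.prop.1) (fun i => cyc _ _ (G.symm i.prop.1))
  -- the main step
  have step : ∀ d b, G.adj d b → T d * x b = ψ (G.lam d b) * T b := by
    intro d b hdb
    by_cases ht : G.tree d b
    · rw [G.lam_tree ht, ψ1, eT]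
      rcases ht with rfl | h | h
      · exact Tx d
      · subst h
        simp only [hT]
        rw [pp, mul_assoc (x G.d0 * x (G.par d)), mul_assoc (x G.d0), ← mul_assoc (x (G.par d)),
          hconj _ _ (G.adj_par d), xi]
      · subst h
        simp only [hT]
        rw [pp, xi]
    · have key : ∀ a b, G.adj a b → T a * x b * T' b * T b = T a * x b := by
        intro a b _
        rw [mul_assoc (T a * x b), T'T, mul_assoc, xi]
      unfold TGraph.lam
      by_cases h : G.adj d b ∧ ¬ G.tree d b ∧ G.ord d < G.ord b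
      · rw [dif_pos h, ψu]
        exact (key d b hdb).symm
      · have hb : G.adj b d ∧ ¬ G.tree b d ∧ G.ord b < G.ord d := by
          refine ⟨G.symm hdb, fun h' => ht (G.tree_symm.1 h'), ?_⟩
          have h1 : ¬ G.ord d < G.ord b := fun h' => h ⟨hdb, ht, h'⟩
          have h2 : G.ord d ≠ G.ord b := fun h' => ht (Or.inl (G.ord_inj h'))
          omega
        rw [dif_neg h, dif_pos hb, ψv]
        exact (key d b hdb).symm
  apply hclass_of_cover Φ Φm (gens := {a | a = xg Inv.one ∨ ∃ i j, i ≠ j ∧ a = xg (hookI i j)})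
    ?_ ?_ (xg (Q G.d0)) (xi G.d0) G.d0 ?_ ?_ T ψ ψ1 ψm ?_ ?_ ?_
  · -- generation
    intro P h1 h2
    apply xg_induction
    · apply Inv.induction
      · exact h1 _ (Or.inl rfl)
      · intro q i hi ih
        rw [hookRep_xg.rc q i hi]
        exact h2 _ _ (h1 _ (Or.inr ⟨i, q i, Ne.symm hi, rfl⟩)) ih
    · exact h2
  · -- commutation
    rintro a (rfl | ⟨i, j, hij, rfl⟩) g d h
    · rw [Φx, Y1]; rfl
    · rw [Φx, Yh i j hij]
      change (G.op (c i j)).1 _ = ((G.op (c i j)).1 _).map _
      by_cases hd : G.adj d (c i j)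
      · rw [G.op_pos hd, G.op_pos hd, mul_assoc]; rfl
      · rw [G.op_neg hd, G.op_neg hd]; rfl
  · have := move G.d0 G.d0 1 (G.refl _)
    rw [G.lam_self, mul_one] at this
    exact this
  · -- fixed points
    intro d g h _
    obtain ⟨i, hi⟩ := hne G.d0
    rw [Φx, R.rc' _ i hi, ROp.mul_val, Yh _ _ (Ne.symm hi)] at h
    change (G.op (c i (Q G.d0 i))).1 _ = _ at h
    rw [hQ _ i hi] at h
    rcases hx2 : (Y (eraseI (Q G.d0) i)).1 (some (d, g)) with _ | ⟨d1, g1⟩
    · rw [hx2, (G.op G.d0).2] at h; simp at h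
    · rw [hx2] at h
      by_cases h3 : G.adj d1 G.d0
      · rw [G.op_pos h3] at h
        exact (congrArg Prod.fst (Option.some.inj h)).symm
      · rw [G.op_neg h3] at h; simp at h
  · -- base path
    simp only [hT]
    rw [p0, xi, xi]
  · -- ψ acts correctly
    have tp : ∀ d g, (Φ (T d)).1 (some (G.d0, g)) = some (d, g) := by
      intro d g
      simp only [hT]
      rw [Φm, Φm, ROp.mul_val, ROp.mul_val, move _ _ _ (G.refl _), move _ _ _ (G.adj_par0 d),
        move _ _ _ (G.adj_par d), G.lam_self, G.lam_tree (Or.inr (Or.inr (pp d).symm)),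
        G.lam_tree (Or.inr (Or.inr rfl))]
      simp
    have tp' : ∀ d g, (Φ (T' d)).1 (some (d, g)) = some (G.d0, g) := by
      intro d g
      simp only [hT']
      rw [Φm, Φm, ROp.mul_val, ROp.mul_val, move _ _ _ (G.refl _),
        move _ _ _ (G.symm (G.adj_par d)), move _ _ _ (G.symm (G.adj_par0 d)), G.lam_self,
        G.lam_tree (Or.inr (Or.inl rfl)), G.lam_tree (Or.inr (Or.inl (pp d).symm))]
      simp
    have lp : ∀ a b g, G.adj a b → (Φ (T a * x b * T' b)).1 (some (G.d0, g)) =
        some (G.d0, g * G.lam a b) := by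
      intro a b g hab
      rw [Φm, Φm, ROp.mul_val, ROp.mul_val, tp, move _ _ _ hab, tp']
    have lamE : ∀ i : G.Edge, G.lam i.fst i.snd = FreeGroup.of i := by
      intro i
      unfold TGraph.lam
      rw [dif_pos i.prop]; rfl
    have lamE' : ∀ i : G.Edge, G.lam i.snd i.fst = (FreeGroup.of i)⁻¹ := by
      intro i
      have := G.lam_inv i.fst i.snd
      rw [lamE] at this
      exact (eq_inv_of_mul_eq_one_right this)
    have gen : ∀ g h, (Φ (ψ g)).1 (some (G.d0, h)) = some (G.d0, h * g) := by
      intro g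
      induction g using FreeGroup.induction_on with
      | C1 =>
        intro h
        rw [ψ1]
        have := move G.d0 G.d0 h (G.refl _)
        rw [G.lam_self] at this
        exact this
      | of i => intro h; rw [ψu, lp _ _ _ i.prop.1, lamE]
      | inv_of i _ => intro h; rw [ψv, lp _ _ _ (G.symm i.prop.1), lamE']
      | mul a b iha ihb => intro h; rw [ψm, Φm, ROp.mul_val, iha, ihb, mul_assoc]
    intro g
    have := gen g 1
    rwa [one_mul] at this
  · -- step
    rintro a (rfl | ⟨i, j, hij, rfl⟩) d d' h hact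
    · rw [Φx, Y1] at hact
      have := Option.some.inj hact
      have e1 : d = d' := congrArg Prod.fst this
      have e2 : (1 : FreeGroup G.Edge) = h := congrArg Prod.snd this
      subst e1 e2
      rw [ψ1, eT, PG_mul_one]
    · rw [Φx, Yh i j hij] at hact
      change (G.op (c i j)).1 _ = _ at hact
      by_cases hd : G.adj d (c i j)
      · rw [G.op_pos hd, one_mul] at hact
        have := Option.some.inj hact
        have e1 : c i j = d' := congrArg Prod.fst this
        have e2 : G.lam d (c i j) = h := congrArg Prod.snd this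
        subst e1 e2
        rw [← step d _ hd]
        have h1 := (hookRep_xg.conjH hij (Q d)).2
        rw [hth d i j hij hd] at h1
        calc T d * xg (hookI i j) = T d * (x d * xg (hookI i j)) := by
              rw [← mul_assoc, Tx]
          _ = T d * (x d * x (c i j)) := by rw [h1]
          _ = T d * x (c i j) := by rw [← mul_assoc, Tx]
      · rw [G.op_neg hd] at hact; simp at hact

end Pool.Agent.W_MP_aeed81_al
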