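import Pool.Agent.W_MP_aeed81_al.Defs

set_option linter.unusedVariables false
set_option linter.unusedSectionVars false

namespace Pool.Agent.W_MP_aeed81_al

/-- Computing an `H`-class from an action. -/
theorem hclass_of_action {S : Type*} [Semigroup S] {Ω : Type*} (act : S → Option Ω → Option Ω)
    (act_mul : ∀ a b x, act (a * b) x = act b (act a x)) (act_none : ∀ a, act a none = none)
    {G : Type*} [Group G] (gs : G → Ω → Ω) (gs_mul : ∀ g h x, gs (g * h) x = gs g (gs h x))
    (gs_one : ∀ x, gs 1 x = x)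
    (comm : ∀ g a x, act a (some (gs g x)) = (act a (some x)).map (gs g))
    (e : S) (he : e * e = e) (o : Ω) (ho : act e (some o) = some o)
    (free : ∀ g, gs g o = o → g = 1)
    (inj : ∀ s t x, e * s = s → e * t = t → act s (some o) = some x → act t (some o) = some x →
      s = t)
    (surj : ∀ g, ∃ s, e * s = s ∧ act s (some o) = some (gs g o))
    (fix : ∀ x, act e (some x) = some x → (∃ s, e * s = s ∧ act s (some o) = some x) →
      ∃ g, x = gs g o) : HClassIso e G := by
  choose φ h1 h2 using surj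
  have hmul : ∀ a b, φ (a * b) = φ a * φ b := by
    intro a b
    apply inj _ _ (gs (a * b) o) (h1 _) (by rw [← mul_assoc, h1]) (h2 _)
    rw [act_mul, h2 a, comm, h2 b, gs_mul]; rfl
  have hone : φ 1 = e := by
    apply inj _ _ o (h1 _) he (by rw [h2, gs_one]) ho
  have hinj : Function.Injective φ := by
    intro a b hab
    have e1 : gs a o = gs b o := by
      have := h2 a
      rw [hab, h2 b] at this
      exact (Option.some.inj this).symm
    have e2 : gs (b⁻¹ * a) o = o := by
      rw [gs_mul, e1, ← gs_mul, inv_mul_cancel, gs_one]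
    have := free _ e2
    exact (inv_mul_eq_one.1 this).symm
  refine ⟨φ, hinj, hmul, ?_⟩
  ext s
  constructor
  · rintro ⟨g, rfl⟩
    have e1 : φ g * φ g⁻¹ = e := by rw [← hmul, mul_inv_cancel, hone]
    have e2 : φ g⁻¹ * φ g = e := by rw [← hmul, inv_mul_cancel, hone]
    refine ⟨Or.inr ⟨⟨_, e1⟩, ⟨φ g, h1 g⟩⟩, Or.inr ⟨⟨_, e2⟩, ⟨φ g, ?_⟩⟩⟩
    rw [← hone, ← hmul, mul_one]
  · rintro ⟨hR, hL⟩
    have es : e * s = s := by
      rcases hR with h | ⟨_, ⟨y, hy⟩⟩
      · rw [h, he]
      · rw [← hy, ← mul_assoc, he]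
    have se : s * e = s := by
      rcases hL with h | ⟨_, ⟨y, hy⟩⟩
      · rw [h, he]
      · rw [← hy, mul_assoc, he]
    have hst : ∃ t, s * t = e := by
      rcases hR with h | ⟨h, _⟩
      · exact ⟨e, by rw [h, he]⟩
      · exact h
    obtain ⟨t, ht⟩ := hst
    rcases hω : act s (some o) with _ | ω
    · exfalso
      have := act_mul s t (some o)
      rw [ht, ho, hω, act_none] at this
      simp at this
    · have hfix : act e (some ω) = some ω := by
        rw [← hω, ← act_mul, se]
      obtain ⟨g, hg⟩ := fix ω hfix ⟨s, es, hω⟩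
      exact ⟨g, inj _ _ ω (h1 g) es (by rw [h2, hg]) hω⟩

/-- right operators -/
def ROp (Ω : Type*) : Type _ := {f : Option Ω → Option Ω // f none = none}

/-- constructor -/
def ROp.of {Ω : Type*} (f : Option Ω → Option Ω) (h : f none = none) : ROp Ω := ⟨f, h⟩

instance (Ω : Type*) : Monoid (ROp Ω) where
  mul f g := ⟨fun x => g.1 (f.1 x), (congrArg g.1 f.2).trans g.2⟩
  mul_assoc _ _ _ := rfl
  one := ⟨fun x => x, rfl⟩
  one_mul _ := rfl
  mul_one _ := rfl

theorem ROp.mul_val {Ω : Type*} (f g : ROp Ω) (x : Option Ω) : (f * g).1 x = g.1 (f.1 x) := rfl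

theorem ROp.one_val {Ω : Type*} (x : Option Ω) : (1 : ROp Ω).1 x = x := rfl

theorem ROp.ext {Ω : Type*} {f g : ROp Ω} (h : ∀ x, f.1 (some x) = g.1 (some x)) : f = g := by
  apply Subtype.ext
  funext x
  rcases x with _ | x
  · rw [f.2, g.2]
  · exact h x

end Pool.Agent.W_MP_aeed81_al
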