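import Mathlib

set_option linter.unusedVariables false

namespace Pool.Agent.W_MP_aeed81_al

/-- fixed point free involution -/
structure FPI {W : Type*} (w : W → W) : Prop where
  inv : ∀ x, w (w x) = x
  ne : ∀ x, w x ≠ x

variable {W : Type*} [DecidableEq W]

/-- Join `i` with `j` and the old partner of `i` with the old partner of `j`. -/
def hk (i j : W) (w : W → W) : W → W := fun x =>
  if x = i then j else if x = j then i else if x = w i then w j else if x = w j then w i else w x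

theorem hk_fpi {i j : W} (hij : i ≠ j) {w : W → W} (h : FPI w) : FPI (hk i j w) := by
  obtain ⟨h1, h2⟩ := h
  constructor
  · intro x
    have a1 := h1 x
    have a2 := h1 i
    have a3 := h1 j
    have a4 := h2 x
    have a5 := h2 i
    have a6 := h2 j
    simp only [hk]
    grind
  · intro x
    have a1 := h1 x
    have a2 := h1 i
    have a3 := h1 j
    have a4 := h2 x
    have a5 := h2 i
    have a6 := h2 j
    simp only [hk]
    grind

theorem hk_of_eq {i j : W} {w : W → W} (h : FPI w) (e : w i = j) : hk i j w = w := by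
  obtain ⟨h1, h2⟩ := h
  funext x
  have a1 := h1 x
  have a2 := h1 i
  have a3 := h1 j
  simp only [hk]
  grind

theorem hk_left (i j : W) (w : W → W) : hk i j w i = j := by simp [hk]

theorem hk_right {i j : W} (hij : i ≠ j) (w : W → W) : hk i j w j = i := by
  simp [hk, hij.symm]

theorem hk_symm {i j : W} (hij : i ≠ j) {w : W → W} (h : FPI w) : hk i j w = hk j i w := by
  obtain ⟨h1, h2⟩ := h
  funext x
  have a1 := h1 x
  have a2 := h1 i
  have a3 := h1 j
  simp only [hk]
  grind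

theorem hk_comm {i j k l : W} (h1 : i ≠ j) (h2 : i ≠ k) (h3 : i ≠ l) (h4 : j ≠ k) (h5 : j ≠ l)
    (h6 : k ≠ l) {w : W → W} (h : FPI w) : hk i j (hk k l w) = hk k l (hk i j w) := by
  obtain ⟨hi, hn⟩ := h
  funext x
  have a1 := hi x
  have a2 := hi i
  have a3 := hi j
  have a4 := hi k
  have a5 := hi l
  have b2 := hn i
  have b3 := hn j
  have b4 := hn k
  have b5 := hn l
  clear hi hn
  simp only [hk]
  grind (splits := 40)


theorem I1 {n B u α : W} {w : W → W} (h : FPI w) (hn : w n = B) (hu : w α = u) (h2 : n ≠ α)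
    (h3 : n ≠ u) : hk n B (hk u B w) = w := by
  obtain ⟨h1, h2⟩ := h
  funext x
  have a1 := h1 x
  have a2 := h1 n
  have a3 := h1 α
  have b1 := h2 x
  have b2 := h2 n
  have b3 := h2 α
  clear h1 h2
  simp only [hk]
  grind (splits := 40)

theorem I3 {n B u α : W} {w : W → W} (h : FPI w) (hn : w n = B) (hu : w α = u) (h2 : n ≠ α)
    (h3 : n ≠ u) : hk B u (hk n u w) = hk u B w := by
  obtain ⟨h1, h2⟩ := h
  funext x
  have a1 := h1 x
  have a2 := h1 n
  have a3 := h1 α
  have b1 := h2 x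
  have b2 := h2 n
  have b3 := h2 α
  clear h1 h2
  simp only [hk]
  grind (splits := 40)

theorem I4 {n B u α j C : W} {w : W → W} (h : FPI w) (hn : w n = B) (hu : w α = u) (hj : w j = C)
    (h2 : n ≠ α) (h3 : n ≠ u) (h4 : j ≠ n) (h5 : j ≠ B) (h6 : j ≠ u) (h7 : j ≠ α) :
    hk C B (hk u j w) = hk u j (hk u B w) := by
  obtain ⟨h1, h2⟩ := h
  funext x
  have a1 := h1 x
  have a2 := h1 n
  have a3 := h1 α
  have a4 := h1 j
  have b1 := h2 x
  have b2 := h2 n
  have b3 := h2 α
  have b4 := h2 j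
  clear h1 h2
  simp only [hk]
  grind (splits := 40)

theorem I5 {n B u α j C : W} {w : W → W} (h : FPI w) (hn : w n = B) (hu : w α = u) (hj : w j = C)
    (h2 : n ≠ α) (h3 : n ≠ u) (h4 : j ≠ n) (h5 : j ≠ B) (h6 : j ≠ u) (h7 : j ≠ α) :
    hk u C (hk B j w) = hk B j (hk u B w) := by
  obtain ⟨h1, h2⟩ := h
  funext x
  have a1 := h1 x
  have a2 := h1 n
  have a3 := h1 α
  have a4 := h1 j
  have b1 := h2 x
  have b2 := h2 n
  have b3 := h2 α
  have b4 := h2 j
  clear h1 h2
  simp only [hk]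
  grind (splits := 40)

theorem I6 {n B u α j : W} {w : W → W} (h : FPI w) (hn : w n = B) (hu : w α = u)
    (h2 : n ≠ α) (h3 : n ≠ u) (h4 : j ≠ n) (h5 : j ≠ B) (h6 : j ≠ u) (h7 : j ≠ α) :
    hk u j (hk n j w) = hk u j (hk u B w) := by
  obtain ⟨h1, h2⟩ := h
  funext x
  have a1 := h1 x
  have a2 := h1 n
  have a3 := h1 α
  have a4 := h1 j
  have b1 := h2 x
  have b2 := h2 n
  have b3 := h2 α
  have b4 := h2 j
  clear h1 h2
  simp only [hk]
  grind (splits := 40)

theorem IA {n α j C : W} {w : W → W} (h : FPI w) (hn : w n = α) (hj : w j = C)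
    (h4 : j ≠ n) (h5 : j ≠ α) :
    hk n j w α = C ∧ hk C j (hk n j w) = w := by
  obtain ⟨h1, h2⟩ := h
  have a2 := h1 n
  have a4 := h1 j
  have b2 := h2 n
  have b4 := h2 j
  constructor
  · clear h1 h2
    simp only [hk]
    grind (splits := 40)
  funext x
  have a1 := h1 x
  have b1 := h2 x
  clear h1 h2
  simp only [hk]
  grind (splits := 40)

theorem ICrev {n c d : W} {w : W → W} (h : FPI w) (hn : w c = d)
    (h4 : c ≠ n) (h5 : d ≠ n) :
    hk n d (hk n c w) = hk n d w := by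
  obtain ⟨h1, h2⟩ := h
  have a2 := h1 n
  have a4 := h1 c
  have b2 := h2 n
  have b4 := h2 c
  funext x
  have a1 := h1 x
  have b1 := h2 x
  clear h1 h2
  simp only [hk]
  grind (splits := 40)

theorem ICoth {n c d c' d' : W} {w : W → W} (h : FPI w) (hn : w c = d) (hn' : w c' = d')
    (h4 : c ≠ n) (h5 : d ≠ n) (h6 : c' ≠ n) (h7 : d' ≠ n) (h8 : c' ≠ c) (h9 : c' ≠ d) :
    hk c d (hk d c' (hk n c w)) = hk n c' w := by
  obtain ⟨h1, h2⟩ := h
  have a2 := h1 n
  have a4 := h1 c
  have a5 := h1 c'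
  have b2 := h2 n
  have b4 := h2 c
  have b5 := h2 c'
  funext x
  have a1 := h1 x
  have b1 := h2 x
  clear h1 h2
  simp only [hk]
  grind (splits := 60)

theorem ICexit {n B j : W} {w : W → W} (h : FPI w) (hn : w n = B)
    (h4 : j ≠ n) (h5 : j ≠ B) :
    hk n B (hk B j w) = w := by
  obtain ⟨h1, h2⟩ := h
  have a2 := h1 n
  have a4 := h1 j
  have b2 := h2 n
  have b4 := h2 j
  funext x
  have a1 := h1 x
  have b1 := h2 x
  clear h1 h2
  simp only [hk]
  grind (splits := 60)

theorem IC4 {n i j c : W} {w : W → W} (h : FPI w) (hn : w i = c)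
    (h4 : i ≠ n) (h5 : j ≠ n) (h6 : c ≠ n) (h7 : i ≠ j) (h8 : c ≠ j) :
    hk n j (hk i j w) = hk n j (hk n c w) := by
  obtain ⟨h1, h2⟩ := h
  have a2 := h1 n
  have a3 := h1 i
  have a4 := h1 j
  have b2 := h2 n
  have b3 := h2 i
  have b4 := h2 j
  funext x
  have a1 := h1 x
  have b1 := h2 x
  clear h1 h2
  simp only [hk]
  grind (splits := 60)

end Pool.Agent.W_MP_aeed81_al
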