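import Pool.Agent.W_MP_aeed81_al.MGen

set_option linter.unusedVariables false
set_option linter.unusedSectionVars false

namespace Pool.Agent.W_MP_aeed81_al

namespace MD

variable {n : ℕ}

/-- swapping two points -/
def sw (a b : ℕ) : ℕ → ℕ := fun i => if i = a then b else if i = b then a else i

/-- defects after a move -/
def mvX (X : ℕ → Bool) (a e : ℕ) : ℕ → Bool := fun i => if i = a then false else if i = e then true else X i

/-- one arc -/
def arc (X : ℕ → Bool) (hX : ∀ i, n ≤ i → X i = true) (a b : ℕ) (hab : a < b)
    (h : ∀ i, a ≤ i → i ≤ b → X i = false) : MD n where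
  w := sw a b
  X := X
  inv := by intro i; simp only [sw]; grind
  fix := by
    intro i hi
    have h1 := h i
    simp only [sw]
    grind
  big := hX
  pl := by
    intro i j h1 h2
    have h3 := h j
    simp only [sw] at h2 ⊢
    grind

theorem hc_w (a b : ℕ) (hab : a < b) (hb : b < n) (f : MD n) (i : ℕ) :
    (hc a b hab hb f).w i = hkW a b (fun i => if ¬ (a < i ∧ i < b) ∧ ¬ (a < f.w i ∧ f.w i < b) then
      f.w i else i) i := by
  change hkW a b (fun i => if outY a b i = true ∧ outY a b (f.w i) = true then f.w i else i) i = _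
  simp only [outY_iff]

theorem hc_X (a b : ℕ) (hab : a < b) (hb : b < n) (f : MD n) (i : ℕ) :
    (hc a b hab hb f).X i = hkX a b (fun i => if ¬ (a < i ∧ i < b) ∧ ¬ (a < f.w i ∧ f.w i < b) then
      f.w i else i) (fun i => if a < i ∧ i < b then false else f.X i) i := by
  change hkX a b (fun i => if outY a b i = true ∧ outY a b (f.w i) = true then f.w i else i)
    (fun i => f.X i && outY a b i) i = _
  have : (fun i => f.X i && outY a b i) = (fun i => if a < i ∧ i < b then false else f.X i) := by
    funext i
    by_cases h : a < i ∧ i < b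
    · have : outY a b i = false := by
        cases hh : outY a b i
        · rfl
        · rw [outY_iff] at hh; exact absurd h hh
      simp [h, this]
    · have : outY a b i = true := by rw [outY_iff]; exact h
      simp [h, this]
  rw [this]
  simp only [outY_iff]

theorem hc_one (X : ℕ → Bool) (hX : ∀ i, n ≤ i → X i = true) (a b : ℕ) (hab : a < b) (hb : b < n)
    (h : ∀ i, a ≤ i → i ≤ b → X i = false) : hc a b hab hb (one X hX) = arc X hX a b hab h := by
  apply MD.ext
  · funext i
    rw [hc_w]
    change _ = sw a b i
    simp only [hkW, one, sw]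
    grind
  · funext i
    rw [hc_X]
    change _ = X i
    have h1 := h i
    simp only [hkX, one]
    grind

/-- the slide of a defect -/
theorem hc_slide_X (f : MD n) (x y z : ℕ) (hxy : x < y) (hy : y < n) (hyz : y < z) (hx : f.X x = true)
    (hw : f.w y = z) (hin : ∀ i, x < i → i ≤ z → f.X i = false) :
    (hc x y hxy hy f).X = mvX f.X x z := by
  have hwz : f.w z = y := by rw [← hw, f.inv]
  have hwx := f.fix x hx
  funext i
  rw [hc_X]
  simp only [hkX, mvX, hw, hwx]
  have h1 := hin i
  have h2 := hin y
  have h3 := hin z
  grind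

theorem hc_arc_slide (X : ℕ → Bool) (hX : ∀ i, n ≤ i → X i = true) (x y z : ℕ) (hxy : x < y)
    (hyz : y < z) (hz : z < n) (hx : X x = true) (hin : ∀ i, x < i → i ≤ z → X i = false)
    (hX' : ∀ i, n ≤ i → mvX X x z i = true) (hin' : ∀ i, x ≤ i → i ≤ y → mvX X x z i = false) :
    hc x y hxy (by omega) (arc X hX y z hyz (fun i h1 h2 => hin i (by omega) h2)) =
      arc (mvX X x z) hX' x y hxy hin' := by
  apply MD.ext
  · funext i
    rw [hc_w]
    change _ = sw x y i
    simp only [hkW, arc, sw]
    grind
  · rw [hc_slide_X]
    · rfl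
    · exact hyz
    · exact hx
    · change sw y z y = z
      simp [sw]
    · exact hin

/-- two arcs side by side -/
theorem hc_arc_disj_w (X : ℕ → Bool) (hX : ∀ i, n ≤ i → X i = true) (b c d e : ℕ) (hbc : b < c)
    (hcd : c < d) (hde : d < e) (he : e < n) (h : ∀ i, b ≤ i → i ≤ c → X i = false) :
    (hc d e hde he (arc X hX b c hbc h)).w = fun i => if i = b then c else if i = c then b else
      if i = d then e else if i = e then d else i := by
  funext i
  rw [hc_w]
  simp only [hkW, arc, sw]
  grind

end MD

end Pool.Agent.W_MP_aeed81_al
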