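import Pool.Agent.W_MP_aeed81_al.Defs

set_option linter.unusedVariables false
set_option linter.unusedSectionVars false
set_option warn.classDefReducibility false

namespace Pool.Agent.W_MP_aeed81_al

variable {n : ℕ} {S : Set (Diagram n)}

theorem gen_idem (p : Proj S) : gen p * gen p = gen p :=
  (Con.eq _).2 (ConGen.Rel.of _ _ (PGRel.idem p))

theorem gen_sq (p q : Proj S) : gen p * gen q * (gen p * gen q) = gen p * gen q :=
  (Con.eq _).2 (ConGen.Rel.of _ _ (PGRel.sq p q))

theorem gen_conj (p q s : Proj S) (h : dmul (dmul p.1 q.1) p.1 = s.1) :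
    gen p * gen q * gen p = gen s :=
  (Con.eq _).2 (ConGen.Rel.of _ _ (PGRel.conj p q s h))

theorem PG_induction {P : PG S → Prop} (h1 : ∀ p, P (gen p))
    (h2 : ∀ a b, P a → P b → P (a * b)) : ∀ a, P a := by
  intro a
  induction a using Con.induction_on with
  | H x =>
    induction x using FreeSemigroup.recOnMul with
    | ih1 p => exact h1 p
    | ih2 p x ihp ihx => exact h2 _ _ ihp ihx

theorem PG_lift {T : Type*} [Semigroup T] (f : Proj S → T) (h1 : ∀ p, f p * f p = f p)
    (h2 : ∀ p q, f p * f q * (f p * f q) = f p * f q)
    (h3 : ∀ p q s : Proj S, dmul (dmul p.1 q.1) p.1 = s.1 → f p * f q * f p = f s) :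
    ∃ Φ : PG S → T, (∀ a b, Φ (a * b) = Φ a * Φ b) ∧ ∀ p, Φ (gen p) = f p := by
  let F : FreeSemigroup (Proj S) →ₙ* T := FreeSemigroup.lift f
  have key : ∀ a b : FreeSemigroup (Proj S), conGen (PGRel S) a b → F a = F b := by
    have : conGen (PGRel S) ≤
        ⟨⟨fun a b => F a = F b, ⟨fun _ => rfl, fun h => h.symm, fun h h' => h.trans h'⟩⟩,
          fun {w x y z} h h' => by
            change F (w * y) = F (x * z)
            change F w = F x at h
            change F y = F z at h'
            rw [map_mul, map_mul, h, h']⟩ := by
      rw [Con.conGen_le]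
      intro a b hab
      change F a = F b
      induction hab with
      | idem p => simp [F, h1]
      | sq p q => simp [F, h2]
      | conj p q s h => simp [F, h3 p q s h]
    intro a b h
    exact this h
  refine ⟨fun x => Con.liftOn x F key, ?_, ?_⟩
  · intro a b
    induction a using Con.induction_on with
    | H x =>
      induction b using Con.induction_on with
      | H y => exact map_mul F x y
  · intro p
    change F (FreeSemigroup.of p) = f p
    simp [F]

end Pool.Agent.W_MP_aeed81_al
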