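import Pool.Agent.W_MP_aeed81_al.MMain
import Pool.Agent.W_MP_aeed81_al.PGbase
import Pool.Agent.W_MP_aeed81_al.Diag

set_option linter.unusedVariables false
set_option linter.unusedSectionVars false
set_option warn.classDefReducibility false

namespace Pool.Agent.W_MP_aeed81_al

open Sum MD

variable {n : ℕ}

/-! ### closed sets of a diagram as a relation on subsets of `ℕ` -/

/-- the relation of a diagram -/
def RD (a : Diagram n) : RR := fun S T =>
  Closed a (two (fun i : Fin n => S i) (fun i : Fin n => T i)) ∧ ∀ i, n ≤ i → (S i ↔ T i)

open Classical in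
theorem RD_inj {a b : Diagram n} (h : RD a = RD b) : a = b := by
  apply closed_ext
  intro S
  have key : ∀ a : Diagram n, Closed a S ↔ RD a
      (fun i => if h : i < n then S (inl ⟨i, h⟩) else True)
      (fun i => if h : i < n then S (inr ⟨i, h⟩) else True) := by
    intro a
    unfold RD
    have e : two (fun i : Fin n => (fun i => if h : i < n then S (inl ⟨i, h⟩) else True) (i : ℕ))
        (fun i : Fin n => (fun i => if h : i < n then S (inr ⟨i, h⟩) else True) (i : ℕ)) = S := by
      funext x
      rcases x with i | i
      · simp [two]
      · simp [two]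
    rw [e]
    constructor
    · intro h
      refine ⟨h, fun i hi => ?_⟩
      beta_reduce
      rw [dif_neg (by omega), dif_neg (by omega)]
    · exact fun h => h.1
  rw [key a, key b, h]

open Classical in
theorem RD_mul (a b : Diagram n) : RD (dmul a b) = rcomp (RD a) (RD b) := by
  funext S T
  apply propext
  constructor
  · rintro ⟨h1, h2⟩
    rw [closed_dmul] at h1
    obtain ⟨u, h3, h4⟩ := h1
    have e : (fun i : Fin n => (fun i : ℕ => if h : i < n then u ⟨i, h⟩ else S i) (i : ℕ)) = u := by
      funext i; simp
    refine ⟨fun i => if h : i < n then u ⟨i, h⟩ else S i, ⟨?_, ?_⟩, ⟨?_, ?_⟩⟩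
    · rw [e]; exact h3
    · intro i hi
      beta_reduce
      rw [dif_neg (by omega)]
    · rw [e]; exact h4
    · intro i hi
      beta_reduce
      rw [dif_neg (by omega)]
      exact h2 i hi
  · rintro ⟨U, ⟨h1, h2⟩, ⟨h3, h4⟩⟩
    exact ⟨(closed_dmul _ _ _ _).2 ⟨_, h1, h3⟩, fun i hi => (h2 i hi).trans (h4 i hi)⟩

/-! ### the diagram of a projection -/

theorem MD.w_lt (f : MD n) {i : ℕ} (hi : i < n) : f.w i < n := by
  by_contra hc
  have := f.fix _ (f.big _ (Nat.le_of_not_lt hc))
  rw [f.inv] at this
  omega

/-- the involution of the diagram of `f` -/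
def wM (f : MD n) : Fin n ⊕ Fin n → Fin n ⊕ Fin n
  | inl i => if f.X i = true then inr i else inl ⟨f.w i, f.w_lt i.2⟩
  | inr i => if f.X i = true then inl i else inr ⟨f.w i, f.w_lt i.2⟩

theorem wM_inv (f : MD n) : ∀ x, wM f (wM f x) = x := by
  rintro (i | i)
  · by_cases h : f.X i = true
    · simp [wM, h]
    · have h' : f.X i = false := by simpa using h
      simp [wM, h', f.X_w h', f.inv]
  · by_cases h : f.X i = true
    · simp [wM, h]
    · have h' : f.X i = false := by simpa using h
      simp [wM, h', f.X_w h', f.inv]

/-- the diagram of `f` -/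
def DM (f : MD n) : Diagram n := relOf (wM f) (wM_inv f)

theorem RD_DM (f : MD n) : RD (DM f) = f.C := by
  funext S T
  apply propext
  unfold RD DM
  rw [closed_relOf]
  constructor
  · rintro ⟨h1, h2⟩
    refine ⟨?_, ?_, ?_⟩
    · intro i
      by_cases hi : i < n
      · cases hX : f.X i
        · have := h1 (inl ⟨i, hi⟩)
          simpa [wM, hX] using this
        · rw [f.fix i hX]
      · rw [f.fix i (f.big i (by omega))]
    · intro i
      by_cases hi : i < n
      · cases hX : f.X i
        · have := h1 (inr ⟨i, hi⟩)
          simpa [wM, hX] using this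
        · rw [f.fix i hX]
      · rw [f.fix i (f.big i (by omega))]
    · intro i hX
      by_cases hi : i < n
      · have := h1 (inl ⟨i, hi⟩)
        simpa [wM, hX] using this
      · exact h2 i (by omega)
  · rintro ⟨h1, h2, h3⟩
    refine ⟨?_, fun i hi => h3 i (f.big i hi)⟩
    rintro (i | i)
    · cases hX : f.X i
      · simpa [wM, hX] using h1 i
      · simpa [wM, hX] using h3 i hX
    · cases hX : f.X i
      · simpa [wM, hX] using h2 i
      · simpa [wM, hX] using (h3 i hX).symm

theorem dmul_DM {f g s : MD n} :
    rcomp (rcomp f.C g.C) f.C = s.C ↔ dmul (dmul (DM f) (DM g)) (DM f) = DM s := by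
  constructor
  · intro h
    apply RD_inj
    rw [RD_mul, RD_mul, RD_DM, RD_DM, RD_DM, h]
  · intro h
    have := congrArg RD h
    rwa [RD_mul, RD_mul, RD_DM, RD_DM, RD_DM] at this

theorem DM_idem (f : MD n) : dmul (DM f) (DM f) = DM f := by
  apply RD_inj
  rw [RD_mul, RD_DM, C_idem]

theorem DM_star (f : MD n) : dstar (DM f) = DM f := by
  apply closed_ext
  intro S
  rw [← two_eta S, closed_dstar]
  unfold DM
  rw [closed_relOf, closed_relOf]
  generalize (fun i => S (inl i)) = s
  generalize (fun i => S (inr i)) = t
  constructor
  · rintro h (i | i)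
    · have := h (inr i)
      cases hX : f.X i <;> simpa [wM, hX] using this
    · have := h (inl i)
      cases hX : f.X i <;> simpa [wM, hX] using this
  · rintro h (i | i)
    · have := h (inr i)
      cases hX : f.X i <;> simpa [wM, hX] using this
    · have := h (inl i)
      cases hX : f.X i <;> simpa [wM, hX] using this

theorem DM_rel (f : MD n) (x y : Fin n ⊕ Fin n) : DM f x y ↔ (y = x ∨ y = wM f x) := Iff.rfl

theorem DM_mem (f : MD n) : DM f ∈ Motzkin n := by
  constructor
  · rintro B ⟨y, rfl⟩
    have : {x | DM f x y} = {y, wM f y} := by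
      ext x
      constructor
      · rintro (h | h)
        · left; exact h.symm
        · right; rw [h, wM_inv]; rfl
      · rintro (rfl | rfl)
        · exact Or.inl rfl
        · right; rw [wM_inv]
    rw [this]
    exact Set.ncard_insert_le _ _ |>.trans (by simp)
  · intro x y u v hxy huv ⟨h1, h2, h3⟩
    rw [DM_rel] at hxy huv
    have hy : y = wM f x := by
      rcases hxy with h | h
      · rw [h] at h2; omega
      · exact h
    have hv : v = wM f u := by
      rcases huv with h | h
      · rw [h] at h3; omega
      · exact h
    subst hy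
    subst hv
    rcases x with i | i
    · have hi := i.2
      cases hX : f.X i
      · simp only [wM, hX, bpos] at h1 h2 h3
        rcases u with k | k
        · have hk := k.2
          simp only [bpos] at h1 h2 h3
          have p := f.pl i k h1 h2
          simp only [p.1] at h3
          simp at h3
          omega
        · have hk := k.2
          have := f.w_lt i.2
          simp only [bpos] at h1 h2 h3
          simp at h2
          omega
      · simp only [wM, hX, bpos] at h1 h2 h3
        rcases u with k | k
        · have hk := k.2
          cases hXk : f.X k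
          · have := f.w_lt k.2
            simp only [hXk] at h3
            simp at h3 h2 h1
            omega
          · simp only [hXk] at h3
            simp at h3 h2 h1
            omega
        · have hk := k.2
          cases hXk : f.X k
          · have := f.w_lt k.2
            simp only [hXk] at h3
            simp at h3 h2 h1
            have p := f.pl (f.w k) i (by omega) (by rw [f.inv]; omega)
            rw [hX] at p
            exact absurd p.1 (by simp)
          · simp only [hXk] at h3
            simp at h3 h2 h1
            omega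
    · have hi := i.2
      cases hX : f.X i
      · simp only [wM, hX, bpos] at h1 h2 h3
        have := f.w_lt i.2
        rcases u with k | k
        · have hk := k.2
          simp at h1
          omega
        · have hk := k.2
          simp at h1 h2
          have p := f.pl (f.w i) k (by omega) (by rw [f.inv]; omega)
          rw [f.inv] at p
          have := f.w_lt k.2
          simp only [p.1] at h3
          simp at h3
          omega
      · simp only [wM, hX, bpos] at h1 h2 h3
        simp at h1 h2
        omega

/-- the projection of `f` -/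
def PM (f : MD n) : Proj (Motzkin n) := ⟨DM f, DM_mem f, DM_idem f, DM_star f⟩

theorem exists_relOf {a : Diagram n} (ha : ∀ B ∈ a.classes, B.ncard ≤ 2) :
    ∃ w, ∃ hw : ∀ x, w (w x) = x, a = relOf w hw := by
  classical
  have key : ∀ x, ∃ y, a x y ∧ ∀ z, a x z → z = x ∨ z = y := by
    intro x
    by_cases hex : ∃ y, y ≠ x ∧ a x y
    · obtain ⟨y, hy, hxy⟩ := hex
      refine ⟨y, hxy, ?_⟩
      intro z hz
      by_contra hc
      push Not at hc
      have h1 := ha {z | a z x} ⟨x, rfl⟩
      have h2 : ({x, y, z} : Set (Fin n ⊕ Fin n)) ⊆ {z | a z x} := by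
        rintro u (rfl | rfl | rfl)
        · exact a.refl _
        · exact a.symm hxy
        · exact a.symm hz
      have h3 := Set.ncard_le_ncard h2 (Set.toFinite _)
      have h4 : ({x, y, z} : Set (Fin n ⊕ Fin n)).ncard = 3 := by
        rw [Set.ncard_eq_three]
        exact ⟨x, y, z, hy.symm, Ne.symm hc.1, Ne.symm hc.2, rfl⟩
      omega
    · push Not at hex
      refine ⟨x, a.refl x, ?_⟩
      intro z hz
      by_contra hc
      exact hex z (fun h => hc (Or.inl h)) hz
  choose w h1 h2 using key
  have inv : ∀ x, w (w x) = x := by
    intro x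
    rcases h2 (w x) x (a.symm (h1 x)) with h | h
    · rw [← h, ← h]
    · exact h.symm
  refine ⟨w, inv, ?_⟩
  ext x y
  constructor
  · intro h; exact h2 x y h
  · rintro (rfl | rfl)
    · exact a.refl _
    · exact h1 _

theorem dstar_relOf {w : Fin n ⊕ Fin n → Fin n ⊕ Fin n} (hw : ∀ x, w (w x) = x)
    (hw' : ∀ x, (fun x => (w x.swap).swap) ((fun x => (w x.swap).swap) x) = x) :
    dstar (relOf w hw) = relOf (fun x => (w x.swap).swap) hw' := by
  apply closed_ext
  intro S
  rw [← two_eta S, closed_dstar]
  generalize (fun i => S (inl i)) = s
  generalize (fun i => S (inr i)) = t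
  rw [closed_relOf, closed_relOf]
  have sw : ∀ x : Fin n ⊕ Fin n, two t s x = two s t x.swap := by rintro (k | k) <;> rfl
  constructor
  · intro h x
    have := h x.swap
    rw [sw, sw, Sum.swap_swap] at this
    exact this
  · intro h x
    have := h x.swap
    simp only [Sum.swap_swap] at this
    rw [sw, sw]
    exact this

theorem exists_PM (p : Proj (Motzkin n)) : ∃ f, p = PM f := by
  obtain ⟨a, ⟨hb, hnc⟩, h1, h2⟩ := p
  obtain ⟨w, hw, rfl⟩ := exists_relOf hb
  have hw' : ∀ x, (fun x => (w x.swap).swap) ((fun x => (w x.swap).swap) x) = x := by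
    intro x
    simp [hw]
  have e := relOf_injective (h2.symm.trans (dstar_relOf hw hw'))
  have sw : ∀ x, w x.swap = (w x).swap := by
    intro x
    have h3 : w x = (w x.swap).swap := congrFun e x
    rw [h3, Sum.swap_swap]
  have rel : ∀ x, relOf w hw x (w x) := fun x => Or.inr rfl
  have diag : ∀ i j, w (inl i) = inr j → i = j := by
    intro i j hij
    have h3 : w (inr j) = inl i := by rw [← hij, hw]
    have h4 : w (inl j) = inr i := by
      have := sw (inr j)
      rw [h3] at this
      exact this
    have r1 := rel (inl i)
    have r2 := rel (inl j)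
    rw [hij] at r1
    rw [h4] at r2
    have hi := i.2
    have hj := j.2
    rcases Nat.lt_trichotomy (i : ℕ) j with h | h | h
    · exfalso
      apply hnc _ _ _ _ r1 r2
      simp only [bpos]
      omega
    · exact Fin.ext h
    · exfalso
      apply hnc _ _ _ _ r2 r1
      simp only [bpos]
      omega
  have dr : ∀ i, w (inr i) = (w (inl i)).swap := fun i => sw (inl i)
  let W : ℕ → ℕ := fun i => if h : i < n then (match w (inl ⟨i, h⟩) with
    | inl j => (j : ℕ)
    | inr _ => i) else i
  let X : ℕ → Bool := fun i => if h : i < n then (w (inl ⟨i, h⟩)).isRight else true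
  have W1 : ∀ i (h : i < n) (j : Fin n), w (inl ⟨i, h⟩) = inl j → W i = j := by
    intro i h j hj
    simp only [W]
    rw [dif_pos h, hj]
  have W2 : ∀ i (h : i < n) (j : Fin n), w (inl ⟨i, h⟩) = inr j → W i = i := by
    intro i h j hj
    simp only [W]
    rw [dif_pos h, hj]
  have W3 : ∀ i, n ≤ i → W i = i := by
    intro i h
    simp only [W]
    rw [dif_neg (by omega)]
  have X1 : ∀ i (h : i < n) (j : Fin n), w (inl ⟨i, h⟩) = inl j → X i = false := by
    intro i h j hj
    simp only [X]
    rw [dif_pos h, hj]; rfl
  have X2 : ∀ i (h : i < n) (j : Fin n), w (inl ⟨i, h⟩) = inr j → X i = true := by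
    intro i h j hj
    simp only [X]
    rw [dif_pos h, hj]; rfl
  have X3 : ∀ i, n ≤ i → X i = true := by
    intro i h
    simp only [X]
    rw [dif_neg (by omega)]
  let f : MD n :=
    { w := W
      X := X
      inv := by
        intro i
        by_cases hi : i < n
        · rcases h : w (inl ⟨i, hi⟩) with j | j
          · rw [W1 i hi j h]
            exact W1 j j.2 ⟨i, hi⟩ (by rw [← h, hw])
          · rw [W2 i hi j h, W2 i hi j h]
        · rw [W3 i (by omega), W3 i (by omega)]
      fix := by
        intro i hX
        by_cases hi : i < n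
        · rcases h : w (inl ⟨i, hi⟩) with j | j
          · rw [X1 i hi j h] at hX; exact absurd hX (by simp)
          · exact W2 i hi j h
        · exact W3 i (by omega)
      big := X3
      pl := by
        intro i j h1 h2
        by_cases hi : i < n
        · rcases h : w (inl ⟨i, hi⟩) with k | k
          · rw [W1 i hi k h] at h2 ⊢
            have hj : j < n := by have := k.2; omega
            have r1 := rel (inl ⟨i, hi⟩)
            rw [h] at r1
            have hk := k.2
            rcases h' : w (inl ⟨j, hj⟩) with l | l
            · rw [X1 j hj l h', W1 j hj l h']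
              have r2 := rel (inl ⟨j, hj⟩)
              rw [h'] at r2
              have hl := l.2
              refine ⟨rfl, ?_, ?_⟩
              · by_contra hc
                by_cases hli : (l : ℕ) = i
                · have : l = ⟨i, hi⟩ := Fin.ext hli
                  rw [this] at h'
                  have h5 : w (w (inl ⟨j, hj⟩)) = inl k := by rw [h', h]
                  rw [hw] at h5
                  have h6 : (⟨j, hj⟩ : Fin n) = k := by simpa using h5
                  have : j = (k : ℕ) := congrArg Fin.val h6
                  omega
                · apply hnc _ _ _ _ ((relOf w hw).symm r2) r1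
                  simp only [bpos]
                  omega
              · by_contra hc
                by_cases hlk : (l : ℕ) = k
                · have : l = k := Fin.ext hlk
                  rw [this, ← h] at h'
                  have h5 := congrArg w h'
                  rw [hw, hw] at h5
                  have h6 : (⟨j, hj⟩ : Fin n) = ⟨i, hi⟩ := by simpa using h5
                  have : j = i := congrArg Fin.val h6
                  omega
                · apply hnc _ _ _ _ r1 r2
                  simp only [bpos]
                  omega
            · exfalso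
              have := diag _ _ h'
              have r2 := rel (inl ⟨j, hj⟩)
              rw [h', ← this] at r2
              apply hnc _ _ _ _ r1 r2
              simp only [bpos]
              omega
          · rw [W2 i hi k h] at h2; omega
        · rw [W3 i (by omega)] at h2; omega }
  refine ⟨f, Subtype.ext ?_⟩
  change relOf w hw = relOf (wM f) (wM_inv f)
  have hww : w = wM f := by
    funext x
    have up : ∀ i, w (inl i) = wM f (inl i) := by
      intro i
      rcases h : w (inl i) with j | j
      · have e1 : f.X i = false := X1 i i.2 j h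
        have e2 : f.w i = j := W1 i i.2 j h
        simp [wM, e1, e2]
      · have e1 : f.X i = true := X2 i i.2 j h
        have := diag i j h
        subst this
        simp [wM, e1]
    rcases x with i | i
    · exact up i
    · rw [dr, up i]
      cases h : f.X i <;> simp [wM, h]
  have cg : ∀ (w w' : Fin n ⊕ Fin n → Fin n ⊕ Fin n) (h : ∀ x, w (w x) = x)
      (h' : ∀ x, w' (w' x) = x), w = w' → relOf w h = relOf w' h' := by
    intro w w' h h' e; subst e; rfl
  exact cg _ _ _ _ hww

theorem DM_injective {f g : MD n} (h : DM f = DM g) : f = g :=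
  C_inj (by rw [← RD_DM, ← RD_DM, h])

/-- the generators -/
def xm (f : MD n) : PG (Motzkin n) := gen (PM f)

theorem PGM_xm : PGM (xm (n := n)) :=
  ⟨fun f => gen_idem _, fun f g => gen_sq _ _, fun f g s h => gen_conj _ _ _ (dmul_DM.1 h)⟩

theorem xm_gen (P : PG (Motzkin n) → Prop) (h1 : ∀ f, P (xm f))
    (h2 : ∀ a b, P a → P b → P (a * b)) : ∀ a, P a := by
  apply PG_induction _ h2
  intro p
  obtain ⟨f, rfl⟩ := exists_PM p
  exact h1 f

theorem lift_PGM {T : Type} [Semigroup T] (Y : MD n → T) (R : PGM Y) :
    ∃ Φ : PG (Motzkin n) → T, (∀ a b, Φ (a * b) = Φ a * Φ b) ∧ ∀ q, Φ (xm q) = Y q := by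
  choose f hf using exists_PM (n := n)
  have inj : ∀ {p q : MD n}, PM p = PM q → p = q := fun h =>
    DM_injective (congrArg Subtype.val h)
  obtain ⟨Φ, h1, h2⟩ := PG_lift (S := Motzkin n) (fun p => Y (f p)) (fun p => R.idem _)
    (fun p q => R.sq _ _) (by
      intro p q s h
      apply R.conj
      rw [dmul_DM]
      have e5 : ∀ p : Proj (Motzkin n), DM (f p) = p.1 :=
        fun p => (congrArg Subtype.val (hf p)).symm
      rw [e5, e5, e5, h])
  refine ⟨Φ, h1, fun q => ?_⟩
  rw [xm, h2]
  rw [inj (hf (PM q)).symm]

theorem drank_DM (f : MD n) : drank (DM f) = (dX f).card := by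
  have e : {B : Set (Fin n ⊕ Fin n) | B ∈ (DM f).classes ∧ (∃ i, inl i ∈ B) ∧ ∃ j, inr j ∈ B} =
      (fun i : ℕ => {x : Fin n ⊕ Fin n | x.elim (fun k : Fin n => (k : ℕ)) (fun k : Fin n => (k : ℕ)) = i}) ''
        (dX f : Set ℕ) := by
    ext B
    constructor
    · rintro ⟨⟨y, rfl⟩, ⟨i, hi⟩, ⟨j, hj⟩⟩
      have hij : DM f (inl i) (inr j) := (DM f).trans hi ((DM f).symm hj)
      have h1 : inr j = wM f (inl i) := by
        rcases hij with h | h
        · simp at h
        · exact h
      have hX : f.X i = true := by
        by_contra hcon
        simp [wM, hcon] at h1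
      have hji : j = i := by simpa [wM, hX] using h1
      subst hji
      refine ⟨j, ?_, ?_⟩
      · rw [Finset.mem_coe, mem_dX]; exact ⟨j.2, hX⟩
      ext x
      constructor
      · intro hx
        have : DM f (inl j) x := by
          rcases x with k | k
          · have : k = j := Fin.ext hx
            rw [this]
          · have : k = j := Fin.ext hx
            rw [this]
            exact hij
        exact (DM f).trans ((DM f).symm this) hi
      · intro hx
        have : DM f (inl j) x := (DM f).trans hi ((DM f).symm hx)
        rcases this with h | h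
        · rw [h]; rfl
        · rw [h]
          simp [wM, hX]
    · rintro ⟨i, hi, rfl⟩
      rw [Finset.mem_coe, mem_dX] at hi
      obtain ⟨hin, hX⟩ := hi
      refine ⟨⟨inl ⟨i, hin⟩, ?_⟩, ⟨⟨i, hin⟩, rfl⟩, ⟨⟨i, hin⟩, rfl⟩⟩
      ext x
      constructor
      · intro hx
        rcases x with k | k
        · have : k = ⟨i, hin⟩ := Fin.ext hx
          rw [this]
          exact (DM f).refl _
        · have : k = ⟨i, hin⟩ := Fin.ext hx
          rw [this]
          right
          simp [wM, hX]
      · intro hx
        rcases (DM f).symm hx with h | h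
        · rw [h]; rfl
        · rw [h]; simp [wM, hX]
  unfold drank
  rw [e, Set.InjOn.ncard_image, Set.ncard_coe_finset]
  intro i hi j hj h
  rw [Finset.mem_coe, mem_dX] at hi
  have h1 : (inl ⟨i, hi.1⟩ : Fin n ⊕ Fin n) ∈
      {x : Fin n ⊕ Fin n | x.elim (fun k : Fin n => (k : ℕ)) (fun k : Fin n => (k : ℕ)) = i} := rfl
  simp only at h
  rw [h] at h1
  exact h1

end Pool.Agent.W_MP_aeed81_al
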