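import Pool.Agent.W_MP_aeed81_al.MArc

set_option linter.unusedVariables false
set_option linter.unusedSectionVars false

namespace Pool.Agent.W_MP_aeed81_al

open MD

namespace MD

variable {n : ℕ}

/-- the defects of `X` together with two more points -/
def addX (X : ℕ → Bool) (a b : ℕ) : ℕ → Bool := fun i => X i || decide (i = a) || decide (i = b)

theorem addX_big {X : ℕ → Bool} (hX : ∀ i, n ≤ i → X i = true) (a b : ℕ) :
    ∀ i, n ≤ i → addX X a b i = true := fun i hi => by simp [addX, hX i hi]

theorem cut_one (X Y : ℕ → Bool) (hX : ∀ i, n ≤ i → X i = true) (hY : ∀ i, n ≤ i → Y i = true)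
    (h : ∀ i, X i = true → Y i = true) : cut Y hY (one X hX) = one X hX := by
  apply MD.ext
  · funext i
    change (if Y i = true ∧ Y i = true then i else i) = i
    split_ifs <;> rfl
  · funext i
    change (X i && Y i) = X i
    have := h i
    cases hx : X i
    · rfl
    · rw [this hx]; rfl

theorem cut_arc (X Y : ℕ → Bool) (hX : ∀ i, n ≤ i → X i = true) (hY : ∀ i, n ≤ i → Y i = true)
    (a b : ℕ) (hab : a < b) (hin : ∀ i, a ≤ i → i ≤ b → X i = false)
    (h : ∀ i, X i = true → Y i = true) (ha : Y a = true) (hb : Y b = true) :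
    cut Y hY (arc X hX a b hab hin) = arc X hX a b hab hin := by
  apply MD.ext
  · funext i
    change (if Y i = true ∧ Y (sw a b i) = true then sw a b i else i) = sw a b i
    simp only [sw]
    grind
  · funext i
    change (X i && Y i) = X i
    have := h i
    cases hx : X i
    · rfl
    · rw [this hx]; rfl

theorem cut_addX_arc (f : MD n) (a b : ℕ) (hab : a < b)
    (hin : ∀ i, a ≤ i → i ≤ b → f.X i = false) (hw : f.w a = b) :
    cut (addX f.X a b) (addX_big f.big a b) f = arc f.X f.big a b hab hin := by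
  have hwb : f.w b = a := by rw [← hw, f.inv]
  apply MD.ext
  · funext i
    change (if addX f.X a b i = true ∧ addX f.X a b (f.w i) = true then f.w i else i) = sw a b i
    have h1 := f.fix i
    have h2 := f.fix (f.w i)
    have h3 := f.inv i
    simp only [sw, addX, Bool.or_eq_true, decide_eq_true_eq]
    grind
  · funext i
    change (f.X i && (f.X i || decide (i = a) || decide (i = b))) = f.X i
    cases f.X i <;> simp

theorem cut_addX_one (f : MD n) (a b : ℕ) (ha : f.X a = false) (hb : f.X b = false)
    (hw : f.w a ≠ b) :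
    cut (addX f.X a b) (addX_big f.big a b) f = one f.X f.big := by
  have hwb : f.w b ≠ a := by intro h; apply hw; rw [← h, f.inv]
  apply MD.ext
  · funext i
    change (if addX f.X a b i = true ∧ addX f.X a b (f.w i) = true then f.w i else i) = i
    have h1 := f.fix i
    have h2 := f.fix (f.w i)
    have h3 := f.inv i
    simp only [addX, Bool.or_eq_true, decide_eq_true_eq]
    grind
  · funext i
    change (f.X i && (f.X i || decide (i = a) || decide (i = b))) = f.X i
    cases f.X i <;> simp

theorem hc_same_X (f : MD n) (a b : ℕ) (hab : a < b) (hb : b < n)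
    (hin : ∀ i, a ≤ i → i ≤ b → f.X i = false) : (hc a b hab hb f).X = f.X := by
  funext i
  rw [hc_X]
  have h1 := hin i
  have h2 := hin a (le_refl _) (by omega)
  have h3 := hin b (by omega) (le_refl _)
  have h4 := f.inv a
  have h5 := f.inv b
  have h6 := f.X_w (i := a)
  have h7 := f.X_w (i := b)
  simp only [hkX]
  grind

theorem hc_arc_self (X : ℕ → Bool) (hX : ∀ i, n ≤ i → X i = true) (a b : ℕ) (hab : a < b)
    (hb : b < n) (h : ∀ i, a ≤ i → i ≤ b → X i = false) :
    hc a b hab hb (arc X hX a b hab h) = arc X hX a b hab h := by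
  apply MD.ext
  · funext i
    rw [hc_w]
    simp only [hkW, arc, sw]
    grind
  · exact hc_same_X _ a b hab hb h

/-- `f 1_Y f = f` -/
theorem C_one (f : MD n) (Y : ℕ → Bool) (hY : ∀ i, n ≤ i → Y i = true)
    (h : ∀ i, f.X i = true → Y i = true) : rcomp (rcomp f.C (one Y hY).C) f.C = f.C := by
  funext s t
  apply propext
  constructor
  · rintro ⟨v, ⟨u, h1, h2⟩, h3⟩
    rw [one_C] at h2
    exact ⟨h1.1, h3.2.1, fun i hi => ((h1.2.2 i hi).trans (h2 i (h i hi))).trans (h3.2.2 i hi)⟩
  · intro hst
    refine ⟨t, ⟨t, hst, ?_⟩, ⟨hst.2.1, hst.2.1, fun _ _ => Iff.rfl⟩⟩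
    rw [one_C]
    exact fun _ _ => Iff.rfl

/-- `f h f = f` when the ends of the hook are not defects -/
theorem C_H_same (f : MD n) (a b : ℕ) (hab : a < b) (hb : b < n)
    (hin : ∀ i, a ≤ i → i ≤ b → f.X i = false) :
    rcomp (rcomp f.C (H a b hab hb).C) f.C = f.C := by
  funext s t
  apply propext
  constructor
  · rintro ⟨v, ⟨u, h1, h2⟩, h3⟩
    rw [H_C] at h2
    refine ⟨h1.1, h3.2.1, fun i hi => ((h1.2.2 i hi).trans (h2.2.2 i ?_)).trans (h3.2.2 i hi)⟩
    by_contra hc
    have := hin i (by omega) (by omega)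
    rw [hi] at this
    exact absurd this (by simp)
  · intro hst
    have h1 : ∀ i, (f.X i = true ∧ t i) ↔ (f.X (f.w i) = true ∧ t (f.w i)) := by
      intro i
      have h1 := f.fix i
      have h2 := f.fix (f.w i)
      have h3 := f.inv i
      grind
    refine ⟨fun i => f.X i = true ∧ t i, ⟨fun i => f.X i = true ∧ t i, ?_, ?_⟩, ?_⟩
    · refine ⟨hst.1, h1, fun i hi => ?_⟩
      have := hst.2.2 i hi
      grind
    · rw [H_C]
      have h2 := hin a (le_refl _) (by omega)
      have h3 := hin b (by omega) (le_refl _)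
      grind
    · exact ⟨h1, hst.2.1, fun i hi => by grind⟩

/-- `f h f = f` when the hook moves the defect `a` to the right -/
theorem C_H_right (f : MD n) (a b c : ℕ) (hab : a < b) (hb : b < n) (hbc : b < c)
    (ha : f.X a = true) (hw : f.w b = c) (hin : ∀ i, a < i → i ≤ c → f.X i = false) :
    rcomp (rcomp f.C (H a b hab hb).C) f.C = f.C := by
  have hwc : f.w c = b := by rw [← hw, f.inv]
  funext s t
  apply propext
  constructor
  · rintro ⟨v, ⟨u, h1, h2⟩, h3⟩
    rw [H_C] at h2
    refine ⟨h1.1, h3.2.1, fun i hi => ?_⟩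
    have e1 := h1.2.2 i hi
    have e2 := h3.2.2 i hi
    have e3 := h1.2.1 b
    have e4 := h3.1 b
    have e5 := h2.2.2 c (by omega)
    have e6 := hin i
    have e7 := h2.2.2 i
    have e8 := h2.1
    have e9 := h2.2.1
    rw [hw] at e3 e4
    by_cases hia : i = a
    · subst hia
      rw [e1, ← e2, e8, e3, e5, ← e4, e9]
    · rw [e1, ← e2]
      apply e7
      by_contra hc
      have := e6 (by omega) (by omega)
      rw [hi] at this
      exact absurd this (by simp)
  · intro hst
    have hfa := f.fix a ha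
    let u : ℕ → Prop := fun i => if i = b ∨ i = c then t a else f.X i = true ∧ t i
    have h1 : ∀ i, u i ↔ u (f.w i) := by
      intro i
      have h1 := f.fix i
      have h2 := f.fix (f.w i)
      have h3 := f.inv i
      simp only [u]
      grind
    have h2 : ∀ i, f.X i = true → (u i ↔ t i) := by
      intro i hi
      have h4 := hin b
      have h5 := hin c
      simp only [u]
      grind
    refine ⟨u, ⟨u, ⟨hst.1, h1, fun i hi => ?_⟩, ?_⟩, ⟨h1, hst.2.1, h2⟩⟩
    · rw [h2 i hi]; exact hst.2.2 i hi
    · rw [H_C]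
      have h3 : u a ↔ u b := by
        rw [h2 a ha]
        simp [u]
      exact ⟨h3, h3, fun _ _ => Iff.rfl⟩

/-- `f h f = f` when the hook moves the defect `b` to the left -/
theorem C_H_left (f : MD n) (a b c : ℕ) (hab : a < b) (hb : b < n) (hbc : c < a)
    (ha : f.X b = true) (hw : f.w a = c) (hin : ∀ i, c ≤ i → i < b → f.X i = false) :
    rcomp (rcomp f.C (H a b hab hb).C) f.C = f.C := by
  have hwc : f.w c = a := by rw [← hw, f.inv]
  funext s t
  apply propext
  constructor
  · rintro ⟨v, ⟨u, h1, h2⟩, h3⟩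
    rw [H_C] at h2
    refine ⟨h1.1, h3.2.1, fun i hi => ?_⟩
    have e1 := h1.2.2 i hi
    have e2 := h3.2.2 i hi
    have e3 := h1.2.1 a
    have e4 := h3.1 a
    have e5 := h2.2.2 c (by omega)
    have e6 := hin i
    have e7 := h2.2.2 i
    have e8 := h2.1
    have e9 := h2.2.1
    rw [hw] at e3 e4
    by_cases hia : i = b
    · subst hia
      rw [e1, ← e2, ← e8, e3, e5, ← e4, e9]
    · rw [e1, ← e2]
      apply e7
      by_contra hc
      have := e6 (by omega) (by omega)
      rw [hi] at this
      exact absurd this (by simp)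
  · intro hst
    have hfa := f.fix b ha
    let u : ℕ → Prop := fun i => if i = a ∨ i = c then t b else f.X i = true ∧ t i
    have h1 : ∀ i, u i ↔ u (f.w i) := by
      intro i
      have h1 := f.fix i
      have h2 := f.fix (f.w i)
      have h3 := f.inv i
      simp only [u]
      grind
    have h2 : ∀ i, f.X i = true → (u i ↔ t i) := by
      intro i hi
      have h4 := hin a
      have h5 := hin c
      simp only [u]
      grind
    refine ⟨u, ⟨u, ⟨hst.1, h1, fun i hi => ?_⟩, ?_⟩, ⟨h1, hst.2.1, h2⟩⟩
    · rw [h2 i hi]; exact hst.2.2 i hi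
    · rw [H_C]
      have h3 : u a ↔ u b := by
        rw [h2 b ha]
        simp [u]
      exact ⟨h3, h3, fun _ _ => Iff.rfl⟩

end MD

section

variable {n : ℕ} {S : Type*} [Semigroup S] {x : MD n → S}

theorem PGM.le (hx : PGM x) {q g : MD n} (h : rcomp (rcomp q.C g.C) q.C = g.C) :
    x q * x g = x g ∧ x g * x q = x g := by
  have e := hx.conj q g g h
  constructor
  · rw [← e, ← mul_assoc, ← mul_assoc, hx.idem]
  · rw [← e, mul_assoc, hx.idem]

theorem PGM.tri (hx : PGM x) {q g f f' : MD n} (hg : rcomp (rcomp q.C g.C) q.C = g.C)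
    (hf : rcomp (rcomp q.C f.C) q.C = f'.C) :
    x g * x f = x g * x f' * x f ∧ x f * x g = x f * x f' * x g ∧
      x g * x f * x q = x g * x f' ∧ x q * x f * x g = x f' * x g := by
  obtain ⟨h1, h2⟩ := hx.le hg
  have e := hx.conj q f f' hf
  refine ⟨?_, ?_, ?_, ?_⟩
  · calc x g * x f = x g * (x q * x f) := by rw [← mul_assoc, h2]
      _ = x g * (x q * x f * (x q * x f)) := by rw [hx.sq]
      _ = x g * (x q * x f * x q) * x f := by simp only [mul_assoc]
      _ = _ := by rw [e]
  · calc x f * x g = x f * x q * x g := by rw [mul_assoc, h1]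
      _ = x f * x q * (x f * x q) * x g := by rw [hx.sq]
      _ = x f * (x q * x f * x q) * x g := by simp only [mul_assoc]
      _ = _ := by rw [e]
  · calc x g * x f * x q = x g * x q * x f * x q := by rw [h2]
      _ = x g * (x q * x f * x q) := by simp only [mul_assoc]
      _ = _ := by rw [e]
  · calc x q * x f * x g = x q * x f * (x q * x g) := by rw [h1]
      _ = (x q * x f * x q) * x g := by simp only [mul_assoc]
      _ = _ := by rw [e]

theorem PGM.fr (hx : PGM x) {f g : MD n} (h : f.X = g.X) : x f * x g * x f = x f :=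
  hx.conj f g f (C_sameX h)

theorem PGM.act (hx : PGM x) {f q f' : MD n} (h1 : rcomp (rcomp f.C q.C) f.C = f.C)
    (h2 : rcomp (rcomp q.C f.C) q.C = f'.C) :
    x f * x q = x f * x f' ∧ x q * x f = x f' * x f ∧ x f * x f' * x f = x f ∧
      x f' * x f * x f' = x f' := by
  have e1 := hx.conj f q f h1
  have e2 := hx.conj q f f' h2
  have a : x f * x q = x f * x f' := by
    calc x f * x q = x f * x q * (x f * x q) := by rw [hx.sq]
      _ = x f * (x q * x f * x q) := by simp only [mul_assoc]
      _ = _ := by rw [e2]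
  have b : x q * x f = x f' * x f := by
    calc x q * x f = x q * x f * (x q * x f) := by rw [hx.sq]
      _ = (x q * x f * x q) * x f := by simp only [mul_assoc]
      _ = _ := by rw [e2]
  refine ⟨a, b, ?_, ?_⟩
  · rw [← a]; exact e1
  · rw [mul_assoc, ← a, ← mul_assoc, ← b]; exact e2

/-- same defects: inserting an arc -/
theorem PGM.sx (hx : PGM x) (f : MD n) (a b : ℕ) (hab : a < b)
    (hin : ∀ i, a ≤ i → i ≤ b → f.X i = false) :
    x (one f.X f.big) * x (arc f.X f.big a b hab hin) * x f = x (one f.X f.big) * x f := by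
  have hle : ∀ i, f.X i = true → addX f.X a b i = true := fun i hi => by simp [addX, hi]
  by_cases hw : f.w a = b
  · have h1 := cut_C (addX f.X a b) (addX_big f.big a b) (one f.X f.big)
    rw [cut_one _ _ _ _ hle] at h1
    have h2 := cut_C (addX f.X a b) (addX_big f.big a b) f
    rw [cut_addX_arc f a b hab hin hw] at h2
    exact (hx.tri h1 h2).1.symm
  · have h1 := cut_C (addX f.X a b) (addX_big f.big a b) (arc f.X f.big a b hab hin)
    rw [cut_arc _ _ _ _ a b hab hin hle (by simp [addX]) (by simp [addX])] at h1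
    have h2 := cut_C (addX f.X a b) (addX_big f.big a b) f
    rw [cut_addX_one f a b (hin a (le_refl _) (by omega)) (hin b (by omega) (le_refl _)) hw] at h2
    have h3 := (hx.tri h1 h2).1
    rw [mul_assoc, h3, ← mul_assoc, ← mul_assoc,
      hx.fr (f := one f.X f.big) (g := arc f.X f.big a b hab hin) rfl]

/-- same defects: inserting an arc, on the other side -/
theorem PGM.sx' (hx : PGM x) (f : MD n) (a b : ℕ) (hab : a < b)
    (hin : ∀ i, a ≤ i → i ≤ b → f.X i = false) :
    x f * x (arc f.X f.big a b hab hin) * x (one f.X f.big) = x f * x (one f.X f.big) := by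
  have hle : ∀ i, f.X i = true → addX f.X a b i = true := fun i hi => by simp [addX, hi]
  by_cases hw : f.w a = b
  · have h1 := cut_C (addX f.X a b) (addX_big f.big a b) (one f.X f.big)
    rw [cut_one _ _ _ _ hle] at h1
    have h2 := cut_C (addX f.X a b) (addX_big f.big a b) f
    rw [cut_addX_arc f a b hab hin hw] at h2
    exact (hx.tri h1 h2).2.1.symm
  · have h1 := cut_C (addX f.X a b) (addX_big f.big a b) (arc f.X f.big a b hab hin)
    rw [cut_arc _ _ _ _ a b hab hin hle (by simp [addX]) (by simp [addX])] at h1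
    have h2 := cut_C (addX f.X a b) (addX_big f.big a b) f
    rw [cut_addX_one f a b (hin a (le_refl _) (by omega)) (hin b (by omega) (le_refl _)) hw] at h2
    have h3 := (hx.tri h1 h2).2.1
    rw [h3, mul_assoc, mul_assoc, ← mul_assoc (x (one _ _)),
      hx.fr (f := one f.X f.big) (g := arc f.X f.big a b hab hin) rfl]

/-- same defects: conjugation with a hook -/
theorem PGM.u2 (hx : PGM x) (f : MD n) (a b : ℕ) (hab : a < b) (hb : b < n)
    (hin : ∀ i, a ≤ i → i ≤ b → f.X i = false) :
    x (one f.X f.big) * x f * x (H a b hab hb) =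
      x (one f.X f.big) * x (hc a b hab hb f) := by
  have h1 := hc_C hab hb (arc f.X f.big a b hab hin)
  rw [hc_arc_self] at h1
  have h3 := (hx.tri h1 (hc_C hab hb f)).2.2.1
  have hX := hc_same_X f a b hab hb hin
  have h4 := hx.sx (hc a b hab hb f) a b hab (by rw [hX]; exact hin)
  simp only [hX] at h4
  rw [← hx.sx f a b hab hin]
  calc _ = x (one f.X f.big) * (x (arc f.X f.big a b hab hin) * x f * x (H a b hab hb)) := by
        simp only [mul_assoc]
    _ = _ := by rw [h3, ← mul_assoc, h4]

/-- same defects: conjugation with a hook, on the other side -/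
theorem PGM.u2' (hx : PGM x) (f : MD n) (a b : ℕ) (hab : a < b) (hb : b < n)
    (hin : ∀ i, a ≤ i → i ≤ b → f.X i = false) :
    x (H a b hab hb) * x f * x (one f.X f.big) =
      x (hc a b hab hb f) * x (one f.X f.big) := by
  have h1 := hc_C hab hb (arc f.X f.big a b hab hin)
  rw [hc_arc_self] at h1
  have h3 := (hx.tri h1 (hc_C hab hb f)).2.2.2
  have hX := hc_same_X f a b hab hb hin
  have h4 := hx.sx' (hc a b hab hb f) a b hab (by rw [hX]; exact hin)
  simp only [hX] at h4
  rw [mul_assoc, ← hx.sx' f a b hab hin]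
  calc _ = (x (H a b hab hb) * x f * x (arc f.X f.big a b hab hin)) * x (one f.X f.big) := by
        simp only [mul_assoc]
    _ = _ := by rw [h3, h4]

theorem PGM.cut (hx : PGM x) (f : MD n) (Y : ℕ → Bool) (hY : ∀ i, n ≤ i → Y i = true)
    (h : ∀ i, f.X i = true → Y i = true) :
    x (one f.X f.big) * x f * x (one Y hY) = x (one f.X f.big) * x (MD.cut Y hY f) := by
  have h1 := cut_C Y hY (one f.X f.big)
  rw [cut_one _ _ _ _ h] at h1
  exact (hx.tri h1 (cut_C Y hY f)).2.2.1

end

end Pool.Agent.W_MP_aeed81_al
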