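import Pool.Agent.W_MP_aeed81_al.MGen
import Pool.Agent.W_MP_aeed81_al.MPG

set_option linter.unusedVariables false
set_option linter.unusedSectionVars false

namespace Pool.Agent.W_MP_aeed81_al

open MD

/-- relations as a semigroup -/
def RRs : Type := RR

instance : Semigroup RRs where
  mul a b := rcomp a b
  mul_assoc a b c := rcomp_assoc a b c

/-- the relation of a projection, in the semigroup -/
def xC {n : ℕ} (f : MD n) : RRs := f.C

theorem C_sq {n : ℕ} (f g : MD n) :
    rcomp (rcomp f.C g.C) (rcomp f.C g.C) = rcomp f.C g.C := by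
  funext s t
  apply propext
  constructor
  · rintro ⟨v, ⟨u, h1, h2⟩, ⟨w, h3, h4⟩⟩
    refine ⟨fun i => (u i ↔ (v i ↔ w i)), ⟨h1.1, ?_, ?_⟩, ⟨?_, h4.2.1, ?_⟩⟩
    · intro i
      beta_reduce
      rw [h1.2.1 i, h3.1 i, h3.2.1 i]
    · intro i hi
      beta_reduce
      rw [h1.2.2 i hi, h3.2.2 i hi]
      simp
    · intro i
      beta_reduce
      rw [h2.1 i, h2.2.1 i, h4.1 i]
    · intro i hi
      beta_reduce
      rw [h2.2.2 i hi, h4.2.2 i hi]
      grind
  · rintro ⟨u, h1, h2⟩
    exact ⟨u, ⟨u, h1, ⟨h2.1, h2.1, fun _ _ => Iff.rfl⟩⟩,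
      ⟨u, ⟨h1.2.1, h1.2.1, fun _ _ => Iff.rfl⟩, h2⟩⟩

theorem PGM_xC {n : ℕ} : PGM (xC (n := n)) :=
  ⟨fun f => C_idem f, fun f g => C_sq f g, fun f g s h => h⟩

/-- transposition -/
def rtr (R : RRs) : RRs := fun s t => R t s

theorem rtr_mul (R Q : RRs) : rtr (R * Q) = rtr Q * rtr R := by
  funext s t
  apply propext
  constructor
  · rintro ⟨u, h1, h2⟩; exact ⟨u, h2, h1⟩
  · rintro ⟨u, h1, h2⟩; exact ⟨u, h2, h1⟩

theorem rtr_xC {n : ℕ} (f : MD n) : rtr (xC f) = xC f := by
  funext s t
  exact propext ⟨fun h => C_symm f h, fun h => C_symm f h⟩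

theorem exists_cj {n : ℕ} (p f : MD n) : ∃ f' : MD n, rcomp (rcomp p.C f.C) p.C = f'.C := by
  have key := mgens_gen (PGM_xC (n := n)) (fun R => ∀ f : MD n, ∃ f' : MD n, rtr R * xC f * R = xC f')
    (by
      rintro a (⟨Y, hY, rfl⟩ | ⟨a, b, hab, hb, rfl⟩) f
      · rw [rtr_xC]; exact ⟨_, cut_C Y hY f⟩
      · rw [rtr_xC]; exact ⟨_, hc_C hab hb f⟩)
    (by
      intro a b ha hb f
      obtain ⟨f1, h1⟩ := ha f
      obtain ⟨f2, h2⟩ := hb f1
      refine ⟨f2, ?_⟩
      rw [rtr_mul, ← h2, ← h1]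
      simp only [mul_assoc]) p f
  obtain ⟨f', h⟩ := key
  rw [rtr_xC] at h
  exact ⟨f', h⟩

/-- conjugation of `f` by `p` -/
noncomputable def cj {n : ℕ} (p f : MD n) : MD n := (exists_cj p f).choose

theorem cj_C {n : ℕ} (p f : MD n) : rcomp (rcomp p.C f.C) p.C = (cj p f).C :=
  (exists_cj p f).choose_spec

theorem cj_eq {n : ℕ} {p f f' : MD n} (h : rcomp (rcomp p.C f.C) p.C = f'.C) : cj p f = f' :=
  C_inj (by rw [← cj_C, h])

theorem cj_one {n : ℕ} (Y : ℕ → Bool) (hY : ∀ i, n ≤ i → Y i = true) (f : MD n) :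
    cj (one Y hY) f = cut Y hY f := cj_eq (cut_C Y hY f)

theorem cj_H {n a b : ℕ} (hab : a < b) (hb : b < n) (f : MD n) :
    cj (H a b hab hb) f = hc a b hab hb f := cj_eq (hc_C hab hb f)

/-! abstract identities -/

section

variable {n : ℕ}

theorem xC_inj {f g : MD n} (h : xC f = xC g) : f = g := C_inj h

theorem xC_cj (p f : MD n) : xC p * xC f * xC p = xC (cj p f) := cj_C p f

theorem cj_self (p : MD n) : cj p p = p := by
  apply xC_inj
  rw [← xC_cj, PGM_xC.idem, PGM_xC.idem]

theorem cj_cj_self (p f : MD n) : cj p (cj p f) = cj p f := by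
  apply xC_inj
  rw [← xC_cj, ← xC_cj]
  calc xC p * (xC p * xC f * xC p) * xC p = (xC p * xC p) * xC f * (xC p * xC p) := by
        simp only [mul_assoc]
    _ = _ := by rw [PGM_xC.idem]

/-- `(f p f = f)` implies that `f` and `p f p` are friendly -/
theorem cj_friendly {p f : MD n} (h : cj f p = f) : cj f (cj p f) = f ∧ cj (cj p f) f = cj p f := by
  have h' : xC f * xC p * xC f = xC f := by rw [xC_cj, h]
  constructor
  · apply xC_inj
    rw [← xC_cj, ← xC_cj]
    calc xC f * (xC p * xC f * xC p) * xC f = (xC f * xC p * xC f) * xC p * xC f := by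
          simp only [mul_assoc]
      _ = _ := by rw [h', h']
  · apply xC_inj
    rw [← xC_cj, ← xC_cj]
    calc xC p * xC f * xC p * xC f * (xC p * xC f * xC p)
        = xC p * (xC f * xC p * xC f) * (xC p * xC f * xC p) := by simp only [mul_assoc]
      _ = xC p * (xC f * xC p * xC f) * xC p := by conv_lhs => rw [h']
                                                   simp only [mul_assoc]
      _ = _ := by rw [h']

/-- composition of the partial action -/
theorem act_comp {p q s f : MD n} (hs : cj p q = s) :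
    cj f s = f ↔ (cj f p = f ∧ cj (cj p f) q = cj p f ∧ cj (cj q (cj p f)) p = cj q (cj p f)) := by
  subst hs
  constructor
  · intro h
    have h1 : xC f * (xC p * xC q * xC p) * xC f = xC f := by rw [xC_cj, xC_cj, h]
    -- f p f = f
    have h2 : xC f * xC p * xC f = xC f := by
      calc xC f * xC p * xC f = (xC f * xC p) * (xC f * (xC p * xC q * xC p) * xC f) := by
            rw [h1]
        _ = (xC f * xC p * (xC f * xC p)) * xC q * xC p * xC f := by simp only [mul_assoc]
        _ = xC f * (xC p * xC q * xC p) * xC f := by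
            rw [PGM_xC.sq]; simp only [mul_assoc]
        _ = _ := h1
    refine ⟨xC_inj (by rw [← xC_cj, h2]), ?_, ?_⟩
    · apply xC_inj
      rw [← xC_cj, ← xC_cj]
      calc xC p * xC f * xC p * xC q * (xC p * xC f * xC p)
          = xC p * (xC f * (xC p * xC q * xC p) * xC f) * xC p := by simp only [mul_assoc]
        _ = _ := by rw [h1]
    · apply xC_inj
      rw [← xC_cj, ← xC_cj, ← xC_cj]
      calc xC q * (xC p * xC f * xC p) * xC q * xC p * (xC q * (xC p * xC f * xC p) * xC q)
          = xC q * xC p * xC f * (xC p * xC q * (xC p * xC q)) * xC p * xC f * xC p * xC q := by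
            simp only [mul_assoc]
        _ = xC q * xC p * (xC f * (xC p * xC q * xC p) * xC f) * xC p * xC q := by
            rw [PGM_xC.sq]; simp only [mul_assoc]
        _ = _ := by rw [h1]; simp only [mul_assoc]
  · rintro ⟨h1, h2, h3⟩
    have k1 : xC f * xC p * xC f = xC f := by rw [xC_cj, h1]
    have k2 : xC p * xC f * xC p * xC q * (xC p * xC f * xC p) = xC p * xC f * xC p := by
      rw [xC_cj, xC_cj, h2]
    apply xC_inj
    rw [← xC_cj, ← xC_cj]
    calc xC f * (xC p * xC q * xC p) * xC f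
        = (xC f * xC p * xC f) * xC p * xC q * xC p * (xC f * xC p * xC f) := by
          rw [k1]; simp only [mul_assoc]
      _ = xC f * (xC p * xC f * xC p * xC q * (xC p * xC f * xC p)) * xC f := by
          simp only [mul_assoc]
      _ = (xC f * xC p * xC f) * xC p * xC f := by rw [k2]; simp only [mul_assoc]
      _ = _ := by rw [k1, k1]

theorem cj_comp (p q f : MD n) : cj (cj p q) f = cj p (cj q (cj p f)) := by
  apply xC_inj
  rw [← xC_cj, ← xC_cj, ← xC_cj, ← xC_cj, ← xC_cj]
  simp only [mul_assoc]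

end

end Pool.Agent.W_MP_aeed81_al
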