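import Pool.Agent.W_MP_aeed81_al.MFacts

set_option linter.unusedVariables false
set_option linter.unusedSectionVars false

namespace Pool.Agent.W_MP_aeed81_al

open MD

variable {n r : ℕ}

section facts

variable (q : TQ n r)

theorem TQ.XG' : XG (gmv q.m q.j (q.s + q.t)) = mvX (XG q.m) q.a q.c := by
  have h1 := q.hs
  have h2 := q.hst
  rw [XG_gmv _ _ _ (by omega) h2, TQ.c, TQ.b, TQ.a]
  congr 1
  omega

theorem TQ.mv : Mv n (XG q.m) q.a q.b q.c := q.vd.mv q.hj q.hs q.ht q.hst

theorem TQ.Xa' : mvX (XG q.m) q.a q.c q.a = false := by simp [mvX]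

theorem TQ.Xc' : mvX (XG q.m) q.a q.c q.c = true := by
  have h1 := q.mv.ab
  have h2 := q.mv.bc
  simp only [mvX]
  rw [if_neg (by omega)]
  simp

/-- a projection above a tight configuration has no arcs -/
theorem no_arcs (u : MD n) (hX : ∀ i, XG q.m i = true → u.X i = true) (hb : u.X q.b = true)
    (hc : u.X q.c = true) : ∀ i, u.w i = i := by
  have key : ∀ z, z < u.w z → False := by
    intro z hz
    have e1 : ∀ i, z ≤ i → i ≤ u.w z → u.X i = false := by
      intro i h1 h2
      by_cases h3 : i = z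
      · cases h4 : u.X i
        · rfl
        · rw [h3] at h4; have := u.fix z h4; omega
      · by_cases h4 : i = u.w z
        · cases h5 : u.X i
          · rfl
          · rw [h4] at h5; have := u.fix _ h5; rw [u.inv] at this; omega
        · exact (u.pl z i (by omega) (by omega)).1
    have e2 : ∀ i, z ≤ i → i ≤ u.w z → XG q.m i = false := by
      intro i h1 h2
      cases h3 : XG q.m i
      · rfl
      · have := hX i h3
        rw [e1 i h1 h2] at this
        exact this.symm
    have f1 := q.q1 z (e2 z (le_refl _) (by omega)) (e2 (z + 1) (by omega) (by omega))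
    have g1 : z ≠ q.b := by rintro h; rw [← h, e1 z (le_refl _) (by omega)] at hb; exact absurd hb (by simp)
    have g2 : z ≠ q.c := by rintro h; rw [← h, e1 z (le_refl _) (by omega)] at hc; exact absurd hc (by simp)
    have g3 : z + 1 ≠ q.b := by
      rintro h; rw [← h, e1 (z + 1) (by omega) (by omega)] at hb; exact absurd hb (by simp)
    have g4 : z + 1 ≠ q.c := by
      rintro h; rw [← h, e1 (z + 1) (by omega) (by omega)] at hc; exact absurd hc (by simp)
    obtain ⟨b1, b2, b3, b4⟩ := q.bad
    have eb : q.b = q.a + q.s := rfl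
    have ec : q.c = q.b + q.t := rfl
    omega
  intro i
  rcases Nat.lt_trichotomy i (u.w i) with h | h | h
  · exact absurd (key i h) (by simp)
  · exact h.symm
  · exact absurd (key (u.w i) (by rw [u.inv]; exact h)) (by simp)

end facts

section

variable {q : TQ n r} {u g f : MD n}

theorem up_X {u g : MD n} (hg : cj u g = g) {b c : ℕ} (hw : g.w b = c) (hbc : b ≠ c)
    (hu : u.w b ≠ c) : u.X b = true ∧ u.X c = true := by
  have e1 : u.w b = b := by
    by_contra h
    apply hu
    rw [← le_w hg h, hw]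
  have e2 : u.X b = true := by
    by_contra h
    have := (le_iso hg e1 (by simpa using h)).1
    rw [hw] at this
    exact hbc this.symm
  have hw' : g.w c = b := by rw [← hw, g.inv]
  have e3 : u.w c = c := by
    by_contra h
    apply hu
    have := le_w hg h
    rw [hw'] at this
    rw [this, u.inv]
  refine ⟨e2, ?_⟩
  by_contra h
  have := (le_iso hg e3 (by simpa using h)).1
  rw [hw'] at this
  exact hbc this

/-- case 1: the pair `(g, f)` itself is tight, to the right -/
theorem tight1 (hg : cj u g = g) (hfr : Fr g f) (h : IsMv q g f) :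
    ((cj u f).X = g.X ∧ IsMv q (cj u f) f) ∨ ((cj u f).X = f.X ∧ IsMv q g (cj u f)) := by
  obtain ⟨h1, h2, h3, h4⟩ := h
  have hab := q.mv.ab
  have hbc := q.mv.bc
  have t := fr_tri hg hfr
  have k1 := fr_card t.1
  have k2 := fr_card t.2
  have gXa : g.X q.a = true := by rw [h1]; exact q.mv.xa
  have fXc : f.X q.c = true := by rw [h2, q.XG']; exact q.Xc'
  have sub : ∀ i, g.X i = true → i ≠ q.a → (cj u f).X i = true := by
    intro i hi hia
    apply cj_X (le_X hg hi)
    rw [h2, q.XG']
    rw [h1] at hi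
    simp only [mvX]
    rw [if_neg hia]
    split_ifs
    · rfl
    · exact hi
  by_cases hu : u.w q.b = q.c
  · left
    have e1 : g.X = (cj u f).X := by
      apply X_eq_of_subset k1
      intro i hi
      by_cases hia : i = q.a
      · rw [hia]
        exact cj_path (le_X hg gXa) hu h4 fXc
      · exact sub i hi hia
    refine ⟨e1.symm, ?_, h2, ?_, h4⟩
    · rw [← e1, h1]
    · rw [← hu]
      apply cj_w_of_w
      rw [hu]; omega
  · right
    obtain ⟨ub, uc⟩ := up_X hg h3 (by omega) hu
    have e1 : f.X = (cj u f).X := by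
      apply X_eq_of_subset k2.symm
      intro i hi
      by_cases hic : i = q.c
      · rw [hic]; exact cj_X uc fXc
      · apply sub
        · rw [h2, q.XG'] at hi
          simp only [mvX] at hi
          rw [h1]
          by_cases hia : i = q.a
          · rw [if_pos hia] at hi; exact absurd hi (by simp)
          · rw [if_neg hia, if_neg hic] at hi; exact hi
        · rintro rfl
          rw [h2, q.XG', q.Xa'] at hi
          exact absurd hi (by simp)
    refine ⟨e1.symm, h1, ?_, h3, ?_⟩
    · rw [← e1, h2]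
    · exact cj_arc (by omega) (le_X hg gXa) ub h4

/-- case 1': the pair `(g, f)` itself is tight, to the left -/
theorem tight1' (hg : cj u g = g) (hfr : Fr g f) (h : IsMv q f g) :
    ((cj u f).X = g.X ∧ IsMv q f (cj u f)) ∨ ((cj u f).X = f.X ∧ IsMv q (cj u f) g) := by
  obtain ⟨h1, h2, h3, h4⟩ := h
  have hab := q.mv.ab
  have hbc := q.mv.bc
  have t := fr_tri hg hfr
  have k1 := fr_card t.1
  have k2 := fr_card t.2
  have gXc : g.X q.c = true := by rw [h2, q.XG']; exact q.Xc'
  have fXa : f.X q.a = true := by rw [h1]; exact q.mv.xa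
  have h3' : f.w q.c = q.b := by rw [← h3, f.inv]
  have sub : ∀ i, g.X i = true → i ≠ q.c → (cj u f).X i = true := by
    intro i hi hic
    apply cj_X (le_X hg hi)
    rw [h2, q.XG'] at hi
    rw [h1]
    simp only [mvX] at hi
    by_cases hia : i = q.a
    · rw [if_pos hia] at hi; exact absurd hi (by simp)
    · rw [if_neg hia, if_neg hic] at hi; exact hi
  by_cases hu : u.w q.a = q.b
  · left
    have hu' : u.w q.b = q.a := by rw [← hu, u.inv]
    have e1 : g.X = (cj u f).X := by
      apply X_eq_of_subset k1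
      intro i hi
      by_cases hia : i = q.c
      · rw [hia]
        exact cj_path (le_X hg gXc) hu' h3' fXa
      · exact sub i hi hia
    refine ⟨e1.symm, h1, ?_, h3, ?_⟩
    · rw [← e1, h2]
    · rw [← hu]
      apply cj_w_of_w
      rw [hu]; omega
  · right
    obtain ⟨ua, ub⟩ := up_X hg h4 (by omega) hu
    have e1 : f.X = (cj u f).X := by
      apply X_eq_of_subset k2.symm
      intro i hi
      by_cases hia : i = q.a
      · rw [hia]; exact cj_X ua fXa
      · apply sub
        · rw [h2, q.XG']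
          rw [h1] at hi
          simp only [mvX]
          rw [if_neg hia]
          split_ifs
          · rfl
          · exact hi
        · rintro rfl
          have := q.mv.gap q.c (by omega) (le_refl _)
          rw [h1, this] at hi
          exact absurd hi (by simp)
    refine ⟨e1.symm, ?_, h2, ?_, h4⟩
    · rw [← e1, h1]
    · exact cj_arc (by omega) ub (le_X hg gXc) h3

/-- case 2: `(g, f')` is tight -/
theorem tight2 (hg : cj u g = g) (hfr : Fr g f) (h : IsMv q g (cj u f)) :
    (cj u f).X = f.X ∧ IsMv q g f := by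
  obtain ⟨h1, h2, h3, h4⟩ := h
  have hab := q.mv.ab
  have hbc := q.mv.bc
  have t := fr_tri hg hfr
  have k2 := fr_card t.2
  have uc : u.X q.c = true := by
    apply le_X (cj_cj_self u f)
    rw [h2, q.XG']; exact q.Xc'
  have ub : u.X q.b = true := by
    have hu : u.w q.b ≠ q.c := by
      intro hh
      have := u.fix _ uc
      rw [← hh, u.inv] at this
      omega
    exact (up_X hg h3 (by omega) hu).1
  have hid := no_arcs q u (fun i hi => le_X hg (by rw [h1]; exact hi)) ub uc
  obtain ⟨c1, c2⟩ := cj_of_id (f := f) hid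
  have e1 : (cj u f).X = f.X := X_eq_of_subset k2 c1
  refine ⟨e1, h1, ?_, h3, ?_⟩
  · rw [← e1, h2]
  · rw [c2 _ (by rw [h4]; omega), h4]

/-- case 2': `(f', g)` is tight -/
theorem tight2' (hg : cj u g = g) (hfr : Fr g f) (h : IsMv q (cj u f) g) :
    (cj u f).X = f.X ∧ IsMv q f g := by
  obtain ⟨h1, h2, h3, h4⟩ := h
  have hab := q.mv.ab
  have hbc := q.mv.bc
  have t := fr_tri hg hfr
  have k2 := fr_card t.2
  have uc : u.X q.c = true := by
    apply le_X hg
    rw [h2, q.XG']; exact q.Xc'
  have ub : u.X q.b = true := by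
    have hu : u.w q.b ≠ q.c := by
      intro hh
      have := u.fix _ uc
      rw [← hh, u.inv] at this
      omega
    exact (up_X (cj_cj_self u f) h3 (by omega) hu).1
  have hid := no_arcs q u (fun i hi => le_X (cj_cj_self u f) (by rw [h1]; exact hi)) ub uc
  obtain ⟨c1, c2⟩ := cj_of_id (f := f) hid
  have e1 : (cj u f).X = f.X := X_eq_of_subset k2 c1
  refine ⟨e1, ?_, h2, ?_, h4⟩
  · rw [← e1, h1]
  · rw [c2 _ (by rw [h3]; omega), h3]

/-- if the defects of friendly projections below `u` differ there is an arc between defects of `u` -/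
theorem extra_arc {g f' : MD n} (hg : cj u g = g) (hf : cj u f' = f') (hfr : Fr g f')
    (hne : g.X ≠ f'.X) : ∃ z, f'.w z ≠ z ∧ u.X z = true ∧ u.X (f'.w z) = true := by
  have : ∃ z, g.X z = true ∧ f'.X z = false := by
    by_contra hc
    push Not at hc
    apply hne
    apply X_eq_of_subset (fr_card hfr)
    intro i hi
    have := hc i hi
    simpa using this
  obtain ⟨z, hz1, hz2⟩ := this
  have hw : f'.w z ≠ z := by
    intro hw
    have := fr_iso hfr hz1 hw
    rw [hz2] at this
    exact absurd this (by simp)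
  have uz := le_X hg hz1
  refine ⟨z, hw, uz, ?_⟩
  exact (up_X hf (b := z) (c := f'.w z) rfl (Ne.symm hw) (by rw [u.fix z uz]; exact Ne.symm hw)).2

/-- case 3: `(f', f)` is tight -/
theorem tight3 (hg : cj u g = g) (hfr : Fr g f) (h : IsMv q (cj u f) f) :
    g.X = (cj u f).X ∧ IsMv q g f := by
  obtain ⟨h1, h2, h3, h4⟩ := h
  have hab := q.mv.ab
  have hbc := q.mv.bc
  have t := fr_tri hg hfr
  have fXc : f.X q.c = true := by rw [h2, q.XG']; exact q.Xc'
  have hu : u.w q.b = q.c := by
    by_contra hu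
    obtain ⟨ub, uc⟩ := up_X (cj_cj_self u f) h3 (by omega) hu
    have := cj_X uc fXc
    have h5 := (cj u f).fix _ this
    rw [← h3, (cj u f).inv, h3] at h5
    omega
  have gw : g.w q.b = q.c := by
    rw [le_w hg (by rw [hu]; omega), hu]
  have e1 : g.X = (cj u f).X := by
    by_contra hne
    obtain ⟨z, z1, z2, z3⟩ := extra_arc hg (cj_cj_self u f) t.1 hne
    -- normalise z < w z
    obtain ⟨y, y1, y2, y3⟩ : ∃ y, y < (cj u f).w y ∧ u.X y = true ∧
        u.X ((cj u f).w y) = true := by
      rcases Nat.lt_trichotomy z ((cj u f).w z) with hz | hz | hz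
      · exact ⟨z, hz, z2, z3⟩
      · exact absurd hz.symm z1
      · exact ⟨(cj u f).w z, by rw [(cj u f).inv]; exact hz, z3, by rw [(cj u f).inv]; exact z2⟩
    have hX : ∀ i, y ≤ i → i ≤ (cj u f).w y → XG q.m i = false := by
      intro i i1 i2
      rw [← h1]
      by_cases i3 : i = y
      · cases h4 : (cj u f).X i
        · rfl
        · rw [i3] at h4; have := (cj u f).fix y h4; omega
      · by_cases i4 : i = (cj u f).w y
        · cases h5 : (cj u f).X i
          · rfl
          · rw [i4] at h5; have := (cj u f).fix _ h5; rw [(cj u f).inv] at this; omega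
        · exact ((cj u f).pl y i (by omega) (by omega)).1
    have f1 := q.q1 y (hX y (le_refl _) (by omega)) (hX (y + 1) (by omega) (by omega))
    have f2 := q.q1 ((cj u f).w y - 1) (hX _ (by omega) (by omega)) (by
      rw [Nat.sub_add_cancel (by omega)]; exact hX _ (by omega) (le_refl _))
    obtain ⟨b1, b2, b3, b4⟩ := q.bad
    -- points of u.X are not b or c
    have nub : u.X q.b = false := by
      cases hh : u.X q.b
      · rfl
      · have := u.fix _ hh; omega
    have nuc : u.X q.c = false := by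
      cases hh : u.X q.c
      · rfl
      · have := u.fix _ hh
        rw [← hu, u.inv] at this
        omega
    have yb : y ≠ q.b := by rintro rfl; rw [nub] at y2; exact absurd y2 (by simp)
    have yc : y ≠ q.c := by rintro rfl; rw [nuc] at y2; exact absurd y2 (by simp)
    have wb : (cj u f).w y ≠ q.b := by intro hh; rw [hh, nub] at y3; exact absurd y3 (by simp)
    have wc : (cj u f).w y ≠ q.c := by intro hh; rw [hh, nuc] at y3; exact absurd y3 (by simp)
    have ww := (cj u f).inv y
    -- not inside the arc {b, c}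
    have p1 := (cj u f).pl q.b y
    have p2 := (cj u f).pl q.b ((cj u f).w y)
    rw [h3] at p1 p2
    rw [ww] at p2
    have eb : q.b = q.a + q.s := rfl
    have ec : q.c = q.b + q.t := rfl
    by_cases yab : y < q.b
    · have p3 := f.pl q.a y f1.1 (by rw [h4]; exact yab)
      rw [h4] at p3
      have fy : f.w y = y := by omega
      have := (cj_iso y2 fy p3.1).1
      omega
    · omega
  refine ⟨e1, ?_, h2, gw, h4⟩
  rw [e1, h1]

/-- case 3': `(f, f')` is tight -/
theorem tight3' (hg : cj u g = g) (hfr : Fr g f) (h : IsMv q f (cj u f)) :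
    g.X = (cj u f).X ∧ IsMv q f g := by
  obtain ⟨h1, h2, h3, h4⟩ := h
  have hab := q.mv.ab
  have hbc := q.mv.bc
  have t := fr_tri hg hfr
  have fXa : f.X q.a = true := by rw [h1]; exact q.mv.xa
  have hu : u.w q.a = q.b := by
    by_contra hu
    obtain ⟨ua, ub⟩ := up_X (cj_cj_self u f) h4 (by omega) hu
    have := cj_X ua fXa
    have h5 := (cj u f).fix _ this
    rw [h4] at h5
    omega
  have gw : g.w q.a = q.b := by
    rw [le_w hg (by rw [hu]; omega), hu]
  have h3' : f.w q.c = q.b := by rw [← h3, f.inv]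
  have e1 : g.X = (cj u f).X := by
    by_contra hne
    obtain ⟨z, z1, z2, z3⟩ := extra_arc hg (cj_cj_self u f) t.1 hne
    obtain ⟨y, y1, y2, y3⟩ : ∃ y, y < (cj u f).w y ∧ u.X y = true ∧
        u.X ((cj u f).w y) = true := by
      rcases Nat.lt_trichotomy z ((cj u f).w z) with hz | hz | hz
      · exact ⟨z, hz, z2, z3⟩
      · exact absurd hz.symm z1
      · exact ⟨(cj u f).w z, by rw [(cj u f).inv]; exact hz, z3, by rw [(cj u f).inv]; exact z2⟩
    have hX : ∀ i, y ≤ i → i ≤ (cj u f).w y → XG (gmv q.m q.j (q.s + q.t)) i = false := by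
      intro i i1 i2
      rw [← h2]
      by_cases i3 : i = y
      · cases h4 : (cj u f).X i
        · rfl
        · rw [i3] at h4; have := (cj u f).fix y h4; omega
      · by_cases i4 : i = (cj u f).w y
        · cases h5 : (cj u f).X i
          · rfl
          · rw [i4] at h5; have := (cj u f).fix _ h5; rw [(cj u f).inv] at this; omega
        · exact ((cj u f).pl y i (by omega) (by omega)).1
    have f1 := q.q2 y (hX y (le_refl _) (by omega)) (hX (y + 1) (by omega) (by omega))
    have f2 := q.q2 ((cj u f).w y - 1) (hX _ (by omega) (by omega)) (by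
      rw [Nat.sub_add_cancel (by omega)]; exact hX _ (by omega) (le_refl _))
    obtain ⟨b1, b2, b3, b4⟩ := q.bad
    have nua : u.X q.a = false := by
      cases hh : u.X q.a
      · rfl
      · have := u.fix _ hh; omega
    have nub : u.X q.b = false := by
      cases hh : u.X q.b
      · rfl
      · have := u.fix _ hh
        rw [← hu, u.inv] at this
        omega
    have yb : y ≠ q.b := by rintro rfl; rw [nub] at y2; exact absurd y2 (by simp)
    have yc : y ≠ q.a := by rintro rfl; rw [nua] at y2; exact absurd y2 (by simp)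
    have wb : (cj u f).w y ≠ q.b := by intro hh; rw [hh, nub] at y3; exact absurd y3 (by simp)
    have wc : (cj u f).w y ≠ q.a := by intro hh; rw [hh, nua] at y3; exact absurd y3 (by simp)
    have ww := (cj u f).inv y
    have p1 := (cj u f).pl q.a y
    have p2 := (cj u f).pl q.a ((cj u f).w y)
    rw [h4] at p1 p2
    rw [ww] at p2
    have eb : q.b = q.a + q.s := rfl
    have ec : q.c = q.b + q.t := rfl
    by_cases yab : q.b < (cj u f).w y
    · have p3 := f.pl q.b ((cj u f).w y) yab (by rw [h3]; omega)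
      rw [h3] at p3
      have fy : f.w ((cj u f).w y) = (cj u f).w y := by omega
      have := (cj_iso y3 fy p3.1).1
      rw [ww] at this
      omega
    · omega
  refine ⟨e1, h1, ?_, h3, gw⟩
  rw [e1, h2]

theorem IsMv.unique {q q' : TQ n r} (h : IsMv q g f) (h' : IsMv q' g f) : q = q' := by
  obtain ⟨h1, h2, h3, h4⟩ := h
  obtain ⟨k1, k2, k3, k4⟩ := h'
  have e1 : q.m = q'.m := XG_inj (by rw [← h1, ← k1])
  have e2 : gmv q.m q.j (q.s + q.t) = gmv q'.m q'.j (q'.s + q'.t) := XG_inj (by rw [← h2, ← k2])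
  have s1 := q.hs
  have s2 := q'.hs
  have s3 := q.hst
  have s4 := q'.hst
  have e3 : q.j = q'.j := by
    by_contra hne
    have a1 := congrFun e2 q.j
    have a2 := congrFun e2 q'.j
    rw [e1] at a1 a2
    simp only [gmv] at a1 a2
    grind
  have ea : q.a = q'.a := by rw [TQ.a, TQ.a, e1, e3]
  have eb : q.b = q'.b := by rw [← h4, ← k4, ea]
  have ec : q.c = q'.c := by rw [← h3, ← k3, eb]
  have eb1 : q.b = q.a + q.s := rfl
  have ec1 : q.c = q.b + q.t := rfl
  have eb2 : q'.b = q'.a + q'.s := rfl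
  have ec2 : q'.c = q'.b + q'.t := rfl
  have e5 : q.s = q'.s := by omega
  have e6 : q.t = q'.t := by omega
  exact TQ.ext e1 e3 e5 e6

theorem IsMv.asymm {q q' : TQ n r} (h : IsMv q g f) (h' : IsMv q' f g) : False := by
  obtain ⟨h1, h2, h3, h4⟩ := h
  obtain ⟨k1, k2, k3, k4⟩ := h'
  have e1 : q.m = gmv q'.m q'.j (q'.s + q'.t) := XG_inj (by rw [← h1, ← k2])
  have e2 : q'.m = gmv q.m q.j (q.s + q.t) := XG_inj (by rw [← h2, ← k1])
  have p1 : pos q.m q.j = if q.j = q'.j then pos q'.m q'.j + (q'.s + q'.t) else pos q'.m q.j := by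
    rw [e1, pos_gmv _ _ _ q'.hst]
  have p2 : pos q'.m q.j = pos q.m q.j + (q.s + q.t) := by
    rw [e2, pos_gmv _ _ _ q.hst, if_pos rfl]
  have s1 := q.hs
  split_ifs at p1 with hj
  · rw [← hj] at p1; omega
  · omega

theorem IsMv.ne {q : TQ n r} (h : IsMv q g f) : g.X ≠ f.X := by
  intro he
  obtain ⟨h1, h2, h3, h4⟩ := h
  have hab := q.mv.ab
  have hbc := q.mv.bc
  have a1 : g.X q.c = false := by rw [h1]; exact q.mv.gap _ (by omega) (le_refl _)
  have a2 : f.X q.c = true := by rw [h2, q.XG']; exact q.Xc'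
  rw [he, a2] at a1
  exact absurd a1 (by simp)

end

open Classical in
/-- the label of a friendly pair -/
noncomputable def lam (n r : ℕ) (g f : MD n) : FreeGroup (TQ n r) :=
  if h : ∃ q : TQ n r, IsMv q g f then FreeGroup.of h.choose
  else if h : ∃ q : TQ n r, IsMv q f g then (FreeGroup.of h.choose)⁻¹ else 1

theorem lam_of {q : TQ n r} {g f : MD n} (h : IsMv q g f) : lam n r g f = FreeGroup.of q := by
  have hex : ∃ q : TQ n r, IsMv q g f := ⟨q, h⟩
  unfold lam
  rw [dif_pos hex, hex.choose_spec.unique h]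

theorem lam_inv {q : TQ n r} {g f : MD n} (h : IsMv q f g) : lam n r g f = (FreeGroup.of q)⁻¹ := by
  have hex : ∃ q : TQ n r, IsMv q f g := ⟨q, h⟩
  have hn : ¬ ∃ q : TQ n r, IsMv q g f := fun ⟨q', h'⟩ => h.asymm h'
  unfold lam
  rw [dif_neg hn, dif_pos hex, hex.choose_spec.unique h]

theorem lam_one {g f : MD n} (h1 : ¬ ∃ q : TQ n r, IsMv q g f) (h2 : ¬ ∃ q : TQ n r, IsMv q f g) :
    lam n r g f = 1 := by
  unfold lam
  rw [dif_neg h1, dif_neg h2]

theorem lam_X {g f : MD n} (h : g.X = f.X) : lam n r g f = 1 :=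
  lam_one (fun ⟨q, hq⟩ => hq.ne h) (fun ⟨q, hq⟩ => hq.ne h.symm)

theorem lam_L2 (f g : MD n) : lam n r f g * lam n r g f = 1 := by
  by_cases h1 : ∃ q : TQ n r, IsMv q f g
  · obtain ⟨q, hq⟩ := h1
    rw [lam_of hq, lam_inv hq, mul_inv_cancel]
  · by_cases h2 : ∃ q : TQ n r, IsMv q g f
    · obtain ⟨q, hq⟩ := h2
      rw [lam_of hq, lam_inv hq, inv_mul_cancel]
    · rw [lam_one h1 h2, lam_one h2 h1, mul_one]

theorem lam_L3 (u g f : MD n) (hg : cj u g = g) (hfr : Fr g f) :
    lam n r g f = lam n r g (cj u f) * lam n r (cj u f) f := by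
  by_cases h1 : ∃ q : TQ n r, IsMv q g (cj u f)
  · obtain ⟨q, hq⟩ := h1
    obtain ⟨a1, a2⟩ := tight2 hg hfr hq
    rw [lam_of hq, lam_of a2, lam_X a1, mul_one]
  by_cases h2 : ∃ q : TQ n r, IsMv q (cj u f) g
  · obtain ⟨q, hq⟩ := h2
    obtain ⟨a1, a2⟩ := tight2' hg hfr hq
    rw [lam_inv hq, lam_inv a2, lam_X a1, mul_one]
  by_cases h3 : ∃ q : TQ n r, IsMv q (cj u f) f
  · obtain ⟨q, hq⟩ := h3
    obtain ⟨a1, a2⟩ := tight3 hg hfr hq
    rw [lam_of hq, lam_of a2, lam_X a1, one_mul]
  by_cases h4 : ∃ q : TQ n r, IsMv q f (cj u f)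
  · obtain ⟨q, hq⟩ := h4
    obtain ⟨a1, a2⟩ := tight3' hg hfr hq
    rw [lam_inv hq, lam_inv a2, lam_X a1, one_mul]
  have k1 : ¬ ∃ q : TQ n r, IsMv q g f := by
    rintro ⟨q, hq⟩
    rcases tight1 hg hfr hq with ⟨_, h⟩ | ⟨_, h⟩
    · exact h3 ⟨q, h⟩
    · exact h1 ⟨q, h⟩
  have k2 : ¬ ∃ q : TQ n r, IsMv q f g := by
    rintro ⟨q, hq⟩
    rcases tight1' hg hfr hq with ⟨_, h⟩ | ⟨_, h⟩
    · exact h4 ⟨q, h⟩
    · exact h2 ⟨q, h⟩
  rw [lam_one k1 k2, lam_one h1 h2, lam_one h3 h4, mul_one]

theorem PGM_lam : PGM (opr (lam n r)) :=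
  PGM_opr (lam n r) (fun f => lam_X rfl) (fun f g _ => lam_L2 f g) (fun u g f h1 h2 => lam_L3 u g f h1 h2)

end Pool.Agent.W_MP_aeed81_al
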