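import Pool.Agent.W_MP_aeed81_al.MSection
import Pool.Agent.W_MP_aeed81_al.MLabel

set_option linter.unusedVariables false
set_option linter.unusedSectionVars false

namespace Pool.Agent.W_MP_aeed81_al

open MD

/-- The operator action on `D × F`, with a predicate on `D`. -/
theorem hclass_of_cover' {S : Type*} [Semigroup S] {D F : Type*} [Group F] (good : D → Prop)
    (Φ : S → ROp (D × F)) (Φm : ∀ a b, Φ (a * b) = Φ a * Φ b)
    (gens : Set S) (hgen : ∀ P : S → Prop, (∀ a ∈ gens, P a) → (∀ a b, P a → P b → P (a * b)) →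
      ∀ a, P a)
    (comm : ∀ a ∈ gens, ∀ (g : F) (d : D) (h : F), (Φ a).1 (some (d, g * h)) =
      ((Φ a).1 (some (d, h))).map (fun p => (p.1, g * p.2)))
    (e : S) (he : e * e = e) (d0 : D) (hd0 : good d0) (h0 : (Φ e).1 (some (d0, 1)) = some (d0, 1))
    (fix : ∀ d g, good d → (Φ e).1 (some (d, g)) = some (d, g) → d = d0)
    (T : D → S) (ψ : F → S) (ψ1 : ψ 1 = e) (ψm : ∀ g h, ψ (g * h) = ψ g * ψ h)
    (T0 : T d0 = e) (ψact : ∀ g, (Φ (ψ g)).1 (some (d0, 1)) = some (d0, g))
    (step : ∀ a ∈ gens, ∀ d d' h, good d → (Φ a).1 (some (d, 1)) = some (d', h) →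
      good d' ∧ T d * a = ψ h * T d') : HClassIso e F := by
  have comm' : ∀ a, ∀ (g : F) (d : D) (h : F), (Φ a).1 (some (d, g * h)) =
      ((Φ a).1 (some (d, h))).map (fun p => (p.1, g * p.2)) := by
    apply hgen
    · exact comm
    · intro a b iha ihb g d h
      rw [Φm, ROp.mul_val, ROp.mul_val, iha]
      rcases hx : (Φ a).1 (some (d, h)) with _ | ⟨d', h'⟩
      · change (Φ b).1 none = ((Φ b).1 none).map _
        rw [(Φ b).2]; rfl
      · exact ihb g d' h'
  have main : ∀ s, ∀ d g d' g', good d → (Φ s).1 (some (d, g)) = some (d', g') →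
      good d' ∧ ψ g * T d * s = ψ g' * T d' := by
    apply hgen
    · intro a ha d g d' g' hd h
      have h1 := comm' a g d 1
      rw [mul_one, h] at h1
      rcases hx : (Φ a).1 (some (d, 1)) with _ | ⟨d1, g1⟩
      · rw [hx] at h1; simp at h1
      · rw [hx] at h1
        have h2 : (d', g') = (d1, g * g1) := Option.some.inj h1
        obtain ⟨h4, h3⟩ := step a ha d d1 g1 hd hx
        have e1 : d' = d1 := congrArg Prod.fst h2
        have e2 : g' = g * g1 := congrArg Prod.snd h2
        rw [e1, e2, mul_assoc, h3, ψm, mul_assoc]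
        exact ⟨h4, rfl⟩
    · intro a b iha ihb d g d' g' hd h
      rw [Φm, ROp.mul_val] at h
      rcases hx : (Φ a).1 (some (d, g)) with _ | ⟨d1, g1⟩
      · rw [hx] at h
        have := (Φ b).2
        rw [this] at h; simp at h
      · rw [hx] at h
        obtain ⟨h1, h2⟩ := iha _ _ _ _ hd hx
        obtain ⟨h3, h4⟩ := ihb _ _ _ _ h1 h
        exact ⟨h3, by rw [← mul_assoc, h2, h4]⟩
  have val : ∀ s d g, e * s = s → (Φ s).1 (some (d0, 1)) = some (d, g) → s = ψ g * T d := by
    intro s d g hs h
    have := (main s d0 1 d g hd0 h).2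
    rw [ψ1, T0, he, hs] at this
    exact this
  apply hclass_of_action (fun a x => (Φ a).1 x) (fun a b x => by rw [Φm]; rfl)
    (fun a => (Φ a).2) (G := F) (fun g p => (p.1, g * p.2))
    (fun g h x => by simp [mul_assoc]) (fun x => by simp)
    (fun g a x => comm' a g x.1 x.2) e he (d0, 1) h0
  · intro g h
    have : g * 1 = 1 := congrArg Prod.snd h
    simpa using this
  · rintro s t ⟨d, g⟩ hs ht hsx htx
    rw [val s d g hs hsx, val t d g ht htx]
  · intro g
    refine ⟨ψ g, ?_, ?_⟩
    · have := ψm 1 g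
      rw [one_mul, ψ1] at this
      exact this.symm
    · change (Φ (ψ g)).1 _ = some (d0, g * 1)
      rw [ψact, mul_one]
  · rintro ⟨d, g⟩ h ⟨s, hs1, hs2⟩
    have := fix d g (main s d0 1 d g hd0 hs2).1 h
    exact ⟨g, by simp [this]⟩

theorem mem_HClass {S : Type*} [Semigroup S] {e : S} (he : e * e = e) (s : S) :
    s ∈ HClass e ↔ ∃ t, Lk e e s t := by
  constructor
  · rintro ⟨hR, hL⟩
    have es : e * s = s := by
      rcases hR with h | ⟨_, ⟨y, hy⟩⟩
      · rw [h, he]
      · rw [← hy, ← mul_assoc, he]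
    have se : s * e = s := by
      rcases hL with h | ⟨_, ⟨y, hy⟩⟩
      · rw [h, he]
      · rw [← hy, mul_assoc, he]
    obtain ⟨x, hx⟩ : ∃ x, s * x = e := by
      rcases hR with h | ⟨h, _⟩
      · exact ⟨e, by rw [h, he]⟩
      · exact h
    obtain ⟨y, hy⟩ : ∃ y, y * s = e := by
      rcases hL with h | ⟨h, _⟩
      · exact ⟨e, by rw [h, he]⟩
      · exact h
    have h1 : s * (e * x * e) = e := by
      calc s * (e * x * e) = (s * e) * x * e := by simp only [mul_assoc]
        _ = e := by rw [se, hx, he]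
    have h2 : (e * y * e) * s = e := by
      calc (e * y * e) * s = e * (y * (e * s)) := by simp only [mul_assoc]
        _ = e := by rw [es, hy, he]
    have h3 : e * x * e = e * y * e := by
      calc e * x * e = e * (e * x * e) := by simp only [← mul_assoc]; rw [he]
        _ = (e * y * e * s) * (e * x * e) := by rw [h2]
        _ = e * y * e * (s * (e * x * e)) := by simp only [mul_assoc]
        _ = _ := by rw [h1, mul_assoc, he]
    refine ⟨e * x * e, ⟨h1, by rw [h3]; exact h2, es, se, ?_, ?_⟩⟩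
    · simp only [← mul_assoc]; rw [he]
    · rw [mul_assoc, he]
  · rintro ⟨t, h⟩
    exact ⟨Or.inr ⟨⟨t, h.ab⟩, ⟨s, h.pa⟩⟩, Or.inr ⟨⟨t, h.ba⟩, ⟨s, h.aq⟩⟩⟩

theorem HClassIso.transfer {S : Type*} [Semigroup S] {e e' a b : S} (h : Lk e e' a b) {G : Type*}
    [Group G] (hG : HClassIso e G) : HClassIso e' G := by
  have he : e * e = e := by
    calc e * e = e * (a * b) := by rw [h.ab]
      _ = e := by rw [← mul_assoc, h.pa, h.ab]
  have he' : e' * e' = e' := by
    calc e' * e' = e' * (b * a) := by rw [h.ba]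
      _ = e' := by rw [← mul_assoc, h.qb, h.ba]
  obtain ⟨φ, h1, h2, h3⟩ := hG
  have hφ : ∀ g, ∃ t, Lk e e (φ g) t := fun g => (mem_HClass he _).1 (by rw [← h3]; exact ⟨g, rfl⟩)
  have back : ∀ g, a * (b * φ g * a) * b = φ g := by
    intro g
    obtain ⟨t, ht⟩ := hφ g
    calc a * (b * φ g * a) * b = (a * b) * φ g * (a * b) := by simp only [mul_assoc]
      _ = _ := by rw [h.ab, ht.pa, ht.aq]
  refine ⟨fun g => b * φ g * a, ?_, ?_, ?_⟩
  · intro g g' hg
    simp only at hg
    apply h1
    rw [← back g, ← back g', hg]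
  · intro g g'
    obtain ⟨t, ht⟩ := hφ g
    calc b * φ (g * g') * a = b * (φ g * e) * φ g' * a := by rw [h2, ht.aq]; simp only [mul_assoc]
      _ = b * (φ g * (a * b)) * φ g' * a := by rw [h.ab]
      _ = _ := by simp only [mul_assoc]
  · ext s
    rw [mem_HClass he']
    constructor
    · rintro ⟨g, rfl⟩
      obtain ⟨t, ht⟩ := hφ g
      exact ⟨_, (h.symm.trans ht).trans h⟩
    · rintro ⟨t, ht⟩
      have h4 : a * s * b ∈ HClass e := (mem_HClass he _).2 ⟨_, (h.trans ht).trans h.symm⟩
      rw [← h3] at h4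
      obtain ⟨g, hg⟩ := h4
      refine ⟨g, ?_⟩
      simp only
      rw [hg]
      calc b * (a * s * b) * a = (b * a) * s * (b * a) := by simp only [mul_assoc]
        _ = _ := by rw [h.ba, ht.pa, ht.aq]

section act

variable {n : ℕ}

theorem act_iso {f p : MD n} (h : cj f p = f) {i : ℕ} (hi : f.X i = true) (hw : p.w i = i) :
    p.X i = true := by
  by_contra hc
  have hc' : p.X i = false := by simpa using hc
  have := iso_of_C f i (by
    rw [← h, cj_iff]
    exact ⟨_, ⟨_, C_one_pt f i (f.fix i hi), C_iso p i hw hc'⟩, C_00 f⟩)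
  rw [hi] at this
  exact absurd this.2 (by simp)

theorem act_sub {f : MD n} {Y : ℕ → Bool} {hY : ∀ i, n ≤ i → Y i = true} (h : cj f (one Y hY) = f) :
    ∀ i, f.X i = true → Y i = true := fun i hi => act_iso h hi rfl

theorem H_w_left {a b : ℕ} (hab : a < b) (hb : b < n) : (H a b hab hb).w a = b := by
  change (if a = a then b else if a = b then a else a) = b
  simp

theorem H_inner {a b : ℕ} (hab : a < b) (hb : b < n) {i : ℕ} (h1 : a < i) (h2 : i < b) :
    (H a b hab hb).w i = i ∧ (H a b hab hb).X i = false := by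
  constructor
  · change (if i = a then b else if i = b then a else i) = i
    rw [if_neg (by omega), if_neg (by omega)]
  · change (!(decide (a ≤ i) && decide (i ≤ b))) = false
    simp; omega

/-- a defect at one end of a hook: the other end lies on an arc leading outside -/
theorem act_H_end {f : MD n} {a b : ℕ} (hab : a < b) (hb : b < n) (h : cj f (H a b hab hb) = f)
    {y z : ℕ} (hyz : (y = a ∧ z = b) ∨ (y = b ∧ z = a)) (hy : f.X y = true) :
    f.w z ≠ z ∧ (f.w z < a ∨ b < f.w z) := by
  have hne : y ≠ z := by omega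
  have hfy := f.fix y hy
  have e1 : f.w z ≠ z := by
    intro hz
    have hC' : (cj f (H a b hab hb)).C (fun i => i = y ∨ (i = z ∧ f.X z = true))
        (fun _ => False) := by
      rw [cj_iff]
      refine ⟨fun _ => False, ⟨fun i => i = y ∨ i = z, ⟨?_, ?_, ?_⟩, ?_⟩, C_00 f⟩
      · intro i
        have := f.inv i
        grind
      · intro i
        have := f.inv i
        grind
      · intro i hi
        rcases eq_or_ne i z with rfl | hiz
        · simp [hi]
        · simp [hiz]
      · rw [H_C]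
        refine ⟨?_, Iff.rfl, ?_⟩
        · rcases hyz with ⟨rfl, rfl⟩ | ⟨rfl, rfl⟩ <;> simp
        · intro i hi
          simp only [iff_false]
          omega
    rw [h] at hC'
    have := hC'.2.2 y hy
    simp at this
  refine ⟨e1, ?_⟩
  by_contra hc
  have hC : f.C (fun i => i = y) (fun _ => False) := by
    rw [← h, cj_iff]
    refine ⟨fun _ => False, ⟨fun i => i = y ∨ i = z ∨ i = f.w z, ⟨?_, ?_, ?_⟩, ?_⟩, C_00 f⟩
    · intro i
      have := f.inv i
      grind
    · intro i
      have := f.inv i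
      have := f.inv z
      grind
    · intro i hi
      have h1 := f.fix i hi
      have h2 := f.inv z
      constructor
      · exact fun h => Or.inl h
      · rintro (h3 | h3 | h3)
        · exact h3
        · rw [h3] at h1; exact absurd h1 e1
        · rw [h3, h2] at h1; exact absurd h1.symm e1
    · rw [H_C]
      refine ⟨?_, Iff.rfl, ?_⟩
      · rcases hyz with ⟨rfl, rfl⟩ | ⟨rfl, rfl⟩ <;> simp
      · intro i hi
        simp only [iff_false]
        omega
  have := hC.2.2 y hy
  simp at this

end act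

end Pool.Agent.W_MP_aeed81_al
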