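import Mathlib

set_option linter.unusedVariables false
set_option linter.unusedSectionVars false

namespace Pool.Agent.W_MP_aeed81_al

/-- A projection of the Motzkin monoid: `w i` is the partner of `i`, and `X i` says that `i` is a
defect (the block of `i` is `{i, i'}`). The positions `≥ n` count as defects. -/
@[ext]
structure MD (n : ℕ) where
  w : ℕ → ℕ
  X : ℕ → Bool
  inv : ∀ i, w (w i) = i
  fix : ∀ i, X i = true → w i = i
  big : ∀ i, n ≤ i → X i = true
  pl : ∀ i j, i < j → j < w i → X j = false ∧ i < w j ∧ w j < w i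

abbrev RR := (ℕ → Prop) → (ℕ → Prop) → Prop

/-- composition of relations -/
def rcomp (R S : RR) : RR := fun s t => ∃ u, R s u ∧ S u t

theorem rcomp_assoc (R S T : RR) : rcomp (rcomp R S) T = rcomp R (rcomp S T) := by
  funext s t
  apply propext
  constructor
  · rintro ⟨u, ⟨v, h1, h2⟩, h3⟩
    exact ⟨v, h1, u, h2, h3⟩
  · rintro ⟨v, h1, u, h2, h3⟩
    exact ⟨u, ⟨v, h1, h2⟩, h3⟩

namespace MD

variable {n : ℕ}

/-- the closed sets of the diagram -/
def C (f : MD n) : RR := fun s t =>
  (∀ i, s i ↔ s (f.w i)) ∧ (∀ i, t i ↔ t (f.w i)) ∧ ∀ i, f.X i = true → (s i ↔ t i)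

theorem X_w (f : MD n) {i : ℕ} (h : f.X i = false) : f.X (f.w i) = false := by
  cases h1 : f.X (f.w i)
  · rfl
  · have := f.fix _ h1
    rw [f.inv] at this
    rw [← this] at h1
    rw [h1] at h
    exact absurd h (by simp)

theorem C_inj {f g : MD n} (h : f.C = g.C) : f = g := by
  have h' : ∀ s t, f.C s t ↔ g.C s t := fun s t => by rw [h]
  have key : ∀ {f g : MD n}, (∀ s t, f.C s t ↔ g.C s t) → ∀ i, f.w i = i ∨ f.w i = g.w i := by
    intro f g h' i
    have h1 : g.C (fun j => j = i ∨ j = g.w i) (fun j => j = i ∨ j = g.w i) := by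
      refine ⟨?_, ?_, fun _ _ => Iff.rfl⟩ <;>
      · intro j
        constructor
        · rintro (rfl | rfl)
          · exact Or.inr rfl
          · left; exact g.inv i
        · rintro (h1 | h1)
          · right; rw [← h1, g.inv]
          · left; rw [← g.inv j, h1, g.inv]
    have h2 := ((h' _ _).2 h1).1 i
    simp only [true_or, true_iff] at h2
    exact h2
  have hw : ∀ i, f.w i = g.w i := by
    intro i
    rcases key h' i with h1 | h1
    · rcases key (fun s t => (h' s t).symm) i with h2 | h2
      · rw [h1, h2]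
      · exact h2.symm
    · exact h1
  have key2 : ∀ {f g : MD n}, (∀ s t, f.C s t ↔ g.C s t) → ∀ i, f.X i = true → g.X i = true := by
    intro f g h' i hi
    by_contra hc
    have hc' : g.X i = false := by simpa using hc
    have h1 : g.C (fun j => j = i ∨ j = g.w i) (fun _ => False) := by
      refine ⟨?_, fun _ => Iff.rfl, ?_⟩
      · intro j
        constructor
        · rintro (rfl | rfl)
          · exact Or.inr rfl
          · left; exact g.inv i
        · rintro (h1 | h1)
          · right; rw [← h1, g.inv]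
          · left; rw [← g.inv j, h1, g.inv]
      · intro j hj
        simp only [iff_false]
        rintro (rfl | rfl)
        · rw [hj] at hc'; exact absurd hc' (by simp)
        · rw [g.X_w hc'] at hj; exact absurd hj (by simp)
    have h2 := ((h' _ _).2 h1).2.2 i hi
    simp at h2
  apply MD.ext
  · funext i; exact hw i
  · funext i
    cases h1 : f.X i
    · cases h2 : g.X i
      · rfl
      · rw [key2 (fun s t => (h' s t).symm) i h2] at h1
        exact absurd h1 (by simp)
    · exact (key2 h' i h1).symm

theorem C_symm (f : MD n) {s t : ℕ → Prop} (h : f.C s t) : f.C t s :=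
  ⟨h.2.1, h.1, fun i hi => (h.2.2 i hi).symm⟩

theorem C_idem (f : MD n) : rcomp f.C f.C = f.C := by
  funext s t
  apply propext
  constructor
  · rintro ⟨u, h1, h2⟩
    exact ⟨h1.1, h2.2.1, fun i hi => (h1.2.2 i hi).trans (h2.2.2 i hi)⟩
  · intro h
    exact ⟨t, h, h.2.1, h.2.1, fun _ _ => Iff.rfl⟩

/-- projections with the same defects -/
theorem C_sameX {f g : MD n} (h : f.X = g.X) : rcomp (rcomp f.C g.C) f.C = f.C := by
  funext s t
  apply propext
  constructor
  · rintro ⟨v, ⟨u, h1, h2⟩, h3⟩
    refine ⟨h1.1, h3.2.1, fun i hi => ?_⟩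
    exact ((h1.2.2 i hi).trans (h2.2.2 i (by rw [← h]; exact hi))).trans (h3.2.2 i hi)
  · intro hst
    have hX : ∀ (k : MD n) (s : ℕ → Prop), k.X = f.X → ∀ i, (f.X i = true ∧ s i) ↔ (f.X (k.w i) = true ∧ s (k.w i)) := by
      intro k s hk i
      constructor
      · rintro ⟨a, b⟩
        rw [← hk] at a
        rw [k.fix i a, ← hk]; exact ⟨a, b⟩
      · rintro ⟨a, b⟩
        rw [← hk] at a
        have := k.fix _ a
        rw [k.inv] at this
        rw [← this] at a b
        rw [← hk]
        exact ⟨a, b⟩
    refine ⟨fun i => f.X i = true ∧ t i, ⟨fun i => f.X i = true ∧ s i, ?_, ?_⟩, ?_⟩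
    · exact ⟨hst.1, hX f s rfl, fun i hi => by simp [hi]⟩
    · refine ⟨hX g s h.symm, hX g t h.symm, fun i hi => ?_⟩
      rw [← h] at hi
      simp only [hi, true_and]
      exact hst.2.2 i hi
    · exact ⟨hX f t rfl, hst.2.1, fun i hi => by simp [hi]⟩

/-- the partial identity -/
def one (Y : ℕ → Bool) (hY : ∀ i, n ≤ i → Y i = true) : MD n where
  w := fun i => i
  X := Y
  inv := fun _ => rfl
  fix := fun _ _ => rfl
  big := hY
  pl := fun i j h1 h2 => by omega

theorem one_C (Y : ℕ → Bool) (hY : ∀ i, n ≤ i → Y i = true) (s t : ℕ → Prop) :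
    (one Y hY).C s t ↔ ∀ i, Y i = true → (s i ↔ t i) := by
  unfold C one
  simp

/-- removing the points outside `Y` -/
def cut (Y : ℕ → Bool) (hY : ∀ i, n ≤ i → Y i = true) (f : MD n) : MD n where
  w := fun i => if Y i = true ∧ Y (f.w i) = true then f.w i else i
  X := fun i => f.X i && Y i
  inv := by
    intro i
    have := f.inv i
    by_cases h : Y i = true ∧ Y (f.w i) = true
    · rw [if_pos h, if_pos ⟨h.2, by rw [this]; exact h.1⟩, this]
    · rw [if_neg h, if_neg h]
  fix := by
    intro i hi
    have : f.w i = i := f.fix i (by simp only [Bool.and_eq_true] at hi; exact hi.1)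
    rw [this]
    split_ifs <;> rfl
  big := fun i hi => by simp [f.big i hi, hY i hi]
  pl := by
    intro i j h1 h2
    by_cases h : Y i = true ∧ Y (f.w i) = true
    · rw [if_pos h] at h2 ⊢
      obtain ⟨a, b, c⟩ := f.pl i j h1 h2
      refine ⟨by simp [a], ?_⟩
      split_ifs
      · exact ⟨b, c⟩
      · exact ⟨h1, h2⟩
    · rw [if_neg h] at h2
      omega

theorem cut_C (Y : ℕ → Bool) (hY : ∀ i, n ≤ i → Y i = true) (f : MD n) :
    rcomp (rcomp (one Y hY).C f.C) (one Y hY).C = (cut Y hY f).C := by
  funext s t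
  apply propext
  constructor
  · rintro ⟨v, ⟨u, h1, h2⟩, h3⟩
    rw [one_C] at h1 h3
    refine ⟨?_, ?_, ?_⟩
    · intro i
      change s i ↔ s (if Y i = true ∧ Y (f.w i) = true then f.w i else i)
      split_ifs with h
      · rw [h1 i h.1, h1 _ h.2]; exact h2.1 i
      · exact Iff.rfl
    · intro i
      change t i ↔ t (if Y i = true ∧ Y (f.w i) = true then f.w i else i)
      split_ifs with h
      · rw [← h3 i h.1, ← h3 _ h.2]; exact h2.2.1 i
      · exact Iff.rfl
    · intro i hi
      have : f.X i = true ∧ Y i = true := by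
        have : (f.X i && Y i) = true := hi
        simpa using this
      rw [h1 i this.2, ← h3 i this.2]
      exact h2.2.2 i this.1
  · rintro ⟨h1, h2, h3⟩
    have h1' : ∀ i, Y i = true → Y (f.w i) = true → (s i ↔ s (f.w i)) := by
      intro i a b
      have := h1 i
      change s i ↔ s (if Y i = true ∧ Y (f.w i) = true then f.w i else i) at this
      rwa [if_pos ⟨a, b⟩] at this
    have h2' : ∀ i, Y i = true → Y (f.w i) = true → (t i ↔ t (f.w i)) := by
      intro i a b
      have := h2 i
      change t i ↔ t (if Y i = true ∧ Y (f.w i) = true then f.w i else i) at this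
      rwa [if_pos ⟨a, b⟩] at this
    let E : (ℕ → Prop) → ℕ → Prop := fun s i => if Y i = true then s i else if Y (f.w i) = true then s (f.w i) else False
    have hE : ∀ s : ℕ → Prop, (∀ i, Y i = true → Y (f.w i) = true → (s i ↔ s (f.w i))) →
        ∀ i, E s i ↔ E s (f.w i) := by
      intro s hs i
      simp only [E, f.inv]
      by_cases a : Y i = true <;> by_cases b : Y (f.w i) = true
      · simp only [a, b, if_true]; exact hs i a b
      · simp [a, b]
      · simp [a, b]
      · simp [a, b]
    refine ⟨E t, ⟨E s, ?_, ?_⟩, ?_⟩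
    · rw [one_C]
      intro i hi
      simp [E, hi]
    · refine ⟨hE s h1', hE t h2', ?_⟩
      intro i hi
      have hw := f.fix i hi
      by_cases hy : Y i = true
      · simp only [E, hy, if_true]
        apply h3
        change (f.X i && Y i) = true
        simp [hi, hy]
      · simp [E, hy, hw]
    · rw [one_C]
      intro i hi
      simp [E, hi]

end MD

end Pool.Agent.W_MP_aeed81_al
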