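import Pool.Agent.W_MP_aeed81_al.MGauge2

set_option linter.unusedVariables false
set_option linter.unusedSectionVars false

namespace Pool.Agent.W_MP_aeed81_al

open Finset

/-- The moves that are not forced to be trivial. -/
def Bad (r : ℕ) (m : ℕ → ℕ) (j s t : ℕ) : Prop :=
  ((s = 1 ∧ t = 2) ∨ (s = 2 ∧ t = 1) ∨ (s = 2 ∧ t = 2)) ∧ m (j + 1) ≤ s + t + 1 ∧
    (∀ i, i ≤ r → i ≠ j + 1 → m i ≤ 1) ∧
    ¬ (s = 1 ∧ t = 2 ∧ m (j + 1) = 3 ∧ ∀ i, j + 1 < i → i ≤ r → m i = 0)

section

variable {G : Type*} [Group G] {r : ℕ} {γ : (ℕ → ℕ) → ℕ → ℕ → ℕ → G}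

theorem ell_all (h : GSys r γ) (hT : ∀ m j, j < r → 2 ≤ m (j + 1) → γ m j 1 1 = 1) (j : ℕ)
    (hj : j < r) (m : ℕ → ℕ) (h1 : 3 ≤ m (j + 1))
    (h2 : (∃ i, i ≤ r ∧ i ≠ j + 1 ∧ 2 ≤ m i) ∨ 5 ≤ m (j + 1)) :
    gG r γ m * γ m j 1 2 = gG r γ (gmv m j 3) := by
  by_cases hodd : m (j + 1) % 2 = 1
  · exact odd_step h hT r j hj m h1 hodd (fun i hi1 hi2 => by omega) h2
  have six : ∀ m : ℕ → ℕ, m (j + 1) % 2 = 0 → 6 ≤ m (j + 1) →
      gG r γ m * γ m j 1 2 = gG r γ (gmv m j 3) := by
    intro m he h6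
    have e1 : gmv m j 3 (j + 1) = m (j + 1) - 3 := by simp [gmv]
    have v3 := odd_step h hT r j hj (gmv m j 3) (by rw [e1]; omega) (by rw [e1]; omega)
      (fun i hi1 hi2 => by omega) (Or.inl ⟨j, by omega, by omega, by simp [gmv]⟩)
    have v4 : gG r γ m = gG r γ (gmv m j 6) := by
      rw [gG_T _ j hj (by omega), gG_T _ j hj (by simp only [gmv]; split_ifs <;> omega),
        gG_T _ j hj (by simp only [gmv]; split_ifs <;> omega), gmv_gmv, gmv_gmv]
    have v2 := ell_ell h hT j hj m h6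
    rw [gmv_gmv _ j 3 3] at v3
    norm_num at v3
    rw [v4, ← v3, mul_assoc]
    have : γ (gmv m j 3) j 1 2 * γ m j 1 2 = 1 :=
      mul_eq_one_iff_eq_inv.2 (eq_inv_of_mul_eq_one_right v2)
    rw [this, mul_one]
  by_cases h6 : 6 ≤ m (j + 1)
  · exact six m (by omega) h6
  · have h4 : m (j + 1) = 4 := by omega
    rcases h2 with ⟨i0, hi1, hi2, hi3⟩ | h2
    swap
    · omega
    let n : ℕ → ℕ := fun i => if i = i0 then m i - 2 else m i
    have e0 : gad n i0 = m := by
      funext i; simp only [gad, n]; grind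
    have e1 : n (j + 1) = 4 := by simp only [n]; rw [if_neg (by omega), h4]
    have g1 : gG r γ m = gG r γ (gad n (j + 1)) := by
      rw [gG_pm n (j + 1) (by omega), ← gG_pm n i0 hi1, e0]
    have g2 : γ m j 1 2 = γ (gad n (j + 1)) j 1 2 := by
      have := pm_inv (r := r) (fun m => γ m j 1 2) 3 (j + 1)
        (fun m k a1 a2 a3 a4 => ell_inv h hT j hj m k a1 a2 a3 a4) n (by omega)
      have a1 := this (j + 1) (by omega)
      have a2 := this i0 hi1
      simp only [e0] at a1 a2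
      rw [a1, a2]
    have g3 : gG r γ (gmv m j 3) = gG r γ (gmv (gad n (j + 1)) j 3) := by
      rw [gmv_gad' _ _ _ _ (by omega), gG_pm _ (j + 1) (by omega), ← gG_pm _ i0 hi1,
        ← gmv_gad' _ _ _ _ (by omega), e0]
    rw [g1, g2, g3]
    apply six
    · simp only [gad, if_true]; omega
    · simp only [gad, if_true]; omega

theorem rho_all (h : GSys r γ) (hT : ∀ m j, j < r → 2 ≤ m (j + 1) → γ m j 1 1 = 1) (j : ℕ)
    (hj : j < r) (m : ℕ → ℕ) (h1 : 3 ≤ m (j + 1))
    (h2 : (∃ i, i ≤ r ∧ i ≠ j + 1 ∧ 2 ≤ m i) ∨ 5 ≤ m (j + 1)) :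
    gG r γ m * γ m j 2 1 = gG r γ (gmv m j 3) := by
  have five : ∀ m : ℕ → ℕ, 5 ≤ m (j + 1) →
      gG r γ m * γ m j 2 1 = gG r γ (gmv m j 3) := by
    intro m h5
    rw [rho_eq h hT j hj m h5]
    exact ell_all h hT j hj m (by omega) (Or.inr h5)
  rcases h2 with ⟨i0, hi1, hi2, hi3⟩ | h2
  swap
  · exact five m h2
  let n : ℕ → ℕ := fun i => if i = i0 then m i - 2 else m i
  have e0 : gad n i0 = m := by
    funext i; simp only [gad, n]; grind
  have e1 : n (j + 1) = m (j + 1) := by simp only [n]; rw [if_neg (by omega)]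
  have g1 : gG r γ m = gG r γ (gad n (j + 1)) := by
    rw [gG_pm n (j + 1) (by omega), ← gG_pm n i0 hi1, e0]
  have g2 : γ m j 2 1 = γ (gad n (j + 1)) j 2 1 := by
    have := pm_inv (r := r) (fun m => γ m j 2 1) 3 (j + 1)
      (fun m k a1 a2 a3 a4 => rho_inv h hT j hj m k a1 a2 a3 a4) n (by omega)
    have a1 := this (j + 1) (by omega)
    have a2 := this i0 hi1
    simp only [e0] at a1 a2
    rw [a1, a2]
  have g3 : gG r γ (gmv m j 3) = gG r γ (gmv (gad n (j + 1)) j 3) := by
    rw [gmv_gad' _ _ _ _ (by omega), gG_pm _ (j + 1) (by omega), ← gG_pm _ i0 hi1,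
      ← gmv_gad' _ _ _ _ (by omega), e0]
  rw [g1, g2, g3]
  apply five
  simp only [gad, if_true]; omega

theorem mu_all (h : GSys r γ) (hT : ∀ m j, j < r → 2 ≤ m (j + 1) → γ m j 1 1 = 1) (j : ℕ)
    (hj : j < r) (m : ℕ → ℕ) (h1 : 4 ≤ m (j + 1))
    (h2 : (∃ i, i ≤ r ∧ i ≠ j + 1 ∧ 2 ≤ m i) ∨ 6 ≤ m (j + 1)) :
    gG r γ m * γ m j 2 2 = gG r γ (gmv m j 4) := by
  have g3 : gG r γ (gmv m j 4) = gG r γ m := by
    rw [gG_T m j hj (by omega), gG_T (gmv m j 2) j hj (by simp only [gmv]; split_ifs <;> omega),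
      gmv_gmv]
  have g4 : γ m j 2 2 = 1 := by
    rcases h2 with ⟨i0, hi1, hi2, hi3⟩ | h2
    swap
    · exact mu_one h hT j hj m h2
    let n : ℕ → ℕ := fun i => if i = i0 then m i - 2 else m i
    have e0 : gad n i0 = m := by
      funext i; simp only [gad, n]; grind
    have e1 : n (j + 1) = m (j + 1) := by simp only [n]; rw [if_neg (by omega)]
    have g2 : γ m j 2 2 = γ (gad n (j + 1)) j 2 2 := by
      have := pm_inv (r := r) (fun m => γ m j 2 2) 4 (j + 1)
        (fun m k a1 a2 a3 a4 => mu_inv h hT j hj m k a1 a2 a3 a4) n (by omega)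
      have a1 := this (j + 1) (by omega)
      have a2 := this i0 hi1
      simp only [e0] at a1 a2
      rw [a1, a2]
    rw [g2]
    apply mu_one h hT j hj
    simp only [gad, if_true]; omega
  rw [g3, g4, mul_one]

theorem gauge_normal (h : GSys r γ) (hT : ∀ m j, j < r → 2 ≤ m (j + 1) → γ m j 1 1 = 1) (j : ℕ)
    (hj : j < r) (N : ℕ) : ∀ (m : ℕ → ℕ) (s t : ℕ), s + t = N → 1 ≤ s → 1 ≤ t → s + t ≤ m (j + 1) →
    ¬ Bad r m j s t → gG r γ m * γ m j s t = gG r γ (gmv m j (s + t)) := by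
  induction N using Nat.strong_induction_on with
  | _ N ih =>
    intro m s t hN hs ht hm hbad
    by_cases ht3 : 3 ≤ t
    · obtain ⟨t', rfl⟩ : ∃ t', t = 1 + 1 + t' := ⟨t - 2, by omega⟩
      have a := h.hP1 m j s 1 1 t' hj hs (by norm_num) (by norm_num) (by omega) (by omega)
      have a1 := ih (s + 1) (by omega) m s 1 rfl hs (by norm_num) (by omega) (by
        rintro ⟨h1, h2, h3, h4⟩
        omega)
      have e1 : gmv m j (s + 1) (j + 1) = m (j + 1) - (s + 1) := by simp [gmv]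
      have a2 := ih (1 + t') (by omega) (gmv m j (s + 1)) 1 t' rfl (by norm_num) (by omega)
        (by rw [e1]; omega) (by
          rintro ⟨h1, h2, h3, h4⟩
          have := h3 j (by omega) (by omega)
          simp only [gmv, if_true] at this
          omega)
      rw [← a, ← mul_assoc, a1, a2, gmv_gmv]
      congr 2; ring
    · by_cases hs3 : 3 ≤ s
      · obtain ⟨s', rfl⟩ : ∃ s', s = s' + 1 + 1 := ⟨s - 2, by omega⟩
        have a := h.hP2 m j s' 1 1 t hj (by omega) (by norm_num) (by norm_num) (by omega) (by omega)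
        have a1 := ih (s' + 1) (by omega) m s' 1 rfl (by omega) (by norm_num) (by omega) (by
          rintro ⟨h1, h2, h3, h4⟩
          have : 2 + t ≤ t + 1 + 1 := by omega
          omega)
        have e1 : gmv m j (s' + 1) (j + 1) = m (j + 1) - (s' + 1) := by simp [gmv]
        have a2 := ih (1 + t) (by omega) (gmv m j (s' + 1)) 1 t rfl (by norm_num) (by omega)
          (by rw [e1]; omega) (by
            rintro ⟨h1, h2, h3, h4⟩
            have := h3 j (by omega) (by omega)
            simp only [gmv, if_true] at this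
            omega)
        rw [← a, ← mul_assoc, a1, a2, gmv_gmv]
        congr 2; ring
      · have hs' : s = 1 ∨ s = 2 := by omega
        have ht' : t = 1 ∨ t = 2 := by omega
        have nb : ∀ c, ¬ (m (j + 1) ≤ c ∧ ∀ i, i ≤ r → i ≠ j + 1 → m i ≤ 1) →
            (∃ i, i ≤ r ∧ i ≠ j + 1 ∧ 2 ≤ m i) ∨ c + 1 ≤ m (j + 1) := by
          intro c hc
          by_contra hcon
          push Not at hcon
          apply hc
          refine ⟨by omega, ?_⟩
          intro i h1 h2
          have := hcon.1 i h1 h2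
          omega
        rcases hs' with rfl | rfl <;> rcases ht' with rfl | rfl
        · rw [hT m j hj (by omega), mul_one]
          exact gG_T m j hj (by omega)
        · by_cases hnt : m (j + 1) ≤ 4 ∧ ∀ i, i ≤ r → i ≠ j + 1 → m i ≤ 1
          · have : m (j + 1) = 3 ∧ ∀ i, j + 1 < i → i ≤ r → m i = 0 := by
              by_contra hc
              apply hbad
              refine ⟨by omega, by omega, hnt.2, ?_⟩
              rintro ⟨_, _, h1, h2⟩
              exact hc ⟨h1, h2⟩
            exact can_step h hT j hj m (by omega) (by omega) (fun i h1 h2 => by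
              rw [this.2 i h1 h2])
          · exact ell_all h hT j hj m (by omega) (nb 4 hnt)
        · apply rho_all h hT j hj m (by omega)
          apply nb 4
          rintro ⟨h1, h2⟩
          apply hbad
          exact ⟨by omega, by omega, h2, by omega⟩
        · apply mu_all h hT j hj m (by omega)
          apply nb 5
          rintro ⟨h1, h2⟩
          apply hbad
          exact ⟨by omega, by omega, h2, by omega⟩

/-- The gauge theorem. -/
theorem gauge (h : GSys r γ) : ∃ g : (ℕ → ℕ) → G,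
    (∀ m, (∀ i, 1 ≤ i → i ≤ r → m i = 0) → g m = 1) ∧
    ∀ m j s t, j < r → 1 ≤ s → 1 ≤ t → s + t ≤ m (j + 1) → ¬ Bad r m j s t →
      g m * γ m j s t = g (gmv m j (s + t)) := by
  obtain ⟨g1, hg1, hg2⟩ := gauge_T r (fun m j => γ m j 1 1) (by
    intro m j k hj hk hjk h1 h2
    have := h.hC m j k 1 1 1 1 hj hk hjk (by norm_num) (by norm_num) (by norm_num) (by norm_num)
      (by omega) (by omega)
    norm_num at this
    exact this)
  let γ' : (ℕ → ℕ) → ℕ → ℕ → ℕ → G := fun m j s t =>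
    g1 m * γ m j s t * (g1 (gmv m j (s + t)))⁻¹
  have h' : GSys r γ' := by
    constructor
    · intro m j k s t s' t' hj hk hjk a1 a2 a3 a4 a5 a6
      have := h.hC m j k s t s' t' hj hk hjk a1 a2 a3 a4 a5 a6
      simp only [γ']
      rw [gmv_comm m j k _ _ hjk a5 a6]
      calc _ = g1 m * (γ m j s t * γ (gmv m j (s + t)) k s' t') *
            (g1 (gmv (gmv m k (s' + t')) j (s + t)))⁻¹ := by group
        _ = _ := by rw [this]; group
    · intro m j s1 s2 s3 s4 hj a1 a2 a3 a4 a5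
      have := h.hP1 m j s1 s2 s3 s4 hj a1 a2 a3 a4 a5
      simp only [γ']
      rw [gmv_gmv, ← this]
      have e : s1 + (s2 + s3 + s4) = s1 + s2 + (s3 + s4) := by ring
      rw [e]
      group
    · intro m j s1 s2 s3 s4 hj a1 a2 a3 a4 a5
      have := h.hP2 m j s1 s2 s3 s4 hj a1 a2 a3 a4 a5
      simp only [γ']
      rw [gmv_gmv, ← this]
      have e : s1 + s2 + s3 + s4 = s1 + s2 + (s3 + s4) := by ring
      rw [e]
      group
  have hT' : ∀ m j, j < r → 2 ≤ m (j + 1) → γ' m j 1 1 = 1 := by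
    intro m j hj h2
    have := hg2 m j hj h2
    simp only [γ']
    norm_num
    rw [this]; group
  refine ⟨fun m => gG r γ' m * g1 m, ?_, ?_⟩
  · intro m hm
    simp only
    rw [hg1 m hm, mul_one]
    exact gF_base r _ m hm
  · intro m j s t hj hs ht hm hb
    have := gauge_normal h' hT' j hj (s + t) m s t rfl hs ht hm hb
    have e : γ' m j s t = g1 m * γ m j s t * (g1 (gmv m j (s + t)))⁻¹ := rfl
    rw [e] at this
    simp only
    rw [← this]
    generalize gG r γ' m = x
    group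

end

end Pool.Agent.W_MP_aeed81_al
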