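import Mathlib

set_option linter.unusedVariables false
set_option linter.unusedSectionVars false

namespace Pool.Agent.W_MP_aeed81_al

open Finset

/-- The gap vector after moving the `j`-th defect `d` places to the right. -/
def gmv (m : ℕ → ℕ) (j d : ℕ) : ℕ → ℕ :=
  fun i => if i = j then m i + d else if i = j + 1 then m i - d else m i

/-- The gap vector with two more points in gap `a`. -/
def gad (m : ℕ → ℕ) (a : ℕ) : ℕ → ℕ := fun i => if i = a then m i + 2 else m i

/-- first measure -/
def tau (r : ℕ) (m : ℕ → ℕ) : ℕ := ∑ i ∈ range (r + 1), i * m i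

theorem two_sum (φ : ℕ → ℕ → ℕ) (r j : ℕ) (hj : j < r) (m : ℕ → ℕ) :
    ∃ c, ∀ m' : ℕ → ℕ, (∀ i, i ≠ j → i ≠ j + 1 → m' i = m i) →
      ∑ i ∈ range (r + 1), φ i (m' i) = c + φ j (m' j) + φ (j + 1) (m' (j + 1)) := by
  refine ⟨∑ i ∈ ((range (r + 1)).erase j).erase (j + 1), φ i (m i), ?_⟩
  intro m' h
  have h1 : j ∈ range (r + 1) := by simp; omega
  have h2 : j + 1 ∈ (range (r + 1)).erase j := by simp; omega
  rw [← Finset.add_sum_erase _ _ h1, ← Finset.add_sum_erase _ _ h2]
  have h3 : ∑ i ∈ ((range (r + 1)).erase j).erase (j + 1), φ i (m' i) =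
      ∑ i ∈ ((range (r + 1)).erase j).erase (j + 1), φ i (m i) := by
    apply Finset.sum_congr rfl
    intro i hi
    simp only [mem_erase] at hi
    rw [h i hi.2.1 hi.1]
  rw [h3]
  ring

theorem tau_gmv {r j d : ℕ} {m : ℕ → ℕ} (hj : j < r) (hd : d ≤ m (j + 1)) :
    tau r (gmv m j d) + d = tau r m := by
  obtain ⟨c, hc⟩ := two_sum (fun i x => i * x) r j hj m
  have h1 := hc m (fun _ _ _ => rfl)
  have h2 := hc (gmv m j d) (fun i h1 h2 => by simp [gmv, h1, h2])
  unfold tau
  rw [h1, h2]
  have e1 : gmv m j d j = m j + d := by simp [gmv]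
  have e2 : gmv m j d (j + 1) = m (j + 1) - d := by simp [gmv]
  obtain ⟨k, hk⟩ := Nat.exists_eq_add_of_le hd
  rw [e1, e2, hk, Nat.add_sub_cancel_left]
  ring

theorem gmv_comm (m : ℕ → ℕ) (j k d d' : ℕ) (hjk : j ≠ k) (h1 : d ≤ m (j + 1))
    (h2 : d' ≤ m (k + 1)) : gmv (gmv m j d) k d' = gmv (gmv m k d') j d := by
  funext i
  simp only [gmv]
  grind

theorem gmv_gmv (m : ℕ → ℕ) (j d d' : ℕ) : gmv (gmv m j d) j d' = gmv m j (d + d') := by
  funext i
  simp only [gmv]
  grind

theorem gmv_gad (m : ℕ → ℕ) (i : ℕ) : gmv (gad m (i + 1)) i 2 = gad m i := by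
  funext k
  simp only [gmv, gad]
  grind

theorem gmv_gad' (m : ℕ → ℕ) (i j d : ℕ) (h : d ≤ m (j + 1)) :
    gmv (gad m i) j d = gad (gmv m j d) i := by
  funext k
  simp only [gmv, gad]
  grind

/-- invariants of pair moves -/
theorem pm_inv {α : Type*} {r : ℕ} (φ : (ℕ → ℕ) → α) (c j0 : ℕ)
    (h : ∀ m k, k < r → 2 ≤ m (k + 1) → c ≤ m j0 → c ≤ gmv m k 2 j0 → φ m = φ (gmv m k 2))
    (n : ℕ → ℕ) (hn : c ≤ n j0) : ∀ i, i ≤ r → φ (gad n i) = φ (gad n 0) := by
  intro i
  induction i with
  | zero => intro _; rfl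
  | succ i ih =>
    intro hi
    rw [← ih (by omega), ← gmv_gad n i]
    apply h _ _ (by omega)
    · simp [gad]
    · simp only [gad]; split_ifs <;> omega
    · rw [gmv_gad]; simp only [gad]; split_ifs <;> omega

/-- The induction principle for gap vectors with some gap of size at least two. -/
theorem gap_induction (r : ℕ) (P : (ℕ → ℕ) → Prop)
    (h0 : ∀ m, (∀ i, 1 ≤ i → i ≤ r → m i = 0) → 2 ≤ m 0 → P m)
    (hT : ∀ m j, j < r → 2 ≤ m (j + 1) → (P m ↔ P (gmv m j 2)))
    (hL : ∀ m j, j < r → m (j + 1) = 3 → (∀ i, j + 1 < i → i ≤ r → m i = 0) →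
      (∀ i, 1 ≤ i → i ≤ r → i ≠ j + 1 → m i ≤ 1) → P (gmv m j 3) → P m) :
    ∀ m, (∃ i, i ≤ r ∧ 2 ≤ m i) → P m := by
  have pm : ∀ n i, i ≤ r → (P (gad n i) ↔ P (gad n 0)) := by
    intro n i hi
    have := pm_inv (r := r) P 0 0 (fun m k h1 h2 _ _ => propext (hT m k h1 h2)) n (Nat.zero_le _) i hi
    rw [this]
  intro m
  induction hN : tau r m using Nat.strong_induction_on generalizing m with
  | _ N ih =>
    intro hm
    by_cases hex : ∃ j, j < r ∧ 2 ≤ m (j + 1)
    · obtain ⟨j, hj, h2⟩ := hex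
      rw [hT m j hj h2]
      have ht := tau_gmv hj h2
      apply ih (tau r (gmv m j 2)) (by omega) _ rfl
      exact ⟨j, by omega, by simp [gmv]⟩
    · push Not at hex
      have hle : ∀ i, 1 ≤ i → i ≤ r → m i ≤ 1 := by
        intro i h1 h2
        have := hex (i - 1) (by omega)
        rw [Nat.sub_add_cancel h1] at this
        omega
      have hm0 : 2 ≤ m 0 := by
        obtain ⟨i, h1, h2⟩ := hm
        rcases Nat.eq_zero_or_pos i with rfl | h3
        · exact h2
        · have := hle i h3 h1; omega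
      by_cases hz : ∀ i, 1 ≤ i → i ≤ r → m i = 0
      · exact h0 m hz hm0
      · push Not at hz
        obtain ⟨i0, hi1, hi2, hi3⟩ := hz
        obtain ⟨b, hb1, hb2, hb3, hb4⟩ : ∃ b, 1 ≤ b ∧ b ≤ r ∧ m b ≠ 0 ∧
            ∀ i, b < i → i ≤ r → m i = 0 := by
          classical
          let s := (Icc 1 r).filter (fun i => m i ≠ 0)
          have hs : s.Nonempty := ⟨i0, by simp [s, hi1, hi2, hi3]⟩
          have hmem := s.max'_mem hs
          simp only [s, mem_filter, mem_Icc] at hmem
          refine ⟨s.max' hs, hmem.1.1, hmem.1.2, hmem.2, ?_⟩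
          intro i h1 h2
          by_contra h3
          have : i ≤ s.max' hs := Finset.le_max' _ _ (by
            simp only [s, mem_filter, mem_Icc]
            exact ⟨⟨by omega, h2⟩, h3⟩)
          omega
        obtain ⟨j, rfl⟩ : ∃ j, b = j + 1 := ⟨b - 1, by omega⟩
        have hb5 : m (j + 1) = 1 := by have := hle (j + 1) hb1 hb2; omega
        let n0 : ℕ → ℕ := fun i => if i = 0 then m 0 - 2 else m i
        have e0 : gad n0 0 = m := by
          funext i
          simp only [gad, n0]
          grind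
        rw [← e0, ← pm n0 (j + 1) hb2]
        let n1 : ℕ → ℕ := fun i => if i = j then n0 i + 1 else if i = j + 1 then 0 else n0 i
        have e1 : gmv (gad n0 (j + 1)) j 3 = gad n1 j := by
          funext i
          simp only [gmv, gad, n0, n1]
          grind
        have e2 : gad n1 0 = gmv m j 1 := by
          funext i
          simp only [gmv, gad, n0, n1]
          grind
        apply hL _ j (by omega)
        · simp only [gad, n0]; grind
        · intro i h1 h2
          simp only [gad, n0]; grind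
        · intro i h1 h2 h3
          have := hle i h1 h2
          simp only [gad, n0]; grind
        · rw [e1, pm n1 j (by omega), e2]
          have ht := tau_gmv (r := r) (j := j) (d := 1) (m := m) (by omega) (by omega)
          apply ih (tau r (gmv m j 1)) (by omega) _ rfl
          refine ⟨0, by omega, ?_⟩
          simp only [gmv]; grind

end Pool.Agent.W_MP_aeed81_al
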