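import Pool.Agent.W_MP_aeed81_al.MSlide
import Pool.Agent.W_MP_aeed81_al.MGap

set_option linter.unusedVariables false
set_option linter.unusedSectionVars false

namespace Pool.Agent.W_MP_aeed81_al

open Finset MD

/-- position of the `j`-th defect -/
def pos (m : ℕ → ℕ) (j : ℕ) : ℕ := ∑ i ∈ range (j + 1), m i + j

/-- the defects of a gap vector -/
def XG (m : ℕ → ℕ) : ℕ → Bool := fun i => (List.range (i + 1)).any (fun j => decide (pos m j = i))

theorem pos_zero (m : ℕ → ℕ) : pos m 0 = m 0 := by simp [pos]

theorem pos_succ (m : ℕ → ℕ) (j : ℕ) : pos m (j + 1) = pos m j + m (j + 1) + 1 := by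
  simp only [pos]
  rw [Finset.sum_range_succ _ (j + 1)]
  ring

theorem pos_strictMono (m : ℕ → ℕ) : StrictMono (pos m) :=
  strictMono_nat_of_lt_succ (fun j => by rw [pos_succ]; omega)

theorem le_pos (m : ℕ → ℕ) (j : ℕ) : j ≤ pos m j := (pos_strictMono m).le_apply

theorem XG_iff (m : ℕ → ℕ) (i : ℕ) : XG m i = true ↔ ∃ j, pos m j = i := by
  simp only [XG, List.any_eq_true, List.mem_range, decide_eq_true_eq]
  constructor
  · rintro ⟨j, _, h⟩; exact ⟨j, h⟩
  · rintro ⟨j, h⟩
    exact ⟨j, by have := le_pos m j; omega, h⟩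

theorem XG_pos (m : ℕ → ℕ) (j : ℕ) : XG m (pos m j) = true := (XG_iff m _).2 ⟨j, rfl⟩

theorem XG_gap (m : ℕ → ℕ) (j i : ℕ) (h1 : pos m j < i) (h2 : i ≤ pos m j + m (j + 1)) :
    XG m i = false := by
  cases h : XG m i
  · rfl
  · exfalso
    rw [XG_iff] at h
    obtain ⟨k, hk⟩ := h
    rw [← hk] at h1 h2
    have h3 := (pos_strictMono m).lt_iff_lt.1 h1
    have h4 : pos m k < pos m (j + 1) := by rw [pos_succ]; omega
    have h5 := (pos_strictMono m).lt_iff_lt.1 h4
    omega

theorem pos_gmv (m : ℕ → ℕ) (j d : ℕ) (hd : d ≤ m (j + 1)) (k : ℕ) :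
    pos (gmv m j d) k = if k = j then pos m j + d else pos m k := by
  have key : ∀ k, pos (gmv m j d) k = if k = j then pos m k + d else pos m k := by
    intro k
    induction k with
    | zero =>
      rw [pos_zero, pos_zero]
      simp only [gmv]
      by_cases h : 0 = j
      · rw [if_pos h, if_pos h]
      · rw [if_neg h, if_neg h, if_neg (by omega)]
    | succ k ih =>
      rw [pos_succ, pos_succ, ih]
      simp only [gmv]
      by_cases h : k + 1 = j
      · rw [if_pos h, if_neg (by omega), if_pos h]; omega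
      · rw [if_neg h]
        by_cases h' : k = j
        · subst h'; simp only [if_true, if_neg h]; omega
        · rw [if_neg h', if_neg (by omega), if_neg h]
  rw [key]
  by_cases h : k = j
  · rw [if_pos h, if_pos h, h]
  · rw [if_neg h, if_neg h]

theorem XG_gmv (m : ℕ → ℕ) (j d : ℕ) (h1 : 1 ≤ d) (hd : d ≤ m (j + 1)) :
    XG (gmv m j d) = mvX (XG m) (pos m j) (pos m j + d) := by
  funext i
  have e : (XG (gmv m j d) i = true) ↔ (mvX (XG m) (pos m j) (pos m j + d) i = true) := by
    rw [XG_iff]
    simp only [pos_gmv m j d hd, mvX]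
    constructor
    · rintro ⟨k, hk⟩
      by_cases hkj : k = j
      · rw [if_pos hkj] at hk
        rw [if_neg (by omega), if_pos hk.symm]
      · rw [if_neg hkj] at hk
        rw [if_neg (by
          intro h; apply hkj; exact (pos_strictMono m).injective (by rw [hk, h]))]
        rw [← hk, XG_pos]
        simp
    · intro h
      by_cases h2 : i = pos m j
      · rw [if_pos h2] at h; exact absurd h (by simp)
      · rw [if_neg h2] at h
        by_cases h3 : i = pos m j + d
        · exact ⟨j, by rw [if_pos rfl, h3]⟩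
        · rw [if_neg h3, XG_iff] at h
          obtain ⟨k, hk⟩ := h
          refine ⟨k, ?_⟩
          rw [if_neg (by rintro rfl; exact h2 hk.symm), hk]
  cases h : XG (gmv m j d) i
  · cases h' : mvX (XG m) (pos m j) (pos m j + d) i
    · rfl
    · rw [e.2 h'] at h; exact h.symm
  · rw [e.1 h]

/-- gap vectors of states with `r` defects on `n` points -/
def Vd (n r : ℕ) (m : ℕ → ℕ) : Prop := (∀ i, r < i → m i = 0) ∧ pos m r = n

theorem Vd.big {n r : ℕ} {m : ℕ → ℕ} (h : Vd n r m) : ∀ i, n ≤ i → XG m i = true := by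
  have key : ∀ k, pos m (r + k) = n + k := by
    intro k
    induction k with
    | zero => exact h.2
    | succ k ih =>
      rw [← Nat.add_assoc, pos_succ, ih, h.1 _ (by omega)]
      omega
  intro i hi
  rw [XG_iff]
  exact ⟨r + (i - n), by rw [key]; omega⟩

theorem Vd.gmv {n r : ℕ} {m : ℕ → ℕ} {j d : ℕ} (hj : j < r) (hd : d ≤ m (j + 1)) :
    Vd n r (gmv m j d) ↔ Vd n r m := by
  unfold Vd
  rw [pos_gmv m j d hd, if_neg (by omega)]
  constructor
  · rintro ⟨h1, h2⟩
    refine ⟨fun i hi => ?_, h2⟩
    have := h1 i hi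
    simp only [Pool.Agent.W_MP_aeed81_al.gmv] at this
    rw [if_neg (by omega), if_neg (by omega)] at this
    exact this
  · rintro ⟨h1, h2⟩
    refine ⟨fun i hi => ?_, h2⟩
    simp only [Pool.Agent.W_MP_aeed81_al.gmv]
    rw [if_neg (by omega), if_neg (by omega)]
    exact h1 i hi

theorem Vd.lt {n r : ℕ} {m : ℕ → ℕ} (h : Vd n r m) {j : ℕ} (hj : j < r) :
    pos m j + m (j + 1) < n := by
  have h1 := pos_succ m j
  have h2 : pos m (j + 1) ≤ pos m r := (pos_strictMono m).monotone (by omega)
  rw [h.2] at h2
  omega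

theorem Vd.mv {n r : ℕ} {m : ℕ → ℕ} (h : Vd n r m) {j s t : ℕ} (hj : j < r) (hs : 1 ≤ s)
    (ht : 1 ≤ t) (hst : s + t ≤ m (j + 1)) :
    Mv n (XG m) (pos m j) (pos m j + s) (pos m j + s + t) :=
  ⟨h.big, by omega, by omega, by have := h.lt hj; omega, XG_pos m j,
    fun i h1 h2 => XG_gap m j i h1 (by omega)⟩

theorem XG_inj {m m' : ℕ → ℕ} (h : XG m = XG m') : m = m' := by
  have hp : ∀ j, pos m j = pos m' j := by
    intro j
    induction j using Nat.strong_induction_on with
    | _ j ih =>
      have key : ∀ {m m' : ℕ → ℕ}, XG m = XG m' → (∀ k, k < j → pos m k = pos m' k) →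
          pos m' j ≤ pos m j := by
        intro m m' h ih
        have h1 : XG m' (pos m j) = true := by rw [← h]; exact XG_pos m j
        rw [XG_iff] at h1
        obtain ⟨k, hk⟩ := h1
        have : j ≤ k := by
          by_contra hc
          have h2 := ih k (by omega)
          rw [hk] at h2
          have := (pos_strictMono m).injective h2
          omega
        rw [← hk]
        exact (pos_strictMono m').monotone this
      exact le_antisymm (key h.symm (fun k hk => (ih k hk).symm)) (key h ih)
  funext i
  rcases i with _ | i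
  · have := hp 0
    rwa [pos_zero, pos_zero] at this
  · have h1 := hp i
    have h2 := hp (i + 1)
    rw [pos_succ, pos_succ] at h2
    omega

theorem exists_gap (n : ℕ) (X : ℕ → Bool) (hX : ∀ i, n ≤ i → X i = true) :
    ∃ m, XG m = X ∧ Vd n ((range n).filter (fun i => X i = true)).card m := by
  classical
  let P : ℕ → Prop := fun i => X i = true
  have hinf : (Set.ofPred P).Infinite := by
    rw [Set.infinite_iff_exists_gt]
    intro a
    exact ⟨max (a + 1) n, hX _ (le_max_right _ _), by have := le_max_left (a + 1) n; omega⟩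
  let p : ℕ → ℕ := Nat.nth P
  have pm : StrictMono p := Nat.nth_strictMono hinf
  let m : ℕ → ℕ := fun i => match i with
    | 0 => p 0
    | i + 1 => p (i + 1) - p i - 1
  have hp : ∀ j, pos m j = p j := by
    intro j
    induction j with
    | zero => rw [pos_zero]
    | succ j ih =>
      rw [pos_succ, ih]
      change p j + (p (j + 1) - p j - 1) + 1 = p (j + 1)
      have : p j < p (j + 1) := pm (Nat.lt_succ_self j)
      omega
  have hXG : XG m = X := by
    funext i
    have e : (XG m i = true) ↔ (X i = true) := by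
      rw [XG_iff]
      constructor
      · rintro ⟨j, hj⟩
        rw [hp] at hj
        have := Nat.nth_mem_of_infinite hinf j
        rw [show Nat.nth P j = i from hj] at this
        exact this
      · intro hi
        refine ⟨Nat.count P i, ?_⟩
        rw [hp]
        exact Nat.nth_count hi
    cases h : XG m i
    · cases h' : X i
      · rfl
      · rw [e.2 h'] at h; exact h.symm
    · exact (e.1 h).symm
  refine ⟨m, hXG, ?_⟩
  have hr : ((range n).filter (fun i => X i = true)).card = Nat.count P n := by
    rw [Nat.count_eq_card_filter_range]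
  rw [hr]
  have hcount : ∀ k, Nat.count P (n + k) = Nat.count P n + k := by
    intro k
    induction k with
    | zero => rfl
    | succ k ih =>
      rw [← Nat.add_assoc, Nat.count_succ, ih, if_pos (hX _ (by omega))]
      rfl
  have hpos : ∀ k, p (Nat.count P n + k) = n + k := by
    intro k
    rw [← hcount]
    exact Nat.nth_count (hX _ (by omega))
  constructor
  · intro i hi
    obtain ⟨k, rfl⟩ : ∃ k, i = Nat.count P n + k + 1 := ⟨i - Nat.count P n - 1, by omega⟩
    change p (Nat.count P n + k + 1) - p (Nat.count P n + k) - 1 = 0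
    have h1 := hpos k
    have h2 := hpos (k + 1)
    rw [← Nat.add_assoc] at h2
    omega
  · rw [hp]
    exact hpos 0

/-- two neighbouring points of one gap -/
theorem same_gap (m : ℕ → ℕ) (i : ℕ) (h1 : XG m i = false) (h2 : XG m (i + 1) = false) :
    ∃ l, 2 ≤ m l ∧ (∀ j, l = j + 1 → pos m j < i) ∧ i + 1 < pos m l := by
  classical
  have hex : ∃ l, i < pos m l := ⟨i + 1, by have := le_pos m (i + 1); omega⟩
  obtain ⟨l, hl, hmin⟩ : ∃ l, i < pos m l ∧ ∀ k, k < l → ¬ i < pos m k :=
    ⟨Nat.find hex, Nat.find_spec hex, fun k hk => Nat.find_min hex hk⟩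
  have hne : ∀ k, pos m k ≠ i := by
    intro k hk
    rw [← hk, XG_pos] at h1
    exact absurd h1 (by simp)
  have hne' : ∀ k, pos m k ≠ i + 1 := by
    intro k hk
    rw [← hk, XG_pos] at h2
    exact absurd h2 (by simp)
  have hl' : i + 1 < pos m l := by
    have := hne' l
    omega
  refine ⟨l, ?_, ?_, hl'⟩
  · rcases l with _ | j
    · rw [pos_zero] at hl'; omega
    · have a1 := hmin j (by omega)
      have a2 := hne j
      rw [pos_succ] at hl'
      omega
  · rintro j rfl
    have a1 := hmin j (by omega)
    have a2 := hne j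
    omega

end Pool.Agent.W_MP_aeed81_al
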