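import Pool.Agent.W_MP_aeed81_al.MOper
import Pool.Agent.W_MP_aeed81_al.MState
import Pool.Agent.W_MP_aeed81_al.MGauge3

set_option linter.unusedVariables false
set_option linter.unusedSectionVars false

namespace Pool.Agent.W_MP_aeed81_al

open MD

variable {n : ℕ}

/-! ### facts on conjugation, read off from closed sets -/

theorem C_ff (f : MD n) {s : ℕ → Prop} (h : ∀ i, s i ↔ s (f.w i)) : f.C s s :=
  ⟨h, h, fun _ _ => Iff.rfl⟩

theorem C_00 (f : MD n) : f.C (fun _ => False) (fun _ => False) :=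
  C_ff f (fun _ => Iff.rfl)

/-- indicator of the block of `i` -/
theorem inv_pair (f : MD n) (i : ℕ) : ∀ j, (j = i ∨ j = f.w i) ↔ (f.w j = i ∨ f.w j = f.w i) := by
  intro j
  constructor
  · rintro (rfl | rfl)
    · exact Or.inr rfl
    · left; exact f.inv i
  · rintro (h1 | h1)
    · right; rw [← h1, f.inv]
    · left; rw [← f.inv j, h1, f.inv]

theorem C_pair (f : MD n) (i : ℕ) : f.C (fun j => j = i ∨ j = f.w i) (fun j => j = i ∨ j = f.w i) :=
  C_ff f (inv_pair f i)

theorem C_pair0 (f : MD n) (i : ℕ) (h : f.X i = false) :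
    f.C (fun j => j = i ∨ j = f.w i) (fun _ => False) := by
  refine ⟨inv_pair f i, fun _ => Iff.rfl, ?_⟩
  intro j hj
  simp only [iff_false]
  rintro (rfl | rfl)
  · rw [hj] at h; exact absurd h (by simp)
  · rw [f.X_w h] at hj; exact absurd hj (by simp)

/-- principle: to see that `i` is a defect -/
theorem X_of_C (f : MD n) (i : ℕ) (h : ∀ s t, f.C s t → (s i ↔ t i)) : f.X i = true := by
  by_contra hc
  have := h _ _ (C_pair0 f i (by simpa using hc))
  simp at this

/-- principle: to see that `{i, j}` is an arc -/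
theorem w_of_C (f : MD n) (i j : ℕ) (hij : i ≠ j) (h : ∀ s t, f.C s t → (s i ↔ s j)) :
    f.w i = j := by
  have := h _ _ (C_pair f i)
  simp only [true_or, true_iff] at this
  rcases this with h | h
  · exact absurd h.symm hij
  · exact h.symm

/-- principle: to see that `i` is isolated -/
theorem iso_of_C (f : MD n) (i : ℕ) (h : f.C (fun j => j = i) (fun _ => False)) :
    f.w i = i ∧ f.X i = false := by
  constructor
  · have := h.1 i
    simp only [true_iff] at this
    exact this
  · cases hh : f.X i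
    · rfl
    · have := h.2.2 i hh
      simp at this

theorem C_iso (f : MD n) (i : ℕ) (h1 : f.w i = i) (h2 : f.X i = false) :
    f.C (fun j => j = i) (fun _ => False) := by
  have := C_pair0 f i h2
  simp only [h1, or_self] at this
  exact this

theorem C_one_pt (f : MD n) (i : ℕ) (h1 : f.w i = i) : f.C (fun j => j = i) (fun j => j = i) := by
  have := C_pair f i
  simp only [h1, or_self] at this
  exact this

theorem cj_iff (q f : MD n) (s t : ℕ → Prop) :
    (cj q f).C s t ↔ ∃ v, (∃ u, q.C s u ∧ f.C u v) ∧ q.C v t := by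
  rw [← cj_C]; exact Iff.rfl

section le

variable {q g : MD n} (h : cj q g = g)

include h

theorem le_w {i : ℕ} (hi : q.w i ≠ i) : g.w i = q.w i := by
  apply w_of_C g i (q.w i) (Ne.symm hi)
  intro s t hst
  rw [← h, cj_iff] at hst
  obtain ⟨v, ⟨u, h1, h2⟩, h3⟩ := hst
  exact h1.1 i

theorem le_iso {i : ℕ} (h1 : q.w i = i) (h2 : q.X i = false) : g.w i = i ∧ g.X i = false := by
  apply iso_of_C
  rw [← h, cj_iff]
  exact ⟨_, ⟨_, C_iso q i h1 h2, C_00 g⟩, C_00 q⟩

theorem le_X {i : ℕ} (hi : g.X i = true) : q.X i = true := by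
  by_contra hc
  have hc' : q.X i = false := by simpa using hc
  by_cases hw : q.w i = i
  · have := (le_iso h hw hc').2
    rw [hi] at this; exact absurd this (by simp)
  · have h1 := le_w h hw
    rw [g.fix i hi] at h1
    exact hw h1.symm

end le

section cj

variable {q f : MD n}

theorem cj_arc {a b : ℕ} (hab : a ≠ b) (ha : q.X a = true) (hb : q.X b = true) (hw : f.w a = b) :
    (cj q f).w a = b := by
  apply w_of_C _ a b hab
  intro s t hst
  rw [cj_iff] at hst
  obtain ⟨v, ⟨u, h1, h2⟩, h3⟩ := hst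
  rw [h1.2.2 a ha, h1.2.2 b hb]
  have := h2.1 a
  rwa [hw] at this

theorem cj_X {a : ℕ} (ha : q.X a = true) (hf : f.X a = true) : (cj q f).X a = true := by
  apply X_of_C
  intro s t hst
  rw [cj_iff] at hst
  obtain ⟨v, ⟨u, h1, h2⟩, h3⟩ := hst
  rw [h1.2.2 a ha, h2.2.2 a hf, h3.2.2 a ha]

theorem cj_iso {a : ℕ} (ha : q.X a = true) (h1 : f.w a = a) (h2 : f.X a = false) :
    (cj q f).w a = a ∧ (cj q f).X a = false := by
  apply iso_of_C
  rw [cj_iff]
  exact ⟨_, ⟨_, C_one_pt q a (q.fix a ha), C_iso f a h1 h2⟩, C_00 q⟩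

theorem cj_path {a b c : ℕ} (ha : q.X a = true) (hq : q.w b = c) (hf : f.w a = b)
    (hc : f.X c = true) : (cj q f).X a = true := by
  apply X_of_C
  intro s t hst
  rw [cj_iff] at hst
  obtain ⟨v, ⟨u, h1, h2⟩, h3⟩ := hst
  have e1 := h2.1 a
  have e2 := h2.2.1 a
  have e3 := h1.2.1 b
  have e4 := h3.1 b
  rw [hf] at e1 e2
  rw [hq] at e3 e4
  rw [h1.2.2 a ha, e1, e3, h2.2.2 c hc, ← e4, ← e2, h3.2.2 a ha]

theorem cj_w_of_w {b : ℕ} (hb : q.w b ≠ b) : (cj q f).w b = q.w b :=
  le_w (cj_cj_self q f) hb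

theorem cj_of_id (hq : ∀ i, q.w i = i) : (∀ i, (cj q f).X i = true → f.X i = true) ∧
    ∀ i, (cj q f).w i ≠ i → f.w i = (cj q f).w i := by
  have e : q = one q.X q.big := by
    apply MD.ext
    · funext i; exact hq i
    · rfl
  rw [e, cj_one]
  constructor
  · intro i hi
    have : (f.X i && q.X i) = true := hi
    simp only [Bool.and_eq_true] at this
    exact this.1
  · intro i hi
    change (if q.X i = true ∧ q.X (f.w i) = true then f.w i else i) ≠ i at hi
    change f.w i = (if q.X i = true ∧ q.X (f.w i) = true then f.w i else i)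
    split_ifs at hi ⊢ with h
    · rfl
    · exact absurd rfl hi

end cj

theorem fr_iso {g f : MD n} (h : Fr g f) {u : ℕ} (hu : g.X u = true) (h1 : f.w u = u) :
    f.X u = true := by
  by_contra hc
  have hc' : f.X u = false := by simpa using hc
  have := iso_of_C g u (by
    rw [← h.1, cj_iff]
    exact ⟨_, ⟨_, C_one_pt g u (g.fix u hu), C_iso f u h1 hc'⟩, C_00 g⟩)
  rw [hu] at this
  exact absurd this.2 (by simp)

/-- the defects below `n` -/
def dX (f : MD n) : Finset ℕ := (Finset.range n).filter (fun i => f.X i = true)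

theorem mem_dX (f : MD n) (i : ℕ) : i ∈ dX f ↔ i < n ∧ f.X i = true := by simp [dX]

theorem fr_card_le {g f : MD n} (h : Fr g f) : (dX g).card ≤ (dX f).card := by
  classical
  have key : ∀ T : Finset ℕ, ∃ u : ℕ → Prop, T ⊆ dX g →
      g.C (fun i => i ∈ T) u ∧ (∀ i, u i ↔ u (f.w i)) := by
    intro T
    by_cases hT : T ⊆ dX g
    · have h1 : g.C (fun i => i ∈ T) (fun i => i ∈ T) := by
        apply C_ff
        intro i
        constructor
        · intro hi
          rw [g.fix i ((mem_dX g i).1 (hT hi)).2]; exact hi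
        · intro hi
          have := g.fix _ ((mem_dX g _).1 (hT hi)).2
          rw [g.inv] at this
          rw [this]; exact hi
      rw [← h.1, cj_iff] at h1
      obtain ⟨v, ⟨u, a1, a2⟩, a3⟩ := h1
      exact ⟨u, fun _ => ⟨a1, a2.1⟩⟩
    · exact ⟨fun _ => False, fun hh => absurd hh hT⟩
  choose u hu using key
  have h2 : ((dX g).powerset).card ≤ ((dX f).powerset).card := by
    apply Finset.card_le_card_of_injOn (fun T => (dX f).filter (fun i => u T i))
    · intro T _
      simp only [Finset.coe_powerset, Set.mem_preimage, Set.mem_powerset_iff, Finset.coe_subset]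
      exact Finset.filter_subset _ _
    · intro T hT T' hT' hTT
      simp only [Finset.coe_powerset, Set.mem_preimage, Set.mem_powerset_iff,
        Finset.coe_subset] at hT hT'
      simp only at hTT
      obtain ⟨a1, a2⟩ := hu T hT
      obtain ⟨b1, b2⟩ := hu T' hT'
      have h3 : f.C (u T) (u T') := by
        refine ⟨a2, b2, ?_⟩
        intro i hi
        by_cases hin : i < n
        · have hm : i ∈ dX f := (mem_dX f i).2 ⟨hin, hi⟩
          have h4 : (i ∈ (dX f).filter (fun i => u T i)) ↔ (i ∈ (dX f).filter (fun i => u T' i)) := by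
            rw [hTT]
          simp only [Finset.mem_filter, hm, true_and] at h4
          exact h4
        · have hg := g.big i (by omega)
          rw [← a1.2.2 i hg, ← b1.2.2 i hg]
          constructor
          · intro h5; exact absurd ((mem_dX g i).1 (hT h5)).1 hin
          · intro h5; exact absurd ((mem_dX g i).1 (hT' h5)).1 hin
      have h5 : g.C (fun i => i ∈ T) (fun i => i ∈ T') := by
        rw [← h.1, cj_iff]
        exact ⟨u T', ⟨u T, a1, h3⟩, C_symm g b1⟩
      ext i
      by_cases hi : g.X i = true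
      · exact h5.2.2 i hi
      · constructor
        · intro h6; exact absurd ((mem_dX g i).1 (hT h6)).2 hi
        · intro h6; exact absurd ((mem_dX g i).1 (hT' h6)).2 hi
  rw [Finset.card_powerset, Finset.card_powerset] at h2
  exact (Nat.pow_le_pow_iff_right (by norm_num)).1 h2

theorem fr_card {g f : MD n} (h : Fr g f) : (dX g).card = (dX f).card :=
  le_antisymm (fr_card_le h) (fr_card_le h.symm)

theorem X_eq_of_subset {g f : MD n} (hc : (dX g).card = (dX f).card)
    (hs : ∀ i, g.X i = true → f.X i = true) : g.X = f.X := by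
  have h1 : dX g ⊆ dX f := by
    intro i hi
    rw [mem_dX] at hi ⊢
    exact ⟨hi.1, hs i hi.2⟩
  have h2 := Finset.eq_of_subset_of_card_le h1 (le_of_eq hc.symm)
  funext i
  by_cases hin : i < n
  · have h3 : (i ∈ dX g) ↔ (i ∈ dX f) := by rw [h2]
    rw [mem_dX, mem_dX] at h3
    simp only [hin, true_and] at h3
    cases h4 : g.X i
    · cases h5 : f.X i
      · rfl
      · rw [h3.2 h5] at h4; exact h4.symm
    · rw [h3.1 h4]
  · rw [g.big i (by omega), f.big i (by omega)]

/-! ### tight moves -/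

/-- The moves that carry a free generator. -/
@[ext]
structure TQ (n r : ℕ) where
  m : ℕ → ℕ
  j : ℕ
  s : ℕ
  t : ℕ
  vd : Vd n r m
  hj : j < r
  hs : 1 ≤ s
  ht : 1 ≤ t
  hst : s + t ≤ m (j + 1)
  bad : Bad r m j s t

/-- start -/
def TQ.a {r : ℕ} (q : TQ n r) : ℕ := pos q.m q.j
/-- middle -/
def TQ.b {r : ℕ} (q : TQ n r) : ℕ := q.a + q.s
/-- end -/
def TQ.c {r : ℕ} (q : TQ n r) : ℕ := q.b + q.t

/-- `g → f` is a friendly pair of the given tight type -/
def IsMv {r : ℕ} (q : TQ n r) (g f : MD n) : Prop :=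
  g.X = XG q.m ∧ f.X = XG (gmv q.m q.j (q.s + q.t)) ∧ g.w q.b = q.c ∧ f.w q.a = q.b

theorem TQ.q1 {r : ℕ} (q : TQ n r) (i : ℕ) (h1 : XG q.m i = false) (h2 : XG q.m (i + 1) = false) :
    q.a < i ∧ i ≤ q.c := by
  obtain ⟨l, hl, hl1, hl2⟩ := same_gap q.m i h1 h2
  obtain ⟨b1, b2, b3, b4⟩ := q.bad
  have hlj : l = q.j + 1 := by
    by_contra hc
    by_cases hlr : l ≤ r
    · have := b3 l hlr hc; omega
    · have := q.vd.1 l (by omega); omega
  subst hlj
  have := hl1 q.j rfl
  rw [pos_succ] at hl2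
  have ea : q.a = pos q.m q.j := rfl
  have eb : q.b = q.a + q.s := rfl
  have ec : q.c = q.b + q.t := rfl
  omega

theorem TQ.q2 {r : ℕ} (q : TQ n r) (i : ℕ) (h1 : XG (gmv q.m q.j (q.s + q.t)) i = false)
    (h2 : XG (gmv q.m q.j (q.s + q.t)) (i + 1) = false) :
    q.a ≤ i + 1 ∧ i + 1 < q.c := by
  obtain ⟨l, hl, hl1, hl2⟩ := same_gap _ i h1 h2
  obtain ⟨b1, b2, b3, b4⟩ := q.bad
  have hlj : l = q.j := by
    by_contra hc
    by_cases hl' : l = q.j + 1
    · subst hl'
      simp only [gmv] at hl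
      rw [if_neg (by omega)] at hl
      simp only [if_true] at hl
      omega
    · simp only [gmv] at hl
      rw [if_neg hc, if_neg hl'] at hl
      by_cases hlr : l ≤ r
      · have := b3 l hlr hl'; omega
      · have := q.vd.1 l (by omega); omega
  subst hlj
  have hm := b3 q.j (by have := q.hj; omega) (by omega)
  have hp : pos (gmv q.m q.j (q.s + q.t)) q.j = pos q.m q.j + (q.s + q.t) := by
    rw [pos_gmv _ _ _ q.hst, if_pos rfl]
  rw [hp] at hl2
  have ea : q.a = pos q.m q.j := rfl
  have eb : q.b = q.a + q.s := rfl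
  have ec : q.c = q.b + q.t := rfl
  refine ⟨?_, by omega⟩
  rcases hj : q.j with _ | k
  · rw [hj] at hm; rw [hj, pos_zero] at ea; omega
  · have h3 := hl1 k hj
    rw [pos_gmv _ _ _ q.hst, if_neg (by omega)] at h3
    rw [hj] at hm
    rw [hj, pos_succ] at ea
    omega

end Pool.Agent.W_MP_aeed81_al
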