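import Pool.Agent.W_MP_aeed81_al.MSlide

set_option linter.unusedVariables false
set_option linter.unusedSectionVars false

namespace Pool.Agent.W_MP_aeed81_al

open MD

/-- the data of the five term relation -/
structure Five (n : ℕ) (X : ℕ → Bool) (a b c d e : ℕ) : Prop where
  big : ∀ i, n ≤ i → X i = true
  ab : a < b
  bc : b < c
  cd : c < d
  de : d < e
  en : e < n
  xa : X a = true
  gap : ∀ i, a < i → i ≤ e → X i = false

namespace Five

variable {n : ℕ} {X : ℕ → Bool} {a b c d e : ℕ}

theorem mvc (h : Five n X a b c d e) : Mv n X a b c :=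
  ⟨h.big, h.ab, h.bc, by have := h.cd; have := h.de; have := h.en; omega, h.xa,
    fun i h1 h2 => h.gap i h1 (by have := h.cd; have := h.de; omega)⟩

theorem mve (h : Five n X a b c d e) : Mv n X a b e :=
  ⟨h.big, h.ab, by have := h.bc; have := h.cd; have := h.de; omega, h.en, h.xa, h.gap⟩

theorem mvd (h : Five n X a b c d e) : Mv n X a d e :=
  ⟨h.big, by have := h.ab; have := h.bc; have := h.cd; omega, h.de, h.en, h.xa, h.gap⟩

/-- `{b, c}`, `{d, e}` -/
def F (h : Five n X a b c d e) : MD n := hc d e h.de h.en h.mvc.p
/-- `{a, b}`, `{d, e}` -/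
def F1 (h : Five n X a b c d e) : MD n :=
  hc a b h.ab (by have := h.bc; have := h.cd; have := h.de; have := h.en; omega) h.F
/-- `{b, e}`, `{c, d}` -/
def F2 (h : Five n X a b c d e) : MD n :=
  hc c d h.cd (by have := h.de; have := h.en; omega) h.F
/-- `{a, b}`, `{c, d}` -/
def F4 (h : Five n X a b c d e) : MD n :=
  hc c d h.cd (by have := h.de; have := h.en; omega) h.F1
/-- `{b, c}`, `{a, d}` -/
def F3 (h : Five n X a b c d e) : MD n :=
  hc b c h.bc (by have := h.cd; have := h.de; have := h.en; omega) h.F4

theorem F_w (h : Five n X a b c d e) : h.F.w = fun i => if i = b then c else if i = c then b else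
    if i = d then e else if i = e then d else i := by
  have := h.cd; have := h.de; have := h.en
  exact hc_arc_disj_w X h.big b c d e h.bc h.cd h.de h.en _

theorem F_X (h : Five n X a b c d e) : h.F.X = X := by
  have := h.cd; have := h.ab; have := h.bc
  exact hc_same_X h.mvc.p d e h.de h.en (fun i h1 h2 => h.gap i (by omega) h2)

theorem F1_X (h : Five n X a b c d e) : h.F1.X = mvX X a c := by
  have h1 := h.ab; have h2 := h.bc; have h3 := h.cd; have h4 := h.de; have h5 := h.en
  unfold F1
  rw [hc_slide_X h.F a b c h.ab _ h.bc (by rw [F_X]; exact h.xa) (by rw [F_w]; simp) (by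
    rw [F_X]; exact fun i h1 h2 => h.gap i h1 (by omega)), F_X]

theorem F1_w (h : Five n X a b c d e) : h.F1.w = fun i => if i = a then b else if i = b then a else
    if i = d then e else if i = e then d else i := by
  have h1 := h.ab; have h2 := h.bc; have h3 := h.cd; have h4 := h.de; have h5 := h.en
  funext i
  unfold F1
  rw [hc_w, F_w]
  simp only [hkW]
  grind (splits := 60)

theorem F2_X (h : Five n X a b c d e) : h.F2.X = X := by
  have h1 := h.ab; have h2 := h.bc; have h3 := h.cd; have h4 := h.de; have h5 := h.en
  unfold F2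
  rw [hc_same_X h.F c d h.cd _ (by rw [F_X]; exact fun i h1 h2 => h.gap i (by omega) (by omega)),
    F_X]

theorem F2_w (h : Five n X a b c d e) : h.F2.w = fun i => if i = b then e else if i = e then b else
    if i = c then d else if i = d then c else i := by
  have h1 := h.ab; have h2 := h.bc; have h3 := h.cd; have h4 := h.de; have h5 := h.en
  funext i
  unfold F2
  rw [hc_w, F_w]
  simp only [hkW]
  grind (splits := 60)

theorem F4_X (h : Five n X a b c d e) : h.F4.X = mvX X a e := by
  have h1 := h.ab; have h2 := h.bc; have h3 := h.cd; have h4 := h.de; have h5 := h.en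
  unfold F4
  rw [hc_slide_X h.F1 c d e h.cd _ h.de (by rw [F1_X]; simp only [mvX]; grind)
    (by rw [F1_w]; simp only []; grind) (by
    rw [F1_X]
    intro i h1 h2
    have := h.gap i
    simp only [mvX]; grind), F1_X]
  exact mvX_trans X a c e (by omega) (by omega) (by omega) (h.gap c (by omega) (by omega))

theorem F4_w (h : Five n X a b c d e) : h.F4.w = fun i => if i = a then b else if i = b then a else
    if i = c then d else if i = d then c else i := by
  have h1 := h.ab; have h2 := h.bc; have h3 := h.cd; have h4 := h.de; have h5 := h.en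
  funext i
  unfold F4
  rw [hc_w, F1_w]
  simp only [hkW]
  grind (splits := 60)

theorem F3_X (h : Five n X a b c d e) : h.F3.X = mvX X a e := by
  have h1 := h.ab; have h2 := h.bc; have h3 := h.cd; have h4 := h.de; have h5 := h.en
  unfold F3
  rw [hc_same_X h.F4 b c h.bc _ (by
    rw [F4_X]; exact fun i h1 h2 => h.mve.gap' i (by omega) (by omega)), F4_X]

theorem F3_w (h : Five n X a b c d e) : h.F3.w = fun i => if i = a then d else if i = d then a else
    if i = b then c else if i = c then b else i := by
  have h1 := h.ab; have h2 := h.bc; have h3 := h.cd; have h4 := h.de; have h5 := h.en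
  funext i
  unfold F3
  rw [hc_w, F4_w]
  simp only [hkW]
  grind (splits := 60)

/-- `h_{ab} F2 h_{ab} = F4` -/
theorem i1 (h : Five n X a b c d e) :
    hc a b h.ab (by have := h.bc; have := h.cd; have := h.de; have := h.en; omega) h.F2 = h.F4 := by
  have h1 := h.ab; have h2 := h.bc; have h3 := h.cd; have h4 := h.de; have h5 := h.en
  apply MD.ext
  · funext i
    rw [hc_w, F2_w, F4_w]
    simp only [hkW]
    grind (splits := 60)
  · rw [hc_slide_X h.F2 a b e h.ab _ (by omega) (by rw [F2_X]; exact h.xa) (by rw [F2_w]; simp)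
      (by rw [F2_X]; exact h.gap), F2_X, F4_X]

theorem i2 (h : Five n X a b c d e) :
    hc a b h.ab (by have := h.bc; have := h.cd; have := h.de; have := h.en; omega) h.F4 = h.F4 := by
  have h1 := h.ab; have h2 := h.bc; have h3 := h.cd; have h4 := h.de; have h5 := h.en
  apply MD.ext
  · funext i
    rw [hc_w, F4_w]
    simp only [hkW]
    grind (splits := 60)
  · rw [hc_same_X h.F4 a b h.ab _ (by
      rw [F4_X]; exact fun i h1 h2 => h.mve.gap' i (by omega) (by omega))]

theorem i3 (h : Five n X a b c d e) :
    hc c d h.cd (by have := h.de; have := h.en; omega) h.F4 = h.F4 := by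
  have h1 := h.ab; have h2 := h.bc; have h3 := h.cd; have h4 := h.de; have h5 := h.en
  apply MD.ext
  · funext i
    rw [hc_w, F4_w]
    simp only [hkW]
    grind (splits := 60)
  · rw [hc_same_X h.F4 c d h.cd _ (by
      rw [F4_X]; exact fun i h1 h2 => h.mve.gap' i (by omega) (by omega))]

theorem i4 (h : Five n X a b c d e) :
    hc b c h.bc (by have := h.cd; have := h.de; have := h.en; omega) h.F = h.F := by
  have h1 := h.ab; have h2 := h.bc; have h3 := h.cd; have h4 := h.de; have h5 := h.en
  apply MD.ext
  · funext i
    rw [hc_w, F_w]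
    simp only [hkW]
    grind (splits := 60)
  · rw [hc_same_X h.F b c h.bc _ (by
      rw [F_X]; exact fun i h1 h2 => h.gap i (by omega) (by omega))]

theorem i5 (h : Five n X a b c d e) :
    hc b c h.bc (by have := h.cd; have := h.de; have := h.en; omega) h.F3 = h.F3 := by
  have h1 := h.ab; have h2 := h.bc; have h3 := h.cd; have h4 := h.de; have h5 := h.en
  apply MD.ext
  · funext i
    rw [hc_w, F3_w]
    simp only [hkW]
    grind (splits := 60)
  · rw [hc_same_X h.F3 b c h.bc _ (by
      rw [F3_X]; exact fun i h1 h2 => h.mve.gap' i (by omega) (by omega))]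

/-- `h_{bc} {a, d} h_{bc} = F3` -/
theorem i6 (h : Five n X a b c d e) :
    hc b c h.bc (by have := h.cd; have := h.de; have := h.en; omega) h.mvd.p' = h.F3 := by
  have h1 := h.ab; have h2 := h.bc; have h3 := h.cd; have h4 := h.de; have h5 := h.en
  apply MD.ext
  · funext i
    rw [hc_w, F3_w]
    simp only [hkW, Mv.p', arc, sw]
    grind (splits := 60)
  · rw [hc_same_X h.mvd.p' b c h.bc _ (fun i h1 h2 => h.mvd.gap' i (by omega) (by omega)), F3_X]
    rfl

theorem i7 (h : Five n X a b c d e) (hY : ∀ i, n ≤ i → decide (i ≠ a) = true)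
    (hY' : ∀ i, n ≤ i → decide (i ≠ c) = true) :
    cut (fun i => decide (i ≠ c)) hY' (cut (fun i => decide (i ≠ a)) hY h.F4) = h.mve.v' := by
  have h1 := h.ab; have h2 := h.bc; have h3 := h.cd; have h4 := h.de; have h5 := h.en
  have e1 : (cut (fun i => decide (i ≠ a)) hY h.F4).w = fun i => if i = c then d else if i = d then c
      else i := by
    funext i
    change (if decide (i ≠ a) = true ∧ decide (h.F4.w i ≠ a) = true then h.F4.w i else i) = _
    rw [F4_w]
    simp only [decide_eq_true_eq]
    grind
  apply MD.ext
  · funext i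
    change (if decide (i ≠ c) = true ∧
      decide ((cut (fun i => decide (i ≠ a)) hY h.F4).w i ≠ c) = true then
      (cut (fun i => decide (i ≠ a)) hY h.F4).w i else i) = i
    rw [e1]
    simp only [decide_eq_true_eq]
    grind
  · funext i
    change ((h.F4.X i && decide (i ≠ a)) && decide (i ≠ c)) = mvX X a e i
    rw [F4_X]
    have := h.gap c
    simp only [mvX]
    grind

end Five

section

variable {n : ℕ} {S : Type*} [Semigroup S] {x : MD n → S}

theorem PGM.comm (hx : PGM x) {p q s : MD n} (h : rcomp p.C q.C = rcomp q.C p.C)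
    (hs : rcomp (rcomp p.C q.C) p.C = s.C) : x p * x q = x q * x p := by
  have h1 := hx.conj p q s hs
  have hs' : rcomp (rcomp q.C p.C) q.C = s.C := by
    rw [← hs, ← h, rcomp_assoc, C_idem, h, rcomp_assoc, C_idem]
  have h2 := hx.conj q p s hs'
  have a1 : x p * x q = x s := by
    calc x p * x q = x p * x q * (x p * x q) := (hx.sq p q).symm
      _ = (x p * x q * x p) * x q := by simp only [mul_assoc]
      _ = (x q * x p * x q) * x q := by rw [h1, h2]
      _ = x q * x p * (x q * x q) := by simp only [mul_assoc]
      _ = x s := by rw [hx.idem, h2]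
  have a2 : x q * x p = x s := by
    calc x q * x p = x q * x p * (x q * x p) := (hx.sq q p).symm
      _ = (x q * x p * x q) * x p := by simp only [mul_assoc]
      _ = (x p * x q * x p) * x p := by rw [h1, h2]
      _ = x p * x q * (x p * x p) := by simp only [mul_assoc]
      _ = x s := by rw [hx.idem, h1]
  rw [a1, a2]

end

end Pool.Agent.W_MP_aeed81_al
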