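import Pool.Agent.W_MP_aeed81_al.MFive

set_option linter.unusedVariables false
set_option linter.unusedSectionVars false

namespace Pool.Agent.W_MP_aeed81_al

open MD

variable {n : ℕ}

theorem HH_rel {a b c d : ℕ} (hab : a < b) (hb : b < n) (hcd : c < d) (hd : d < n)
    (h : b < c ∨ d < a) (s t : ℕ → Prop) : rcomp (H a b hab hb).C (H c d hcd hd).C s t ↔
      (s a ↔ s b) ∧ (t a ↔ t b) ∧ (s c ↔ s d) ∧ (t c ↔ t d) ∧
      ∀ i, (i < a ∨ b < i) → (i < c ∨ d < i) → (s i ↔ t i) := by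
  unfold rcomp
  simp only [H_C]
  constructor
  · rintro ⟨u, ⟨h1, h2, h3⟩, ⟨h4, h5, h6⟩⟩
    have a1 := h6 a (by omega)
    have a2 := h6 b (by omega)
    have a3 := h3 c (by omega)
    have a4 := h3 d (by omega)
    refine ⟨h1, ?_, ?_, h5, ?_⟩
    · rw [← a1, ← a2]; exact h2
    · rw [a3, a4]; exact h4
    · intro i k1 k2
      rw [h3 i k1]; exact h6 i k2
  · rintro ⟨h1, h2, h3, h4, h5⟩
    have e1 : ∀ i, i < a ∨ b < i → ((if a ≤ i ∧ i ≤ b then t i else s i) = s i) := by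
      intro i hi; rw [if_neg (by omega)]
    have e2 : ∀ i, a ≤ i → i ≤ b → ((if a ≤ i ∧ i ≤ b then t i else s i) = t i) := by
      intro i h1 h2; rw [if_pos ⟨h1, h2⟩]
    refine ⟨fun i => if a ≤ i ∧ i ≤ b then t i else s i, ⟨h1, ?_, ?_⟩, ⟨?_, h4, ?_⟩⟩
    · beta_reduce; rw [e2 a (le_refl _) (by omega), e2 b (by omega) (le_refl _)]; exact h2
    · intro i hi; beta_reduce; rw [e1 i hi]
    · beta_reduce; rw [e1 c (by omega), e1 d (by omega)]; exact h3
    · intro i hi
      beta_reduce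
      by_cases h : a ≤ i ∧ i ≤ b
      · rw [if_pos h]
      · rw [if_neg h]; exact h5 i (by omega) hi

theorem HH_comm {a b c d : ℕ} (hab : a < b) (hb : b < n) (hcd : c < d) (hd : d < n)
    (h : b < c ∨ d < a) : rcomp (H a b hab hb).C (H c d hcd hd).C =
      rcomp (H c d hcd hd).C (H a b hab hb).C := by
  funext s t
  apply propext
  rw [HH_rel hab hb hcd hd h, HH_rel hcd hd hab hb h.symm]
  constructor
  · rintro ⟨h1, h2, h3, h4, h5⟩
    exact ⟨h3, h4, h1, h2, fun i k1 k2 => h5 i k2 k1⟩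
  · rintro ⟨h1, h2, h3, h4, h5⟩
    exact ⟨h3, h4, h1, h2, fun i k1 k2 => h5 i k2 k1⟩

theorem H1_comm {a b : ℕ} (hab : a < b) (hb : b < n) (Y : ℕ → Bool) (hY : ∀ i, n ≤ i → Y i = true)
    (h : ∀ i, a ≤ i → i ≤ b → Y i = true) : rcomp (H a b hab hb).C (one Y hY).C =
      rcomp (one Y hY).C (H a b hab hb).C := by
  have r1 : ∀ s t, rcomp (H a b hab hb).C (one Y hY).C s t ↔ (s a ↔ s b) ∧ (t a ↔ t b) ∧
      ∀ i, (i < a ∨ b < i) → Y i = true → (s i ↔ t i) := by
    intro s t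
    unfold rcomp
    simp only [H_C, one_C]
    constructor
    · rintro ⟨u, ⟨h1, h2, h3⟩, h4⟩
      refine ⟨h1, ?_, fun i k1 k2 => ?_⟩
      · rw [← h4 a (h a (le_refl _) (by omega)), ← h4 b (h b (by omega) (le_refl _))]; exact h2
      · rw [h3 i k1]; exact h4 i k2
    · rintro ⟨h1, h2, h3⟩
      have e1 : ∀ i, i < a ∨ b < i → ((if a ≤ i ∧ i ≤ b then t i else s i) = s i) := by
        intro i hi; rw [if_neg (by omega)]
      have e2 : ∀ i, a ≤ i → i ≤ b → ((if a ≤ i ∧ i ≤ b then t i else s i) = t i) := by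
        intro i h1 h2; rw [if_pos ⟨h1, h2⟩]
      refine ⟨fun i => if a ≤ i ∧ i ≤ b then t i else s i, ⟨h1, ?_, ?_⟩, ?_⟩
      · beta_reduce; rw [e2 a (le_refl _) (by omega), e2 b (by omega) (le_refl _)]; exact h2
      · intro i hi; beta_reduce; rw [e1 i hi]
      · intro i hi
        beta_reduce
        by_cases h : a ≤ i ∧ i ≤ b
        · rw [if_pos h]
        · rw [if_neg h]; exact h3 i (by omega) hi
  have r2 : ∀ s t, rcomp (one Y hY).C (H a b hab hb).C s t ↔ (s a ↔ s b) ∧ (t a ↔ t b) ∧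
      ∀ i, (i < a ∨ b < i) → Y i = true → (s i ↔ t i) := by
    intro s t
    unfold rcomp
    simp only [H_C, one_C]
    constructor
    · rintro ⟨u, h4, ⟨h1, h2, h3⟩⟩
      refine ⟨?_, h2, fun i k1 k2 => ?_⟩
      · rw [h4 a (h a (le_refl _) (by omega)), h4 b (h b (by omega) (le_refl _))]; exact h1
      · rw [h4 i k2]; exact h3 i k1
    · rintro ⟨h1, h2, h3⟩
      have e1 : ∀ i, i < a ∨ b < i → ((if a ≤ i ∧ i ≤ b then s i else t i) = t i) := by
        intro i hi; rw [if_neg (by omega)]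
      have e2 : ∀ i, a ≤ i → i ≤ b → ((if a ≤ i ∧ i ≤ b then s i else t i) = s i) := by
        intro i h1 h2; rw [if_pos ⟨h1, h2⟩]
      refine ⟨fun i => if a ≤ i ∧ i ≤ b then s i else t i, ?_, ⟨?_, h2, ?_⟩⟩
      · intro i hi
        beta_reduce
        by_cases h : a ≤ i ∧ i ≤ b
        · rw [if_pos h]
        · rw [if_neg h]; exact h3 i (by omega) hi
      · beta_reduce; rw [e2 a (le_refl _) (by omega), e2 b (by omega) (le_refl _)]; exact h1
      · intro i hi; beta_reduce; rw [e1 i hi]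
  funext s t
  apply propext
  rw [r1, r2]

theorem one_comm (Y Y' : ℕ → Bool) (hY : ∀ i, n ≤ i → Y i = true) (hY' : ∀ i, n ≤ i → Y' i = true) :
    rcomp (one Y hY).C (one Y' hY').C = rcomp (one Y' hY').C (one Y hY).C := by
  have r1 : ∀ (Y Y' : ℕ → Bool) (hY : ∀ i, n ≤ i → Y i = true) (hY' : ∀ i, n ≤ i → Y' i = true)
      s t, rcomp (one Y hY).C (one Y' hY').C s t ↔
      ∀ i, Y i = true → Y' i = true → (s i ↔ t i) := by
    intro Y Y' hY hY' s t
    unfold rcomp
    simp only [one_C]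
    constructor
    · rintro ⟨u, h1, h2⟩ i k1 k2
      rw [h1 i k1]; exact h2 i k2
    · intro h
      refine ⟨fun i => if Y i = true then s i else t i, ?_, ?_⟩
      · intro i hi; simp [hi]
      · intro i hi
        beta_reduce
        by_cases k : Y i = true
        · rw [if_pos k]; exact h i k hi
        · rw [if_neg k]
  funext s t
  apply propext
  rw [r1, r1]
  constructor
  · intro h i k1 k2; exact h i k2 k1
  · intro h i k1 k2; exact h i k2 k1

section

variable {S : Type*} [Semigroup S] {x : MD n → S}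

theorem PGM.cHH (hx : PGM x) {a b c d : ℕ} (hab : a < b) (hb : b < n) (hcd : c < d) (hd : d < n)
    (h : b < c ∨ d < a) : Commute (x (H a b hab hb)) (x (H c d hcd hd)) :=
  hx.comm (HH_comm hab hb hcd hd h) (hc_C hab hb _)

theorem PGM.cH1 (hx : PGM x) {a b : ℕ} (hab : a < b) (hb : b < n) (Y : ℕ → Bool)
    (hY : ∀ i, n ≤ i → Y i = true) (h : ∀ i, a ≤ i → i ≤ b → Y i = true) :
    Commute (x (H a b hab hb)) (x (one Y hY)) :=
  hx.comm (H1_comm hab hb Y hY h) (hc_C hab hb _)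

theorem PGM.c11 (hx : PGM x) (Y Y' : ℕ → Bool) (hY : ∀ i, n ≤ i → Y i = true)
    (hY' : ∀ i, n ≤ i → Y' i = true) : Commute (x (one Y hY)) (x (one Y' hY')) :=
  hx.comm (one_comm Y Y' hY hY') (cut_C Y hY _)

theorem PGM.mop_comm (hx : PGM x) {a b c a' b' c' : ℕ} (hab : a < b) (hbc : b < c) (hc' : c < n)
    (hab' : a' < b') (hbc' : b' < c') (hc'' : c' < n) (h : c < a') :
    Commute (Mop x a b c hab hbc hc') (Mop x a' b' c' hab' hbc' hc'') := by
  unfold Mop
  have ne1 : ∀ i, a' ≤ i → decide (i ≠ a) = true := fun i hi => by simp; omega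
  have ne2 : ∀ i, i ≤ c → decide (i ≠ a') = true := fun i hi => by simp; omega
  apply Commute.mul_left
  · apply Commute.mul_left
    · apply Commute.mul_right
      · apply Commute.mul_right
        · exact hx.cHH _ _ _ _ (by omega)
        · exact hx.cHH _ _ _ _ (by omega)
      · exact hx.cH1 _ _ _ _ (fun i h1 h2 => ne2 i (by omega))
    · apply Commute.mul_right
      · apply Commute.mul_right
        · exact hx.cHH _ _ _ _ (by omega)
        · exact hx.cHH _ _ _ _ (by omega)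
      · exact hx.cH1 _ _ _ _ (fun i h1 h2 => ne2 i (by omega))
  · apply Commute.mul_right
    · apply Commute.mul_right
      · exact (hx.cH1 _ _ _ _ (fun i h1 h2 => ne1 i (by omega))).symm
      · exact (hx.cH1 _ _ _ _ (fun i h1 h2 => ne1 i (by omega))).symm
    · exact hx.c11 _ _ _ _

theorem PGM.five (hx : PGM x) {X : ℕ → Bool} {a b c d e : ℕ} (h : Five n X a b c d e) :
    x h.mvc.v * Mop x a b c h.ab h.bc h.mvc.cn * Mop x c d e h.cd h.de h.en =
      x h.mvc.v * x h.F * x h.F4 * x h.mve.v' := by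
  have h1 := h.ab; have h2 := h.bc; have h3 := h.cd; have h4 := h.de; have h5 := h.en
  obtain ⟨v, hv⟩ : ∃ v, v = x h.mvc.v := ⟨_, rfl⟩
  obtain ⟨Hbc, eHbc⟩ : ∃ y, y = x (H b c h.bc (by omega)) := ⟨_, rfl⟩
  obtain ⟨Hab, eHab⟩ : ∃ y, y = x (H a b h.ab (by omega)) := ⟨_, rfl⟩
  obtain ⟨Hde, eHde⟩ : ∃ y, y = x (H d e h.de h.en) := ⟨_, rfl⟩
  obtain ⟨Hcd, eHcd⟩ : ∃ y, y = x (H c d h.cd (by omega)) := ⟨_, rfl⟩
  obtain ⟨ta, eta⟩ : ∃ y, y = x (one (fun i => decide (i ≠ a)) (neY_big (by omega))) := ⟨_, rfl⟩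
  obtain ⟨tc, etc⟩ : ∃ y, y = x (one (fun i => decide (i ≠ c)) (neY_big (by omega))) := ⟨_, rfl⟩
  have m1 : Mop x a b c h.ab h.bc h.mvc.cn = Hbc * Hab * ta := by
    rw [eHbc, eHab, eta]; rfl
  have m2 : Mop x c d e h.cd h.de h.en = Hde * Hcd * tc := by
    rw [eHde, eHcd, etc]; rfl
  have c1 : ta * Hde = Hde * ta := by
    rw [eta, eHde]
    exact (hx.cH1 _ _ _ _ (fun i k1 k2 => by simp; omega)).symm
  have c2 : ta * Hcd = Hcd * ta := by
    rw [eta, eHcd]
    exact (hx.cH1 _ _ _ _ (fun i k1 k2 => by simp; omega)).symm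
  have c3 : Hab * Hde = Hde * Hab := by
    rw [eHab, eHde]; exact hx.cHH _ _ _ _ (by omega)
  have e1 : v * Hbc = v * x h.mvc.p := by
    rw [hv, eHbc]
    have := (hx.act (C_H_same h.mvc.v b c h.bc (by omega) (fun i h1 h2 => h.gap i (by omega) (by omega)))
      (hc_C h.bc (by omega) h.mvc.v)).1
    rw [show hc b c h.bc _ h.mvc.v = h.mvc.p from hc_one _ _ _ _ _ _ _] at this
    exact this
  have e2 : v * x h.mvc.p * Hde = v * x h.F := by
    rw [hv, eHde]
    exact hx.u2 h.mvc.p d e h.de h.en (fun i h1 h2 => h.gap i (by omega) h2)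
  have e3 : x h.F * Hab = x h.F * x h.F1 := by
    rw [eHab]
    exact (hx.act (C_H_right h.F a b c h.ab (by omega) h.bc (by rw [h.F_X]; exact h.xa)
      (by rw [h.F_w]; simp) (by rw [h.F_X]; exact fun i h1 h2 => h.gap i h1 (by omega)))
      (hc_C h.ab (by omega) h.F)).1
  have e4 : x h.F1 * Hcd = x h.F1 * x h.F4 := by
    rw [eHcd]
    exact (hx.act (C_H_right h.F1 c d e h.cd (by omega) h.de (by
      rw [h.F1_X]; simp only [mvX]; grind)
      (by rw [h.F1_w]; simp only []; grind) (by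
        rw [h.F1_X]
        intro i h1 h2
        have := h.gap i
        simp only [mvX]; grind)) (hc_C h.cd (by omega) h.F1)).1
  have e5 : x h.F * x h.F4 = x h.F * x h.F1 * x h.F4 := by
    have k1 := hc_C h.ab (by omega) h.F4
    rw [h.i2] at k1
    exact (hx.tri k1 (hc_C h.ab (by omega) h.F)).2.1
  have hX'a : ∀ i, mvX X a e i = true → decide (i ≠ a) = true := by
    intro i hi
    simp only [mvX] at hi
    grind
  have hX'c : ∀ i, mvX X a e i = true → decide (i ≠ c) = true := by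
    intro i hi
    have := h.gap c
    simp only [mvX] at hi
    grind
  have e6 : x h.F4 * ta * tc = x h.F4 * x h.mve.v' := by
    have k1 := (hx.act (C_one h.F4 (fun i => decide (i ≠ a)) (neY_big (by omega)) (by
      rw [h.F4_X]; exact hX'a)) (cut_C _ _ h.F4)).1
    have k2 := (hx.act (C_one (MD.cut (fun i => decide (i ≠ a)) (neY_big (by omega)) h.F4)
      (fun i => decide (i ≠ c)) (neY_big (by omega)) (by
        intro i hi
        have hi' : (h.F4.X i && decide (i ≠ a)) = true := hi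
        rw [h.F4_X] at hi'
        simp only [Bool.and_eq_true] at hi'
        exact hX'c i hi'.1)) (cut_C _ _ _)).1
    rw [h.i7] at k2
    have k3 := cut_C (fun i => decide (i ≠ a)) (neY_big (by omega)) h.mve.v'
    rw [show MD.cut (fun i => decide (i ≠ a)) (neY_big (by omega)) h.mve.v' = h.mve.v' from
      cut_one _ _ _ _ hX'a] at k3
    have k4 := (hx.tri k3 (cut_C _ _ h.F4)).2.1
    rw [eta, etc, k1, mul_assoc, k2, ← mul_assoc, ← k4]
  rw [← hv, m1, m2]
  calc v * (Hbc * Hab * ta) * (Hde * Hcd * tc) = v * Hbc * Hab * (ta * Hde) * Hcd * tc := by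
        simp only [mul_assoc]
    _ = v * Hbc * (Hab * Hde) * (ta * Hcd) * tc := by rw [c1]; simp only [mul_assoc]
    _ = v * x h.mvc.p * Hde * Hab * Hcd * ta * tc := by rw [c3, c2, e1]; simp only [mul_assoc]
    _ = v * (x h.F * Hab) * Hcd * ta * tc := by rw [e2]; simp only [mul_assoc]
    _ = v * x h.F * (x h.F1 * Hcd) * ta * tc := by rw [e3]; simp only [mul_assoc]
    _ = v * (x h.F * x h.F1 * x h.F4) * ta * tc := by rw [e4]; simp only [mul_assoc]
    _ = v * x h.F * (x h.F4 * ta * tc) := by rw [← e5]; simp only [mul_assoc]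
    _ = _ := by rw [e6]; simp only [mul_assoc]

theorem PGM.five1 (hx : PGM x) {X : ℕ → Bool} {a b c d e : ℕ} (h : Five n X a b c d e) :
    x h.mvc.v * x h.F * x h.F4 * x h.mve.v' =
      x h.mve.v * Mop x a b e h.mve.ab h.mve.bc h.mve.cn := by
  have h1 := h.ab; have h2 := h.bc; have h3 := h.cd; have h4 := h.de; have h5 := h.en
  have k1 := hc_C h.cd (by omega) h.F4
  rw [h.i3] at k1
  have e1 : x h.F * x h.F4 = x h.F * x h.F2 * x h.F4 :=
    (hx.tri k1 (hc_C h.cd (by omega) h.F)).2.1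
  have e2 : x h.F * x (H c d h.cd (by omega)) = x h.F * x h.F2 :=
    (hx.act (C_H_same h.F c d h.cd (by omega) (by
      rw [h.F_X]; exact fun i h1 h2 => h.gap i (by omega) (by omega)))
      (hc_C h.cd (by omega) h.F)).1
  have e3 := hx.u2 h.F c d h.cd (by omega) (by
      rw [h.F_X]; exact fun i h1 h2 => h.gap i (by omega) (by omega))
  have one_eq : ∀ (X Y : ℕ → Bool) (hX) (hY), X = Y → (one X hX : MD n) = one Y hY := by
    intro X Y _ _ h; subst h; rfl
  have arc_eq : ∀ (X Y : ℕ → Bool) (hX) (hY) (a b : ℕ) (hab) (h1) (h2), X = Y →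
      (arc X hX a b hab h1 : MD n) = arc Y hY a b hab h2 := by
    intro X Y _ _ a b _ _ _ h; subst h; rfl
  rw [one_eq h.F.X X h.F.big h.big h.F_X] at e3
  have e3' : x h.mve.v * x h.F * x (H c d h.cd (by omega)) = x h.mve.v * x h.F2 := e3
  have e4 := (hx.act (C_H_right h.F2 a b e h.ab (by omega) (by omega) (by rw [h.F2_X]; exact h.xa)
    (by rw [h.F2_w]; simp) (by rw [h.F2_X]; exact h.gap)) (hc_C h.ab (by omega) h.F2)).1
  rw [h.i1] at e4
  have e5 := (hx.u3R h.mve h.F2 h.F2_X (by rw [h.F2_w]; simp) (by omega)).1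
  rw [h.i1] at e5
  have e6 := hx.sx' h.F4 a b h.ab (by
    rw [h.F4_X]; exact fun i h1 h2 => h.mve.gap' i h1 (by omega))
  rw [one_eq h.F4.X _ h.F4.big h.mve.big' h.F4_X, arc_eq h.F4.X _ h.F4.big h.mve.big' a b h.ab _
    (fun i h1 h2 => h.mve.gap' i h1 (by omega)) h.F4_X] at e6
  have e6' : x h.F4 * x h.mve.p' * x h.mve.v' = x h.F4 * x h.mve.v' := e6
  have e7 : x h.mve.p' * x h.F4 * x h.mve.p' = x h.mve.p' := hx.fr h.F4_X.symm
  rw [hx.mop h.mve]
  have hvv : x h.mvc.v = x h.mve.v := rfl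
  rw [hvv]
  calc x h.mve.v * x h.F * x h.F4 * x h.mve.v' = x h.mve.v * (x h.F * x h.F4) * x h.mve.v' := by
        simp only [mul_assoc]
    _ = x h.mve.v * (x h.F * x h.F2) * x h.F4 * x h.mve.v' := by rw [e1]; simp only [mul_assoc]
    _ = (x h.mve.v * x h.F * x (H c d h.cd (by omega))) * x h.F4 * x h.mve.v' := by
        rw [← e2]; simp only [mul_assoc]
    _ = x h.mve.v * (x h.F2 * x h.F4) * x h.mve.v' := by rw [e3']; simp only [mul_assoc]
    _ = x h.mve.v * x h.F2 * x (H a b h.ab (by omega)) * x h.mve.v' := by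
        rw [← e4]; simp only [mul_assoc]
    _ = x h.mve.v * x h.mve.p * (x h.mve.p' * (x h.F4 * x h.mve.v')) := by
        rw [e5]; simp only [mul_assoc]
    _ = x h.mve.v * x h.mve.p * (x h.mve.p' * x h.F4 * x h.mve.p') * x h.mve.v' := by
        rw [← e6']; simp only [mul_assoc]
    _ = _ := by rw [e7]

theorem PGM.five2 (hx : PGM x) {X : ℕ → Bool} {a b c d e : ℕ} (h : Five n X a b c d e) :
    x h.mvc.v * x h.F * x h.F4 * x h.mve.v' =
      x h.mvd.v * Mop x a d e h.mvd.ab h.mvd.bc h.mvd.cn := by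
  have h1 := h.ab; have h2 := h.bc; have h3 := h.cd; have h4 := h.de; have h5 := h.en
  have one_eq : ∀ (X Y : ℕ → Bool) (hX) (hY), X = Y → (one X hX : MD n) = one Y hY := by
    intro X Y _ _ h; subst h; rfl
  have arc_eq : ∀ (X Y : ℕ → Bool) (hX) (hY) (a b : ℕ) (hab) (h1) (h2), X = Y →
      (arc X hX a b hab h1 : MD n) = arc Y hY a b hab h2 := by
    intro X Y _ _ a b _ _ _ h; subst h; rfl
  have k1 := hc_C h.bc (by omega) h.F
  rw [h.i4] at k1
  have e1 : x h.F * x h.F4 = x h.F * x h.F3 * x h.F4 :=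
    (hx.tri k1 (hc_C h.bc (by omega) h.F4)).1
  have k3 := hc_C h.bc (by omega) h.F3
  rw [h.i5] at k3
  have e2 : x h.F3 * x (H b c h.bc (by omega)) = x h.F3 := (hx.le k3).2
  have e3 := hx.u2' h.F4 b c h.bc (by omega) (by
    rw [h.F4_X]; exact fun i h1 h2 => h.mve.gap' i (by omega) (by omega))
  rw [one_eq h.F4.X _ h.F4.big h.mve.big' h.F4_X] at e3
  have e3' : x (H b c h.bc (by omega)) * x h.F4 * x h.mve.v' = x h.F3 * x h.mve.v' := e3
  have e4 := hx.sx' h.F3 a d (by omega) (by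
    rw [h.F3_X]; exact fun i h1 h2 => h.mve.gap' i h1 (by omega))
  rw [one_eq h.F3.X _ h.F3.big h.mvd.big' h.F3_X, arc_eq h.F3.X _ h.F3.big h.mvd.big' a d
    (by omega) _ (fun i h1 h2 => h.mvd.gap' i h1 (by omega)) h.F3_X] at e4
  have e4' : x h.F3 * x h.mvd.p' * x h.mvd.v' = x h.F3 * x h.mvd.v' := e4
  have k5 := hc_C h.bc (by omega) h.mvd.p'
  rw [h.i6] at k5
  have e5 : x h.F * x h.mvd.p' = x h.F * x h.F3 * x h.mvd.p' := (hx.tri k1 k5).1
  have k6 := cut_C (addX h.F.X d e) (addX_big h.F.big d e) h.mvd.p'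
  rw [show MD.cut (addX h.F.X d e) (addX_big h.F.big d e) h.mvd.p' = h.mvd.p' from by
    apply cut_arc
    · intro i hi
      simp only [addX, h.F_X]
      simp only [mvX] at hi
      grind
    · simp [addX, h.F_X, h.xa]
    · simp [addX]] at k6
  have k7 := cut_C (addX h.F.X d e) (addX_big h.F.big d e) h.F
  rw [cut_addX_arc h.F d e h.de (by rw [h.F_X]; exact fun i h1 h2 => h.gap i (by omega) h2)
    (by rw [h.F_w]; simp only []; grind), arc_eq h.F.X X h.F.big h.big d e h.de _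
    (fun i h1 h2 => h.gap i (by omega) h2) h.F_X] at k7
  have e6 : x h.F * x h.mvd.p' = x h.F * x h.mvd.p * x h.mvd.p' := (hx.tri k6 k7).2.1
  have hsub : ∀ i, h.F.X i = true → addX h.F.X d e i = true := fun i hi => by simp [addX, hi]
  have e7 := hx.cut h.F (addX h.F.X d e) (addX_big h.F.big d e) hsub
  rw [cut_addX_arc h.F d e h.de (by rw [h.F_X]; exact fun i h1 h2 => h.gap i (by omega) h2)
    (by rw [h.F_w]; simp only []; grind), arc_eq h.F.X X h.F.big h.big d e h.de _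
    (fun i h1 h2 => h.gap i (by omega) h2) h.F_X, one_eq h.F.X X h.F.big h.big h.F_X] at e7
  have e7' : x h.mvd.v * x h.F * x (one (addX h.F.X d e) (addX_big h.F.big d e)) =
    x h.mvd.v * x h.mvd.p := e7
  have e8 : x h.F * x (one (addX h.F.X d e) (addX_big h.F.big d e)) = x h.F * x h.mvd.p :=
    (hx.act (C_one h.F _ _ hsub) k7).1
  rw [hx.mop h.mvd]
  have hvv : x h.mvc.v = x h.mvd.v := rfl
  have hvv' : x h.mve.v' = x h.mvd.v' := rfl
  rw [hvv]
  calc x h.mvd.v * x h.F * x h.F4 * x h.mve.v' = x h.mvd.v * (x h.F * x h.F4) * x h.mve.v' := by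
        simp only [mul_assoc]
    _ = x h.mvd.v * (x h.F * x h.F3) * x h.F4 * x h.mve.v' := by rw [e1]; simp only [mul_assoc]
    _ = x h.mvd.v * x h.F * x h.F3 * (x (H b c h.bc (by omega)) * x h.F4 * x h.mve.v') := by
        conv_lhs => rw [← e2]
        simp only [mul_assoc]
    _ = x h.mvd.v * x h.F * (x h.F3 * x h.F3) * x h.mve.v' := by rw [e3']; simp only [mul_assoc]
    _ = x h.mvd.v * x h.F * (x h.F3 * x h.mvd.v') := by rw [hx.idem, hvv']; simp only [mul_assoc]
    _ = x h.mvd.v * (x h.F * x h.F3 * x h.mvd.p') * x h.mvd.v' := by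
        rw [← e4']; simp only [mul_assoc]
    _ = x h.mvd.v * (x h.F * x h.mvd.p) * x h.mvd.p' * x h.mvd.v' := by
        rw [← e5, e6]; simp only [mul_assoc]
    _ = (x h.mvd.v * x h.F * x (one (addX h.F.X d e) (addX_big h.F.big d e))) *
          x h.mvd.p' * x h.mvd.v' := by rw [← e8]; simp only [mul_assoc]
    _ = _ := by rw [e7']

end

end Pool.Agent.W_MP_aeed81_al
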