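import Pool.Agent.W_MP_aeed81_al.MGap

set_option linter.unusedVariables false
set_option linter.unusedSectionVars false

namespace Pool.Agent.W_MP_aeed81_al

open Finset

open Classical in
/-- recursive definition of the first gauge -/
noncomputable def gT {G : Type*} [Group G] (r : ℕ) (γ : (ℕ → ℕ) → ℕ → G) : (ℕ → ℕ) → G := fun m =>
  if h : ∃ j, j < r ∧ 2 ≤ m (j + 1) then
    gT r γ (gmv m h.choose 2) * (γ m h.choose)⁻¹
  else 1
termination_by m => tau r m
decreasing_by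
  have h1 := h.choose_spec
  have := tau_gmv h1.1 h1.2
  omega

/-- trivialization of the pair moves -/
theorem gauge_T {G : Type*} [Group G] (r : ℕ) (γ : (ℕ → ℕ) → ℕ → G)
    (hC : ∀ m j k, j < r → k < r → j ≠ k → 2 ≤ m (j + 1) → 2 ≤ m (k + 1) →
      γ m j * γ (gmv m j 2) k = γ m k * γ (gmv m k 2) j) :
    ∃ g : (ℕ → ℕ) → G, (∀ m, (∀ i, 1 ≤ i → i ≤ r → m i = 0) → g m = 1) ∧
      ∀ m j, j < r → 2 ≤ m (j + 1) → g m * γ m j = g (gmv m j 2) := by
  classical
  refine ⟨gT r γ, ?_, ?_⟩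
  · intro m hm
    rw [gT]
    have : ¬ (∃ j, j < r ∧ 2 ≤ m (j + 1)) := by
      rintro ⟨j, h1, h2⟩
      have := hm (j + 1) (by omega) (by omega)
      omega
    rw [dif_neg this]
  · intro m
    induction hN : tau r m using Nat.strong_induction_on generalizing m with
    | _ t ih =>
      intro j hj h2
      have ht := tau_gmv hj h2
      have hc : ∃ j, j < r ∧ 2 ≤ m (j + 1) := ⟨j, hj, h2⟩
      rw [gT, dif_pos hc]
      obtain ⟨hk1, hk2⟩ := hc.choose_spec
      generalize hc.choose = k at hk1 hk2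
      by_cases hjk : j = k
      · subst hjk; group
      · have ht' := tau_gmv hk1 hk2
        have a1 := ih (tau r (gmv m j 2)) (by omega) (gmv m j 2) rfl k hk1 (by
          simp only [gmv]; grind)
        have a2 := ih (tau r (gmv m k 2)) (by omega) (gmv m k 2) rfl j hj (by
          simp only [gmv]; grind)
        have a3 := hC m j k hj hk1 hjk h2 hk2
        rw [gmv_comm m j k 2 2 hjk h2 hk2, ← a2] at a1
        have a4 : gT r γ (gmv m j 2) = gT r γ (gmv m k 2) * γ (gmv m k 2) j *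
            (γ (gmv m j 2) k)⁻¹ := by
          rw [← a1]; group
        rw [a4]
        have a5 : γ m j = γ m k * γ (gmv m k 2) j * (γ (gmv m j 2) k)⁻¹ := by
          rw [← a3]; group
        rw [a5]; group

/-- the reduced vector: `m` with the last odd entry moved -/
def gbase0 (m : ℕ → ℕ) : ℕ → ℕ := fun i => if i = 0 then m 0 - 2 else m i

/-- the last nonzero entry is at `j + 1` -/
def IsLast (r : ℕ) (m : ℕ → ℕ) (j : ℕ) : Prop :=
  j < r ∧ m (j + 1) ≠ 0 ∧ ∀ i, j + 1 < i → i ≤ r → m i = 0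

theorem IsLast.unique {r : ℕ} {m : ℕ → ℕ} {j k : ℕ} (h : IsLast r m j) (h' : IsLast r m k) :
    j = k := by
  rcases Nat.lt_trichotomy j k with h1 | h1 | h1
  · exact absurd (h.2.2 (k + 1) (by omega) (by have := h'.1; omega)) h'.2.1
  · exact h1
  · exact absurd (h'.2.2 (j + 1) (by omega) (by have := h.1; omega)) h.2.1

open Classical in
/-- recursive definition of the second gauge -/
noncomputable def gF {G : Type*} [Group G] (r : ℕ) (ℓ : (ℕ → ℕ) → ℕ → G) : (ℕ → ℕ) → G := fun m =>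
  if h : ∃ j, j < r ∧ 2 ≤ m (j + 1) then gF r ℓ (gmv m h.choose 2)
  else if h : ∃ j, IsLast r m j then
    gF r ℓ (gmv m h.choose 1) * (ℓ (gad (gbase0 m) (h.choose + 1)) h.choose)⁻¹
  else 1
termination_by m => tau r m
decreasing_by
  · have h1 := h.choose_spec
    have := tau_gmv h1.1 h1.2
    omega
  · have h1 := h.choose_spec
    have := tau_gmv (d := 1) h1.1 (Nat.one_le_iff_ne_zero.2 h1.2.1)
    omega

theorem gF_T {G : Type*} [Group G] (r : ℕ) (ℓ : (ℕ → ℕ) → ℕ → G) (m : ℕ → ℕ) :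
    ∀ j, j < r → 2 ≤ m (j + 1) → gF r ℓ m = gF r ℓ (gmv m j 2) := by
  classical
  induction hN : tau r m using Nat.strong_induction_on generalizing m with
  | _ t ih =>
    intro j hj h2
    have ht := tau_gmv hj h2
    have hc : ∃ j, j < r ∧ 2 ≤ m (j + 1) := ⟨j, hj, h2⟩
    conv_lhs => rw [gF, dif_pos hc]
    obtain ⟨hk1, hk2⟩ := hc.choose_spec
    generalize hc.choose = k at hk1 hk2
    by_cases hjk : j = k
    · subst hjk; rfl
    · have ht' := tau_gmv hk1 hk2
      have a1 := ih (tau r (gmv m j 2)) (by omega) (gmv m j 2) rfl k hk1 (by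
        simp only [gmv]; grind)
      have a2 := ih (tau r (gmv m k 2)) (by omega) (gmv m k 2) rfl j hj (by
        simp only [gmv]; grind)
      rw [a1, a2, gmv_comm m j k 2 2 hjk h2 hk2]

theorem gF_last {G : Type*} [Group G] (r : ℕ) (ℓ : (ℕ → ℕ) → ℕ → G) (m : ℕ → ℕ) (j : ℕ)
    (h1 : ∀ i, 1 ≤ i → i ≤ r → m i ≤ 1) (h2 : IsLast r m j) :
    gF r ℓ m * ℓ (gad (gbase0 m) (j + 1)) j = gF r ℓ (gmv m j 1) := by
  classical
  have n1 : ¬ ∃ j, j < r ∧ 2 ≤ m (j + 1) := by
    rintro ⟨k, hk1, hk2⟩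
    have := h1 (k + 1) (by omega) (by omega)
    omega
  have n2 : ∃ j, IsLast r m j := ⟨j, h2⟩
  have e : n2.choose = j := n2.choose_spec.unique h2
  rw [gF, dif_neg n1, dif_pos n2, e]
  group

theorem gF_base {G : Type*} [Group G] (r : ℕ) (ℓ : (ℕ → ℕ) → ℕ → G) (m : ℕ → ℕ)
    (hm : ∀ i, 1 ≤ i → i ≤ r → m i = 0) : gF r ℓ m = 1 := by
  classical
  have n1 : ¬ ∃ j, j < r ∧ 2 ≤ m (j + 1) := by
    rintro ⟨k, hk1, hk2⟩
    have := hm (k + 1) (by omega) (by omega)
    omega
  have n2 : ¬ ∃ j, IsLast r m j := by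
    rintro ⟨k, hk1, hk2, _⟩
    exact hk2 (hm (k + 1) (by omega) (by omega))
  rw [gF, dif_neg n1, dif_neg n2]

end Pool.Agent.W_MP_aeed81_al
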