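import Pool.Agent.W_MP_aeed81_al.MGauge

set_option linter.unusedVariables false
set_option linter.unusedSectionVars false

namespace Pool.Agent.W_MP_aeed81_al

open Finset

/-- The relations between the moves of the defects. -/
structure GSys {G : Type*} [Group G] (r : ℕ) (γ : (ℕ → ℕ) → ℕ → ℕ → ℕ → G) : Prop where
  hC : ∀ m j k s t s' t', j < r → k < r → j ≠ k → 1 ≤ s → 1 ≤ t → 1 ≤ s' → 1 ≤ t' →
    s + t ≤ m (j + 1) → s' + t' ≤ m (k + 1) →
    γ m j s t * γ (gmv m j (s + t)) k s' t' = γ m k s' t' * γ (gmv m k (s' + t')) j s t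
  hP1 : ∀ m j s1 s2 s3 s4, j < r → 1 ≤ s1 → 1 ≤ s2 → 1 ≤ s3 → 1 ≤ s4 →
    s1 + s2 + s3 + s4 ≤ m (j + 1) →
    γ m j s1 s2 * γ (gmv m j (s1 + s2)) j s3 s4 = γ m j s1 (s2 + s3 + s4)
  hP2 : ∀ m j s1 s2 s3 s4, j < r → 1 ≤ s1 → 1 ≤ s2 → 1 ≤ s3 → 1 ≤ s4 →
    s1 + s2 + s3 + s4 ≤ m (j + 1) →
    γ m j s1 s2 * γ (gmv m j (s1 + s2)) j s3 s4 = γ m j (s1 + s2 + s3) s4

section

variable {G : Type*} [Group G] {r : ℕ} {γ : (ℕ → ℕ) → ℕ → ℕ → ℕ → G}

theorem ell_inv (h : GSys r γ) (hT : ∀ m j, j < r → 2 ≤ m (j + 1) → γ m j 1 1 = 1) (j : ℕ)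
    (hj : j < r) (m : ℕ → ℕ) (k : ℕ) (hk : k < r) (h1 : 2 ≤ m (k + 1)) (h2 : 3 ≤ m (j + 1))
    (h3 : 3 ≤ gmv m k 2 (j + 1)) : γ m j 1 2 = γ (gmv m k 2) j 1 2 := by
  by_cases hjk : j = k
  · subst hjk
    have h5 : 5 ≤ m (j + 1) := by simp only [gmv] at h3; grind
    have a1 := h.hP1 m j 1 2 1 1 hj (by norm_num) (by norm_num) (by norm_num) (by norm_num) (by omega)
    have a2 := h.hP1 m j 1 1 1 2 hj (by norm_num) (by norm_num) (by norm_num) (by norm_num) (by omega)
    norm_num at a1 a2
    rw [hT (gmv m j 3) j hj (by simp only [gmv]; grind), mul_one] at a1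
    rw [hT m j hj h1, one_mul] at a2
    rw [a1, a2]
  · have a := h.hC m j k 1 2 1 1 hj hk hjk (by norm_num) (by norm_num) (by norm_num) (by norm_num)
      (by omega) (by omega)
    norm_num at a
    rwa [hT m k hk h1, one_mul, hT (gmv m j 3) k hk (by simp only [gmv]; grind), mul_one] at a

theorem rho_inv (h : GSys r γ) (hT : ∀ m j, j < r → 2 ≤ m (j + 1) → γ m j 1 1 = 1) (j : ℕ)
    (hj : j < r) (m : ℕ → ℕ) (k : ℕ) (hk : k < r) (h1 : 2 ≤ m (k + 1)) (h2 : 3 ≤ m (j + 1))
    (h3 : 3 ≤ gmv m k 2 (j + 1)) : γ m j 2 1 = γ (gmv m k 2) j 2 1 := by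
  by_cases hjk : j = k
  · subst hjk
    have h5 : 5 ≤ m (j + 1) := by simp only [gmv] at h3; grind
    have a1 := h.hP2 m j 2 1 1 1 hj (by norm_num) (by norm_num) (by norm_num) (by norm_num) (by omega)
    have a2 := h.hP2 m j 1 1 2 1 hj (by norm_num) (by norm_num) (by norm_num) (by norm_num) (by omega)
    norm_num at a1 a2
    rw [hT (gmv m j 3) j hj (by simp only [gmv]; grind), mul_one] at a1
    rw [hT m j hj h1, one_mul] at a2
    rw [a1, a2]
  · have a := h.hC m j k 2 1 1 1 hj hk hjk (by norm_num) (by norm_num) (by norm_num) (by norm_num)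
      (by omega) (by omega)
    norm_num at a
    rwa [hT m k hk h1, one_mul, hT (gmv m j 3) k hk (by simp only [gmv]; grind), mul_one] at a

theorem five_one (h : GSys r γ) (hT : ∀ m j, j < r → 2 ≤ m (j + 1) → γ m j 1 1 = 1) (j : ℕ)
    (hj : j < r) (m : ℕ → ℕ) (h6 : 4 ≤ m (j + 1)) : γ m j 3 1 = 1 := by
  have a1 := h.hP2 m j 1 1 1 1 hj (by norm_num) (by norm_num) (by norm_num) (by norm_num) (by omega)
  norm_num at a1
  rw [hT m j hj (by omega), hT (gmv m j 2) j hj (by simp only [gmv]; grind), mul_one] at a1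
  exact a1.symm

theorem mu_one (h : GSys r γ) (hT : ∀ m j, j < r → 2 ≤ m (j + 1) → γ m j 1 1 = 1) (j : ℕ)
    (hj : j < r) (m : ℕ → ℕ) (h6 : 6 ≤ m (j + 1)) : γ m j 2 2 = 1 := by
  have a1 := h.hP2 m j 2 2 1 1 hj (by norm_num) (by norm_num) (by norm_num) (by norm_num) (by omega)
  have a2 := h.hP2 m j 1 1 3 1 hj (by norm_num) (by norm_num) (by norm_num) (by norm_num) (by omega)
  norm_num at a1 a2
  rw [hT (gmv m j 4) j hj (by simp only [gmv]; grind), mul_one] at a1
  rw [hT m j hj (by omega), one_mul,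
    five_one h hT j hj (gmv m j 2) (by simp only [gmv]; grind)] at a2
  rw [a1, ← a2]

theorem ell_ell (h : GSys r γ) (hT : ∀ m j, j < r → 2 ≤ m (j + 1) → γ m j 1 1 = 1) (j : ℕ)
    (hj : j < r) (m : ℕ → ℕ) (h6 : 6 ≤ m (j + 1)) : γ m j 1 2 * γ (gmv m j 3) j 1 2 = 1 := by
  have a1 := h.hP1 m j 1 2 1 2 hj (by norm_num) (by norm_num) (by norm_num) (by norm_num) (by omega)
  have a2 := h.hP1 m j 1 1 3 1 hj (by norm_num) (by norm_num) (by norm_num) (by norm_num) (by omega)
  norm_num at a1 a2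
  rw [hT m j hj (by omega), one_mul,
    five_one h hT j hj (gmv m j 2) (by simp only [gmv]; grind)] at a2
  rw [a1, ← a2]

theorem rho_eq (h : GSys r γ) (hT : ∀ m j, j < r → 2 ≤ m (j + 1) → γ m j 1 1 = 1) (j : ℕ)
    (hj : j < r) (m : ℕ → ℕ) (h6 : 5 ≤ m (j + 1)) : γ m j 2 1 = γ m j 1 2 := by
  have a1 := h.hP2 m j 2 1 1 1 hj (by norm_num) (by norm_num) (by norm_num) (by norm_num) (by omega)
  have a2 := h.hP2 m j 1 2 1 1 hj (by norm_num) (by norm_num) (by norm_num) (by norm_num) (by omega)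
  norm_num at a1 a2
  rw [hT (gmv m j 3) j hj (by simp only [gmv]; grind), mul_one] at a1 a2
  rw [a1, a2]

theorem mu_inv (h : GSys r γ) (hT : ∀ m j, j < r → 2 ≤ m (j + 1) → γ m j 1 1 = 1) (j : ℕ)
    (hj : j < r) (m : ℕ → ℕ) (k : ℕ) (hk : k < r) (h1 : 2 ≤ m (k + 1)) (h2 : 4 ≤ m (j + 1))
    (h3 : 4 ≤ gmv m k 2 (j + 1)) : γ m j 2 2 = γ (gmv m k 2) j 2 2 := by
  by_cases hjk : j = k
  · subst hjk
    have h5 : 6 ≤ m (j + 1) := by simp only [gmv] at h3; grind
    have a1 := h.hP1 m j 1 1 2 2 hj (by norm_num) (by norm_num) (by norm_num) (by norm_num) (by omega)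
    have a2 := h.hP1 m j 1 1 3 1 hj (by norm_num) (by norm_num) (by norm_num) (by norm_num) (by omega)
    norm_num at a1 a2
    rw [mu_one h hT j hj m h5]
    rw [hT m j hj h1, one_mul] at a1 a2
    rw [five_one h hT j hj (gmv m j 2) (by simp only [gmv]; grind)] at a2
    rw [a1, ← a2]
  · have a := h.hC m j k 2 2 1 1 hj hk hjk (by norm_num) (by norm_num) (by norm_num) (by norm_num)
      (by omega) (by omega)
    norm_num at a
    rwa [hT m k hk h1, one_mul, hT (gmv m j 4) k hk (by simp only [gmv]; grind), mul_one] at a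

/-- the section after normalization -/
noncomputable def gG (r : ℕ) (γ : (ℕ → ℕ) → ℕ → ℕ → ℕ → G) : (ℕ → ℕ) → G :=
  gF r (fun m j => γ m j 1 2)

theorem gG_T (m : ℕ → ℕ) (j : ℕ) (hj : j < r) (h : 2 ≤ m (j + 1)) :
    gG r γ m = gG r γ (gmv m j 2) := gF_T r _ m j hj h

theorem gG_pm (n : ℕ → ℕ) (i : ℕ) (hi : i ≤ r) : gG r γ (gad n i) = gG r γ (gad n 0) :=
  pm_inv (r := r) (gG r γ) 0 0 (fun m k h1 h2 _ _ => gG_T m k h1 h2) n (Nat.zero_le _) i hi

theorem gmv_swap (m : ℕ → ℕ) (j k : ℕ) (hk : 2 ≤ m (k + 1)) (hj : 3 ≤ m (j + 1))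
    (hkj : k = j → 5 ≤ m (j + 1)) :
    gmv (gmv m j 3) k 2 = gmv (gmv m k 2) j 3 := by
  funext i
  simp only [gmv]
  grind

theorem gmv_ge {m : ℕ → ℕ} {j k : ℕ} (hk : 2 ≤ m (k + 1)) (hj : 3 ≤ m (j + 1))
    (hkj : k = j → 5 ≤ m (j + 1)) : 2 ≤ gmv m j 3 (k + 1) := by
  simp only [gmv]
  grind

theorem can_step (h : GSys r γ) (hT : ∀ m j, j < r → 2 ≤ m (j + 1) → γ m j 1 1 = 1) (j : ℕ)
    (hj : j < r) (m : ℕ → ℕ) : 3 ≤ m (j + 1) → m (j + 1) % 2 = 1 →
    (∀ i, j + 1 < i → i ≤ r → m i % 2 = 0) →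
    gG r γ m * γ m j 1 2 = gG r γ (gmv m j 3) := by
  induction hN : tau r m using Nat.strong_induction_on generalizing m with
  | _ t ih =>
    intro h1 h2 h3
    by_cases hex : ∃ k, k < r ∧ 2 ≤ m (k + 1) ∧ (k = j → 5 ≤ m (j + 1))
    · obtain ⟨k, hk, hk2, hk3⟩ := hex
      have ht := tau_gmv hk hk2
      have b1 : 3 ≤ gmv m k 2 (j + 1) := by simp only [gmv]; split_ifs <;> omega
      have b2 : gmv m k 2 (j + 1) % 2 = 1 := by simp only [gmv]; split_ifs <;> omega
      have b3 : ∀ i, j + 1 < i → i ≤ r → gmv m k 2 i % 2 = 0 := by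
        intro i hi1 hi2
        have := h3 i hi1 hi2
        simp only [gmv]; split_ifs <;> omega
      have := ih (tau r (gmv m k 2)) (by omega) (gmv m k 2) rfl b1 b2 b3
      rw [gG_T m k hk hk2, ell_inv h hT j hj m k hk hk2 h1 b1, this,
        gG_T (gmv m j 3) k hk (gmv_ge hk2 h1 hk3), gmv_swap m j k hk2 h1 hk3]
    · push Not at hex
      have c1 : m (j + 1) = 3 := by
        have := hex j hj (by omega)
        omega
      have c2 : ∀ i, 1 ≤ i → i ≤ r → i ≠ j + 1 → m i ≤ 1 := by
        intro i hi1 hi2 hi3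
        by_contra hc
        have h4 := hex (i - 1) (by omega) (by rw [Nat.sub_add_cancel hi1]; omega)
        omega
      have c3 : ∀ i, j + 1 < i → i ≤ r → m i = 0 := by
        intro i hi1 hi2
        have := c2 i (by omega) hi2 (by omega)
        have := h3 i hi1 hi2
        omega
      let n0 : ℕ → ℕ := fun i => if i = j + 1 then 1 else m i
      have e0 : gad n0 (j + 1) = m := by
        funext i; simp only [gad, n0]; grind
      have e1 : gad (gbase0 (gad n0 0)) (j + 1) = m := by
        funext i; simp only [gad, gbase0, n0]; grind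
      have hl := gF_last r (fun m j => γ m j 1 2) (gad n0 0) j (by
        intro i hi1 hi2
        have := c2 i hi1 hi2
        simp only [gad, n0]; split_ifs <;> omega) ⟨hj, by simp [gad, n0], by
        intro i hi1 hi2
        have := c3 i hi1 hi2
        simp only [gad, n0]; grind⟩
      simp only [e1] at hl
      let n1 : ℕ → ℕ := fun i => if i = j then m i + 1 else if i = j + 1 then 0 else m i
      have e2 : gmv m j 3 = gad n1 j := by
        funext i; simp only [gmv, gad, n1]; grind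
      have e3 : gmv (gad n0 0) j 1 = gad n1 0 := by
        funext i; simp only [gmv, gad, n0, n1]; grind
      rw [e3] at hl
      rw [e2, gG_pm n1 j (by omega)]
      conv_lhs => rw [← e0, gG_pm n0 (j + 1) (by omega), e0]
      exact hl

theorem odd_step (h : GSys r γ) (hT : ∀ m j, j < r → 2 ≤ m (j + 1) → γ m j 1 1 = 1) (B : ℕ) :
    ∀ j, j < r → ∀ m : ℕ → ℕ, 3 ≤ m (j + 1) → m (j + 1) % 2 = 1 →
    (∀ i, B < i → i ≤ r → m i % 2 = 0) →
    ((∃ i, i ≤ r ∧ i ≠ j + 1 ∧ 2 ≤ m i) ∨ 5 ≤ m (j + 1)) →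
    gG r γ m * γ m j 1 2 = gG r γ (gmv m j 3) := by
  induction B with
  | zero =>
    intro j hj m h1 h2 h3 _
    exact can_step h hT j hj m h1 h2 (fun i hi1 hi2 => h3 i (by omega) hi2)
  | succ B ihB =>
    intro j hj m
    induction hN : tau r m using Nat.strong_induction_on generalizing m with
    | _ t ih =>
      intro h1 h2 h3 h4
      by_cases hB : B + 1 ≤ j + 1
      · exact can_step h hT j hj m h1 h2 (fun i hi1 hi2 => h3 i (by omega) hi2)
      by_cases hBr : B + 1 ≤ r
      swap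
      · exact ihB j hj m h1 h2 (fun i hi1 hi2 => by omega) h4
      by_cases hBo : m (B + 1) % 2 = 0
      · apply ihB j hj m h1 h2 _ h4
        intro i hi1 hi2
        by_cases hi : i = B + 1
        · rw [hi]; exact hBo
        · exact h3 i (by omega) hi2
      by_cases hex : ∃ k, k < r ∧ 2 ≤ m (k + 1) ∧ (k = j → 5 ≤ m (j + 1))
      · obtain ⟨k, hk, hk2, hk3⟩ := hex
        have ht := tau_gmv hk hk2
        have b1 : 3 ≤ gmv m k 2 (j + 1) := by simp only [gmv]; split_ifs <;> omega
        have b2 : gmv m k 2 (j + 1) % 2 = 1 := by simp only [gmv]; split_ifs <;> omega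
        have b3 : ∀ i, B + 1 < i → i ≤ r → gmv m k 2 i % 2 = 0 := by
          intro i hi1 hi2
          have := h3 i hi1 hi2
          simp only [gmv]; split_ifs <;> omega
        have b4 : (∃ i, i ≤ r ∧ i ≠ j + 1 ∧ 2 ≤ gmv m k 2 i) ∨ 5 ≤ gmv m k 2 (j + 1) := by
          by_cases hkj : k = j + 1
          · right; subst hkj; simp only [gmv]; split_ifs <;> omega
          · left; exact ⟨k, by omega, hkj, by simp [gmv]⟩
        have := ih (tau r (gmv m k 2)) (by omega) (gmv m k 2) rfl b1 b2 b3 b4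
        rw [gG_T m k hk hk2, ell_inv h hT j hj m k hk hk2 h1 b1, this,
          gG_T (gmv m j 3) k hk (gmv_ge hk2 h1 hk3), gmv_swap m j k hk2 h1 hk3]
      · push Not at hex
        have c1 : m (j + 1) = 3 := by
          have := hex j hj (by omega)
          omega
        have c2 : ∀ i, 1 ≤ i → i ≤ r → i ≠ j + 1 → m i ≤ 1 := by
          intro i hi1 hi2 hi3
          by_contra hc
          have h4 := hex (i - 1) (by omega) (by rw [Nat.sub_add_cancel hi1]; omega)
          omega
        have c0 : 2 ≤ m 0 := by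
          rcases h4 with ⟨i, hi1, hi2, hi3⟩ | h4
          · rcases Nat.eq_zero_or_pos i with rfl | h5
            · exact hi3
            · have := c2 i h5 hi1 hi2; omega
          · omega
        have cB : m (B + 1) = 1 := by
          have := c2 (B + 1) (by omega) hBr (by omega)
          omega
        have e0 : gad (gbase0 m) 0 = m := by
          funext i; simp only [gad, gbase0]; grind
        have en : gbase0 m (j + 1) = 3 := by simp only [gbase0]; grind
        obtain ⟨Z, hZ⟩ : ∃ Z, Z = gad (gbase0 m) (B + 1) := ⟨_, rfl⟩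
        have Zj : Z (j + 1) = 3 := by
          rw [hZ]; simp only [gad, gbase0]; rw [if_neg (by omega), if_neg (by omega)]; exact c1
        have ZB : Z (B + 1) = 3 := by
          rw [hZ]; simp only [gad, gbase0, if_true]; rw [if_neg (by omega), cB]
        have Zbig : ∀ i, B + 1 < i → i ≤ r → Z i % 2 = 0 := by
          intro i hi1 hi2
          have := h3 i hi1 hi2
          rw [hZ]; simp only [gad, gbase0]; split_ifs <;> omega
        have g1 : gG r γ m = gG r γ Z := by
          rw [hZ, gG_pm _ _ hBr, e0]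
        have g2 : γ m j 1 2 = γ Z j 1 2 := by
          have := pm_inv (r := r) (fun m => γ m j 1 2) 3 (j + 1)
            (fun m k a1 a2 a3 a4 => ell_inv h hT j hj m k a1 a2 a3 a4) (gbase0 m) (by omega)
            (B + 1) hBr
          simp only [e0] at this
          rw [hZ, this]
        have g3 : gG r γ (gmv m j 3) = gG r γ (gmv Z j 3) := by
          rw [hZ, gmv_gad' _ _ _ _ (by omega), gG_pm _ _ hBr]
          rw [← gmv_gad' _ _ _ _ (by omega), e0]
        have g4 := h.hC Z j B 1 2 1 2 hj (by omega) (by omega) (by norm_num) (by norm_num)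
          (by norm_num) (by norm_num) (by omega) (by omega)
        norm_num at g4
        have g5 := can_step h hT B (by omega) Z (by omega) (by omega) Zbig
        have g6 := can_step h hT B (by omega) (gmv Z j 3) (by simp only [gmv]; split_ifs <;> omega)
          (by simp only [gmv]; split_ifs <;> omega) (by
            intro i hi1 hi2
            have := Zbig i hi1 hi2
            simp only [gmv]; split_ifs <;> omega)
        have g7 : gG r γ (gmv Z B 3) * γ (gmv Z B 3) j 1 2 = gG r γ (gmv (gmv Z B 3) j 3) := by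
          by_cases hjB : j + 1 = B
          · subst hjB
            have v1 : gmv Z (j + 1) 3 (j + 1) = 6 := by simp only [gmv]; split_ifs <;> omega
            have v2 := ell_ell h hT j hj (gmv Z (j + 1) 3) (by omega)
            have v3 := can_step h hT j hj (gmv (gmv Z (j + 1) 3) j 3)
              (by simp only [gmv]; split_ifs <;> omega) (by simp only [gmv]; split_ifs <;> omega) (by
                intro i hi1 hi2
                by_cases hi : i = j + 1 + 1
                · subst hi; simp only [gmv]; split_ifs <;> omega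
                · have := Zbig i (by omega) hi2
                  simp only [gmv]; split_ifs <;> omega)
            have v4 : gG r γ (gmv Z (j + 1) 3) = gG r γ (gmv (gmv Z (j + 1) 3) j 6) := by
              rw [gG_T _ j hj (by omega), gG_T _ j hj (by simp only [gmv]; split_ifs <;> omega),
                gG_T _ j hj (by simp only [gmv]; split_ifs <;> omega), gmv_gmv, gmv_gmv]
            rw [gmv_gmv _ j 3 3] at v3
            norm_num at v3
            rw [v4, ← v3, mul_assoc]
            have : γ (gmv (gmv Z (j + 1) 3) j 3) j 1 2 * γ (gmv Z (j + 1) 3) j 1 2 = 1 :=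
              mul_eq_one_iff_eq_inv.2 (eq_inv_of_mul_eq_one_right v2)
            rw [this, mul_one]
          · apply ihB j hj
            · simp only [gmv]; split_ifs <;> omega
            · simp only [gmv]; split_ifs <;> omega
            · intro i hi1 hi2
              by_cases hi : i = B + 1
              · subst hi; simp only [gmv]; split_ifs <;> omega
              · have := Zbig i (by omega) hi2
                simp only [gmv]; split_ifs <;> omega
            · left; exact ⟨B, by omega, by omega, by simp [gmv]⟩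
        rw [gmv_comm Z j B 3 3 (by omega) (by omega) (by omega)] at g6
        rw [g1, g2, g3]
        apply mul_right_cancel (b := γ (gmv Z j 3) B 1 2)
        rw [g6, mul_assoc, g4, ← mul_assoc, g5, g7]

end

end Pool.Agent.W_MP_aeed81_al
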