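import Pool.Agent.W_MP_aeed81_al.MHook

set_option linter.unusedVariables false
set_option linter.unusedSectionVars false

namespace Pool.Agent.W_MP_aeed81_al

open MD

/-- the relations of `PG` in terms of the model -/
structure PGM {n : ℕ} {S : Type*} [Semigroup S] (x : MD n → S) : Prop where
  idem : ∀ f, x f * x f = x f
  sq : ∀ f g, x f * x g * (x f * x g) = x f * x g
  conj : ∀ f g s, rcomp (rcomp f.C g.C) f.C = s.C → x f * x g * x f = x s

theorem two_hooks {n : ℕ} {a c d b : ℕ} (hac : a < c) (hcd : c < d) (hdb : d < b) (hb : b < n)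
    (u v : ℕ → Prop) :
    (hc a c hac (by omega) (H d b hdb hb)).C u v ↔ (u a ↔ u c) ∧ (u d ↔ u b) ∧ (v a ↔ v c) ∧
      (v d ↔ v b) ∧ ∀ i, i < a ∨ (c < i ∧ i < d) ∨ b < i → (u i ↔ v i) := by
  rw [← hc_C]
  unfold rcomp
  simp only [H_C]
  constructor
  · rintro ⟨v', ⟨u', ⟨h1, h2, h3⟩, ⟨h4, h5, h6⟩⟩, ⟨h7, h8, h9⟩⟩
    have a1 := h3 d (by omega)
    have a2 := h3 b (by omega)
    have a3 := h9 d (by omega)
    have a4 := h9 b (by omega)
    refine ⟨h1, ?_, h8, ?_, ?_⟩
    · rw [a1, a2]; exact h4
    · rw [← a3, ← a4]; exact h5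
    · intro i hi
      rw [h3 i (by omega), ← h9 i (by omega)]
      exact h6 i (by omega)
  · rintro ⟨h1, h2, h3, h4, h5⟩
    have hu : ∀ u : ℕ → Prop, (∀ i, i < a ∨ c < i → (u i ↔ (if a ≤ i ∧ i ≤ c then True else u i))) := by
      intro u i hi
      rw [if_neg (by omega)]
    refine ⟨fun i => if a ≤ i ∧ i ≤ c then True else v i,
      ⟨fun i => if a ≤ i ∧ i ≤ c then True else u i, ⟨h1, ?_, hu u⟩, ⟨?_, ?_, ?_⟩⟩,
      ⟨?_, h3, fun i hi => (hu v i hi).symm⟩⟩
    · beta_reduce; rw [if_pos ⟨le_refl _, by omega⟩, if_pos ⟨by omega, le_refl _⟩]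
    · beta_reduce; rw [← hu u d (by omega), ← hu u b (by omega)]; exact h2
    · beta_reduce; rw [← hu v d (by omega), ← hu v b (by omega)]; exact h4
    · intro i hi
      beta_reduce
      by_cases h : a ≤ i ∧ i ≤ c
      · rw [if_pos h, if_pos h]
      · rw [if_neg h, if_neg h]; exact h5 i (by omega)
    · beta_reduce; rw [if_pos ⟨le_refl _, by omega⟩, if_pos ⟨by omega, le_refl _⟩]

namespace MD

variable {n : ℕ}

/-- number of points on arcs -/
def arcs (f : MD n) : ℕ := ((Finset.range n).filter (fun i => f.w i ≠ i)).card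

theorem lt_of_w_ne (f : MD n) {i : ℕ} (h : f.w i ≠ i) : i < n := by
  by_contra hc
  exact h (f.fix i (f.big i (by omega)))

/-- The first arc is turned into two defects. -/
def openArc (f : MD n) (a : ℕ) (ha : ∀ i, i < a → f.w i = i) (hab : a < f.w a) : MD n where
  w := fun i => if i = a ∨ i = f.w a then i else f.w i
  X := fun i => f.X i || decide (i = a) || decide (i = f.w a)
  inv := by
    intro i
    have := f.inv i
    have := f.inv a
    grind
  fix := by
    intro i hi
    have := f.fix i
    simp at hi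
    grind
  big := fun i hi => by simp [f.big i hi]
  pl := by
    intro i j h1 h2
    have e1 : ¬ (i = a ∨ i = f.w a) := by
      intro h; rw [if_pos h] at h2; omega
    rw [if_neg e1] at h2 ⊢
    have a1 := f.pl i j h1 h2
    have a2 := ha i
    have a3 := f.pl i (f.w a) 
    have a4 := f.inv a
    have e2 : ¬ (j = a ∨ j = f.w a) := by
      rintro (rfl | rfl)
      · have := a2 h1; omega
      · have h3 := a3 h1 h2
        rw [a4] at h3
        have := a2 h3.2.1; omega
    rw [if_neg e2]
    refine ⟨?_, a1.2⟩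
    simp only [not_or] at e2
    simp [a1.1, e2.1, e2.2]

theorem openArc_arcs (f : MD n) (a : ℕ) (ha : ∀ i, i < a → f.w i = i) (hab : a < f.w a) :
    (openArc f a ha hab).arcs < f.arcs := by
  apply Finset.card_lt_card
  refine Finset.ssubset_iff_subset_ne.2 ⟨?_, ?_⟩
  · intro i hi
    simp only [Finset.mem_filter] at hi ⊢
    refine ⟨hi.1, ?_⟩
    intro h
    apply hi.2
    change (if i = a ∨ i = f.w a then i else f.w i) = i
    split_ifs
    · rfl
    · exact h
  · intro h
    have h1 : a ∈ (Finset.range n).filter (fun i => f.w i ≠ i) := by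
      simp only [Finset.mem_filter, Finset.mem_range]
      have : f.w a ≠ a := by omega
      exact ⟨f.lt_of_w_ne this, this⟩
    rw [← h] at h1
    simp only [Finset.mem_filter] at h1
    apply h1.2
    change (if a = a ∨ a = f.w a then a else f.w a) = a
    simp

/-- The first arc and the points inside are turned into defects. -/
def openAll (f : MD n) (a : ℕ) (ha : ∀ i, i < a → f.w i = i) (hab : a < f.w a)
    (hin : ∀ i, a < i → i < f.w a → f.w i = i) : MD n where
  w := fun i => if a ≤ i ∧ i ≤ f.w a then i else f.w i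
  X := fun i => f.X i || (decide (a ≤ i) && decide (i ≤ f.w a))
  inv := by
    intro i
    have h1 := f.inv i
    have h2 := f.inv a
    have h3 := hin (f.w i)
    grind
  fix := by
    intro i hi
    have := f.fix i
    simp at hi
    grind
  big := fun i hi => by simp [f.big i hi]
  pl := by
    intro i j h1 h2
    have e1 : ¬ (a ≤ i ∧ i ≤ f.w a) := by
      intro h; rw [if_pos h] at h2; omega
    rw [if_neg e1] at h2 ⊢
    have a1 := f.pl i j h1 h2
    have a2 := ha i
    have e0 : f.w a < i := by
      by_contra hc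
      have := a2 (by omega)
      omega
    rw [if_neg (by omega)]
    refine ⟨?_, a1.2⟩
    simp [a1.1]; omega

theorem openAll_arcs (f : MD n) (a : ℕ) (ha : ∀ i, i < a → f.w i = i) (hab : a < f.w a)
    (hin : ∀ i, a < i → i < f.w a → f.w i = i) :
    (openAll f a ha hab hin).arcs < f.arcs := by
  apply Finset.card_lt_card
  refine Finset.ssubset_iff_subset_ne.2 ⟨?_, ?_⟩
  · intro i hi
    simp only [Finset.mem_filter] at hi ⊢
    refine ⟨hi.1, ?_⟩
    intro h
    apply hi.2
    change (if a ≤ i ∧ i ≤ f.w a then i else f.w i) = i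
    split_ifs
    · rfl
    · exact h
  · intro h
    have h1 : a ∈ (Finset.range n).filter (fun i => f.w i ≠ i) := by
      simp only [Finset.mem_filter, Finset.mem_range]
      have : f.w a ≠ a := by omega
      exact ⟨f.lt_of_w_ne this, this⟩
    rw [← h] at h1
    simp only [Finset.mem_filter] at h1
    apply h1.2
    change (if a ≤ a ∧ a ≤ f.w a then a else f.w a) = a
    rw [if_pos (by omega)]

theorem hc_openAll (f : MD n) (a : ℕ) (ha : ∀ i, i < a → f.w i = i) (hab : a < f.w a)
    (hin : ∀ i, a < i → i < f.w a → f.w i = i) (hb : f.w a < n) :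
    hc a (f.w a) hab hb (openAll f a ha hab hin) = f := by
  have h2 := f.inv a
  have hw : (cut (outY a (f.w a)) (outY_big hb) (openAll f a ha hab hin)).w =
      fun i => if a ≤ i ∧ i ≤ f.w a then i else f.w i := by
    funext i
    change (if outY a (f.w a) i = true ∧
      outY a (f.w a) (if a ≤ i ∧ i ≤ f.w a then i else f.w i) = true then
      (if a ≤ i ∧ i ≤ f.w a then i else f.w i) else i) = _
    have h1 := f.inv i
    have h3 := hin (f.w i)
    simp only [outY_iff]
    grind
  have hX : ∀ i, (cut (outY a (f.w a)) (outY_big hb) (openAll f a ha hab hin)).X i =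
      ((f.X i || (decide (a ≤ i) && decide (i ≤ f.w a))) && outY a (f.w a) i) := fun i => rfl
  have hfa : f.X a = false := by
    cases hh : f.X a
    · rfl
    · have := f.fix a hh; omega
  have hfb : f.X (f.w a) = false := f.X_w hfa
  apply MD.ext
  · funext i
    have h1 := f.inv i
    have h3 := hin i
    change hkW a (f.w a) (cut (outY a (f.w a)) (outY_big hb) (openAll f a ha hab hin)).w i = f.w i
    rw [hw]
    simp only [hkW]
    grind
  · funext i
    change hkX a (f.w a) (cut (outY a (f.w a)) (outY_big hb) (openAll f a ha hab hin)).w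
      (cut (outY a (f.w a)) (outY_big hb) (openAll f a ha hab hin)).X i = f.X i
    rw [hw]
    have e1 : (if a ≤ a ∧ a ≤ f.w a then a else f.w a) = a := by rw [if_pos (by omega)]
    have e2 : (if a ≤ f.w a ∧ f.w a ≤ f.w a then f.w a else f.w (f.w a)) = f.w a := by
      rw [if_pos (by omega)]
    simp only [hkX, e1, e2]
    by_cases c1 : i = a
    · subst c1; simp [hfa]
    by_cases c2 : i = f.w a
    · subst c2; simp [hfb]
    simp only [c1, c2, or_self, if_false, false_and]
    rw [hX]
    by_cases c3 : a < i ∧ i < f.w a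
    · have := (f.pl a i c3.1 c3.2).1
      rw [this]
      have : ¬ outY a (f.w a) i = true := by rw [outY_iff]; simp [c3.1, c3.2]
      simp [this]
    · have : outY a (f.w a) i = true := by rw [outY_iff]; exact c3
      rw [this]
      have : ¬ (a ≤ i ∧ i ≤ f.w a) := by omega
      simp only [Bool.and_true]
      rw [show (decide (a ≤ i) && decide (i ≤ f.w a)) = false by simp; omega, Bool.or_false]

theorem openArc_C (f : MD n) (a c : ℕ) (ha : ∀ i, i < a → f.w i = i) (hab : a < f.w a)
    (hac : a < c) (hcd : c < f.w c) (hdb : f.w c < f.w a) (hb : f.w a < n) :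
    rcomp (rcomp (openArc f a ha hab).C (hc a c hac (by omega) (H (f.w c) (f.w a) hdb hb)).C)
      (openArc f a ha hab).C = f.C := by
  have hC : ∀ s t, (openArc f a ha hab).C s t ↔ (∀ i, i ≠ a → i ≠ f.w a → (s i ↔ s (f.w i))) ∧
      (∀ i, i ≠ a → i ≠ f.w a → (t i ↔ t (f.w i))) ∧
      ∀ i, f.X i = true ∨ i = a ∨ i = f.w a → (s i ↔ t i) := by
    intro s t
    unfold C openArc
    simp only [Bool.or_eq_true, decide_eq_true_eq, or_assoc]
    constructor
    · rintro ⟨h1, h2, h3⟩
      refine ⟨fun i x y => ?_, fun i x y => ?_, h3⟩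
      · have := h1 i; rwa [if_neg (not_or.2 ⟨x, y⟩)] at this
      · have := h2 i; rwa [if_neg (not_or.2 ⟨x, y⟩)] at this
    · rintro ⟨h1, h2, h3⟩
      refine ⟨fun i => ?_, fun i => ?_, h3⟩
      · split_ifs with h
        · exact Iff.rfl
        · exact h1 i (not_or.1 h).1 (not_or.1 h).2
      · split_ifs with h
        · exact Iff.rfl
        · exact h2 i (not_or.1 h).1 (not_or.1 h).2
  have i2 := f.inv a
  have ic := f.inv c
  funext s t
  apply propext
  unfold rcomp
  simp only [hC, two_hooks hac hcd hdb hb]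
  constructor
  · rintro ⟨v, ⟨u, ⟨h1, h2, h3⟩, ⟨k1, k2, k3, k4, k5⟩⟩, ⟨l1, l2, l3⟩⟩
    have m1 := h2 c (by omega) (by omega)
    have m2 := l1 c (by omega) (by omega)
    have m3 := h3 a (Or.inr (Or.inl rfl))
    have m4 := h3 (f.w a) (Or.inr (Or.inr rfl))
    have m5 := l3 a (Or.inr (Or.inl rfl))
    have m6 := l3 (f.w a) (Or.inr (Or.inr rfl))
    refine ⟨?_, ?_, ?_⟩
    · intro i
      by_cases e1 : i = a
      · subst e1; rw [m3, m4, k1, m1, k2]
      by_cases e2 : i = f.w a
      · subst e2; rw [i2, m3, m4, k1, m1, k2]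
      exact h1 i e1 e2
    · intro i
      by_cases e1 : i = a
      · subst e1; rw [← m5, ← m6, k3, m2, k4]
      by_cases e2 : i = f.w a
      · subst e2; rw [i2, ← m5, ← m6, k3, m2, k4]
      exact l2 i e1 e2
    · intro i hi
      rw [h3 i (Or.inl hi), ← l3 i (Or.inl hi)]
      apply k5
      have p1 := f.pl a i
      have := f.fix i hi
      by_contra hcon
      have e1 : i ≠ a := by intro h; subst h; omega
      have e2 : i ≠ f.w a := by intro h; subst h; omega
      have := p1 (by omega) (by omega)
      rw [hi] at this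
      exact absurd this.1 (by simp)
  · rintro ⟨h1, h2, h3⟩
    let E : (ℕ → Prop) → ℕ → Prop := fun s i =>
      if f.X i = true ∨ i = a ∨ i = f.w a then s i else if i = c ∨ i = f.w c then s a else False
    have Xa : f.X a = false := by
      cases hh : f.X a
      · rfl
      · have := f.fix a hh; omega
    have Xc : f.X c = false := by
      cases hh : f.X c
      · rfl
      · have := f.fix c hh; omega
    have Xb := f.X_w Xa
    have Xd := f.X_w Xc
    have hE : ∀ s : ℕ → Prop, (∀ i, s i ↔ s (f.w i)) →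
        (∀ i, i ≠ a → i ≠ f.w a → (E s i ↔ E s (f.w i))) ∧ (E s a ↔ E s c) ∧
        (E s (f.w c) ↔ E s (f.w a)) ∧ (∀ i, f.X i = true ∨ i = a ∨ i = f.w a → (s i ↔ E s i)) := by
      intro s hs
      refine ⟨?_, ?_, ?_, ?_⟩
      · intro i e1 e2
        have := hs i
        have j1 := f.inv i
        have j2 := f.fix i
        have j3 := f.fix (f.w i)
        simp only [E]
        grind
      · simp only [E]
        have e1 : c ≠ a := by omega
        have e2 : c ≠ f.w a := by omega
        simp [Xc, e1, e2]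
      · simp only [E]
        have e1 : f.w c ≠ a := by omega
        have e2 : f.w c ≠ f.w a := by omega
        simp only [Xd, e1, e2, or_true, if_true, or_self, if_false]
        simpa using hs a
      · intro i hi
        simp [E, hi]
    obtain ⟨p1, p2, p3, p4⟩ := hE s h1
    obtain ⟨q1, q2, q3, q4⟩ := hE t h2
    refine ⟨E t, ⟨E s, ⟨fun i _ _ => h1 i, p1, p4⟩, ⟨p2, p3, q2, q3, ?_⟩⟩,
      ⟨q1, fun i _ _ => h2 i, fun i hi => (q4 i hi).symm⟩⟩
    intro i hi
    have hia : i ≠ a := by omega
    have hib : i ≠ f.w a := by omega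
    have hic : i ≠ c := by omega
    have hid : i ≠ f.w c := by omega
    simp only [E, hia, hib, hic, hid, or_self, or_false, if_false]
    by_cases hx : f.X i = true
    · simp only [hx, if_true]; exact h3 i hx
    · simp [hx]

end MD

/-- The generating set. -/
def mgens {n : ℕ} {S : Type*} [Semigroup S] (x : MD n → S) : Set S :=
  {y | (∃ Y hY, y = x (one Y hY)) ∨ ∃ a b hab hb, y = x (H a b hab hb)}

theorem mgens_gen {n : ℕ} {S : Type*} [Semigroup S] {x : MD n → S} (hx : PGM x) (P : S → Prop)
    (h1 : ∀ a ∈ mgens x, P a) (h2 : ∀ a b, P a → P b → P (a * b)) : ∀ f, P (x f) := by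
  intro f
  induction hN : f.arcs using Nat.strong_induction_on generalizing f with
  | _ N ih =>
    by_cases hex : ∃ i, f.w i ≠ i
    · classical
      obtain ⟨a, ha1, ha2⟩ : ∃ a, f.w a ≠ a ∧ ∀ i, i < a → f.w i = i := by
        refine ⟨Nat.find hex, Nat.find_spec hex, ?_⟩
        intro i hi
        by_contra hc
        exact Nat.find_min hex hi hc
      have hab : a < f.w a := by
        rcases Nat.lt_trichotomy a (f.w a) with h | h | h
        · exact h
        · exact absurd h.symm ha1
        · have := ha2 _ h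
          rw [f.inv] at this
          omega
      have hb : f.w a < n := f.lt_of_w_ne (by rw [f.inv]; exact ha1.symm)
      by_cases hin : ∀ i, a < i → i < f.w a → f.w i = i
      · have e := hx.conj (H a (f.w a) hab hb) (openAll f a ha2 hab hin)
          (hc a (f.w a) hab hb (openAll f a ha2 hab hin)) (hc_C hab hb _)
        rw [hc_openAll] at e
        rw [← e]
        have g1 : P (x (H a (f.w a) hab hb)) := h1 _ (Or.inr ⟨_, _, _, _, rfl⟩)
        exact h2 _ _ (h2 _ _ g1 (ih _ (by rw [← hN]; exact openAll_arcs f a ha2 hab hin) _ rfl)) g1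
      · push Not at hin
        obtain ⟨c, hc, hd⟩ : ∃ c, (a < c ∧ c < f.w c) ∧ f.w c < f.w a := by
          obtain ⟨c, c1, c2, c3⟩ := hin
          have := f.pl a c c1 c2
          rcases Nat.lt_trichotomy c (f.w c) with h | h | h
          · exact ⟨c, ⟨c1, h⟩, this.2.2⟩
          · exact absurd h.symm c3
          · exact ⟨f.w c, ⟨this.2.1, by rw [f.inv]; exact h⟩, by rw [f.inv]; exact c2⟩
        have e1 := hx.conj _ _ _ (openArc_C f a c ha2 hab hc.1 hc.2 hd hb)
        have e2 := hx.conj _ _ _ (hc_C (n := n) hc.1 (by omega) (H (f.w c) (f.w a) hd hb))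
        rw [← e1, ← e2]
        have g1 : P (x (openArc f a ha2 hab)) :=
          ih _ (by rw [← hN]; exact openArc_arcs f a ha2 hab) _ rfl
        have g2 : P (x (H a c hc.1 (by omega))) := h1 _ (Or.inr ⟨_, _, _, _, rfl⟩)
        have g3 : P (x (H (f.w c) (f.w a) hd hb)) := h1 _ (Or.inr ⟨_, _, _, _, rfl⟩)
        exact h2 _ _ (h2 _ _ g1 (h2 _ _ (h2 _ _ g2 g3) g2)) g1
    · push Not at hex
      apply h1
      left
      refine ⟨f.X, f.big, ?_⟩
      congr 1
      apply MD.ext
      · funext i; exact hex i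
      · rfl

end Pool.Agent.W_MP_aeed81_al
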