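import Pool.Agent.W_MP_aeed81_al.MD

set_option linter.unusedVariables false
set_option linter.unusedSectionVars false

namespace Pool.Agent.W_MP_aeed81_al

namespace MD

variable {n : ℕ}

/-- the hook: `{a, b}` is an arc, all other points are defects (not planar in general) -/
def hookR (a b : ℕ) : RR := fun s t => (s a ↔ s b) ∧ (t a ↔ t b) ∧ ∀ i, i ≠ a → i ≠ b → (s i ↔ t i)

/-- partners after conjugation with the hook -/
def hkW (a b : ℕ) (w : ℕ → ℕ) : ℕ → ℕ := fun i =>
  if i = a then b else if i = b then a else if i = w a ∧ w b ≠ b then w b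
  else if i = w b ∧ w a ≠ a then w a else if i = w a ∨ i = w b then i else w i

/-- defects after conjugation with the hook -/
def hkX (a b : ℕ) (w : ℕ → ℕ) (X : ℕ → Bool) : ℕ → Bool := fun i =>
  if i = a ∨ i = b then false else if i = w b ∧ w a = a then X a
  else if i = w a ∧ w b = b then X b else X i

theorem hkW_inv {a b : ℕ} {w : ℕ → ℕ} (hab : a ≠ b) (inv : ∀ i, w (w i) = i) (i : ℕ) :
    hkW a b w (hkW a b w i) = i := by
  have ia := inv a
  have ib := inv b
  have ii := inv i
  have inj : ∀ x y, w x = w y → x = y := fun x y h => by rw [← inv x, h, inv]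
  have j1 := inj a b
  have j2 := inj i a
  have j3 := inj i b
  simp only [hkW]
  grind (splits := 40)

theorem hkX_fix {a b : ℕ} {w : ℕ → ℕ} {X : ℕ → Bool} (hab : a ≠ b) (inv : ∀ i, w (w i) = i)
    (fix : ∀ i, X i = true → w i = i) (i : ℕ) (h : hkX a b w X i = true) : hkW a b w i = i := by
  have ia := inv a
  have ib := inv b
  have ii := inv i
  have fa := fix a
  have fb := fix b
  have fi := fix i
  simp only [hkW, hkX] at h ⊢
  grind (splits := 40)

theorem hook_C_raw {a b : ℕ} {w : ℕ → ℕ} {X : ℕ → Bool} (hab : a ≠ b) (inv : ∀ i, w (w i) = i)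
    (fix : ∀ i, X i = true → w i = i) (s t : ℕ → Prop) :
    (∃ v, (∃ u, hookR a b s u ∧ ((∀ i, u i ↔ u (w i)) ∧ (∀ i, v i ↔ v (w i)) ∧
      ∀ i, X i = true → (u i ↔ v i))) ∧ hookR a b v t) ↔
    ((∀ i, s i ↔ s (hkW a b w i)) ∧ (∀ i, t i ↔ t (hkW a b w i)) ∧
      ∀ i, hkX a b w X i = true → (s i ↔ t i)) := by
  constructor
  · rintro ⟨v, ⟨u, h1, h2, h3, h4⟩, h5⟩
    obtain ⟨a1, a2, a3⟩ := h1
    obtain ⟨b1, b2, b3⟩ := h5
    have ha := h2 a
    have hb := h2 b
    have ka := h3 a
    have kb := h3 b
    refine ⟨?_, ?_, ?_⟩
    · intro i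
      have hi := h2 i
      have q1 := a3 i
      have q2 := a3 (w i)
      have q3 := a3 (w a)
      have q4 := a3 (w b)
      have i1 := inv i
      have i2 := inv a
      have i3 := inv b
      simp only [hkW]
      grind (splits := 40)
    · intro i
      have hi := h3 i
      have q1 := b3 i
      have q2 := b3 (w i)
      have q3 := b3 (w a)
      have q4 := b3 (w b)
      have i1 := inv i
      have i2 := inv a
      have i3 := inv b
      simp only [hkW]
      grind (splits := 40)
    · intro i hi
      have hi1 := h4 i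
      have hi2 := h4 a
      have hi3 := h4 b
      have q1 := a3 i
      have q2 := b3 i
      have q3 := a3 (w a)
      have q4 := a3 (w b)
      have q5 := b3 (w a)
      have q6 := b3 (w b)
      have i1 := inv i
      have i2 := inv a
      have i3 := inv b
      have f1 := fix a
      have f2 := fix b
      simp only [hkX] at hi
      grind (splits := 40)
  · rintro ⟨h1, h2, h3⟩
    -- the value on `a` and `b` in the middle rows
    let α : (ℕ → Prop) → Prop := fun s =>
      if w a = b then False else if w a ≠ a then s (w a) else if w b ≠ b then s (w b) else False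
    let E : (ℕ → Prop) → ℕ → Prop := fun s i => if i = a ∨ i = b then α s else s i
    have hE1 : ∀ s : ℕ → Prop, (∀ i, s i ↔ s (hkW a b w i)) → ∀ i, E s i ↔ E s (w i) := by
      intro s hs i
      have q1 := hs i
      have q2 := hs (w a)
      have q3 := hs (w b)
      have q4 := hs a
      have i1 := inv i
      have i2 := inv a
      have i3 := inv b
      simp only [hkW] at q1 q2 q3 q4
      simp only [E, α]
      grind (splits := 60)
    have hE2 : ∀ s : ℕ → Prop, (∀ i, s i ↔ s (hkW a b w i)) → hookR a b s (E s) := by
      intro s hs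
      have q4 := hs a
      simp only [hkW, if_true] at q4
      refine ⟨q4, by simp [E], ?_⟩
      intro i hi1 hi2
      simp [E, hi1, hi2]
    refine ⟨E t, ⟨E s, hE2 s h1, hE1 s h1, hE1 t h2, ?_⟩, ?_⟩
    · intro i hi
      have q1 := h3 i
      have q2 := h3 (w a)
      have q3 := h3 (w b)
      have i1 := inv i
      have i2 := inv a
      have i3 := inv b
      have f1 := fix a
      have f2 := fix b
      have f3 := fix i
      simp only [hkX] at q1 q2 q3
      simp only [E, α]
      grind (splits := 60)
    · obtain ⟨c1, c2, c3⟩ := hE2 t h2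
      exact ⟨c2, c1, fun i x y => (c3 i x y).symm⟩

theorem hook_pl {a b : ℕ} {w : ℕ → ℕ} {X : ℕ → Bool} (hab : a < b) (inv : ∀ i, w (w i) = i)
    (pl : ∀ i j, i < j → j < w i → X j = false ∧ i < w j ∧ w j < w i)
    (inner : ∀ i, a < i → i < b → w i = i ∧ X i = false) (i j : ℕ) (hij : i < j)
    (hj : j < hkW a b w i) :
    hkX a b w X j = false ∧ i < hkW a b w j ∧ hkW a b w j < hkW a b w i := by
  have ia := inv a
  have ib := inv b
  have ii := inv i
  have ij := inv j
  have inja : ∀ x y, w x = w y → x = y := fun x y h => by rw [← inv x, h, inv]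
  have nj := inner j
  by_cases h1 : i = a
  · subst h1
    have e : hkW i b w i = b := by simp [hkW]
    rw [e] at hj ⊢
    obtain ⟨n1, n2⟩ := nj hij hj
    simp only [hkW, hkX]
    grind
  by_cases h2 : i = b
  · subst h2
    have e : hkW a i w i = a := by simp only [hkW, if_neg h1, if_true]
    rw [e] at hj
    omega
  by_cases h3 : i = w a ∧ w b ≠ b
  · have e : hkW a b w i = w b := by simp only [hkW]; rw [if_neg h1, if_neg h2, if_pos h3]
    rw [e] at hj ⊢
    obtain ⟨h3, h4⟩ := h3
    have m1 := inner (w a)
    have m2 := inner (w b)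
    have p1 := pl (w b) b
    have p2 := pl (w b) a
    have p3 := pl a b
    have p4 := pl b (w a)
    have p5 := pl (w a) (w b)
    have p6 := pl a (w b)
    have hc : w a < a ∧ b < w b := by
      grind
    have q1 := pl (w a) j
    have q2 := pl b j
    simp only [hkW, hkX]
    grind (splits := 30)
  by_cases h4 : i = w b ∧ w a ≠ a
  · have e : hkW a b w i = w a := by
      simp only [hkW]; rw [if_neg h1, if_neg h2, if_neg h3, if_pos h4]
    rw [e] at hj ⊢
    obtain ⟨h5, h4⟩ := h4
    have m1 := inner (w a)
    have m2 := inner (w b)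
    have m3 := inner (w j)
    have p1 := pl (w b) a
    have hc : (w b < w a ∧ w a < a) ∨ (b < w b ∧ w b < w a) := by
      grind
    have q1 := pl (w b) j
    have q2 := pl (w a) (w j)
    have q3 := pl a j
    have q4 := pl b (w j)
    simp only [hkW, hkX]
    grind (splits := 30)
  by_cases h5 : i = w a ∨ i = w b
  · have e : hkW a b w i = i := by
      simp only [hkW]; rw [if_neg h1, if_neg h2, if_neg h3, if_neg h4, if_pos h5]
    rw [e] at hj
    omega
  · have e : hkW a b w i = w i := by
      simp only [hkW]; rw [if_neg h1, if_neg h2, if_neg h3, if_neg h4, if_neg h5]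
    rw [e] at hj ⊢
    have m1 := inner (w i)
    have m2 := inner i
    have q1 := pl i j hij hj
    have q2 := pl i a
    have q3 := pl i b
    simp only [hkW, hkX]
    grind (splits := 40)

/-- conjugation with a planar hook whose inner points are already isolated -/
def hookD (a b : ℕ) (hab : a < b) (hb : b < n) (f : MD n)
    (inner : ∀ i, a < i → i < b → f.w i = i ∧ f.X i = false) : MD n where
  w := hkW a b f.w
  X := hkX a b f.w f.X
  inv := hkW_inv (by omega) f.inv
  fix := hkX_fix (by omega) f.inv f.fix
  big := by
    intro i hi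
    have h1 := f.big i hi
    have h2 := f.fix i h1
    have h3 := f.inv a
    have h4 := f.inv b
    simp only [hkX]
    grind
  pl := hook_pl hab f.inv f.pl inner

/-- the complement of the open interval -/
def outY (a b : ℕ) : ℕ → Bool := fun i => !(decide (a < i) && decide (i < b))

theorem outY_iff (a b i : ℕ) : outY a b i = true ↔ ¬ (a < i ∧ i < b) := by
  simp only [outY, Bool.not_eq_true', Bool.and_eq_false_iff, decide_eq_false_iff_not]
  tauto

theorem outY_big {a b : ℕ} (hb : b < n) : ∀ i, n ≤ i → outY a b i = true := by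
  intro i hi
  rw [outY_iff]; omega

/-- the planar hook: the arc `{a, b}`, isolated points inside and defects outside -/
def H (a b : ℕ) (hab : a < b) (hb : b < n) : MD n where
  w := fun i => if i = a then b else if i = b then a else i
  X := fun i => !(decide (a ≤ i) && decide (i ≤ b))
  inv := by intro i; grind
  fix := by intro i hi; simp at hi; grind
  big := by intro i hi; simp; omega
  pl := by
    intro i j h1 h2
    have : i = a := by grind
    subst this
    rw [if_pos rfl] at h2 ⊢
    have : (if j = i then b else if j = b then i else j) = j := by grind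
    rw [this]
    refine ⟨?_, h1, h2⟩
    simp; omega

theorem H_C {a b : ℕ} (hab : a < b) (hb : b < n) (s t : ℕ → Prop) :
    (H a b hab hb).C s t ↔ (s a ↔ s b) ∧ (t a ↔ t b) ∧ ∀ i, i < a ∨ b < i → (s i ↔ t i) := by
  unfold C H
  simp only
  constructor
  · rintro ⟨h1, h2, h3⟩
    refine ⟨by simpa using h1 a, by simpa using h2 a, fun i hi => h3 i (by simp; omega)⟩
  · rintro ⟨h1, h2, h3⟩
    refine ⟨fun i => by grind, fun i => by grind, fun i hi => h3 i (by simp at hi; omega)⟩

/-- conjugation with a planar hook -/
def hc (a b : ℕ) (hab : a < b) (hb : b < n) (f : MD n) : MD n :=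
  hookD a b hab hb (cut (outY a b) (outY_big hb) f) (by
    intro i h1 h2
    have h : ¬ outY a b i = true := by rw [outY_iff]; simp [h1, h2]
    constructor
    · change (if outY a b i = true ∧ outY a b (f.w i) = true then f.w i else i) = i
      rw [if_neg (fun h' => h h'.1)]
    · change (f.X i && outY a b i) = false
      simp [h])

theorem hc_C {a b : ℕ} (hab : a < b) (hb : b < n) (f : MD n) :
    rcomp (rcomp (H a b hab hb).C f.C) (H a b hab hb).C = (hc a b hab hb f).C := by
  have e1 : (H a b hab hb).C = rcomp (hookR a b) (one (outY a b) (outY_big hb)).C := by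
    funext s t
    apply propext
    rw [H_C]
    constructor
    · rintro ⟨h1, h2, h3⟩
      refine ⟨fun i => if i = a ∨ i = b then t a else s i, ⟨h1, by simp, ?_⟩, ?_⟩
      · intro i h4 h5
        simp [h4, h5]
      · rw [one_C]
        intro i hi
        rw [outY_iff] at hi
        have := h3 i
        by_cases h4 : i = a
        · simp [h4]
        · by_cases h5 : i = b
          · simp [h5, h2]
          · simp only [h4, h5, or_self, if_false]
            exact this (by omega)
    · rintro ⟨u, ⟨h1, h2, h3⟩, h4⟩
      rw [one_C] at h4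
      refine ⟨h1, ?_, ?_⟩
      · rw [← h4 a (by rw [outY_iff]; omega), ← h4 b (by rw [outY_iff]; omega)]
        exact h2
      · intro i hi
        rw [h3 i (by omega) (by omega)]
        exact h4 i (by rw [outY_iff]; omega)
  have e2 : (H a b hab hb).C = rcomp (one (outY a b) (outY_big hb)).C (hookR a b) := by
    have : ∀ s t, (H a b hab hb).C s t ↔ (H a b hab hb).C t s :=
      fun s t => ⟨fun h => C_symm _ h, fun h => C_symm _ h⟩
    funext s t
    apply propext
    rw [this, e1]
    constructor
    · rintro ⟨u, ⟨h1, h2, h3⟩, h4⟩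
      exact ⟨u, C_symm _ h4, h2, h1, fun i x y => (h3 i x y).symm⟩
    · rintro ⟨u, h4, h2, h1, h3⟩
      exact ⟨u, ⟨h1, h2, fun i x y => (h3 i x y).symm⟩, C_symm _ h4⟩
  have e3 : rcomp (rcomp (H a b hab hb).C f.C) (H a b hab hb).C =
      rcomp (rcomp (hookR a b) (rcomp (rcomp (one (outY a b) (outY_big hb)).C f.C)
        (one (outY a b) (outY_big hb)).C)) (hookR a b) := by
    conv_lhs => rw [e1]
    rw [← e1]
    conv_lhs => rw [e2]
    conv_lhs => enter [1, 1]; rw [← e2, e1]
    simp only [rcomp_assoc]
  rw [e3, cut_C]
  funext s t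
  apply propext
  exact hook_C_raw (by omega) (cut (outY a b) (outY_big hb) f).inv
    (cut (outY a b) (outY_big hb) f).fix s t

end MD

end Pool.Agent.W_MP_aeed81_al
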