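import Pool.Agent.W_MP_aeed81_al.MStep3

set_option linter.unusedVariables false
set_option linter.unusedSectionVars false

namespace Pool.Agent.W_MP_aeed81_al

open MD

variable {n r : ℕ}

theorem gen_of_x {S : Type*} [Semigroup S] {x : MD n → S} (hx : PGM x)
    (hgen : ∀ P : S → Prop, (∀ p, P (x p)) → (∀ a b, P a → P b → P (a * b)) → ∀ a, P a) :
    ∀ P : S → Prop, (∀ a ∈ mgens x, P a) → (∀ a b, P a → P b → P (a * b)) → ∀ a, P a :=
  fun P h1 h2 => hgen P (mgens_gen hx P h1 h2) h2

theorem two_le_of_vd {m : ℕ → ℕ} (hv : Vd n r m) (hg : ∃ i, i ≤ r ∧ 2 ≤ m i) : 2 ≤ n - r := by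
  obtain ⟨i, h1, h2⟩ := hg
  have h3 := hv.2
  unfold pos at h3
  have h4 : m i ≤ ∑ i ∈ Finset.range (r + 1), m i :=
    Finset.single_le_sum (f := m) (fun _ _ => Nat.zero_le _) (Finset.mem_range.2 (by omega))
  omega

/-- The free case, at the base point. -/
theorem free_base {S : Type*} [Semigroup S] {x : MD n → S} (K : Sec x r) (h2r : 2 ≤ n - r)
    (hgen : ∀ P : S → Prop, (∀ p, P (x p)) → (∀ a b, P a → P b → P (a * b)) → ∀ a, P a)
    (Φ : S → ROp (MD n × FreeGroup (TQ n r))) (Φm : ∀ a b, Φ (a * b) = Φ a * Φ b)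
    (Φx : ∀ p, Φ (x p) = opr (lam n r) p) :
    HClassIso (Es x (XG (mbase n r))) (FreeGroup (TQ n r)) := by
  have v0 := mbase_valid K.hr
  obtain ⟨d0, hd0⟩ : ∃ d0 : MD n, d0 = one (XG (mbase n r)) v0.big := ⟨_, rfl⟩
  have e0 : Es x (XG (mbase n r)) = x d0 := by rw [hd0]; exact Es_eq _ v0.big
  have hg0 : ∃ i, i ≤ r ∧ 2 ≤ mbase n r i := ⟨0, Nat.zero_le _, by simpa [mbase] using h2r⟩
  have hX0 : d0.X = XG (mbase n r) := by rw [hd0]; rfl
  have gvd0 : gv d0.X = mbase n r := by rw [hX0]; exact gv_XG _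
  have hT0 : K.T (mbase n r) = x d0 := by rw [K.base h2r, e0]
  have comm := comm_mgens Φ Φm Φx
  have hgen' := gen_of_x K.hx hgen
  have comm' : ∀ a, ∀ (g : FreeGroup (TQ n r)) (d : MD n) (h : FreeGroup (TQ n r)),
      (Φ a).1 (some (d, g * h)) = ((Φ a).1 (some (d, h))).map (fun p => (p.1, g * p.2)) := by
    apply hgen'
    · exact comm
    · intro a b iha ihb g d h
      rw [Φm, ROp.mul_val, ROp.mul_val, iha]
      rcases hx : (Φ a).1 (some (d, h)) with _ | ⟨d', h'⟩
      · change (Φ b).1 none = ((Φ b).1 none).map _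
        rw [(Φ b).2]; rfl
      · exact ihb g d' h'
  have hsh : ∀ a (g : FreeGroup (TQ n r)) (d d' : MD n) (h : FreeGroup (TQ n r)),
      (Φ a).1 (some (d, 1)) = some (d', h) → (Φ a).1 (some (d, g)) = some (d', g * h) := by
    intro a g d d' h hh
    have := comm' a g d 1
    rw [mul_one, hh] at this
    exact this
  have hE : (Φ (x d0)).1 (some (d0, 1)) = some (d0, 1) := op_sameX Φ Φm Φx 1 rfl
  have hψof : ∀ q : TQ n r, (Φ (K.ψ (FreeGroup.of q))).1 (some (d0, 1)) =
      some (d0, FreeGroup.of q) := by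
    intro q
    rw [K.ψof]
    have vd' := (Vd.gmv (n := n) q.hj q.hst).2 q.vd
    have t1 := K.op_T Φ Φm Φx h2r q.m (gap_src q.hj q.hs q.ht q.hst) q.vd
    have t2 := K.op_T Φ Φm Φx h2r _ (gap_tgt q.hj q.hs q.ht q.hst) vd'
    have l2 := K.lk _ (gap_tgt q.hj q.hs q.ht q.hst) vd'
    rw [← hd0] at t1 t2
    have t3 := op_Mop Φ Φm Φx (q.vd.mv q.hj q.hs q.ht q.hst) 1
    have ev' : (q.vd.mv q.hj q.hs q.ht q.hst).v' =
        one (XG (gmv q.m q.j (q.s + q.t))) vd'.big := by
      apply MD.ext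
      · rfl
      · change mvX (XG q.m) (pos q.m q.j) (pos q.m q.j + q.s + q.t) =
          XG (gmv q.m q.j (q.s + q.t))
        rw [q.XG']; rfl
    have el : lam n r (q.vd.mv q.hj q.hs q.ht q.hst).p (q.vd.mv q.hj q.hs q.ht q.hst).p' =
        FreeGroup.of q := by
      apply lam_of
      refine ⟨rfl, ?_, ?_, ?_⟩
      · rw [q.XG']; rfl
      · change sw (pos q.m q.j + q.s) (pos q.m q.j + q.s + q.t) (pos q.m q.j + q.s) = _
        simp only [sw, if_true]; rfl
      · change sw (pos q.m q.j) (pos q.m q.j + q.s) (pos q.m q.j) = _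
        simp only [sw, if_true]; rfl
    rw [ev', el, one_mul] at t3
    have t4 : (Φ (K.Ti (gmv q.m q.j (q.s + q.t)))).1
        (some (one (XG (gmv q.m q.j (q.s + q.t))) vd'.big, 1)) = some (d0, 1) := by
      have h1 : (Φ (K.T (gmv q.m q.j (q.s + q.t)) * K.Ti (gmv q.m q.j (q.s + q.t)))).1
          (some (d0, 1)) = some (d0, 1) := by
        rw [l2.ab, e0]; exact hE
      rw [Φm, ROp.mul_val, t2] at h1
      exact h1
    have t5 := hsh _ (FreeGroup.of q) _ _ _ t4
    rw [mul_one] at t5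
    exact op_mul Φ Φm Φx (op_mul Φ Φm Φx t1 t3) t5
  have hψinv : ∀ g, (Φ (K.ψ g)).1 (some (d0, 1)) = some (d0, g) →
      (Φ (K.ψ g⁻¹)).1 (some (d0, 1)) = some (d0, g⁻¹) := by
    intro g hg
    have h1 : (Φ (K.ψ g * K.ψ g⁻¹)).1 (some (d0, 1)) = some (d0, 1) := by
      rw [← K.ψm, mul_inv_cancel, K.ψ1, e0]; exact hE
    rw [Φm, ROp.mul_val, hg] at h1
    have h2 := comm' (K.ψ g⁻¹) g d0 1
    rw [mul_one, h1] at h2
    rcases h3 : (Φ (K.ψ g⁻¹)).1 (some (d0, 1)) with _ | ⟨d', h'⟩
    · rw [h3] at h2; simp at h2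
    · rw [h3] at h2
      have h4 : (d0, (1 : FreeGroup (TQ n r))) = (d', g * h') := Option.some.inj h2
      have h5 : d0 = d' := congrArg Prod.fst h4
      have h6 : 1 = g * h' := congrArg Prod.snd h4
      rw [← h5, eq_inv_of_mul_eq_one_right h6.symm]
  have ψact : ∀ g, (Φ (K.ψ g)).1 (some (d0, 1)) = some (d0, g) := by
    intro g
    induction g using FreeGroup.induction_on with
    | C1 => rw [K.ψ1, e0]; exact hE
    | of q => exact hψof q
    | inv_of q h => exact hψinv _ h
    | mul g h hg hh =>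
      rw [K.ψm]
      exact op_mul Φ Φm Φx hg (hsh _ g _ _ _ hh)
  rw [e0]
  apply hclass_of_cover' (MGood r) Φ Φm (mgens x) hgen' comm (x d0) (K.hx.idem _) d0
    ⟨_, hX0, v0, hg0⟩ hE ?_ (fun d => K.T (gv d.X) * x d) K.ψ (by rw [K.ψ1, e0]) K.ψm
    (by simp only [gvd0, hT0, K.hx.idem]) ψact ?_
  · rintro d g ⟨m, m1, m2, m3⟩ h
    rw [Φx, opr_val] at h
    by_cases h1 : cj d d0 = d
    · rw [if_pos h1] at h
      have h2 : cj d0 d = d := congrArg Prod.fst (Option.some.inj h)
      rw [hd0] at h1 h2 ⊢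
      exact fix_base v0 m2 m1 h1 h2
    · rw [if_neg h1] at h
      exact absurd h (by simp)
  · have key : ∀ (p d d' : MD n) (h : FreeGroup (TQ n r)), MGood r d →
        (Φ (x p)).1 (some (d, 1)) = some (d', h) →
        (cj d p = d → MGood r (cj p d) ∧ K.T (gv d.X) * x d * x p =
          K.ψ (lam n r d (cj p d)) * (K.T (gv (cj p d).X) * x (cj p d))) →
        MGood r d' ∧ K.T (gv d.X) * x d * x p = K.ψ h * (K.T (gv d'.X) * x d') := by
      intro p d d' h hd hh hst
      rw [Φx, opr_val] at hh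
      by_cases h1 : cj d p = d
      · rw [if_pos h1] at hh
        have h2 := Option.some.inj hh
        have h3 : cj p d = d' := congrArg Prod.fst h2
        have h4 : 1 * lam n r d (cj p d) = h := congrArg Prod.snd h2
        have := hst h1
        rw [h3] at this h4
        rw [one_mul] at h4
        rw [← h4]
        exact this
      · rw [if_neg h1] at hh
        exact absurd hh (by simp)
    rintro a (⟨Y, hY, rfl⟩ | ⟨a, b, hab, hb, rfl⟩) d d' h hd hh
    · exact key _ d d' h hd hh (fun h1 => K.step_one d Y hY hd h1)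
    · exact key _ d d' h hd hh (fun h1 => K.step_H d hab hb hd h1)

/-- The free case. -/
theorem free_case {S : Type*} [Semigroup S] {x : MD n → S} (hx : PGM x) {m : ℕ → ℕ}
    (hv : Vd n r m) (hg : ∃ i, i ≤ r ∧ 2 ≤ m i) (f : MD n) (hf : f.X = XG m)
    (hgen : ∀ P : S → Prop, (∀ p, P (x p)) → (∀ a b, P a → P b → P (a * b)) → ∀ a, P a)
    (Φ : S → ROp (MD n × FreeGroup (TQ n r))) (Φm : ∀ a b, Φ (a * b) = Φ a * Φ b)
    (Φx : ∀ p, Φ (x p) = opr (lam n r) p) :
    HClassIso (x f) (FreeGroup (TQ n r)) := by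
  have h2r := two_le_of_vd hv hg
  obtain ⟨K⟩ := exists_sec (r := r) hx (by omega)
  have h1 := free_base K h2r hgen Φ Φm Φx
  have l1 := K.lk m hg hv
  have l2 : Lk (Es x (XG m)) (x f) (Es x (XG m) * x f) (x f * Es x (XG m)) := by
    rw [Es_eq _ hv.big]
    have a1 : x (one (XG m) hv.big) * x f * x (one (XG m) hv.big) = x (one (XG m) hv.big) :=
      hx.fr hf.symm
    have a2 : x f * x (one (XG m) hv.big) * x f = x f := hx.fr hf
    have a3 := hx.idem f
    have a4 := hx.idem (one (XG m) hv.big)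
    refine ⟨?_, ?_, ?_, ?_, ?_, ?_⟩
    · calc _ = x (one (XG m) hv.big) * (x f * x f) * x (one (XG m) hv.big) := by
            simp only [mul_assoc]
        _ = _ := by rw [a3, a1]
    · calc _ = x f * (x (one (XG m) hv.big) * x (one (XG m) hv.big)) * x f := by
            simp only [mul_assoc]
        _ = _ := by rw [a4, a2]
    · rw [← mul_assoc, a4]
    · rw [mul_assoc, a3]
    · rw [← mul_assoc, a3]
    · rw [mul_assoc, a4]
  exact HClassIso.transfer (l1.trans l2) h1

/-- The isolated case. -/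
theorem iso_case {S : Type*} [Semigroup S] {x : MD n → S} (hx : PGM x) (f : MD n)
    (hf : ∀ i, f.X i = true ∨ f.X (i + 1) = true)
    (hgen : ∀ P : S → Prop, (∀ p, P (x p)) → (∀ a b, P a → P b → P (a * b)) → ∀ a, P a)
    (Φ : S → ROp (MD n × PUnit.{1})) (Φm : ∀ a b, Φ (a * b) = Φ a * Φ b)
    (Φx : ∀ p, Φ (x p) = opr (fun _ _ => (1 : PUnit.{1})) p) :
    HClassIso (x f) PUnit.{1} := by
  have hw : ∀ i, f.w i = i := by
    have key : ∀ i, i < f.w i → False := by
      intro i hi
      have h1 : f.X i = false := by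
        cases h : f.X i
        · rfl
        · have := f.fix i h; omega
      have h2 : f.X (i + 1) = false := by
        by_cases h3 : i + 1 = f.w i
        · rw [h3]; exact f.X_w h1
        · exact (f.pl i (i + 1) (by omega) (by omega)).1
      rcases hf i with h | h
      · rw [h1] at h; exact absurd h (by simp)
      · rw [h2] at h; exact absurd h (by simp)
    intro i
    rcases Nat.lt_trichotomy i (f.w i) with h | h | h
    · exact absurd (key i h) (by simp)
    · exact h.symm
    · exact absurd (key (f.w i) (by rw [f.inv]; exact h)) (by simp)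
  have hone : f = one f.X f.big := by
    apply MD.ext
    · funext i; exact hw i
    · rfl
  have hgen' := gen_of_x hx hgen
  have hE : (Φ (x f)).1 (some (f, 1)) = some (f, 1) := by
    rw [Φx, opr_pos (fun _ _ => (1 : PUnit.{1})) 1 (cj_self f), cj_self]
  apply hclass_of_cover' (fun d => d = f) Φ Φm (mgens x) hgen' ?_ (x f) (hx.idem _) f rfl hE ?_
    (fun _ => x f) (fun _ => x f) rfl (fun _ _ => (hx.idem f).symm) rfl (fun g => hE) ?_
  · have key : ∀ p (g : PUnit.{1}) (d : MD n) (h : PUnit.{1}),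
        (Φ (x p)).1 (some (d, g * h)) = ((Φ (x p)).1 (some (d, h))).map (fun p => (p.1, g * p.2)) := by
      intro p g d h
      rw [Φx, opr_val]
      split_ifs <;> rfl
    rintro a (⟨Y, hY, rfl⟩ | ⟨a, b, hab, hb, rfl⟩) g d h
    · exact key _ g d h
    · exact key _ g d h
  · intro d g hd _; exact hd
  · have key : ∀ (p d' : MD n) (h : PUnit.{1}), (Φ (x p)).1 (some (f, 1)) = some (d', h) →
        (cj f p = f → cj p f = f ∧ x f * x p = x f * x f) → d' = f ∧ x f * x p = x f * x f := by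
      intro p d' h hh hst
      rw [Φx, opr_val] at hh
      by_cases h1 : cj f p = f
      · rw [if_pos h1] at hh
        have h2 := Option.some.inj hh
        have h3 : cj p f = d' := congrArg Prod.fst h2
        rw [← h3]
        exact hst h1
      · rw [if_neg h1] at hh
        exact absurd hh (by simp)
    rintro a (⟨Y, hY, rfl⟩ | ⟨a, b, hab, hb, rfl⟩) d d' h rfl hh
    · apply key _ d' h hh
      intro h1
      have hs := act_sub h1
      have e1 : MD.cut Y hY d = d := by
        conv_lhs => rw [hone]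
        rw [cut_one _ _ _ _ hs]
        exact hone.symm
      refine ⟨by rw [cj_one]; exact e1, ?_⟩
      have := hx.cut d Y hY hs
      rw [← hone, e1, hx.idem] at this
      rw [this, hx.idem]
    · apply key _ d' h hh
      intro h1
      exfalso
      have hin := no_defect_inside hab hb h1
      by_cases ha : d.X a = true
      · exact (act_H_end hab hb h1 (y := a) (z := b) (Or.inl ⟨rfl, rfl⟩) ha).1 (hw _)
      by_cases hbd : d.X b = true
      · exact (act_H_end hab hb h1 (y := b) (z := a) (Or.inr ⟨rfl, rfl⟩) hbd).1 (hw _)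
      rcases hf a with h2 | h2
      · exact ha h2
      · by_cases h3 : a + 1 = b
        · rw [h3] at h2; exact hbd h2
        · rw [hin (a + 1) (by omega) (by omega)] at h2
          exact absurd h2 (by simp)

end Pool.Agent.W_MP_aeed81_al
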