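import Pool.Agent.W_MP_aeed81_al.MClos
import Pool.Agent.W_MP_aeed81_al.HClassThm

set_option linter.unusedVariables false
set_option linter.unusedSectionVars false

namespace Pool.Agent.W_MP_aeed81_al

open MD

variable {n : ℕ}

/-- friendly projections -/
def Fr (f g : MD n) : Prop := cj f g = f ∧ cj g f = g

theorem Fr.symm {f g : MD n} (h : Fr f g) : Fr g f := ⟨h.2, h.1⟩

theorem Fr.x {f g : MD n} (h : Fr f g) : xC f * xC g * xC f = xC f := by rw [xC_cj, h.1]

theorem le_x {p g : MD n} (h : cj p g = g) : xC p * xC g = xC g ∧ xC g * xC p = xC g :=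
  PGM_xC.le (by rw [cj_C, h])

theorem fr_act {p f : MD n} (h : cj f p = f) : Fr f (cj p f) := cj_friendly h

/-- the third corner of a triangle -/
theorem fr_tri {q g f : MD n} (hg : cj q g = g) (h : Fr g f) :
    Fr g (cj q f) ∧ Fr (cj q f) f := by
  obtain ⟨a1, a2⟩ := le_x hg
  have h1 := h.x
  have h2 := h.symm.x
  refine ⟨⟨xC_inj ?_, xC_inj ?_⟩, ⟨xC_inj ?_, xC_inj ?_⟩⟩
  · rw [← xC_cj, ← xC_cj]
    calc xC g * (xC q * xC f * xC q) * xC g = (xC g * xC q) * xC f * (xC q * xC g) := by
          simp only [mul_assoc]
      _ = _ := by rw [a1, a2, h1]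
  · rw [← xC_cj, ← xC_cj]
    calc xC q * xC f * xC q * xC g * (xC q * xC f * xC q)
        = xC q * xC f * (xC q * xC g * xC q) * xC f * xC q := by simp only [mul_assoc]
      _ = xC q * (xC f * xC g * xC f) * xC q := by rw [a1, a2]; simp only [mul_assoc]
      _ = _ := by rw [h2]
  · -- f' f f' = f'
    rw [← xC_cj, ← xC_cj]
    -- f q f = f : f q f = f g f q f g f
    have k : xC f * xC q * xC f = xC f := by
      calc xC f * xC q * xC f = xC f * xC q * (xC f * xC g * xC f) := by rw [h2]
        _ = xC f * xC q * xC f * (xC q * xC g) * xC f := by rw [a1]; simp only [mul_assoc]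
        _ = (xC f * xC q * (xC f * xC q)) * xC g * xC f := by simp only [mul_assoc]
        _ = xC f * (xC q * xC g) * xC f := by rw [PGM_xC.sq]; simp only [mul_assoc]
        _ = _ := by rw [a1, h2]
    calc xC q * xC f * xC q * xC f * (xC q * xC f * xC q)
        = xC q * (xC f * xC q * xC f) * xC q * xC f * xC q := by simp only [mul_assoc]
      _ = xC q * (xC f * xC q * xC f) * xC q := by
          conv_lhs => rw [k]
          simp only [mul_assoc]
      _ = _ := by rw [k]
  · rw [← xC_cj, ← xC_cj]
    have k : xC f * xC q * xC f = xC f := by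
      calc xC f * xC q * xC f = xC f * xC q * (xC f * xC g * xC f) := by rw [h2]
        _ = xC f * xC q * xC f * (xC q * xC g) * xC f := by rw [a1]; simp only [mul_assoc]
        _ = (xC f * xC q * (xC f * xC q)) * xC g * xC f := by simp only [mul_assoc]
        _ = xC f * (xC q * xC g) * xC f := by rw [PGM_xC.sq]; simp only [mul_assoc]
        _ = _ := by rw [a1, h2]
    calc xC f * (xC q * xC f * xC q) * xC f = (xC f * xC q * xC f) * xC q * xC f := by
          simp only [mul_assoc]
      _ = _ := by rw [k, k]

/-- two steps -/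
theorem two_step {p q g : MD n} (hg : cj p g = g) (h : cj g q = g) :
    cj (cj q g) p = cj q g ∧ cj q (cj p (cj q g)) = cj q g := by
  obtain ⟨a1, a2⟩ := le_x hg
  have h1 : xC g * xC q * xC g = xC g := by rw [xC_cj, h]
  have k : xC g * xC q * xC p * xC q * xC g = xC g := by
    calc xC g * xC q * xC p * xC q * xC g
        = (xC g * xC p) * xC q * xC p * xC q * xC g := by rw [a2]
      _ = xC g * (xC p * xC q * (xC p * xC q)) * xC g := by simp only [mul_assoc]
      _ = (xC g * xC p) * xC q * xC g := by rw [PGM_xC.sq]; simp only [mul_assoc]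
      _ = _ := by rw [a2, h1]
  constructor
  · apply xC_inj
    rw [← xC_cj, ← xC_cj]
    calc xC q * xC g * xC q * xC p * (xC q * xC g * xC q)
        = xC q * (xC g * xC q * xC p * xC q * xC g) * xC q := by simp only [mul_assoc]
      _ = _ := by rw [k]
  · apply xC_inj
    rw [← xC_cj, ← xC_cj, ← xC_cj]
    calc xC q * (xC p * (xC q * xC g * xC q) * xC p) * xC q
        = xC q * xC p * xC q * xC g * xC q * xC p * xC q := by simp only [mul_assoc]
      _ = xC q * xC p * xC q * (xC p * xC g * xC p) * xC q * xC p * xC q := by rw [a1, a2]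
      _ = (xC q * xC p * (xC q * xC p)) * xC g * (xC p * xC q * (xC p * xC q)) := by
          simp only [mul_assoc]
      _ = xC q * (xC p * xC g * xC p) * xC q := by
          rw [PGM_xC.sq, PGM_xC.sq]; simp only [mul_assoc]
      _ = _ := by rw [a1, a2]

open Classical in
/-- the operator of a projection -/
noncomputable def opr {F : Type*} [Group F] (lam : MD n → MD n → F) (p : MD n) :
    ROp (MD n × F) :=
  ROp.of (fun y => y.bind fun fh =>
    if cj fh.1 p = fh.1 then some (cj p fh.1, fh.2 * lam fh.1 (cj p fh.1)) else none) rfl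

open Classical in
theorem opr_val {F : Type*} [Group F] (lam : MD n → MD n → F) (p f : MD n) (h : F) :
    (opr lam p).1 (some (f, h)) =
      if cj f p = f then some (cj p f, h * lam f (cj p f)) else none := rfl

theorem opr_none {F : Type*} [Group F] (lam : MD n → MD n → F) (p : MD n) :
    (opr lam p).1 none = none := rfl

theorem opr_pos {F : Type*} [Group F] (lam : MD n → MD n → F) {p f : MD n} (h : F)
    (hp : cj f p = f) : (opr lam p).1 (some (f, h)) = some (cj p f, h * lam f (cj p f)) := by
  rw [opr_val, if_pos hp]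

theorem opr_neg {F : Type*} [Group F] (lam : MD n → MD n → F) {p f : MD n} (h : F)
    (hp : cj f p ≠ f) : (opr lam p).1 (some (f, h)) = none := by
  rw [opr_val, if_neg hp]

/-- The operators satisfy the relations if the labels satisfy the triangle identity. -/
theorem PGM_opr {F : Type*} [Group F] (lam : MD n → MD n → F) (L1 : ∀ f, lam f f = 1)
    (L2 : ∀ f g, Fr f g → lam f g * lam g f = 1)
    (L3 : ∀ q g f, cj q g = g → Fr g f → lam g f = lam g (cj q f) * lam (cj q f) f) :
    PGM (opr lam) := by
  have L2' : ∀ f g, Fr f g → lam f g = (lam g f)⁻¹ := fun f g h => eq_inv_of_mul_eq_one_left (L2 f g h)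
  constructor
  · intro p
    apply ROp.ext
    rintro ⟨f, h⟩
    rw [ROp.mul_val]
    by_cases hp : cj f p = f
    · have h1 := (two_step (cj_cj_self p f) (by
        have := (fr_act hp)
        have k := this.x
        have k2 := this.symm.x
        -- g p g = g
        apply xC_inj
        rw [← xC_cj]
        obtain ⟨a1, a2⟩ := le_x (cj_cj_self p f)
        rw [a2, PGM_xC.idem])).1
      have h2 : cj (cj p f) p = cj p f := by
        apply xC_inj
        rw [← xC_cj]
        obtain ⟨a1, a2⟩ := le_x (cj_cj_self p f)
        rw [a2, PGM_xC.idem]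
      rw [opr_pos lam h hp, opr_pos lam _ h2, cj_cj_self, L1, mul_one]
    · rw [opr_neg lam h hp, opr_none]
  · intro p q
    apply ROp.ext
    rintro ⟨f, h⟩
    simp only [ROp.mul_val]
    by_cases hp : cj f p = f
    · rw [opr_pos lam h hp]
      by_cases hq : cj (cj p f) q = cj p f
      · rw [opr_pos lam _ hq]
        have t1 := two_step (cj_cj_self p f) hq
        rw [opr_pos lam _ t1.1]
        have t2 := two_step (cj_cj_self q (cj p f)) t1.1
        rw [opr_pos lam _ t2.1, t1.2, mul_assoc, mul_assoc, mul_assoc]
        have := L2 _ _ (fr_act t1.1)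
        rw [this, mul_one, mul_assoc]
      · rw [opr_neg lam _ hq, opr_none, opr_none]
    · rw [opr_neg lam h hp]
      simp only [opr_none]
  · intro p q s hs
    have hs' : cj p q = s := cj_eq hs
    apply ROp.ext
    rintro ⟨f, h⟩
    simp only [ROp.mul_val]
    by_cases hdef : cj f s = f
    · obtain ⟨h1, h2, h3⟩ := (act_comp hs').1 hdef
      rw [opr_pos lam h h1, opr_pos lam _ h2, opr_pos lam _ h3, opr_pos lam h hdef]
      have e : cj s f = cj p (cj q (cj p f)) := by rw [← hs', cj_comp]
      rw [e]
      have f1 := fr_act h1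
      have f2 := fr_act h2
      have f3 := fr_act h3
      have f4 := fr_act hdef
      rw [e] at f4
      have t := fr_tri (cj_cj_self p f) f2
      have a := L3 p _ _ (cj_cj_self p f) f2
      have b := L3 p _ _ (cj_cj_self p (cj q (cj p f))) f4.symm
      have t' := fr_tri (cj_cj_self p (cj q (cj p f))) f4.symm
      congr 2
      rw [a, L2' _ _ f4, b, L2' _ _ f3, L2' _ _ f1, L2' _ _ t'.1]
      group
    · have : ¬ (cj f p = f ∧ cj (cj p f) q = cj p f ∧
          cj (cj q (cj p f)) p = cj q (cj p f)) := fun h => hdef ((act_comp hs').2 h)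
      rw [opr_neg lam h hdef]
      by_cases h1 : cj f p = f
      · rw [opr_pos lam h h1]
        by_cases h2 : cj (cj p f) q = cj p f
        · rw [opr_pos lam _ h2]
          by_cases h3 : cj (cj q (cj p f)) p = cj q (cj p f)
          · exact absurd ⟨h1, h2, h3⟩ this
          · rw [opr_neg lam _ h3]
        · rw [opr_neg lam _ h2, opr_none]
      · rw [opr_neg lam h h1, opr_none, opr_none]

end Pool.Agent.W_MP_aeed81_al
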