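import Pool.Agent.W_MP_aeed81_al.MFive2
import Pool.Agent.W_MP_aeed81_al.MState
import Pool.Agent.W_MP_aeed81_al.MGauge3
import Pool.Agent.W_MP_aeed81_al.FreeThm

set_option linter.unusedVariables false
set_option linter.unusedSectionVars false

namespace Pool.Agent.W_MP_aeed81_al

open Finset MD

/-- mutually inverse elements between two idempotents -/
structure Lk {S : Type*} [Semigroup S] (p q a b : S) : Prop where
  ab : a * b = p
  ba : b * a = q
  pa : p * a = a
  aq : a * q = a
  qb : q * b = b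
  bp : b * p = b

namespace Lk

variable {S : Type*} [Semigroup S] {p q s a b c d : S}

theorem refl (h : p * p = p) : Lk p p p p := ⟨h, h, h, h, h, h⟩

theorem symm (h : Lk p q a b) : Lk q p b a := ⟨h.ba, h.ab, h.qb, h.bp, h.pa, h.aq⟩

theorem trans (h : Lk p q a b) (h' : Lk q s c d) : Lk p s (a * c) (d * b) := by
  constructor
  · calc a * c * (d * b) = a * (c * d) * b := by simp only [mul_assoc]
      _ = p := by rw [h'.ab, h.aq, h.ab]
  · calc d * b * (a * c) = d * (b * a) * c := by simp only [mul_assoc]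
      _ = s := by rw [h.ba, h'.bp, h'.ba]
  · rw [← mul_assoc, h.pa]
  · rw [mul_assoc, h'.aq]
  · rw [← mul_assoc, h'.qb]
  · rw [mul_assoc, h.bp]

end Lk

/-- an element of the group of units of the corner -/
def mkHG {S : Type*} [Semigroup S] {e a b : S} (he : e * e = e) (h : Lk e e a b) : HG e he :=
  ⟨(a, b), ⟨h.pa, h.aq⟩, ⟨h.qb, h.bp⟩, h.ab, h.ba⟩

theorem HG.lk {S : Type*} [Semigroup S] {e : S} {he : e * e = e} (g : HG e he) :
    Lk e e g.1.1 g.1.2 := ⟨g.2.2.2.1, g.2.2.2.2, g.2.1.1, g.2.1.2, g.2.2.1.1, g.2.2.1.2⟩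

theorem HG.ext1 {S : Type*} [Semigroup S] {e : S} {he : e * e = e} {g h : HG e he}
    (hh : g.1.1 = h.1.1) : g = h := by
  apply HG.ext hh
  have h1 := g.lk
  have h2 := h.lk
  calc g.1.2 = g.1.2 * (h.1.1 * h.1.2) := by rw [h2.ab, h1.bp]
    _ = g.1.2 * g.1.1 * h.1.2 := by rw [← hh]; simp only [mul_assoc]
    _ = _ := by rw [h1.ba, h2.qb]

theorem HG.mul_val {S : Type*} [Semigroup S] {e : S} {he : e * e = e} (g h : HG e he) :
    (g * h).1.1 = g.1.1 * h.1.1 := rfl

theorem HG.one_val {S : Type*} [Semigroup S] {e : S} {he : e * e = e} :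
    (1 : HG e he).1.1 = e := rfl

section

variable {n : ℕ} {S : Type*} [Semigroup S] {x : MD n → S}

open Classical in
/-- total version of the moving operator -/
noncomputable def Mp (x : MD n → S) (a b c : ℕ) : S :=
  if h : a < b ∧ b < c ∧ c < n then Mop x a b c h.1 h.2.1 h.2.2
  else x (one (fun _ => true) (fun _ _ => rfl))

open Classical in
/-- total version of the idempotents of the states -/
noncomputable def Es (x : MD n → S) (X : ℕ → Bool) : S :=
  if h : ∀ i, n ≤ i → X i = true then x (one X h) else x (one (fun _ => true) (fun _ _ => rfl))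

theorem Es_eq (X : ℕ → Bool) (h : ∀ i, n ≤ i → X i = true) : Es x X = x (one X h) := dif_pos h

theorem PGM.Es_idem (hx : PGM x) (X : ℕ → Bool) : Es x X * Es x X = Es x X := by
  unfold Es
  split_ifs <;> exact hx.idem _

theorem Mp_eq {a b c : ℕ} (hab : a < b) (hbc : b < c) (hc' : c < n) :
    Mp x a b c = Mop x a b c hab hbc hc' := dif_pos ⟨hab, hbc, hc'⟩

/-- the inverse of a move -/
def Bi (x : MD n → S) {X : ℕ → Bool} {a b c : ℕ} (h : Mv n X a b c) : S :=
  x h.v' * x h.p' * x h.p * x h.v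

theorem PGM.move (hx : PGM x) {X : ℕ → Bool} {a b c : ℕ} (h : Mv n X a b c) :
    Lk (Es x X) (Es x (mvX X a c)) (Es x X * Mp x a b c) (Bi x h) := by
  rw [Es_eq X h.big, Es_eq _ h.big', Mp_eq h.ab h.bc h.cn]
  have e := hx.mop h
  have e' : x (one X h.big) * Mop x a b c h.ab h.bc h.cn = x h.v * x h.p * x h.p' * x h.v' := e
  rw [e']
  have i := hx.inv1 h
  refine ⟨i.1, i.2, ?_, ?_, ?_, ?_⟩
  · change x h.v * (x h.v * x h.p * x h.p' * x h.v') = _
    simp only [← mul_assoc]; rw [hx.idem]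
  · change x h.v * x h.p * x h.p' * x h.v' * x h.v' = _
    rw [mul_assoc _ (x h.v'), hx.idem]
  · change x h.v' * (x h.v' * x h.p' * x h.p * x h.v) = _
    simp only [← mul_assoc]; rw [hx.idem]; rfl
  · change x h.v' * x h.p' * x h.p * x h.v * x h.v = _
    rw [mul_assoc _ (x h.v), hx.idem]; rfl

theorem PGM.Mp_comm (hx : PGM x) {a b c a' b' c' : ℕ} (hab : a < b) (hbc : b < c) (hc' : c < n)
    (hab' : a' < b') (hbc' : b' < c') (hc'' : c' < n) (h : c < a' ∨ c' < a) :
    Mp x a b c * Mp x a' b' c' = Mp x a' b' c' * Mp x a b c := by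
  rw [Mp_eq hab hbc hc', Mp_eq hab' hbc' hc'']
  rcases h with h | h
  · exact hx.mop_comm hab hbc hc' hab' hbc' hc'' h
  · exact (hx.mop_comm hab' hbc' hc'' hab hbc hc' h).symm

theorem PGM.Mp_five (hx : PGM x) {X : ℕ → Bool} {a b c d e : ℕ} (h : Five n X a b c d e) :
    Es x X * Mp x a b c * Mp x c d e = Es x X * Mp x a b e ∧
    Es x X * Mp x a b c * Mp x c d e = Es x X * Mp x a d e := by
  rw [Es_eq X h.big, Mp_eq h.mvc.ab h.mvc.bc h.mvc.cn, Mp_eq h.cd h.de h.en,
    Mp_eq h.mve.ab h.mve.bc h.mve.cn, Mp_eq h.mvd.ab h.mvd.bc h.mvd.cn]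
  exact ⟨(hx.five h).trans (hx.five1 h), (hx.five h).trans (hx.five2 h)⟩

/-- the gap vector of the base point -/
def mbase (n r : ℕ) : ℕ → ℕ := fun i => if i = 0 then n - r else 0

theorem mbase_valid {n r : ℕ} (h : r ≤ n) : Vd n r (mbase n r) := by
  constructor
  · intro i hi; simp only [mbase]; rw [if_neg (by omega)]
  · unfold pos
    have : ∑ i ∈ range (r + 1), mbase n r i = n - r := by
      rw [Finset.sum_eq_single 0]
      · simp [mbase]
      · intro i _ hi; simp [mbase, hi]
      · simp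
    rw [this]; omega

theorem valid_base {n r : ℕ} {m : ℕ → ℕ} (h : Vd n r m) (h0 : ∀ i, 1 ≤ i → i ≤ r → m i = 0) :
    m = mbase n r := by
  have h1 : m 0 + r = n := by
    have := h.2
    unfold pos at this
    rw [Finset.sum_eq_single 0] at this
    · exact this
    · intro i hi1 hi2
      simp at hi1
      exact h0 i (by omega) (by omega)
    · simp
  funext i
  simp only [mbase]
  by_cases hi : i = 0
  · rw [if_pos hi, hi]; omega
  · rw [if_neg hi]
    by_cases hir : i ≤ r
    · exact h0 i (by omega) hir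
    · exact h.1 i (by omega)

/-- the position triple of a move -/
theorem PGM.move' (hx : PGM x) {r : ℕ} {m : ℕ → ℕ} (h : Vd n r m) {j s t : ℕ} (hj : j < r)
    (hs : 1 ≤ s) (ht : 1 ≤ t) (hst : s + t ≤ m (j + 1)) :
    Lk (Es x (XG m)) (Es x (XG (gmv m j (s + t))))
      (Es x (XG m) * Mp x (pos m j) (pos m j + s) (pos m j + s + t))
      (Bi x (h.mv hj hs ht hst)) := by
  rw [XG_gmv m j (s + t) (by omega) hst, ← Nat.add_assoc]
  exact hx.move (h.mv hj hs ht hst)

theorem PGM.conn (hx : PGM x) (r : ℕ) : ∀ m, (∃ i, i ≤ r ∧ 2 ≤ m i) → Vd n r m →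
    ∃ a b, Lk (Es x (XG (mbase n r))) (Es x (XG m)) a b := by
  have key : ∀ m j s t, j < r → 1 ≤ s → 1 ≤ t → s + t ≤ m (j + 1) →
      ((Vd n r m → ∃ a b, Lk (Es x (XG (mbase n r))) (Es x (XG m)) a b) ↔
      (Vd n r (gmv m j (s + t)) →
        ∃ a b, Lk (Es x (XG (mbase n r))) (Es x (XG (gmv m j (s + t)))) a b)) := by
    intro m j s t hj hs ht hst
    rw [Vd.gmv hj hst]
    constructor
    · intro h hv
      obtain ⟨a, b, hab⟩ := h hv
      exact ⟨_, _, hab.trans (hx.move' hv hj hs ht hst)⟩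
    · intro h hv
      obtain ⟨a, b, hab⟩ := h hv
      exact ⟨_, _, hab.trans (hx.move' hv hj hs ht hst).symm⟩
  apply gap_induction r (fun m => Vd n r m →
    ∃ a b, Lk (Es x (XG (mbase n r))) (Es x (XG m)) a b)
  · intro m h1 h2 hv
    rw [valid_base hv h1]
    exact ⟨_, _, Lk.refl (hx.Es_idem _)⟩
  · intro m j hj h2
    exact key m j 1 1 hj (le_refl _) (le_refl _) h2
  · intro m j hj h3 _ _ h
    exact (key m j 1 2 hj (le_refl _) (by norm_num) (by omega)).2 h

/-- The section theorem. -/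
theorem PGM.exists_section (hx : PGM x) (r : ℕ) (hr : r ≤ n) : ∃ T Ti : (ℕ → ℕ) → S,
    (∀ m, (∃ i, i ≤ r ∧ 2 ≤ m i) → Vd n r m →
      Lk (Es x (XG (mbase n r))) (Es x (XG m)) (T m) (Ti m)) ∧
    (2 ≤ n - r → T (mbase n r) = Es x (XG (mbase n r))) ∧
    ∀ m j s t, Vd n r m → j < r → 1 ≤ s → 1 ≤ t → s + t ≤ m (j + 1) → ¬ Bad r m j s t →
      T m * Mp x (pos m j) (pos m j + s) (pos m j + s + t) = T (gmv m j (s + t)) := by
  classical
  obtain ⟨e, he0⟩ : ∃ e, e = Es x (XG (mbase n r)) := ⟨_, rfl⟩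
  rw [← he0]
  have he : e * e = e := by rw [he0]; exact hx.Es_idem _
  have c0 := hx.conn r
  rw [← he0] at c0
  have c1 : ∀ m, ∃ ab : S × S, ((∃ i, i ≤ r ∧ 2 ≤ m i) → Vd n r m → Lk e (Es x (XG m)) ab.1 ab.2) ∧
      (m = mbase n r → ab.1 = e) := by
    intro m
    by_cases hb : m = mbase n r
    · refine ⟨(e, e), ?_, fun _ => rfl⟩
      intro _ _
      rw [hb, ← he0]
      exact Lk.refl he
    · by_cases h : (∃ i, i ≤ r ∧ 2 ≤ m i) ∧ Vd n r m
      · obtain ⟨a, b, hab⟩ := c0 m h.1 h.2
        exact ⟨(a, b), fun _ _ => hab, fun h => absurd h hb⟩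
      · exact ⟨(e, e), fun h1 h2 => absurd ⟨h1, h2⟩ h, fun h => absurd h hb⟩
  choose ab hab hbase using c1
  have hgap : ∀ {m : ℕ → ℕ} {j s t : ℕ}, j < r → 1 ≤ s → 1 ≤ t → s + t ≤ m (j + 1) →
      (∃ i, i ≤ r ∧ 2 ≤ m i) ∧ (∃ i, i ≤ r ∧ 2 ≤ gmv m j (s + t) i) := by
    intro m j s t hj hs ht hst
    exact ⟨⟨j + 1, by omega, by omega⟩, ⟨j, by omega, by simp only [gmv, if_true]; omega⟩⟩
  have c2 : ∀ m j s t, ∃ g : HG e he,
      (Vd n r m → j < r → 1 ≤ s → 1 ≤ t → s + t ≤ m (j + 1) →
        g.1.1 = (ab m).1 * Mp x (pos m j) (pos m j + s) (pos m j + s + t) *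
          (ab (gmv m j (s + t))).2) ∧ (¬ Vd n r m → g = 1) := by
    intro m j s t
    by_cases h : Vd n r m ∧ j < r ∧ 1 ≤ s ∧ 1 ≤ t ∧ s + t ≤ m (j + 1)
    · obtain ⟨h1, h2, h3, h4, h5⟩ := h
      have g := hgap h2 h3 h4 h5
      have l := ((hab m g.1 h1).trans (hx.move' h1 h2 h3 h4 h5)).trans
        (hab (gmv m j (s + t)) g.2 ((Vd.gmv h2 h5).2 h1)).symm
      refine ⟨mkHG he l, ?_, fun h => absurd h1 h⟩
      intro _ _ _ _ _
      change (ab m).1 * (Es x (XG m) * Mp x (pos m j) (pos m j + s) (pos m j + s + t)) *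
        (ab (gmv m j (s + t))).2 = _
      rw [← mul_assoc, (hab m g.1 h1).aq]
    · exact ⟨1, fun h1 h2 h3 h4 h5 => absurd ⟨h1, h2, h3, h4, h5⟩ h, fun _ => rfl⟩
  choose γ hγ hγ' using c2
  have hE : ∀ {m : ℕ → ℕ} {j s t : ℕ}, Vd n r m → j < r → 1 ≤ s → 1 ≤ t → s + t ≤ m (j + 1) →
      (ab m).1 * Mp x (pos m j) (pos m j + s) (pos m j + s + t) * Es x (XG (gmv m j (s + t))) =
      (ab m).1 * Mp x (pos m j) (pos m j + s) (pos m j + s + t) := by
    intro m j s t h1 h2 h3 h4 h5
    have l := hab m (hgap h2 h3 h4 h5).1 h1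
    have k := (hx.move' h1 h2 h3 h4 h5).aq
    calc _ = (ab m).1 * Es x (XG m) * Mp x (pos m j) (pos m j + s) (pos m j + s + t) *
          Es x (XG (gmv m j (s + t))) := by rw [l.aq]
      _ = (ab m).1 * (Es x (XG m) * Mp x (pos m j) (pos m j + s) (pos m j + s + t) *
          Es x (XG (gmv m j (s + t)))) := by simp only [mul_assoc]
      _ = _ := by rw [k, ← mul_assoc, l.aq]
  have hsys : GSys r γ := by
    constructor
    · intro m j k s t s' t' hj hk hjk a1 a2 a3 a4 a5 a6
      by_cases hv : Vd n r m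
      · have hv1 := (Vd.gmv hj a5).2 hv
        have hv2 := (Vd.gmv hk a6).2 hv
        have b1 : s' + t' ≤ gmv m j (s + t) (k + 1) := by
          simp only [gmv]; split_ifs <;> omega
        have b2 : s + t ≤ gmv m k (s' + t') (j + 1) := by
          simp only [gmv]; split_ifs <;> omega
        have p1 : pos (gmv m j (s + t)) k = pos m k := by
          rw [pos_gmv m j _ a5, if_neg (by omega)]
        have p2 : pos (gmv m k (s' + t')) j = pos m j := by
          rw [pos_gmv m k _ a6, if_neg (by omega)]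
        have l1 := hab _ (hgap hj a1 a2 a5).2 hv1
        have l2 := hab _ (hgap hk a3 a4 a6).2 hv2
        have q1 := (hv.mv hj a1 a2 a5).cn
        have q2 := (hv.mv hk a3 a4 a6).cn
        apply HG.ext1
        rw [HG.mul_val, HG.mul_val, hγ _ _ _ _ hv hj a1 a2 a5, hγ _ _ _ _ hv1 hk a3 a4 b1,
          hγ _ _ _ _ hv hk a3 a4 a6, hγ _ _ _ _ hv2 hj a1 a2 b2, p1, p2,
          gmv_comm m j k _ _ hjk a5 a6]
        have hsep : pos m j + s + t < pos m k ∨ pos m k + s' + t' < pos m j := by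
          rcases Nat.lt_or_gt_of_ne hjk with h | h
          · left
            have := pos_succ m j
            have h2 : pos m (j + 1) ≤ pos m k := (pos_strictMono m).monotone (by omega)
            omega
          · right
            have := pos_succ m k
            have h2 : pos m (k + 1) ≤ pos m j := (pos_strictMono m).monotone (by omega)
            omega
        have cc := hx.Mp_comm (x := x) (a := pos m j) (b := pos m j + s) (c := pos m j + s + t)
          (a' := pos m k) (b' := pos m k + s') (c' := pos m k + s' + t')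
          (by omega) (by omega) q1 (by omega) (by omega) q2 hsep
        calc _ = (ab m).1 * Mp x (pos m j) (pos m j + s) (pos m j + s + t) *
              ((ab (gmv m j (s + t))).2 * (ab (gmv m j (s + t))).1) *
              Mp x (pos m k) (pos m k + s') (pos m k + s' + t') *
              (ab (gmv (gmv m k (s' + t')) j (s + t))).2 := by simp only [mul_assoc]
          _ = (ab m).1 * (Mp x (pos m j) (pos m j + s) (pos m j + s + t) *
              Mp x (pos m k) (pos m k + s') (pos m k + s' + t')) *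
              (ab (gmv (gmv m k (s' + t')) j (s + t))).2 := by
              rw [l1.ba, hE hv hj a1 a2 a5]; simp only [mul_assoc]
          _ = (ab m).1 * Mp x (pos m k) (pos m k + s') (pos m k + s' + t') *
              Mp x (pos m j) (pos m j + s) (pos m j + s + t) *
              (ab (gmv (gmv m k (s' + t')) j (s + t))).2 := by
              rw [cc]; simp only [mul_assoc]
          _ = (ab m).1 * Mp x (pos m k) (pos m k + s') (pos m k + s' + t') *
              ((ab (gmv m k (s' + t'))).2 * (ab (gmv m k (s' + t'))).1) *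
              Mp x (pos m j) (pos m j + s) (pos m j + s + t) *
              (ab (gmv (gmv m k (s' + t')) j (s + t))).2 := by
              rw [l2.ba, hE hv hk a3 a4 a6]
          _ = _ := by simp only [mul_assoc]
      · have hv1 : ¬ Vd n r (gmv m j (s + t)) := by rw [Vd.gmv hj a5]; exact hv
        have hv2 : ¬ Vd n r (gmv m k (s' + t')) := by rw [Vd.gmv hk a6]; exact hv
        rw [hγ' _ _ _ _ hv, hγ' _ _ _ _ hv1, hγ' _ _ _ _ hv, hγ' _ _ _ _ hv2]
    · intro m j s1 s2 s3 s4 hj a1 a2 a3 a4 a5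
      by_cases hv : Vd n r m
      · have hv1 := (Vd.gmv (n := n) hj (show s1 + s2 ≤ m (j + 1) by omega)).2 hv
        have b1 : s3 + s4 ≤ gmv m j (s1 + s2) (j + 1) := by
          simp only [gmv]; split_ifs <;> omega
        have p1 : pos (gmv m j (s1 + s2)) j = pos m j + s1 + s2 := by
          rw [pos_gmv m j _ (by omega), if_pos rfl]; ring
        have l1 := hab _ (hgap (s := s1) (t := s2) hj a1 a2 (by omega)).2 hv1
        have l0 := hab _ (hgap (m := m) (s := s1) (t := s2) hj a1 a2 (by omega)).1 hv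
        have q1 := hv.lt hj
        have F : Five n (XG m) (pos m j) (pos m j + s1) (pos m j + s1 + s2)
            (pos m j + s1 + s2 + s3) (pos m j + s1 + s2 + s3 + s4) :=
          ⟨hv.big, by omega, by omega, by omega, by omega, by omega, XG_pos m j,
            fun i h1 h2 => XG_gap m j i h1 (by omega)⟩
        have hf := (hx.Mp_five F).1
        apply HG.ext1
        rw [HG.mul_val, hγ _ _ _ _ hv hj a1 a2 (by omega), hγ _ _ _ _ hv1 hj a3 a4 b1,
          hγ _ _ _ _ hv hj a1 (by omega) (by omega), gmv_gmv, p1]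
        have e1 : s1 + (s2 + s3 + s4) = s1 + s2 + (s3 + s4) := by ring
        have e2 : pos m j + s1 + (s2 + s3 + s4) = pos m j + s1 + s2 + s3 + s4 := by ring
        rw [e1, e2]
        calc _ = (ab m).1 * Mp x (pos m j) (pos m j + s1) (pos m j + s1 + s2) *
              ((ab (gmv m j (s1 + s2))).2 * (ab (gmv m j (s1 + s2))).1) *
              Mp x (pos m j + s1 + s2) (pos m j + s1 + s2 + s3) (pos m j + s1 + s2 + s3 + s4) *
              (ab (gmv m j (s1 + s2 + (s3 + s4)))).2 := by simp only [mul_assoc]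
          _ = (ab m).1 * Es x (XG m) * Mp x (pos m j) (pos m j + s1) (pos m j + s1 + s2) *
              Mp x (pos m j + s1 + s2) (pos m j + s1 + s2 + s3) (pos m j + s1 + s2 + s3 + s4) *
              (ab (gmv m j (s1 + s2 + (s3 + s4)))).2 := by
              rw [l1.ba, hE hv hj a1 a2 (by omega), l0.aq]
          _ = (ab m).1 * (Es x (XG m) * Mp x (pos m j) (pos m j + s1) (pos m j + s1 + s2) *
              Mp x (pos m j + s1 + s2) (pos m j + s1 + s2 + s3) (pos m j + s1 + s2 + s3 + s4)) *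
              (ab (gmv m j (s1 + s2 + (s3 + s4)))).2 := by simp only [mul_assoc]
          _ = _ := by rw [hf, ← mul_assoc, l0.aq]
      · have hv1 : ¬ Vd n r (gmv m j (s1 + s2)) := by rw [Vd.gmv hj (by omega)]; exact hv
        rw [hγ' _ _ _ _ hv, hγ' _ _ _ _ hv1, hγ' _ _ _ _ hv, one_mul]
    · intro m j s1 s2 s3 s4 hj a1 a2 a3 a4 a5
      by_cases hv : Vd n r m
      · have hv1 := (Vd.gmv (n := n) hj (show s1 + s2 ≤ m (j + 1) by omega)).2 hv
        have b1 : s3 + s4 ≤ gmv m j (s1 + s2) (j + 1) := by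
          simp only [gmv]; split_ifs <;> omega
        have p1 : pos (gmv m j (s1 + s2)) j = pos m j + s1 + s2 := by
          rw [pos_gmv m j _ (by omega), if_pos rfl]; ring
        have l1 := hab _ (hgap (s := s1) (t := s2) hj a1 a2 (by omega)).2 hv1
        have l0 := hab _ (hgap (m := m) (s := s1) (t := s2) hj a1 a2 (by omega)).1 hv
        have q1 := hv.lt hj
        have F : Five n (XG m) (pos m j) (pos m j + s1) (pos m j + s1 + s2)
            (pos m j + s1 + s2 + s3) (pos m j + s1 + s2 + s3 + s4) :=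
          ⟨hv.big, by omega, by omega, by omega, by omega, by omega, XG_pos m j,
            fun i h1 h2 => XG_gap m j i h1 (by omega)⟩
        have hf := (hx.Mp_five F).2
        apply HG.ext1
        rw [HG.mul_val, hγ _ _ _ _ hv hj a1 a2 (by omega), hγ _ _ _ _ hv1 hj a3 a4 b1,
          hγ _ _ _ _ hv hj (by omega) a4 (by omega), gmv_gmv, p1]
        have e1 : s1 + s2 + s3 + s4 = s1 + s2 + (s3 + s4) := by ring
        have e2 : pos m j + (s1 + s2 + s3) = pos m j + s1 + s2 + s3 := by ring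
        rw [e1, e2]
        calc _ = (ab m).1 * Mp x (pos m j) (pos m j + s1) (pos m j + s1 + s2) *
              ((ab (gmv m j (s1 + s2))).2 * (ab (gmv m j (s1 + s2))).1) *
              Mp x (pos m j + s1 + s2) (pos m j + s1 + s2 + s3) (pos m j + s1 + s2 + s3 + s4) *
              (ab (gmv m j (s1 + s2 + (s3 + s4)))).2 := by simp only [mul_assoc]
          _ = (ab m).1 * Es x (XG m) * Mp x (pos m j) (pos m j + s1) (pos m j + s1 + s2) *
              Mp x (pos m j + s1 + s2) (pos m j + s1 + s2 + s3) (pos m j + s1 + s2 + s3 + s4) *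
              (ab (gmv m j (s1 + s2 + (s3 + s4)))).2 := by
              rw [l1.ba, hE hv hj a1 a2 (by omega), l0.aq]
          _ = (ab m).1 * (Es x (XG m) * Mp x (pos m j) (pos m j + s1) (pos m j + s1 + s2) *
              Mp x (pos m j + s1 + s2) (pos m j + s1 + s2 + s3) (pos m j + s1 + s2 + s3 + s4)) *
              (ab (gmv m j (s1 + s2 + (s3 + s4)))).2 := by simp only [mul_assoc]
          _ = _ := by rw [hf, ← mul_assoc, l0.aq]
      · have hv1 : ¬ Vd n r (gmv m j (s1 + s2)) := by rw [Vd.gmv hj (by omega)]; exact hv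
        rw [hγ' _ _ _ _ hv, hγ' _ _ _ _ hv1, hγ' _ _ _ _ hv, one_mul]
  obtain ⟨g, hg0, hg⟩ := gauge hsys
  refine ⟨fun m => (g m).1.1 * (ab m).1, fun m => (ab m).2 * (g m).1.2, ?_, ?_, ?_⟩
  · intro m h1 h2
    exact (g m).lk.trans (hab m h1 h2)
  · intro _
    have h1 : g (mbase n r) = 1 := by
      apply hg0
      intro i hi _
      simp only [mbase]; rw [if_neg (by omega)]
    simp only [h1, HG.one_val, hbase _ rfl, he]
  · intro m j s t hv hj hs ht hst hb
    have h1 := hg m j s t hj hs ht hst hb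
    have l1 := hab _ (hgap hj hs ht hst).2 ((Vd.gmv (n := n) hj hst).2 hv)
    have h2 : (g m * γ m j s t).1.1 = (g (gmv m j (s + t))).1.1 := by rw [h1]
    rw [HG.mul_val, hγ _ _ _ _ hv hj hs ht hst] at h2
    simp only
    rw [← h2]
    calc _ = (g m).1.1 * ((ab m).1 * Mp x (pos m j) (pos m j + s) (pos m j + s + t)) := by
          simp only [mul_assoc]
      _ = (g m).1.1 * ((ab m).1 * Mp x (pos m j) (pos m j + s) (pos m j + s + t)) *
          ((ab (gmv m j (s + t))).2 * (ab (gmv m j (s + t))).1) := by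
          rw [l1.ba, mul_assoc, hE hv hj hs ht hst]
      _ = _ := by simp only [mul_assoc]

end

end Pool.Agent.W_MP_aeed81_al
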