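import Pool.Agent.W_MP_aeed81_al.MPG

set_option linter.unusedVariables false
set_option linter.unusedSectionVars false

namespace Pool.Agent.W_MP_aeed81_al

open MD

/-- the defect `a` can move to `c` via `b` -/
structure Mv (n : ℕ) (X : ℕ → Bool) (a b c : ℕ) : Prop where
  big : ∀ i, n ≤ i → X i = true
  ab : a < b
  bc : b < c
  cn : c < n
  xa : X a = true
  gap : ∀ i, a < i → i ≤ c → X i = false

theorem mvX_big {n : ℕ} {X : ℕ → Bool} (hX : ∀ i, n ≤ i → X i = true) {a c : ℕ} (ha : a < n) :
    ∀ i, n ≤ i → mvX X a c i = true := by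
  intro i hi
  have := hX i hi
  simp only [mvX]
  grind

namespace Mv

variable {n : ℕ} {X : ℕ → Bool} {a b c : ℕ}

theorem big' (h : Mv n X a b c) : ∀ i, n ≤ i → mvX X a c i = true :=
  mvX_big h.big (by have := h.ab; have := h.bc; have := h.cn; omega)

theorem gap' (h : Mv n X a b c) : ∀ i, a ≤ i → i < c → mvX X a c i = false := by
  intro i h1 h2
  have := h.gap i
  simp only [mvX]
  grind

/-- source -/
def v (h : Mv n X a b c) : MD n := one X h.big
/-- target -/
def v' (h : Mv n X a b c) : MD n := one (mvX X a c) h.big'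
/-- first step -/
def p (h : Mv n X a b c) : MD n :=
  arc X h.big b c h.bc (fun i h1 h2 => h.gap i (by have := h.ab; omega) h2)
/-- second step -/
def p' (h : Mv n X a b c) : MD n :=
  arc (mvX X a c) h.big' a b h.ab (fun i h1 h2 => h.gap' i h1 (by have := h.bc; omega))

end Mv

theorem mvX_mvX (X : ℕ → Bool) (a c : ℕ) (ha : X a = true) (hc : X c = false) :
    mvX (mvX X a c) c a = X := by
  funext i
  simp only [mvX]
  grind

theorem mvX_trans (X : ℕ → Bool) (a c e : ℕ) (hac : a ≠ c) (hae : a ≠ e) (hce : c ≠ e)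
    (hc : X c = false) :
    mvX (mvX X a c) c e = mvX X a e := by
  funext i
  simp only [mvX]
  grind

namespace MD

variable {n : ℕ}

theorem hc_slide_left_X (f : MD n) (a b c : ℕ) (hab : a < b) (hbc : b < c) (hc' : c < n)
    (hx : f.X c = true) (hw : f.w b = a) (hin : ∀ i, a ≤ i → i < c → f.X i = false) :
    (hc b c hbc hc' f).X = mvX f.X c a := by
  have hwz : f.w a = b := by rw [← hw, f.inv]
  have hwx := f.fix c hx
  funext i
  rw [hc_X]
  simp only [hkX, mvX, hw, hwx]
  have h1 := hin i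
  have h2 := hin a
  have h3 := hin b
  grind

theorem hc_arc_slide_left (X : ℕ → Bool) (a b c : ℕ) (h : Mv n X a b c) :
    hc b c h.bc h.cn h.p' = h.p := by
  have hab := h.ab
  have hbc := h.bc
  have hX : (hc b c h.bc h.cn h.p').X = X := by
    rw [hc_slide_left_X h.p' a b c h.ab h.bc h.cn]
    · exact mvX_mvX X a c h.xa (h.gap c (by omega) (le_refl _))
    · change mvX X a c c = true
      simp only [mvX]; grind
    · change sw a b b = a
      simp only [sw]; grind
    · exact h.gap'
  apply MD.ext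
  · funext i
    rw [hc_w]
    change _ = sw b c i
    simp only [hkW, Mv.p', arc, sw]
    grind
  · exact hX

theorem hc_p (X : ℕ → Bool) (a b c : ℕ) (h : Mv n X a b c) :
    hc a b h.ab (by have := h.bc; have := h.cn; omega) h.p = h.p' :=
  hc_arc_slide X h.big a b c h.ab h.bc h.cn h.xa h.gap h.big' _

theorem cut_p' (X : ℕ → Bool) (a b c : ℕ) (h : Mv n X a b c)
    (hY : ∀ i, n ≤ i → decide (i ≠ a) = true) :
    cut (fun i => decide (i ≠ a)) hY h.p' = h.v' := by
  have hab := h.ab
  apply MD.ext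
  · funext i
    change (if decide (i ≠ a) = true ∧ decide (sw a b i ≠ a) = true then sw a b i else i) = i
    simp only [sw, decide_eq_true_eq]
    grind
  · funext i
    change (mvX X a c i && decide (i ≠ a)) = mvX X a c i
    simp only [mvX]
    grind

end MD

section

variable {n : ℕ} {S : Type*} [Semigroup S] {x : MD n → S}

theorem PGM.u3R (hx : PGM x) {X : ℕ → Bool} {a b c : ℕ} (h : Mv n X a b c) (f : MD n)
    (hfX : f.X = X) (hfw : f.w b = c) (hb : b < n) :
    x h.v * x f * x (H a b h.ab hb) = x h.v * x h.p * x h.p' * x (hc a b h.ab hb f) ∧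
    x h.p' * x h.v' * x (hc a b h.ab hb f) = x h.p' * x (hc a b h.ab hb f) := by
  subst hfX
  have hab := h.ab
  have hbc := h.bc
  have hX' : (hc a b h.ab hb f).X = mvX f.X a c :=
    hc_slide_X f a b c h.ab hb h.bc h.xa hfw h.gap
  have e1 : x h.v * x h.p * x f = x h.v * x f := hx.sx f b c h.bc _
  have e2 := (hx.act (C_H_right f a b c h.ab hb h.bc h.xa hfw h.gap) (hc_C h.ab hb f)).1
  have k1 := hc_C h.ab hb h.p'
  rw [show hc a b h.ab hb h.p' = h.p' from hc_arc_self _ _ _ _ _ _ _] at k1
  have e3 := (hx.tri k1 (hc_C h.ab hb f)).2.1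
  have e4 : x (hc a b h.ab hb f) * x h.p' * x (hc a b h.ab hb f) = x (hc a b h.ab hb f) :=
    hx.fr hX'
  have k2 := cut_C (addX f.X b c) (addX_big f.big b c) h.p'
  have e0 : MD.cut (addX f.X b c) (addX_big f.big b c) h.p' = h.p' := by
    apply cut_arc
    · intro i hi
      simp only [mvX] at hi
      simp only [addX]
      grind
    · simp [addX, h.xa]
    · simp [addX]
  rw [e0] at k2
  have k3 := cut_C (addX f.X b c) (addX_big f.big b c) f
  rw [cut_addX_arc f b c h.bc (fun i h1 h2 => h.gap i (by omega) h2) hfw] at k3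
  have e5 : x f * x h.p' = x f * x h.p * x h.p' := (hx.tri k2 k3).2.1
  have e6 : x h.p * x f * x h.p = x h.p := hx.fr rfl
  constructor
  · have a1 : x f * x (hc a b h.ab hb f) = x f * x h.p * x h.p' * x (hc a b h.ab hb f) := by
      calc x f * x (hc a b h.ab hb f) = x f * (x (hc a b h.ab hb f) * x h.p' *
            x (hc a b h.ab hb f)) := by rw [e4]
        _ = x f * x (hc a b h.ab hb f) * x h.p' * x (hc a b h.ab hb f) := by
            simp only [mul_assoc]
        _ = _ := by rw [← e3, e5]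
    calc x h.v * x f * x (H a b h.ab hb) = x h.v * (x f * x (H a b h.ab hb)) := by
          rw [mul_assoc]
      _ = x h.v * x f * (x h.p * x h.p' * x (hc a b h.ab hb f)) := by
          rw [e2, a1]; simp only [mul_assoc]
      _ = x h.v * (x h.p * x f * x h.p) * x h.p' * x (hc a b h.ab hb f) := by
          rw [← e1]; simp only [mul_assoc]
      _ = _ := by rw [e6]
  · have e7 := hx.sx (hc a b h.ab hb f) a b h.ab (by rw [hX']; exact fun i h1 h2 => h.gap' i h1 (by omega))
    simp only [hX'] at e7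
    have e8 : x h.v' * x h.p' * x (hc a b h.ab hb f) = x h.v' * x (hc a b h.ab hb f) := e7
    have e9 : x h.p' * x h.v' * x h.p' = x h.p' := hx.fr rfl
    calc x h.p' * x h.v' * x (hc a b h.ab hb f) = x h.p' * (x h.v' * x (hc a b h.ab hb f)) := by
          rw [mul_assoc]
      _ = x h.p' * x h.v' * x h.p' * x (hc a b h.ab hb f) := by
          rw [← e8]; simp only [mul_assoc]
      _ = _ := by rw [e9]

theorem PGM.u3L (hx : PGM x) {X : ℕ → Bool} {a b c : ℕ} (h : Mv n X a b c) (f : MD n)
    (hfX : f.X = mvX X a c) (hfw : f.w b = a) :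
    x h.v' * x f * x (H b c h.bc h.cn) = x h.v' * x h.p' * x h.p * x (hc b c h.bc h.cn f) ∧
    x h.p * x h.v * x (hc b c h.bc h.cn f) = x h.p * x (hc b c h.bc h.cn f) ∧
      (hc b c h.bc h.cn f).X = X := by
  have hab := h.ab
  have hbc := h.bc
  have hcn := h.cn
  have hfc : f.X c = true := by rw [hfX]; simp only [mvX]; grind
  have hX' : (hc b c h.bc h.cn f).X = X := by
    rw [hc_slide_left_X f a b c h.ab h.bc h.cn hfc hfw (by rw [hfX]; exact h.gap'), hfX]
    exact mvX_mvX X a c h.xa (h.gap c (by omega) (le_refl _))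
  have hfwa : f.w a = b := by rw [← hfw, f.inv]
  have one_eq : ∀ (X Y : ℕ → Bool) (hX) (hY), X = Y → (one X hX : MD n) = one Y hY := by
    intro X Y _ _ h; subst h; rfl
  have arc_eq : ∀ (X Y : ℕ → Bool) (hX) (hY) (a b : ℕ) (hab) (h1) (h2), X = Y →
      (arc X hX a b hab h1 : MD n) = arc Y hY a b hab h2 := by
    intro X Y _ _ a b _ _ _ h; subst h; rfl
  have e1 : x h.v' * x h.p' * x f = x h.v' * x f := by
    have := hx.sx f a b h.ab (by rw [hfX]; exact fun i h1 h2 => h.gap' i h1 (by omega))
    rw [one_eq f.X _ f.big h.big' hfX, arc_eq f.X _ f.big h.big' a b h.ab _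
      (fun i h1 h2 => h.gap' i h1 (by omega)) hfX] at this
    exact this
  have e2 := (hx.act (C_H_left f b c a h.bc h.cn h.ab hfc hfw (by rw [hfX]; exact h.gap'))
    (hc_C h.bc h.cn f)).1
  have k1 := hc_C h.bc h.cn h.p
  rw [show hc b c h.bc h.cn h.p = h.p from hc_arc_self _ _ _ _ _ _ _] at k1
  have e3 := (hx.tri k1 (hc_C h.bc h.cn f)).2.1
  have e4 : x (hc b c h.bc h.cn f) * x h.p * x (hc b c h.bc h.cn f) = x (hc b c h.bc h.cn f) :=
    hx.fr hX'
  have k2 := cut_C (addX f.X a b) (addX_big f.big a b) h.p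
  have e0 : MD.cut (addX f.X a b) (addX_big f.big a b) h.p = h.p := by
    apply cut_arc
    · intro i hi
      simp only [addX, hfX, mvX]
      grind
    · simp [addX]
    · simp [addX, hfc]
  rw [e0] at k2
  have k3 := cut_C (addX f.X a b) (addX_big f.big a b) f
  rw [cut_addX_arc f a b h.ab (by rw [hfX]; exact fun i h1 h2 => h.gap' i h1 (by omega)) hfwa] at k3
  rw [arc_eq f.X _ f.big h.big' a b h.ab _ (fun i h1 h2 => h.gap' i h1 (by omega)) hfX] at k3
  have e5 : x f * x h.p = x f * x h.p' * x h.p := (hx.tri k2 k3).2.1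
  have e6 : x h.p' * x f * x h.p' = x h.p' := hx.fr hfX.symm
  refine ⟨?_, ?_, hX'⟩
  · have a1 : x f * x (hc b c h.bc h.cn f) = x f * x h.p' * x h.p * x (hc b c h.bc h.cn f) := by
      calc x f * x (hc b c h.bc h.cn f) = x f * (x (hc b c h.bc h.cn f) * x h.p *
            x (hc b c h.bc h.cn f)) := by rw [e4]
        _ = x f * x (hc b c h.bc h.cn f) * x h.p * x (hc b c h.bc h.cn f) := by
            simp only [mul_assoc]
        _ = _ := by rw [← e3, e5]
    calc x h.v' * x f * x (H b c h.bc h.cn) = x h.v' * (x f * x (H b c h.bc h.cn)) := by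
          rw [mul_assoc]
      _ = x h.v' * x f * (x h.p' * x h.p * x (hc b c h.bc h.cn f)) := by
          rw [e2, a1]; simp only [mul_assoc]
      _ = x h.v' * (x h.p' * x f * x h.p') * x h.p * x (hc b c h.bc h.cn f) := by
          rw [← e1]; simp only [mul_assoc]
      _ = _ := by rw [e6]
  · have e7 := hx.sx (hc b c h.bc h.cn f) b c h.bc (by
      rw [hX']; exact fun i h1 h2 => h.gap i (by omega) h2)
    rw [one_eq _ X _ h.big hX', arc_eq _ X _ h.big b c h.bc _
      (fun i h1 h2 => h.gap i (by omega) h2) hX'] at e7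
    have e8 : x h.v * x h.p * x (hc b c h.bc h.cn f) = x h.v * x (hc b c h.bc h.cn f) := e7
    have e9 : x h.p * x h.v * x h.p = x h.p := hx.fr rfl
    calc x h.p * x h.v * x (hc b c h.bc h.cn f) = x h.p * (x h.v * x (hc b c h.bc h.cn f)) := by
          rw [mul_assoc]
      _ = x h.p * x h.v * x h.p * x (hc b c h.bc h.cn f) := by
          rw [← e8]; simp only [mul_assoc]
      _ = _ := by rw [e9]

theorem neY_big {n a : ℕ} (ha : a < n) : ∀ i, n ≤ i → decide (i ≠ a) = true := by
  intro i hi
  simp; omega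

/-- the operator that moves the defect `a` to `c` via `b` -/
def Mop (x : MD n → S) (a b c : ℕ) (hab : a < b) (hbc : b < c) (hc' : c < n) : S :=
  x (H b c hbc hc') * x (H a b hab (by omega)) * x (one (fun i => decide (i ≠ a)) (neY_big (by omega)))

theorem PGM.mop (hx : PGM x) {X : ℕ → Bool} {a b c : ℕ} (h : Mv n X a b c) :
    x h.v * Mop x a b c h.ab h.bc h.cn = x h.v * x h.p * x h.p' * x h.v' := by
  have hab := h.ab
  have hbc := h.bc
  have hcn := h.cn
  have e1 := (hx.act (C_H_same h.v b c h.bc h.cn (fun i h1 h2 => h.gap i (by omega) h2))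
    (hc_C h.bc h.cn h.v)).1
  rw [show hc b c h.bc h.cn h.v = h.p from hc_one _ _ _ _ _ _ _] at e1
  have e2 := (hx.act (C_H_right h.p a b c h.ab (by omega) h.bc h.xa (by
    change sw b c b = c; simp [sw]) h.gap) (hc_C h.ab (by omega) h.p)).1
  rw [hc_p] at e2
  have e3 := (hx.act (C_one h.p' (fun i => decide (i ≠ a)) (neY_big (by omega)) (by
    intro i hi
    have hi' : mvX X a c i = true := hi
    simp only [mvX] at hi'
    grind)) (cut_C _ _ h.p')).1
  rw [cut_p'] at e3
  unfold Mop
  calc _ = (x h.v * x (H b c h.bc h.cn)) * x (H a b h.ab (by omega)) *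
        x (one (fun i => decide (i ≠ a)) (neY_big (by omega))) := by simp only [mul_assoc]
    _ = x h.v * (x h.p * x (H a b h.ab (by omega))) *
        x (one (fun i => decide (i ≠ a)) (neY_big (by omega))) := by
        rw [e1]; simp only [mul_assoc]
    _ = x h.v * x h.p * (x h.p' * x (one (fun i => decide (i ≠ a)) (neY_big (by omega)))) := by
        rw [e2]; simp only [mul_assoc]
    _ = _ := by rw [e3]; simp only [mul_assoc]

theorem PGM.inv1 (hx : PGM x) {X : ℕ → Bool} {a b c : ℕ} (h : Mv n X a b c) :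
    x h.v * x h.p * x h.p' * x h.v' * (x h.v' * x h.p' * x h.p * x h.v) = x h.v ∧
    x h.v' * x h.p' * x h.p * x h.v * (x h.v * x h.p * x h.p' * x h.v') = x h.v' := by
  have hab := h.ab
  have hbc := h.bc
  have hcn := h.cn
  have e2 := hx.act (C_H_right h.p a b c h.ab (by omega) h.bc h.xa (by
    change sw b c b = c; simp [sw]) h.gap) (hc_C h.ab (by omega) h.p)
  rw [hc_p] at e2
  have f1 : x h.p' * x h.v' * x h.p' = x h.p' := hx.fr rfl
  have f2 : x h.v * x h.p * x h.v = x h.v := hx.fr rfl
  have f3 : x h.p * x h.v * x h.p = x h.p := hx.fr rfl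
  have f4 : x h.v' * x h.p' * x h.v' = x h.v' := hx.fr rfl
  constructor
  · calc _ = x h.v * x h.p * (x h.p' * (x h.v' * x h.v') * x h.p') * x h.p * x h.v := by
          simp only [mul_assoc]
      _ = x h.v * (x h.p * x h.p' * x h.p) * x h.v := by
          rw [hx.idem, f1]; simp only [mul_assoc]
      _ = _ := by rw [e2.2.2.1, f2]
  · calc _ = x h.v' * x h.p' * (x h.p * (x h.v * x h.v) * x h.p) * x h.p' * x h.v' := by
          simp only [mul_assoc]
      _ = x h.v' * (x h.p' * x h.p * x h.p') * x h.v' := by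
          rw [hx.idem, f3]; simp only [mul_assoc]
      _ = _ := by rw [e2.2.2.2, f4]

end

end Pool.Agent.W_MP_aeed81_al
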