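import Pool.Agent.W_MP_aeed81_al.MCover

set_option linter.unusedVariables false
set_option linter.unusedSectionVars false

namespace Pool.Agent.W_MP_aeed81_al

open MD

variable {n r : ℕ}

/-! ### labels of moves -/

theorem lam_good {g f : MD n} {m : ℕ → ℕ} {j s t : ℕ} (hst : s + t ≤ m (j + 1)) (hs : 1 ≤ s)
    (h1 : g.X = XG m) (h2 : f.X = XG (gmv m j (s + t)))
    (h3 : g.w (pos m j + s) = pos m j + s + t) (h4 : f.w (pos m j) = pos m j + s)
    (hb : ¬ Bad r m j s t) : lam n r g f = 1 := by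
  apply lam_one
  · rintro ⟨q, k1, k2, k3, k4⟩
    have e1 : q.m = m := XG_inj (by rw [← h1, ← k1])
    have e2 : gmv q.m q.j (q.s + q.t) = gmv m j (s + t) := XG_inj (by rw [← h2, ← k2])
    have s1 := q.hs
    have s3 := q.hst
    have e3 : q.j = j := by
      by_contra hne
      have a1 := congrFun e2 q.j
      have a2 := congrFun e2 j
      rw [e1] at a1 a2
      simp only [gmv] at a1 a2
      grind
    have ea : q.a = pos m j := by rw [TQ.a, e1, e3]
    have eb : q.b = pos m j + s := by rw [← h4, ← k4, ea]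
    have ec : q.c = pos m j + s + t := by rw [← h3, ← k3, eb]
    have eb1 : q.b = q.a + q.s := rfl
    have ec1 : q.c = q.b + q.t := rfl
    have e5 : q.s = s := by omega
    have e6 : q.t = t := by omega
    apply hb
    rw [← e1, ← e3, ← e5, ← e6]
    exact q.bad
  · rintro ⟨q, k1, k2, k3, k4⟩
    have e1 : q.m = gmv m j (s + t) := XG_inj (by rw [← h2, ← k1])
    have e2 : m = gmv q.m q.j (q.s + q.t) := XG_inj (by rw [← h1, ← k2])
    have p1 : pos q.m q.j = if q.j = j then pos m j + (s + t) else pos m q.j := by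
      rw [e1, pos_gmv _ _ _ hst]
    have p2 : pos m q.j = pos q.m q.j + (q.s + q.t) := by
      conv_lhs => rw [e2]
      rw [pos_gmv _ _ _ q.hst, if_pos rfl]
    have s1 := q.hs
    split_ifs at p1 with hj
    · rw [← hj] at p1; omega
    · omega

/-! ### the section together with the homomorphism from the free group -/

structure Sec {S : Type*} [Semigroup S] (x : MD n → S) (r : ℕ) where
  hx : PGM x
  hr : r ≤ n
  T : (ℕ → ℕ) → S
  Ti : (ℕ → ℕ) → S
  lk : ∀ m, (∃ i, i ≤ r ∧ 2 ≤ m i) → Vd n r m →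
    Lk (Es x (XG (mbase n r))) (Es x (XG m)) (T m) (Ti m)
  base : 2 ≤ n - r → T (mbase n r) = Es x (XG (mbase n r))
  good : ∀ m j s t, Vd n r m → j < r → 1 ≤ s → 1 ≤ t → s + t ≤ m (j + 1) → ¬ Bad r m j s t →
    T m * Mp x (pos m j) (pos m j + s) (pos m j + s + t) = T (gmv m j (s + t))
  ψ : FreeGroup (TQ n r) → S
  ψ1 : ψ 1 = Es x (XG (mbase n r))
  ψm : ∀ g h, ψ (g * h) = ψ g * ψ h
  ψof : ∀ q : TQ n r, ψ (FreeGroup.of q) =
    T q.m * Mp x q.a q.b q.c * Ti (gmv q.m q.j (q.s + q.t))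
  ψe : ∀ g, Es x (XG (mbase n r)) * ψ g = ψ g ∧ ψ g * Es x (XG (mbase n r)) = ψ g

theorem gap_src {m : ℕ → ℕ} {j s t : ℕ} (hj : j < r) (hs : 1 ≤ s) (ht : 1 ≤ t)
    (hst : s + t ≤ m (j + 1)) : ∃ i, i ≤ r ∧ 2 ≤ m i := ⟨j + 1, by omega, by omega⟩

theorem gap_tgt {m : ℕ → ℕ} {j s t : ℕ} (hj : j < r) (hs : 1 ≤ s) (ht : 1 ≤ t)
    (hst : s + t ≤ m (j + 1)) : ∃ i, i ≤ r ∧ 2 ≤ gmv m j (s + t) i :=
  ⟨j, by omega, by simp only [gmv, if_true]; omega⟩

section

variable {S : Type*} [Semigroup S] {x : MD n → S}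

theorem exists_sec (hx : PGM x) (hr : r ≤ n) : Nonempty (Sec x r) := by
  obtain ⟨T, Ti, h1, h2, h3⟩ := hx.exists_section r hr
  have he : Es x (XG (mbase n r)) * Es x (XG (mbase n r)) = Es x (XG (mbase n r)) := hx.Es_idem _
  have hL : ∀ q : TQ n r, Lk (Es x (XG (mbase n r))) (Es x (XG (mbase n r)))
      (T q.m * Mp x q.a q.b q.c * Ti (gmv q.m q.j (q.s + q.t)))
      (T (gmv q.m q.j (q.s + q.t)) * (Bi x (q.vd.mv q.hj q.hs q.ht q.hst) * Ti q.m)) := by
    intro q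
    have l1 := h1 q.m (gap_src q.hj q.hs q.ht q.hst) q.vd
    have l2 := h1 _ (gap_tgt q.hj q.hs q.ht q.hst) ((Vd.gmv (n := n) q.hj q.hst).2 q.vd)
    have l3 := (l1.trans (hx.move' q.vd q.hj q.hs q.ht q.hst)).trans l2.symm
    have e : T q.m * Mp x q.a q.b q.c * Ti (gmv q.m q.j (q.s + q.t)) =
        T q.m * (Es x (XG q.m) * Mp x (pos q.m q.j) (pos q.m q.j + q.s) (pos q.m q.j + q.s + q.t)) *
          Ti (gmv q.m q.j (q.s + q.t)) := by
      rw [← mul_assoc (T q.m), l1.aq]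
      rfl
    rw [e]
    exact l3
  obtain ⟨ψ, g1, g2, g3, g4, g5⟩ := exists_psi he
    (fun q : TQ n r => T q.m * Mp x q.a q.b q.c * Ti (gmv q.m q.j (q.s + q.t)))
    (fun q : TQ n r => T (gmv q.m q.j (q.s + q.t)) * (Bi x (q.vd.mv q.hj q.hs q.ht q.hst) * Ti q.m))
    (fun q => (hL q).pa) (fun q => (hL q).aq) (fun q => (hL q).qb) (fun q => (hL q).bp)
    (fun q => (hL q).ab) (fun q => (hL q).ba)
  exact ⟨⟨hx, hr, T, Ti, h1, h2, h3, ψ, g1, g2, g3, g5⟩⟩

variable (K : Sec x r)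

/-- a move -/
theorem Sec.move {m : ℕ → ℕ} {j s t : ℕ} (hv : Vd n r m) (hj : j < r) (hs : 1 ≤ s) (ht : 1 ≤ t)
    (hst : s + t ≤ m (j + 1)) {g f : MD n}
    (h1 : g.X = XG m) (h2 : f.X = XG (gmv m j (s + t)))
    (h3 : g.w (pos m j + s) = pos m j + s + t) (h4 : f.w (pos m j) = pos m j + s) :
    K.T m * Mp x (pos m j) (pos m j + s) (pos m j + s + t) =
      K.ψ (lam n r g f) * K.T (gmv m j (s + t)) := by
  have l1 := K.lk m (gap_src hj hs ht hst) hv
  have l2 := K.lk _ (gap_tgt hj hs ht hst) ((Vd.gmv (n := n) hj hst).2 hv)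
  by_cases hb : Bad r m j s t
  · have e : lam n r g f = FreeGroup.of (⟨m, j, s, t, hv, hj, hs, ht, hst, hb⟩ : TQ n r) :=
      lam_of ⟨h1, h2, h3, h4⟩
    rw [e, K.ψof]
    change _ = K.T m * Mp x (pos m j) (pos m j + s) (pos m j + s + t) * K.Ti (gmv m j (s + t)) *
      K.T (gmv m j (s + t))
    rw [mul_assoc _ (K.Ti _), l2.ba]
    have k := (K.hx.move' hv hj hs ht hst).aq
    calc _ = K.T m * Es x (XG m) * Mp x (pos m j) (pos m j + s) (pos m j + s + t) := by
          rw [l1.aq]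
      _ = K.T m * (Es x (XG m) * Mp x (pos m j) (pos m j + s) (pos m j + s + t)) := by
          rw [mul_assoc]
      _ = K.T m * (Es x (XG m) * Mp x (pos m j) (pos m j + s) (pos m j + s + t)) *
          Es x (XG (gmv m j (s + t))) := by rw [mul_assoc (K.T m), k]
      _ = _ := by rw [← mul_assoc (K.T m), l1.aq]
  · rw [lam_good hst hs h1 h2 h3 h4 hb, K.ψ1, l2.pa, K.good m j s t hv hj hs ht hst hb]

/-- the inverse of a move -/
theorem Sec.back {m : ℕ → ℕ} {j s t : ℕ} (hv : Vd n r m) (hj : j < r) (hs : 1 ≤ s) (ht : 1 ≤ t)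
    (hst : s + t ≤ m (j + 1)) {g f : MD n}
    (h1 : g.X = XG m) (h2 : f.X = XG (gmv m j (s + t)))
    (h3 : g.w (pos m j + s) = pos m j + s + t) (h4 : f.w (pos m j) = pos m j + s) :
    K.T (gmv m j (s + t)) * Bi x (hv.mv hj hs ht hst) = K.ψ (lam n r f g) * K.T m := by
  have l1 := K.lk m (gap_src hj hs ht hst) hv
  have l2 := K.lk _ (gap_tgt hj hs ht hst) ((Vd.gmv (n := n) hj hst).2 hv)
  have l3 := K.hx.move' hv hj hs ht hst
  have e1 := K.move hv hj hs ht hst h1 h2 h3 h4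
  have e2 : K.ψ (lam n r f g) * K.ψ (lam n r g f) = Es x (XG (mbase n r)) := by
    rw [← K.ψm, lam_L2, K.ψ1]
  calc K.T (gmv m j (s + t)) * Bi x (hv.mv hj hs ht hst)
      = (K.ψ (lam n r f g) * K.ψ (lam n r g f)) * K.T (gmv m j (s + t)) *
        Bi x (hv.mv hj hs ht hst) := by rw [e2, l2.pa]
    _ = K.ψ (lam n r f g) * (K.T m * Mp x (pos m j) (pos m j + s) (pos m j + s + t)) *
        Bi x (hv.mv hj hs ht hst) := by rw [e1]; simp only [mul_assoc]
    _ = K.ψ (lam n r f g) * ((K.T m * Es x (XG m)) *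
        Mp x (pos m j) (pos m j + s) (pos m j + s + t)) * Bi x (hv.mv hj hs ht hst) := by
        rw [l1.aq]
    _ = K.ψ (lam n r f g) * K.T m * ((Es x (XG m) *
        Mp x (pos m j) (pos m j + s) (pos m j + s + t)) * Bi x (hv.mv hj hs ht hst)) := by
        simp only [mul_assoc]
    _ = _ := by rw [l3.ab, mul_assoc, l1.aq]

end

/-- configurations that are not isolated -/
def MGood (r : ℕ) (d : MD n) : Prop := ∃ m, d.X = XG m ∧ Vd n r m ∧ ∃ i, i ≤ r ∧ 2 ≤ m i

open Classical in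
/-- the gap vector of a configuration -/
noncomputable def gv (X : ℕ → Bool) : ℕ → ℕ := if h : ∃ m, XG m = X then h.choose else fun _ => 0

theorem gv_XG (m : ℕ → ℕ) : gv (XG m) = m := by
  have h : ∃ m', XG m' = XG m := ⟨m, rfl⟩
  unfold gv
  rw [dif_pos h]
  exact XG_inj h.choose_spec

/-- the defect just moves left -/
def gmvL (m : ℕ → ℕ) (j d : ℕ) : ℕ → ℕ :=
  fun i => if i = j then m i - d else if i = j + 1 then m i + d else m i

theorem gmv_gmvL (m : ℕ → ℕ) (j d : ℕ) (h : d ≤ m j) : gmv (gmvL m j d) j d = m := by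
  funext i
  simp only [gmv, gmvL]
  split_ifs <;> first | rfl | omega | (subst_vars; omega)

theorem pos_prev (m : ℕ → ℕ) (j : ℕ) (i : ℕ) (h : i ≤ pos m j)
    (h1 : ∀ k, i ≤ k → k < pos m j → XG m k = false) : pos m j - i ≤ m j := by
  rcases j with _ | k
  · rw [pos_zero]; omega
  · rw [pos_succ] at h h1 ⊢
    by_contra hc
    have := h1 (pos m k) (by omega) (by omega)
    rw [XG_pos] at this
    exact absurd this (by simp)

theorem pos_next (m : ℕ → ℕ) (j : ℕ) (c : ℕ)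
    (h1 : ∀ k, pos m j < k → k ≤ c → XG m k = false) : c ≤ pos m j + m (j + 1) := by
  by_contra hc
  have := h1 (pos m (j + 1)) (by rw [pos_succ]; omega) (by rw [pos_succ]; omega)
  rw [XG_pos] at this
  exact absurd this (by simp)

theorem Vd.idx {m : ℕ → ℕ} (h : Vd n r m) {i : ℕ} (hi : i < n) (hX : XG m i = true) :
    ∃ j, j < r ∧ pos m j = i := by
  rw [XG_iff] at hX
  obtain ⟨j, hj⟩ := hX
  refine ⟨j, ?_, hj⟩
  rw [← hj, ← h.2] at hi
  exact (pos_strictMono m).lt_iff_lt.1 hi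

section

variable {S : Type*} [Semigroup S] {x : MD n → S} (K : Sec x r)

theorem Sec.TEs {m : ℕ → ℕ} (hg : ∃ i, i ≤ r ∧ 2 ≤ m i) (hv : Vd n r m) {f : MD n}
    (hf : f.X = XG m) : K.T m * x (one f.X f.big) = K.T m := by
  have l := (K.lk m hg hv).aq
  rw [Es_eq _ hv.big] at l
  have : (one f.X f.big : MD n) = one (XG m) hv.big := by
    apply MD.ext
    · rfl
    · exact hf
  rw [this]; exact l

theorem Sec.step_one (d : MD n) (Y : ℕ → Bool) (hY : ∀ i, n ≤ i → Y i = true) (hd : MGood r d)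
    (h : cj d (one Y hY) = d) :
    MGood r (cj (one Y hY) d) ∧ K.T (gv d.X) * x d * x (one Y hY) =
      K.ψ (lam n r d (cj (one Y hY) d)) * (K.T (gv (cj (one Y hY) d).X) * x (cj (one Y hY) d)) := by
  have hs := act_sub h
  rw [cj_one]
  have hX : (MD.cut Y hY d).X = d.X := by
    funext i
    change (d.X i && Y i) = d.X i
    cases hi : d.X i
    · rfl
    · rw [hs i hi]; rfl
  obtain ⟨m, m1, m2, m3⟩ := hd
  refine ⟨⟨m, by rw [hX, m1], m2, m3⟩, ?_⟩
  rw [lam_X hX.symm, hX, m1, gv_XG, K.ψ1, ← mul_assoc, (K.lk m m3 m2).pa]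
  rw [← K.TEs m3 m2 m1]
  have := K.hx.cut d Y hY hs
  calc _ = K.T m * (x (one d.X d.big) * x d * x (one Y hY)) := by simp only [mul_assoc]
    _ = _ := by rw [this, mul_assoc]

end

end Pool.Agent.W_MP_aeed81_al
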