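import Pool.Agent.W_MP_aeed81_al.MStep

set_option linter.unusedVariables false
set_option linter.unusedSectionVars false

namespace Pool.Agent.W_MP_aeed81_al

open MD

variable {n r : ℕ}

theorem no_defect_inside {f : MD n} {a b : ℕ} (hab : a < b) (hb : b < n)
    (h : cj f (H a b hab hb) = f) : ∀ i, a < i → i < b → f.X i = false := by
  intro i h1 h2
  cases hi : f.X i
  · rfl
  · have k := H_inner hab hb h1 h2
    have := act_iso h hi k.1
    rw [k.2] at this
    exact this.symm

/-- hook at a defect on the left end -/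
theorem right_geom {d : MD n} {a b : ℕ} (hab : a < b) (hb : b < n)
    (h : cj d (H a b hab hb) = d) (ha : d.X a = true) :
    b < d.w b ∧ d.w b < n ∧ ∀ i, a < i → i ≤ d.w b → d.X i = false := by
  obtain ⟨e1, e2⟩ := act_H_end hab hb h (y := a) (z := b) (Or.inl ⟨rfl, rfl⟩) ha
  have hin := no_defect_inside hab hb h
  have hbX : d.X b = false := by
    cases hX : d.X b
    · rfl
    · exact absurd (d.fix b hX) e1
  have hc : b < d.w b := by
    rcases e2 with e2 | e2
    · exfalso
      have := d.pl (d.w b) a e2 (by rw [d.inv]; exact hab)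
      rw [ha] at this
      exact absurd this.1 (by simp)
    · exact e2
  refine ⟨hc, d.lt_of_w_ne (by rw [d.inv]; exact Ne.symm e1), ?_⟩
  intro i h1 h2
  rcases Nat.lt_trichotomy i b with h3 | h3 | h3
  · exact hin i h1 h3
  · rw [h3]; exact hbX
  · by_cases h4 : i = d.w b
    · rw [h4]; exact d.X_w hbX
    · exact (d.pl b i h3 (by omega)).1

/-- hook at a defect on the right end -/
theorem left_geom {d : MD n} {a b : ℕ} (hab : a < b) (hb : b < n)
    (h : cj d (H a b hab hb) = d) (hbd : d.X b = true) :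
    d.w a < a ∧ ∀ i, d.w a ≤ i → i < b → d.X i = false := by
  obtain ⟨e1, e2⟩ := act_H_end hab hb h (y := b) (z := a) (Or.inr ⟨rfl, rfl⟩) hbd
  have hin := no_defect_inside hab hb h
  have haX : d.X a = false := by
    cases hX : d.X a
    · rfl
    · exact absurd (d.fix a hX) e1
  have hc : d.w a < a := by
    rcases e2 with e2 | e2
    · exact e2
    · exfalso
      have := d.pl a b hab e2
      rw [hbd] at this
      exact absurd this.1 (by simp)
  refine ⟨hc, ?_⟩
  intro i h1 h2
  rcases Nat.lt_trichotomy i a with h3 | h3 | h3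
  · by_cases h4 : i = d.w a
    · rw [h4]; exact d.X_w haX
    · exact (d.pl (d.w a) i (by omega) (by rw [d.inv]; exact h3)).1
  · rw [h3]; exact haX
  · exact hin i h3 h2

theorem cj_H_w {a b : ℕ} (hab : a < b) (hb : b < n) (d : MD n) :
    (hc a b hab hb d).w a = b := by
  rw [← cj_H hab hb d]
  have e := cj_w_of_w (q := H a b hab hb) (f := d) (b := a) (by rw [H_w_left hab hb]; omega)
  rw [e, H_w_left hab hb]

section

variable {S : Type*} [Semigroup S] {x : MD n → S} (K : Sec x r)

theorem Sec.step_H (d : MD n) {a b : ℕ} (hab : a < b) (hb : b < n) (hd : MGood r d)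
    (h : cj d (H a b hab hb) = d) :
    MGood r (cj (H a b hab hb) d) ∧ K.T (gv d.X) * x d * x (H a b hab hb) =
      K.ψ (lam n r d (cj (H a b hab hb) d)) *
        (K.T (gv (cj (H a b hab hb) d).X) * x (cj (H a b hab hb) d)) := by
  rw [cj_H]
  have hin := no_defect_inside hab hb h
  have hw := cj_H_w hab hb d
  obtain ⟨m, m1, m2, m3⟩ := hd
  by_cases ha : d.X a = true
  · -- the defect `a` moves right
    obtain ⟨g1, g2, g3⟩ := right_geom hab hb h ha
    obtain ⟨j, hj, hja⟩ := m2.idx (i := a) (by omega) (by rw [← m1]; exact ha)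
    obtain ⟨s, hs⟩ : ∃ s, b = a + s := ⟨b - a, by omega⟩
    obtain ⟨t, ht⟩ : ∃ t, d.w b = a + s + t := ⟨d.w b - b, by omega⟩
    have hst : s + t ≤ m (j + 1) := by
      have := pos_next m j (d.w b) (by rw [hja, ← m1]; exact g3)
      omega
    have hs1 : 1 ≤ s := by omega
    have ht1 : 1 ≤ t := by omega
    have mv := m2.mv hj hs1 ht1 hst
    subst hja
    subst hs
    have hX' : (hc (pos m j) (pos m j + s) hab hb d).X = mvX d.X (pos m j) (pos m j + s + t) :=
      hc_slide_X d _ _ _ hab hb (by omega) ha ht (by rw [← ht]; exact g3)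
    have hX2 : (hc (pos m j) (pos m j + s) hab hb d).X = XG (gmv m j (s + t)) := by
      rw [hX', m1, XG_gmv m j (s + t) (by omega) hst, Nat.add_assoc]
    refine ⟨⟨_, hX2, (Vd.gmv (n := n) hj hst).2 m2, gap_tgt hj hs1 ht1 hst⟩, ?_⟩
    rw [hX2, gv_XG, m1, gv_XG, ← mul_assoc, ← K.move m2 hj hs1 ht1 hst m1 hX2 ht hw]
    obtain ⟨u1, u2⟩ := K.hx.u3R mv d m1 ht hb
    have u1' : x mv.v * x d * x (H (pos m j) (pos m j + s) hab hb) =
      x mv.v * x mv.p * x mv.p' * x (hc (pos m j) (pos m j + s) hab hb d) := u1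
    have u2' : x mv.p' * x mv.v' * x (hc (pos m j) (pos m j + s) hab hb d) =
      x mv.p' * x (hc (pos m j) (pos m j + s) hab hb d) := u2
    have e1 : K.T m * x mv.v = K.T m := by
      have := (K.lk m m3 m2).aq
      rw [Es_eq _ m2.big] at this
      exact this
    have e2 := K.hx.mop mv
    rw [Mp_eq mv.ab mv.bc mv.cn]
    calc _ = K.T m * x mv.v * x d * x (H (pos m j) (pos m j + s) hab hb) := by rw [e1]
      _ = K.T m * (x mv.v * x d * x (H (pos m j) (pos m j + s) hab hb)) := by
          simp only [mul_assoc]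
      _ = K.T m * x mv.v * x mv.p * (x mv.p' * x mv.v' *
            x (hc (pos m j) (pos m j + s) hab hb d)) := by
          rw [u1', u2']; simp only [mul_assoc]
      _ = K.T m * (x mv.v * x mv.p * x mv.p' * x mv.v') *
            x (hc (pos m j) (pos m j + s) hab hb d) := by simp only [mul_assoc]
      _ = K.T m * x mv.v * Mop x (pos m j) (pos m j + s) (pos m j + s + t) mv.ab mv.bc mv.cn *
            x (hc (pos m j) (pos m j + s) hab hb d) := by
          rw [← e2]; simp only [mul_assoc]
      _ = _ := by rw [e1]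
  by_cases hbd : d.X b = true
  · -- the defect `b` moves left
    obtain ⟨g1, g3⟩ := left_geom hab hb h hbd
    obtain ⟨j, hj, hja⟩ := m2.idx (i := b) hb (by rw [← m1]; exact hbd)
    have hle : b - d.w a ≤ m j := by
      rw [← hja]
      apply pos_prev m j (d.w a) (by omega)
      rw [hja, ← m1]; exact g3
    obtain ⟨m0, hm0⟩ : ∃ m0, m0 = gmvL m j (b - d.w a) := ⟨_, rfl⟩
    have hgm : gmv m0 j (b - d.w a) = m := by rw [hm0]; exact gmv_gmvL m j _ hle
    obtain ⟨s, hs⟩ : ∃ s, a = d.w a + s := ⟨a - d.w a, by omega⟩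
    obtain ⟨t, ht⟩ : ∃ t, b = a + t := ⟨b - a, by omega⟩
    have hst' : b - d.w a = s + t := by omega
    rw [hst'] at hgm
    have hst : s + t ≤ m0 (j + 1) := by
      rw [hm0]; simp only [gmvL]; rw [if_neg (by omega)]; simp only [if_true]; omega
    have hs1 : 1 ≤ s := by omega
    have ht1 : 1 ≤ t := by omega
    have v0 : Vd n r m0 := by
      rw [← hgm] at m2
      exact (Vd.gmv (n := n) hj hst).1 m2
    have hp : pos m0 j = d.w a := by
      have := pos_gmv m0 j (s + t) hst j
      rw [if_pos rfl, hgm] at this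
      omega
    have ea : a = pos m0 j + s := by omega
    have eb : b = pos m0 j + s + t := by omega
    have mv := v0.mv hj hs1 ht1 hst
    have hwa : d.w a = pos m0 j := hp.symm
    have hwp : d.w (pos m0 j) = a := by rw [hp, d.inv]
    subst ea
    subst eb
    have hX1 : d.X = mvX (XG m0) (pos m0 j) (pos m0 j + s + t) := by
      rw [m1, ← hgm, XG_gmv m0 j (s + t) (by omega) hst, Nat.add_assoc]
    obtain ⟨u1, u2, hX2⟩ := K.hx.u3L mv d hX1 hwa
    refine ⟨⟨_, hX2, v0, gap_src hj hs1 ht1 hst⟩, ?_⟩
    have hb1 := K.back v0 hj hs1 ht1 hst hX2 (by rw [m1, ← hgm]) hw hwp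
    rw [hX2, gv_XG, m1, gv_XG, ← mul_assoc, ← hb1, hgm]
    have e1 : K.T m * x mv.v' = K.T m := by
      have := K.TEs m3 m2 m1
      have e : (one d.X d.big : MD n) = mv.v' := by
        apply MD.ext
        · rfl
        · exact hX1
      rw [e] at this
      exact this
    calc _ = K.T m * x mv.v' * x d *
            x (H (pos m0 j + s) (pos m0 j + s + t) hab hb) := by rw [e1]
      _ = K.T m * (x mv.v' * x d * x (H (pos m0 j + s) (pos m0 j + s + t) hab hb)) := by
          simp only [mul_assoc]
      _ = K.T m * x mv.v' * x mv.p' * (x mv.p * x mv.v *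
            x (hc (pos m0 j + s) (pos m0 j + s + t) hab hb d)) := by
          rw [u2]
          have u1' : x mv.v' * x d * x (H (pos m0 j + s) (pos m0 j + s + t) hab hb) =
            x mv.v' * x mv.p' * x mv.p * x (hc (pos m0 j + s) (pos m0 j + s + t) hab hb d) := u1
          rw [u1']; simp only [mul_assoc]
      _ = _ := by unfold Bi; simp only [mul_assoc]
  · -- no defect at the hook
    have hin' : ∀ i, a ≤ i → i ≤ b → d.X i = false := by
      intro i h1 h2
      by_cases h3 : i = a
      · rw [h3]; simpa using ha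
      by_cases h4 : i = b
      · rw [h4]; simpa using hbd
      exact hin i (by omega) (by omega)
    have hX : (hc a b hab hb d).X = d.X := hc_same_X d a b hab hb hin'
    refine ⟨⟨m, by rw [hX, m1], m2, m3⟩, ?_⟩
    rw [lam_X hX.symm, hX, m1, gv_XG, K.ψ1, ← mul_assoc, (K.lk m m3 m2).pa]
    rw [← K.TEs m3 m2 m1]
    have := K.hx.u2 d a b hab hb hin'
    calc _ = K.T m * (x (one d.X d.big) * x d * x (H a b hab hb)) := by simp only [mul_assoc]
      _ = _ := by rw [this, mul_assoc]

end

end Pool.Agent.W_MP_aeed81_al
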