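import Pool.Agent.W_MP_aeed81_al.MStep2

set_option linter.unusedVariables false
set_option linter.unusedSectionVars false

namespace Pool.Agent.W_MP_aeed81_al

open MD

variable {n r : ℕ}

theorem Vd.card {m : ℕ → ℕ} (h : Vd n r m) {d : MD n} (hd : d.X = XG m) : (dX d).card = r := by
  obtain ⟨m', h1, h2⟩ := exists_gap n d.X d.big
  have e : m' = m := XG_inj (by rw [h1, hd])
  rw [e] at h2
  have h3 : pos m (dX d).card = n := h2.2
  have h4 := h.2
  exact (pos_strictMono m).injective (by rw [h3, h4])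

/-- a configuration fixed by the base idempotent -/
theorem fix_base {m0 m : ℕ → ℕ} (h0 : Vd n r m0) (hm : Vd n r m) {d : MD n} (hd : d.X = XG m)
    (h1 : cj d (one (XG m0) h0.big) = d) (h2 : cj (one (XG m0) h0.big) d = d) :
    d = one (XG m0) h0.big := by
  have hs := act_sub h1
  have hX : d.X = (one (XG m0) h0.big : MD n).X := by
    apply X_eq_of_subset
    · rw [hm.card hd, h0.card (d := one (XG m0) h0.big) rfl]
    · exact hs
  have hX' : d.X = XG m0 := hX
  apply MD.ext
  · funext i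
    change d.w i = i
    have h3 : d.w i = (cj (one (XG m0) h0.big) d).w i := by rw [h2]
    rw [cj_one] at h3
    change d.w i = if XG m0 i = true ∧ XG m0 (d.w i) = true then d.w i else i at h3
    by_cases h4 : XG m0 i = true ∧ XG m0 (d.w i) = true
    · rw [← hX'] at h4
      exact d.fix i h4.1
    · rw [if_neg h4] at h3
      exact h3
  · exact hX

section

variable {S : Type*} [Semigroup S] {x : MD n → S} (K : Sec x r)
  (Φ : S → ROp (MD n × FreeGroup (TQ n r))) (Φm : ∀ a b, Φ (a * b) = Φ a * Φ b)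
  (Φx : ∀ p, Φ (x p) = opr (lam n r) p)

include Φm Φx

theorem comm_mgens : ∀ a ∈ mgens x, ∀ (g : FreeGroup (TQ n r)) (d : MD n) (h : FreeGroup (TQ n r)),
    (Φ a).1 (some (d, g * h)) = ((Φ a).1 (some (d, h))).map (fun p => (p.1, g * p.2)) := by
  have key : ∀ p (g : FreeGroup (TQ n r)) (d : MD n) (h : FreeGroup (TQ n r)),
      (Φ (x p)).1 (some (d, g * h)) = ((Φ (x p)).1 (some (d, h))).map (fun p => (p.1, g * p.2)) := by
    intro p g d h
    rw [Φx, opr_val, opr_val]
    split_ifs
    · simp [mul_assoc]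
    · rfl
  rintro a (⟨Y, hY, rfl⟩ | ⟨a, b, hab, hb, rfl⟩) g d h
  · exact key _ g d h
  · exact key _ g d h

theorem opx {p f : MD n} (h : FreeGroup (TQ n r)) (hp : cj f p = f) :
    (Φ (x p)).1 (some (f, h)) = some (cj p f, h * lam n r f (cj p f)) := by
  rw [Φx, opr_pos (lam n r) h hp]

/-- same defects -/
theorem cj_sameX {f g : MD n} (h : f.X = g.X) : cj f g = f := cj_eq (C_sameX h)

theorem op_sameX {p f : MD n} (h : FreeGroup (TQ n r)) (hp : f.X = p.X) :
    (Φ (x p)).1 (some (f, h)) = some (p, h) := by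
  rw [opx Φ Φm Φx h (cj_sameX Φ Φm Φx hp), cj_sameX Φ Φm Φx hp.symm, lam_X hp, mul_one]

theorem op_act {p f f' : MD n} (h : FreeGroup (TQ n r)) (hp : cj f p = f) (hf : cj p f = f') :
    (Φ (x p)).1 (some (f, h)) = some (f', h * lam n r f f') := by
  rw [opx Φ Φm Φx h hp, hf]

theorem op_mul {a b : S} {u v w : MD n × FreeGroup (TQ n r)} (h1 : (Φ a).1 (some u) = some v)
    (h2 : (Φ b).1 (some v) = some w) : (Φ (a * b)).1 (some u) = some w := by
  rw [Φm, ROp.mul_val, h1, h2]

/-- the operator of a move -/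
theorem op_Mop {X : ℕ → Bool} {a b c : ℕ} (h : Mv n X a b c) (g : FreeGroup (TQ n r)) :
    (Φ (Mp x a b c)).1 (some (h.v, g)) = some (h.v', g * lam n r h.p h.p') := by
  have hab := h.ab
  have hbc := h.bc
  have hcn := h.cn
  rw [Mp_eq h.ab h.bc h.cn]
  have e1 : (Φ (x (H b c h.bc h.cn))).1 (some (h.v, g)) = some (h.p, g) := by
    have := op_act Φ Φm Φx (p := H b c h.bc h.cn) (f := h.v) (f' := h.p) g
      (cj_eq (C_H_same h.v b c h.bc h.cn (fun i h1 h2 => h.gap i (by omega) h2)))
      (by rw [cj_H]; exact hc_one _ _ _ _ _ _ _)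
    rw [this, lam_X (show h.v.X = h.p.X from rfl), mul_one]
  have e2 : (Φ (x (H a b h.ab (by omega)))).1 (some (h.p, g)) =
      some (h.p', g * lam n r h.p h.p') :=
    op_act Φ Φm Φx (p := H a b h.ab (by omega)) (f := h.p) (f' := h.p') g
      (cj_eq (C_H_right h.p a b c h.ab (by omega) h.bc h.xa (by
        change sw b c b = c; simp [sw]) h.gap)) (by rw [cj_H]; exact hc_p _ _ _ _ h)
  have e3 : (Φ (x (one (fun i => decide (i ≠ a)) (neY_big (by omega))))).1
      (some (h.p', g * lam n r h.p h.p')) = some (h.v', g * lam n r h.p h.p') := by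
    have := op_act Φ Φm Φx (p := one (fun i => decide (i ≠ a)) (neY_big (by omega)))
      (f := h.p') (f' := h.v') (g * lam n r h.p h.p')
      (cj_eq (C_one h.p' (fun i => decide (i ≠ a)) (neY_big (by omega)) (by
        intro i hi
        have hi' : mvX X a c i = true := hi
        simp only [mvX] at hi'
        grind))) (by rw [cj_one]; exact cut_p' _ _ _ _ h _)
    rw [this, lam_X (show h.p'.X = h.v'.X from rfl), mul_one]
  exact op_mul Φ Φm Φx (op_mul Φ Φm Φx e1 e2) e3

theorem op_Bi {X : ℕ → Bool} {a b c : ℕ} (h : Mv n X a b c) (g : FreeGroup (TQ n r)) :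
    (Φ (Bi x h)).1 (some (h.v', g)) = some (h.v, g * lam n r h.p' h.p) := by
  have hab := h.ab
  have hbc := h.bc
  have hcn := h.cn
  have hf := (fr_act (f := h.p) (p := H a b h.ab (by omega))
    (cj_eq (C_H_right h.p a b c h.ab (by omega) h.bc h.xa (by
        change sw b c b = c; simp [sw]) h.gap)))
  rw [cj_H, hc_p] at hf
  have e1 : (Φ (x h.v')).1 (some (h.v', g)) = some (h.v', g) := op_sameX Φ Φm Φx g rfl
  have e2 : (Φ (x h.p')).1 (some (h.v', g)) = some (h.p', g) := op_sameX Φ Φm Φx g rfl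
  have e3 : (Φ (x h.p)).1 (some (h.p', g)) = some (h.p, g * lam n r h.p' h.p) :=
    op_act Φ Φm Φx g hf.2 hf.1
  have e4 : (Φ (x h.v)).1 (some (h.p, g * lam n r h.p' h.p)) =
    some (h.v, g * lam n r h.p' h.p) := op_sameX Φ Φm Φx _ rfl
  exact op_mul Φ Φm Φx (op_mul Φ Φm Φx (op_mul Φ Φm Φx e1 e2) e3) e4

end

/-- the identity of the defects, total version -/
noncomputable def vv (n : ℕ) (m : ℕ → ℕ) (h : ∀ i, n ≤ i → XG m i = true) : MD n := one (XG m) h

section

variable {S : Type*} [Semigroup S] {x : MD n → S} (K : Sec x r)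
  (Φ : S → ROp (MD n × FreeGroup (TQ n r))) (Φm : ∀ a b, Φ (a * b) = Φ a * Φ b)
  (Φx : ∀ p, Φ (x p) = opr (lam n r) p)

include Φm Φx

theorem Sec.op_T (h2r : 2 ≤ n - r) : ∀ m, (∃ i, i ≤ r ∧ 2 ≤ m i) → ∀ hv : Vd n r m,
    (Φ (K.T m)).1 (some (one (XG (mbase n r)) (mbase_valid K.hr).big, 1)) =
      some (one (XG m) hv.big, 1) := by
  have key : ∀ m j s t, j < r → 1 ≤ s → 1 ≤ t → s + t ≤ m (j + 1) → ¬ Bad r m j s t →
      ((∀ hv : Vd n r m, (Φ (K.T m)).1
        (some (one (XG (mbase n r)) (mbase_valid K.hr).big, 1)) = some (one (XG m) hv.big, 1)) ↔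
      (∀ hv : Vd n r (gmv m j (s + t)), (Φ (K.T (gmv m j (s + t)))).1
        (some (one (XG (mbase n r)) (mbase_valid K.hr).big, 1)) =
          some (one (XG (gmv m j (s + t))) hv.big, 1))) := by
    intro m j s t hj hs ht hst hb
    have hvv := Vd.gmv (n := n) (d := s + t) hj hst
    have lamp : ∀ hv : Vd n r m, lam n r (hv.mv hj hs ht hst).p (hv.mv hj hs ht hst).p' = 1 := by
      intro hv
      apply lam_good hst hs rfl _ _ _ hb
      · change mvX (XG m) (pos m j) (pos m j + s + t) = _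
        rw [XG_gmv m j (s + t) (by omega) hst, Nat.add_assoc]
      · change sw (pos m j + s) (pos m j + s + t) (pos m j + s) = _
        simp [sw]
      · change sw (pos m j) (pos m j + s) (pos m j) = _
        simp [sw]
    have ev' : ∀ (hv : Vd n r m) (hv' : Vd n r (gmv m j (s + t))),
        (hv.mv hj hs ht hst).v' = one (XG (gmv m j (s + t))) hv'.big := by
      intro hv hv'
      apply MD.ext
      · rfl
      · change mvX (XG m) (pos m j) (pos m j + s + t) = XG (gmv m j (s + t))
        rw [XG_gmv m j (s + t) (by omega) hst, Nat.add_assoc]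
    constructor
    · intro h hv'
      have hv := hvv.1 hv'
      have e1 := h hv
      have e2 := op_Mop Φ Φm Φx (hv.mv hj hs ht hst) 1
      rw [lamp hv, mul_one, ev' hv hv'] at e2
      rw [← K.good m j s t hv hj hs ht hst hb]
      exact op_mul Φ Φm Φx e1 e2
    · intro h hv
      have hv' := hvv.2 hv
      have e1 := h hv'
      have e2 := op_Bi Φ Φm Φx (hv.mv hj hs ht hst) 1
      have e3 : lam n r (hv.mv hj hs ht hst).p' (hv.mv hj hs ht hst).p = 1 := by
        have := lam_L2 (n := n) (r := r) (hv.mv hj hs ht hst).p' (hv.mv hj hs ht hst).p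
        rw [lamp hv, mul_one] at this
        exact this
      rw [e3, mul_one, ev' hv hv'] at e2
      have l1 := K.lk m (gap_src hj hs ht hst) hv
      have l3 := K.hx.move' hv hj hs ht hst
      have e4 : K.T m = K.T (gmv m j (s + t)) * Bi x (hv.mv hj hs ht hst) := by
        rw [← K.good m j s t hv hj hs ht hst hb]
        calc K.T m = K.T m * ((Es x (XG m) * Mp x (pos m j) (pos m j + s) (pos m j + s + t)) *
              Bi x (hv.mv hj hs ht hst)) := by rw [l3.ab, l1.aq]
          _ = K.T m * Es x (XG m) * Mp x (pos m j) (pos m j + s) (pos m j + s + t) *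
              Bi x (hv.mv hj hs ht hst) := by simp only [mul_assoc]
          _ = _ := by rw [l1.aq]
      rw [e4]
      exact op_mul Φ Φm Φx e1 e2
  apply gap_induction r (fun m => ∀ hv : Vd n r m,
    (Φ (K.T m)).1 (some (one (XG (mbase n r)) (mbase_valid K.hr).big, 1)) =
      some (one (XG m) hv.big, 1))
  · intro m h1 h2 hv
    have := valid_base hv h1
    subst this
    rw [K.base h2r, Es_eq _ hv.big]
    exact op_sameX Φ Φm Φx 1 rfl
  · intro m j hj h2
    exact key m j 1 1 hj (le_refl _) (le_refl _) h2 (fun hb => by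
      obtain ⟨h, _⟩ := hb; omega)
  · intro m j hj h3 h4 h5 h
    exact (key m j 1 2 hj (le_refl _) (by norm_num) (by omega) (fun hb => by
      obtain ⟨_, _, _, h⟩ := hb
      exact h ⟨rfl, rfl, h3, h4⟩)).2 h

end

end Pool.Agent.W_MP_aeed81_al
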