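import Pool.Agent.W_MP_aeed81_al.Section3
import Pool.Agent.W_MP_aeed81_al.Alg

set_option linter.unusedVariables false
set_option linter.unusedSectionVars false

namespace Pool.Agent.W_MP_aeed81_al

open Sum

variable {V L M : Type*} [DecidableEq V] [DecidableEq L] [Semigroup M]

/-- Elements reached from `e` by hooks, with their states. -/
inductive Good (h : V → V → M) (e : M) (w0 : V ⊕ L → V ⊕ L) : M → (V ⊕ L → V ⊕ L) → Prop
  | base : Good h e w0 e w0
  | step {s : M} {w : V ⊕ L → V ⊕ L} {i j : V} : Good h e w0 s w → i ≠ j →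
      ((∃ v, w (inl i) = inl v) ∨ (∃ v, w (inl j) = inl v)) →
      Good h e w0 (s * h i j) (hk (inl i) (inl j) w)

/-- labels are matched with vertices -/
def LV (w : V ⊕ L → V ⊕ L) : Prop := ∀ l, ∃ v, w (inr l) = inl v

theorem LV.hk {w : V ⊕ L → V ⊕ L} (hf : FPI w) (hl : LV w) {i j : V}
    (hn : (∃ v, w (inl i) = inl v) ∨ (∃ v, w (inl j) = inl v)) : LV (hk (inl i) (inl j) w) := by
  intro l
  obtain ⟨v, hv⟩ := hl l
  have a1 := hf.inv (inl i)
  have a2 := hf.inv (inl j)
  have a3 := hf.inv (inr l)
  by_cases h1 : w (inl i) = inr l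
  · have : Pool.Agent.W_MP_aeed81_al.hk (inl i) (inl j) w (inr l) = w (inl j) := by
      simp [Pool.Agent.W_MP_aeed81_al.hk, h1]
    rw [this]
    rcases hn with ⟨u, hu⟩ | h
    · rw [hu] at h1; simp at h1
    · exact h
  · by_cases h2 : w (inl j) = inr l
    · have : Pool.Agent.W_MP_aeed81_al.hk (inl i) (inl j) w (inr l) = w (inl i) := by
        simp [Pool.Agent.W_MP_aeed81_al.hk, h2, Ne.symm h1]
      rw [this]
      rcases hn with h | ⟨u, hu⟩
      · exact h
      · rw [hu] at h2; simp at h2
    · have : Pool.Agent.W_MP_aeed81_al.hk (inl i) (inl j) w (inr l) = w (inr l) := by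
        simp [Pool.Agent.W_MP_aeed81_al.hk, Ne.symm h1, Ne.symm h2]
      exact ⟨v, this.trans hv⟩

section Facts

variable {h : V → V → M} (H : HookSys h) {e : M} {w0 : V ⊕ L → V ⊕ L} (f0 : FPI w0)
  (l0 : LV w0) (he : ∀ i j, w0 (inl i) = inl j → e * h i j = e)

include f0 in
theorem Good.fpi {s : M} {w : V ⊕ L → V ⊕ L} (g : Good h e w0 s w) : FPI w := by
  induction g with
  | base => exact f0
  | step _ hij _ ih => exact hk_fpi (by simpa using hij) ih

include f0 l0 in
theorem Good.lv {s : M} {w : V ⊕ L → V ⊕ L} (g : Good h e w0 s w) : LV w := by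
  induction g with
  | base => exact l0
  | step g hij hn ih => exact LV.hk (g.fpi f0) ih hn

theorem Good.emul (hee : e * e = e) {s : M} {w : V ⊕ L → V ⊕ L} (g : Good h e w0 s w) :
    e * s = s := by
  induction g with
  | base => exact hee
  | step _ _ _ ih => rw [← mul_assoc, ih]

theorem ne_of_w {w : V ⊕ L → V ⊕ L} (hf : FPI w) {i j : V} (e : w (inl i) = inl j) : i ≠ j := by
  rintro rfl
  exact hf.ne _ e

include H f0 he in
theorem Good.ovr {s : M} {w : V ⊕ L → V ⊕ L} (g : Good h e w0 s w) :
    ∀ {k l : V}, w (inl k) = inl l → s * h k l = s := by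
  induction g with
  | base => exact fun {k l} => he k l
  | @step s w i j g hij hn ih =>
    intro k l hkl
    have hf := g.fpi f0
    have hf' := hk_fpi (i := (inl i : V ⊕ L)) (j := inl j) (by simpa using hij) hf
    have kl := ne_of_w hf' hkl
    by_cases h1 : k = i
    · subst h1
      rw [hk_left] at hkl
      have : j = l := by simpa using hkl
      subst this
      exact H.over_self hij
    by_cases h2 : k = j
    · subst h2
      rw [hk_right (by simpa using hij)] at hkl
      have : i = l := by simpa using hkl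
      subst this
      exact H.over_self' hij
    by_cases h3 : w (inl i) = inl k
    · have e1 : hk (inl i) (inl j) w (inl k) = w (inl j) := by
        simp [hk, h1, h2, h3]
      rw [e1] at hkl
      have il : i ≠ l := by
        rintro rfl
        have := hf.inv (inl j)
        rw [hkl, h3] at this
        simp at this; exact h2 this
      exact H.byprod hij (Ne.symm h1) il (Ne.symm h2) (ne_of_w hf hkl) kl (ih h3) (ih hkl)
    by_cases h4 : w (inl j) = inl k
    · have e1 : hk (inl i) (inl j) w (inl k) = w (inl i) := by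
        simp [hk, h1, h2, Ne.symm h3, h4]
      rw [e1] at hkl
      have jl : j ≠ l := by
        rintro rfl
        have := hf.inv (inl i)
        rw [hkl, h4] at this
        simp at this; exact h1 this
      have := H.byprod hij (ne_of_w hf hkl) (Ne.symm h1) jl (Ne.symm h2) kl.symm (ih hkl) (ih h4)
      rw [H.symm k l]; exact this
    · have e1 : hk (inl i) (inl j) w (inl k) = w (inl k) := by
        simp [hk, h1, h2, Ne.symm h3, Ne.symm h4]
      rw [e1] at hkl
      have il : i ≠ l := by
        rintro rfl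
        apply h3
        rw [← hkl, hf.inv]
      have jl : j ≠ l := by
        rintro rfl
        apply h4
        rw [← hkl, hf.inv]
      exact H.over_comm kl h1 h2 il.symm jl.symm hij (ih hkl)

/-- the triangle at `{i,c}` with third vertex `j` -/
def Tri (h : V → V → M) (s : M) (i c j : V) : M := s * h i j * h c j * h i c

include H in
theorem tri_E {s : M} {a b c d : V} (ab : a ≠ b) (ac : a ≠ c) (ad : a ≠ d)
    (bc : b ≠ c) (bd : b ≠ d) (cd : c ≠ d) (hs : s * h a b = s) (ht : s * h c d = s) :
    Tri h s a b d = s * h a d * h a c * h a b := by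
  unfold Tri
  have o1 : s * h a d * h b c = s * h a d :=
    H.byprod ad ab ac bd.symm cd.symm bc hs (H.over_symm ht)
  have : s * h a d * h b d = s * h a d * h c a := by
    exact H.exch (s := s * h a d) bd bc ab.symm cd.symm ad.symm ac.symm o1 (H.over_self' ad)
  rw [this, H.symm c a]

include H in
theorem tri_v {s : M} {a b c d v : V} (ab : a ≠ b) (ac : a ≠ c) (ad : a ≠ d) (av : a ≠ v)
    (bc : b ≠ c) (bd : b ≠ d) (bv : b ≠ v) (cd : c ≠ d) (cv : c ≠ v) (dv : d ≠ v)
    (hs : s * h a b = s) (ht : s * h c d = s) :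
    Tri h s a b v = Tri h s a b d ∧ Tri h s b a v = Tri h s a b d := by
  rw [tri_E H ab ac ad bc bd cd hs ht]
  refine ⟨H.tri1 ab ac ad av bc bd bv cd cv dv hs ht, ?_⟩
  unfold Tri
  rw [H.symm b a]
  exact H.tri2 ab ac ad av bc bd bv cd cv dv hs ht

include H in
/-- all triangles over `{a,b}` are equal to the one with `d` -/
theorem tri_edge {s : M} {a b c d v : V} (ab : a ≠ b) (ac : a ≠ c) (ad : a ≠ d) (av : a ≠ v)
    (bc : b ≠ c) (bd : b ≠ d) (bv : b ≠ v) (cd : c ≠ d) (cv : c ≠ v) (dv : d ≠ v)
    (hs : s * h a b = s) (ht : s * h c d = s) (j : V) (ja : j ≠ a) (jb : j ≠ b) :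
    Tri h s a b j = Tri h s a b d ∧ Tri h s b a j = Tri h s a b d := by
  have hs' := H.over_symm hs
  have ht' := H.over_symm ht
  obtain ⟨p1, p2⟩ := tri_v H ab ac ad av bc bd bv cd cv dv hs ht
  obtain ⟨p3, p4⟩ := tri_v H ab ad ac av bd bc bv cd.symm dv cv hs ht'
  obtain ⟨p5, p6⟩ := tri_v H ab.symm bc bd bv ac ad av cd cv dv hs' ht
  obtain ⟨p7, p8⟩ := tri_v H ab.symm bd bc bv ad ac av cd.symm dv cv hs' ht'
  by_cases jc : j = c
  · subst jc
    exact ⟨by rw [← p3, p1], by rw [← p7, p2]⟩
  by_cases jd : j = d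
  · subst jd
    exact ⟨rfl, by rw [← p5, p2]⟩
  exact tri_v H ab ac ad (Ne.symm ja) bc bd (Ne.symm jb) cd (Ne.symm jc) (Ne.symm jd) hs ht

include H in
theorem tri_two {s : M} {a b c d : V} (ab : a ≠ b) (ac : a ≠ c) (ad : a ≠ d)
    (bc : b ≠ c) (bd : b ≠ d) (cd : c ≠ d) (hs : s * h a b = s) (ht : s * h c d = s) :
    Tri h s a b d = Tri h s d c a := by
  rw [tri_E H ab ac ad bc bd cd hs ht]
  unfold Tri
  rw [H.symm d a, H.symm c a, H.symm d c]
  have o1 : s * h a d * h b c = s * h a d :=
    H.byprod ad ab ac bd.symm cd.symm bc hs (H.over_symm ht)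
  have o2 : s * h a d * h a c * h d b = s * h a d * h a c := by
    exact H.byprod (s := s * h a d) ac ad ab cd bc.symm bd.symm (H.over_self ad) (H.over_symm o1)
  exact H.exch (s := s * h a d * h a c) ab ac ad bc bd cd (H.over_self ac) (H.over_symm o2)

section Card

variable [Fintype V] [Fintype L] (hc : Fintype.card L + 4 ≤ Fintype.card V)
  (h5 : 5 ≤ Fintype.card V)

include hc in
theorem other_edge {w : V ⊕ L → V ⊕ L} (hf : FPI w) (a b : V) :
    ∃ c d, w (inl c) = inl d ∧ c ≠ a ∧ c ≠ b := by
  by_contra hcon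
  push Not at hcon
  have key : ∀ v : {v : V // v ≠ a ∧ v ≠ b}, ∃ l : L, w (inl v.1) = inr l := by
    rintro ⟨v, h1, h2⟩
    rcases hwv : w (inl v) with d | l
    · exact absurd (hcon v d hwv h1) h2
    · exact ⟨l, rfl⟩
  choose f hf' using key
  have inj : Function.Injective f := by
    intro x y hxy
    have e1 := hf' x
    have e2 := hf' y
    rw [hxy, ← e2] at e1
    have e3 := congrArg w e1
    rw [hf.inv, hf.inv] at e3
    exact Subtype.ext (by simpa using e3)
  have h1 := Fintype.card_le_of_injective f inj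
  have h2 : Fintype.card V ≤ Fintype.card {v : V // v ≠ a ∧ v ≠ b} + 2 := by
    have e1 : Fintype.card {v : V // v ≠ a ∧ v ≠ b} = (Finset.univ \ {a, b} : Finset V).card := by
      rw [Fintype.card_subtype]
      congr 1
      ext v
      simp
    rw [e1]
    have := Finset.card_le_two (a := a) (b := b)
    have := Finset.le_card_sdiff {a, b} (Finset.univ : Finset V)
    rw [Finset.card_univ] at this
    omega
  omega

include h5 in
theorem fifth (a b c d : V) : ∃ v : V, a ≠ v ∧ b ≠ v ∧ c ≠ v ∧ d ≠ v := by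
  by_contra hcon
  push Not at hcon
  have : (Finset.univ : Finset V) ⊆ {a, b, c, d} := by
    intro v _
    have := hcon v
    simp only [Finset.mem_insert, Finset.mem_singleton]
    by_cases h1 : a = v
    · exact Or.inl h1.symm
    by_cases h2 : b = v
    · exact Or.inr (Or.inl h2.symm)
    by_cases h3 : c = v
    · exact Or.inr (Or.inr (Or.inl h3.symm))
    exact Or.inr (Or.inr (Or.inr (this h1 h2 h3).symm))
  have h1 := Finset.card_le_card this
  have h2 := Finset.card_le_four (a := a) (b := b) (c := c) (d := d)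
  rw [Finset.card_univ] at h1
  omega

/-- a second edge, with all distinctness facts -/
theorem edge_facts {w : V ⊕ L → V ⊕ L} (hf : FPI w) {a b c d : V} (hab : w (inl a) = inl b)
    (hcd : w (inl c) = inl d) (ca : c ≠ a) (cb : c ≠ b) : d ≠ a ∧ d ≠ b ∧ c ≠ d := by
  refine ⟨?_, ?_, ne_of_w hf hcd⟩
  · rintro rfl
    have := hf.inv (inl c)
    rw [hcd, hab] at this
    exact cb (by simpa using this.symm)
  · rintro rfl
    have := hf.inv (inl c)
    have h2 := hf.inv (inl a)
    rw [hcd] at this
    rw [hab, this] at h2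
    exact ca (by simpa using h2)

include H f0 he hc h5 in
theorem tri_all {s : M} {w : V ⊕ L → V ⊕ L} (g : Good h e w0 s w) {i c j i' c' j' : V}
    (hic : w (inl i) = inl c) (ji : j ≠ i) (jc : j ≠ c) (hic' : w (inl i') = inl c')
    (ji' : j' ≠ i') (jc' : j' ≠ c') : Tri h s i c j = Tri h s i' c' j' := by
  have hf := g.fpi f0
  have ov := fun {k l : V} => g.ovr H f0 he (k := k) (l := l)
  have hic2 : w (inl c) = inl i := by rw [← hic, hf.inv]
  have hic2' : w (inl c') = inl i' := by rw [← hic', hf.inv]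
  have one : ∀ {a b c d j : V}, w (inl a) = inl b → w (inl c) = inl d → c ≠ a → c ≠ b →
      j ≠ a → j ≠ b → Tri h s a b j = Tri h s a b d ∧ Tri h s b a j = Tri h s a b d := by
    intro a b c d j hab hcd ca cb ja jb
    obtain ⟨da, db, cd⟩ := edge_facts hf hab hcd ca cb
    obtain ⟨v, va, vb, vc, vd⟩ := fifth h5 a b c d
    exact tri_edge H (ne_of_w hf hab) ca.symm da.symm va cb.symm db.symm vb cd vc vd (ov hab)
      (ov hcd) j ja jb
  by_cases h1 : i' = i
  · subst h1
    have : c = c' := by rw [hic] at hic'; simpa using hic'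
    subst this
    obtain ⟨a, b, hab, ai, ac⟩ := other_edge hc hf i' c
    rw [(one hic hab ai ac ji jc).1, (one hic hab ai ac ji' jc').1]
  by_cases h2 : i' = c
  · subst h2
    have : i = c' := by rw [hic2] at hic'; simpa using hic'
    subst this
    obtain ⟨a, b, hab, ai, ac⟩ := other_edge hc hf i i'
    rw [(one hic hab ai ac ji jc).1, (one hic hab ai ac jc' ji').2]
  -- different edges
  obtain ⟨q1, q2, q3⟩ := edge_facts hf hic hic' h1 h2
  have ic := ne_of_w hf hic
  rw [(one hic hic' h1 h2 ji jc).1]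
  have := tri_two H ic (Ne.symm h1) q1.symm (Ne.symm h2) q2.symm q3 (ov hic) (ov hic')
  rw [this]
  rw [(one hic' hic (Ne.symm h1) q1.symm ji' jc').1, (one hic' hic (Ne.symm h1) q1.symm
    (Ne.symm h1) q1.symm).2]

end Card

end Facts

end Pool.Agent.W_MP_aeed81_al
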