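import Pool.Agent.W_MP_aeed81_al.HkId
import Pool.Agent.W_MP_aeed81_al.HClassThm
import Pool.Agent.W_MP_aeed81_al.Build
import Pool.Agent.W_MP_aeed81_al.Upper

set_option linter.unusedVariables false
set_option linter.unusedSectionVars false

namespace Pool.Agent.W_MP_aeed81_al

open Sum

variable {V L : Type*} [DecidableEq V] [DecidableEq L] {Z : Type*} [CommGroup Z] (σ : Z)

/-- the hook can be applied -/
def nz (w : V ⊕ L → V ⊕ L) (i j : V) : Prop :=
  (∃ v, w (inl i) = inl v) ∨ (∃ v, w (inl j) = inl v)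

/-- the sign of a hook -/
def sg (w : V ⊕ L → V ⊕ L) (i j : V) : Z := if w (inl i) = inl j then 1 else σ

open Classical in
/-- the operator on raw states -/
noncomputable def rop (i j : V) (p : (V ⊕ L → V ⊕ L) × Z) : Option ((V ⊕ L → V ⊕ L) × Z) :=
  if nz p.1 i j then some (hk (inl i) (inl j) p.1, p.2 * sg σ p.1 i j) else none

theorem rop_pos {i j : V} {w : V ⊕ L → V ⊕ L} {ε : Z} (h : nz w i j) :
    rop σ i j (w, ε) = some (hk (inl i) (inl j) w, ε * sg σ w i j) := by
  unfold rop; rw [if_pos h]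

theorem rop_neg {i j : V} {w : V ⊕ L → V ⊕ L} {ε : Z} (h : ¬ nz w i j) :
    rop σ i j (w, ε) = none := by
  unfold rop; rw [if_neg h]

theorem rop_matched {i j : V} {w : V ⊕ L → V ⊕ L} {ε : Z} (hf : FPI w)
    (h : w (inl i) = inl j) : rop σ i j (w, ε) = some (w, ε) := by
  rw [rop_pos σ (Or.inl ⟨j, h⟩), hk_of_eq hf h]
  simp [sg, h]

theorem nz_symm {i j : V} {w : V ⊕ L → V ⊕ L} : nz w i j ↔ nz w j i := or_comm

theorem rop_symm {i j : V} (hij : i ≠ j) {w : V ⊕ L → V ⊕ L} {ε : Z} (hf : FPI w) :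
    rop σ i j (w, ε) = rop σ j i (w, ε) := by
  by_cases h : nz w i j
  · rw [rop_pos σ h, rop_pos σ (nz_symm.1 h), hk_symm (inl_ne'' hij) hf]
    congr 3
    unfold sg
    by_cases h2 : w (inl i) = inl j
    · have : w (inl j) = inl i := by rw [← h2, hf.inv]
      rw [if_pos h2, if_pos this]
    · have : w (inl j) ≠ inl i := by
        intro h3; apply h2; rw [← h3, hf.inv]
      rw [if_neg h2, if_neg this]
  · rw [rop_neg σ h, rop_neg σ (fun h' => h (nz_symm.1 h'))]
where
  inl_ne'' {i j : V} (h : i ≠ j) : (inl i : V ⊕ L) ≠ inl j := by simpa using h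

theorem inl_neV {i j : V} (h : i ≠ j) : (inl i : V ⊕ L) ≠ inl j := by simpa using h

variable {σ} (hσ : σ * σ = 1)
include hσ

theorem rop_back {i j k : V} {w : V ⊕ L → V ⊕ L} {ε : Z} (hf : FPI w) (hij : w (inl i) = inl j)
    (ik : i ≠ k) (jk : j ≠ k) : (rop σ j k (w, ε)).bind (rop σ i j) = some (w, ε) := by
  have hji : w (inl j) = inl i := by rw [← hij, hf.inv]
  have n1 : nz w j k := Or.inl ⟨i, hji⟩
  rw [rop_pos σ n1]
  have e1 : hk (inl j) (inl k) w (inl j) = inl k := hk_left _ _ _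
  have n2 : nz (hk (inl j) (inl k) w) i j := Or.inr ⟨k, e1⟩
  change rop σ i j (hk (inl j) (inl k) w, ε * sg σ w j k) = _
  rw [rop_pos σ n2, hk_back hf hij (inl_neV ik) (inl_neV jk)]
  have s1 : sg σ w j k = σ := by
    unfold sg; rw [if_neg]; rw [hji]; simpa using ik
  have s2 : sg σ (hk (inl j) (inl k) w) i j = σ := by
    unfold sg; rw [if_neg]
    intro h
    have f1 := hk_fpi (inl_neV (L := L) jk) hf
    have := f1.inv (inl i)
    rw [h, e1] at this
    exact ik (by simpa using this.symm)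
  rw [s1, s2, mul_assoc, hσ, mul_one]

omit hσ in
theorem comm_facts {i j k l : V} (ij : i ≠ j) (ik : i ≠ k) (il : i ≠ l) (jk : j ≠ k) (jl : j ≠ l)
    (kl : k ≠ l) {w : V ⊕ L → V ⊕ L} (hf : FPI w) :
    (nz w k l ∧ nz (hk (inl k) (inl l) w) i j → nz w i j ∧ nz (hk (inl i) (inl j) w) k l) := by
  have a1 := hf.inv (inl i)
  have a2 := hf.inv (inl j)
  have a3 := hf.inv (inl k)
  have a4 := hf.inv (inl l)
  have c1 := inl_neV (L := L) ij
  have c2 := inl_neV (L := L) ik
  have c3 := inl_neV (L := L) il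
  have c4 := inl_neV (L := L) jk
  have c5 := inl_neV (L := L) jl
  have c6 := inl_neV (L := L) kl
  unfold nz
  have d : ∀ x : V ⊕ L, (∃ v, x = inl v) ↔ x.isLeft = true := by
    intro x; cases x <;> simp
  simp only [d]
  have l1 : (inl i : V ⊕ L).isLeft = true := rfl
  have l2 : (inl j : V ⊕ L).isLeft = true := rfl
  have l3 : (inl k : V ⊕ L).isLeft = true := rfl
  have l4 : (inl l : V ⊕ L).isLeft = true := rfl
  generalize (inl i : V ⊕ L) = i' at *
  generalize (inl j : V ⊕ L) = j' at *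
  generalize (inl k : V ⊕ L) = k' at *
  generalize (inl l : V ⊕ L) = l' at *
  clear d hf ij ik il jk jl kl
  simp only [hk]
  grind (splits := 60)

omit hσ in
theorem comm_sign {i j k l : V} (ij : i ≠ j) (ik : i ≠ k) (il : i ≠ l) (jk : j ≠ k) (jl : j ≠ l)
    (kl : k ≠ l) {w : V ⊕ L → V ⊕ L} (hf : FPI w) :
    sg σ w k l * sg σ (hk (inl k) (inl l) w) i j = sg σ w i j * sg σ (hk (inl i) (inl j) w) k l := by
  have a1 := hf.inv (inl i)
  have a2 := hf.inv (inl j)
  have a3 := hf.inv (inl k)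
  have a4 := hf.inv (inl l)
  have c1 := inl_neV (L := L) ij
  have c2 := inl_neV (L := L) ik
  have c3 := inl_neV (L := L) il
  have c4 := inl_neV (L := L) jk
  have c5 := inl_neV (L := L) jl
  have c6 := inl_neV (L := L) kl
  unfold sg
  generalize (inl i : V ⊕ L) = i' at *
  generalize (inl j : V ⊕ L) = j' at *
  generalize (inl k : V ⊕ L) = k' at *
  generalize (inl l : V ⊕ L) = l' at *
  clear hf ij ik il jk jl kl
  have m1 : (1 : Z) * σ = σ * 1 := by simp
  simp only [hk]
  grind (splits := 60)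

omit hσ in
open Classical in
theorem rop_comm {i j k l : V} (ij : i ≠ j) (ik : i ≠ k) (il : i ≠ l) (jk : j ≠ k) (jl : j ≠ l)
    (kl : k ≠ l) {w : V ⊕ L → V ⊕ L} {ε : Z} (hf : FPI w) :
    (rop σ i j (w, ε)).bind (rop σ k l) = (rop σ k l (w, ε)).bind (rop σ i j) := by
  have two : ∀ (a b c d : V), (rop σ a b (w, ε)).bind (rop σ c d) =
      if nz w a b ∧ nz (hk (inl a) (inl b) w) c d then
        some (hk (inl c) (inl d) (hk (inl a) (inl b) w),
          ε * (sg σ w a b * sg σ (hk (inl a) (inl b) w) c d)) else none := by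
    intro a b c d
    by_cases h1 : nz w a b
    · rw [rop_pos σ h1]
      change rop σ c d (_, _) = _
      by_cases h2 : nz (hk (inl a) (inl b) w) c d
      · rw [rop_pos σ h2, if_pos ⟨h1, h2⟩, mul_assoc]
      · rw [rop_neg σ h2, if_neg (fun h => h2 h.2)]
    · rw [rop_neg σ h1, if_neg (fun h => h1 h.1)]; rfl
  rw [two i j k l, two k l i j, hk_comm (inl_neV ij) (inl_neV ik) (inl_neV il) (inl_neV jk)
    (inl_neV jl) (inl_neV kl) hf, comm_sign ij ik il jk jl kl hf]
  have e : (nz w i j ∧ nz (hk (inl i) (inl j) w) k l) ↔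
      (nz w k l ∧ nz (hk (inl k) (inl l) w) i j) :=
    ⟨comm_facts kl ik.symm jk.symm il.symm jl.symm ij hf, comm_facts ij ik il jk jl kl hf⟩
  by_cases h : nz w i j ∧ nz (hk (inl i) (inl j) w) k l
  · rw [if_pos h, if_pos (e.1 h)]
  · rw [if_neg h, if_neg (fun h' => h (e.2 h'))]

theorem rop_r4 {a b c d : V} (ab : a ≠ b) (ac : a ≠ c) (ad : a ≠ d) (bc : b ≠ c) (bd : b ≠ d)
    (cd : c ≠ d) {w : V ⊕ L → V ⊕ L} {ε : Z} (hf : FPI w) (hbc : w (inl b) = inl c) :
    (((rop σ a b (w, ε)).bind (rop σ c d)).bind (rop σ b c)) = rop σ a d (w, ε) := by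
  have hcb : w (inl c) = inl b := by rw [← hbc, hf.inv]
  have n1 : nz w a b := Or.inr ⟨c, hbc⟩
  rw [rop_pos σ n1]
  have f1 := hk_fpi (inl_neV (L := L) ab) hf
  have s1 : sg σ w a b = σ := by
    unfold sg; rw [if_neg]; intro h
    have := hf.inv (inl a)
    rw [h, hbc] at this
    exact ac (by simpa using this.symm)
  have e1 : hk (inl a) (inl b) w (inl c) = w (inl a) := by
    have a1 := hf.inv (inl a)
    have a2 := hf.inv (inl c)
    have c1 := inl_neV (L := L) ab
    have c2 := inl_neV (L := L) ac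
    have c3 := inl_neV (L := L) bc
    simp only [hk]; grind
  have e2 : w (inl a) ≠ inl d → hk (inl a) (inl b) w (inl d) = w (inl d) := by
    intro h
    apply hk_keep hf (inl_neV ad.symm) (inl_neV bd.symm)
    · intro h2; apply h; rw [← h2, hf.inv]
    · intro h2
      have := hf.inv (inl d)
      rw [h2, hbc] at this
      exact cd (by simpa using this)
  have n2 : nz (hk (inl a) (inl b) w) c d ↔ nz w a d := by
    unfold nz
    rw [e1]
    by_cases h : w (inl a) = inl d
    · exact ⟨fun _ => Or.inl ⟨d, h⟩, fun _ => Or.inl ⟨d, h⟩⟩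
    · rw [e2 h]
  have s2 : sg σ (hk (inl a) (inl b) w) c d = sg σ w a d := by
    unfold sg; rw [e1]
  change (rop σ c d (_, _)).bind _ = _
  by_cases h : nz w a d
  · rw [rop_pos σ (n2.2 h), rop_pos σ h]
    change rop σ b c (_, _) = _
    have e3 : hk (inl c) (inl d) (hk (inl a) (inl b) w) (inl c) = inl d := hk_left _ _ _
    rw [rop_pos σ (Or.inr ⟨d, e3⟩), hk_r4' hf hbc (inl_neV ab) (inl_neV ac) (inl_neV ad)
      (inl_neV bd) (inl_neV cd)]
    have s3 : sg σ (hk (inl c) (inl d) (hk (inl a) (inl b) w)) b c = σ := by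
      unfold sg; rw [if_neg]; intro h
      have f2 := hk_fpi (inl_neV (L := L) cd) f1
      have := f2.inv (inl b)
      rw [h, e3] at this
      exact bd (by simpa using this.symm)
    rw [s1, s2, s3]
    congr 2
    rw [mul_assoc, mul_assoc, mul_comm (sg σ w a d) σ, ← mul_assoc σ σ, hσ, one_mul]
  · rw [rop_neg σ (fun h' => h (n2.1 h')), rop_neg σ h]; rfl

theorem rop_s4'' {a b c d : V} (ab : a ≠ b) (ac : a ≠ c) (ad : a ≠ d) (bc : b ≠ c) (bd : b ≠ d)
    (cd : c ≠ d) {w : V ⊕ L → V ⊕ L} {ε : Z} (hf : FPI w) (hbc : w (inl b) = inl c) :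
    ((rop σ a d (w, ε)).bind (rop σ a b)).bind (rop σ c d) =
      (rop σ a b (w, ε)).bind (rop σ c d) := by
  have hcb : w (inl c) = inl b := by rw [← hbc, hf.inv]
  have n1 : nz w a b := Or.inr ⟨c, hbc⟩
  rw [rop_pos σ n1]
  have f1 := hk_fpi (inl_neV (L := L) ab) hf
  have s1 : sg σ w a b = σ := by
    unfold sg; rw [if_neg]; intro h
    have := hf.inv (inl a)
    rw [h, hbc] at this
    exact ac (by simpa using this.symm)
  have e1 : hk (inl a) (inl b) w (inl c) = w (inl a) := by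
    have a1 := hf.inv (inl a)
    have a2 := hf.inv (inl c)
    have c1 := inl_neV (L := L) ab
    have c2 := inl_neV (L := L) ac
    have c3 := inl_neV (L := L) bc
    simp only [hk]; grind
  have e2 : w (inl a) ≠ inl d → hk (inl a) (inl b) w (inl d) = w (inl d) := by
    intro h
    apply hk_keep hf (inl_neV ad.symm) (inl_neV bd.symm)
    · intro h2; apply h; rw [← h2, hf.inv]
    · intro h2
      have := hf.inv (inl d)
      rw [h2, hbc] at this
      exact cd (by simpa using this)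
  have n2 : nz (hk (inl a) (inl b) w) c d ↔ nz w a d := by
    unfold nz
    rw [e1]
    by_cases h : w (inl a) = inl d
    · exact ⟨fun _ => Or.inl ⟨d, h⟩, fun _ => Or.inl ⟨d, h⟩⟩
    · rw [e2 h]
  have s2 : sg σ (hk (inl a) (inl b) w) c d = sg σ w a d := by
    unfold sg; rw [e1]
  change _ = rop σ c d (_, _)
  by_cases h : nz w a d
  · rw [rop_pos σ (n2.2 h), rop_pos σ h]
    change (rop σ a b (_, _)).bind _ = _
    have f2 := hk_fpi (inl_neV (L := L) ad) hf
    have g1 : hk (inl a) (inl d) w (inl b) = inl c := by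
      rw [hk_keep hf (inl_neV ab.symm) (inl_neV bd), hbc]
      · rw [hbc]; exact inl_neV ac.symm
      · rw [hbc]; exact inl_neV cd
    have g2 : hk (inl a) (inl d) w (inl a) = inl d := hk_left _ _ _
    rw [rop_pos σ (Or.inl ⟨d, g2⟩)]
    change rop σ c d (_, _) = _
    have g3 : hk (inl a) (inl b) (hk (inl a) (inl d) w) (inl c) = inl d := by
      have a1 := f2.inv (inl a)
      have a2 := f2.inv (inl b)
      have c1 := inl_neV (L := L) ab
      have c2 := inl_neV (L := L) ac
      have c3 := inl_neV (L := L) bc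
      have c4 := inl_neV (L := L) bd
      have c5 := inl_neV (L := L) cd
      have c6 := inl_neV (L := L) ad
      generalize hk (inl a) (inl d) w = v at *
      simp only [hk]; grind
    have s3 : sg σ (hk (inl a) (inl d) w) a b = σ := by
      unfold sg; rw [if_neg]; rw [g2]; simpa using bd.symm
    rw [rop_matched σ (hk_fpi (inl_neV ab) f2) g3, s1, s2, s3]
    have := hk_s4'' hf hbc (inl_neV ab) (inl_neV ac) (inl_neV (L := L) ad)
      (inl_neV bd) (inl_neV cd)
    have e5 : hk (inl c) (inl d) (hk (inl a) (inl b) (hk (inl a) (inl d) w)) =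
        hk (inl a) (inl b) (hk (inl a) (inl d) w) := hk_of_eq (hk_fpi (inl_neV ab) f2) g3
    rw [← this, e5]
    congr 2
    rw [mul_assoc, mul_assoc, mul_comm σ (sg σ w a d)]
  · rw [rop_neg σ (fun h' => h (n2.1 h')), rop_neg σ h]; rfl

end Pool.Agent.W_MP_aeed81_al
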