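import Pool.Agent.W_MP_aeed81_al.Oper

set_option linter.unusedVariables false
set_option linter.unusedSectionVars false

namespace Pool.Agent.W_MP_aeed81_al

open Sum

/-- signed states -/
def Om (V L Z : Type*) : Type _ := {p : (V ⊕ L → V ⊕ L) × Z // FPI p.1 ∧ LV p.1}

section
variable {V L : Type*} [DecidableEq V] [DecidableEq L] {Z : Type*} [CommGroup Z] (σ : Z)

open Classical in
/-- the operator of a hook on signed states -/
noncomputable def opS (i j : V) (hij : i ≠ j) (ω : Om V L Z) : Option (Om V L Z) :=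
  if h : nz ω.1.1 i j then
    some ⟨(hk (inl i) (inl j) ω.1.1, ω.1.2 * sg σ ω.1.1 i j), hk_fpi (inl_neV hij) ω.2.1,
      LV.hk ω.2.1 ω.2.2 h⟩ else none

theorem opS_map {i j : V} (hij : i ≠ j) (ω : Om V L Z) :
    (opS σ i j hij ω).map Subtype.val = rop σ i j ω.1 := by
  unfold opS
  by_cases h : nz ω.1.1 i j
  · rw [dif_pos h]
    obtain ⟨⟨w, ε⟩, hw⟩ := ω
    rw [rop_pos σ h]; rfl
  · rw [dif_neg h]
    obtain ⟨⟨w, ε⟩, hw⟩ := ω
    rw [rop_neg σ h]; rfl

open Classical in
/-- the hook as a right operator -/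
noncomputable def oph (i j : V) : ROp (Om V L Z) :=
  if h : i = j then 1 else ROp.of (fun x => x.bind (opS σ i j h)) rfl

theorem oph_val {i j : V} (h : i ≠ j) (x : Option (Om V L Z)) :
    (oph σ i j).1 x = x.bind (opS σ i j h) := by
  unfold oph; rw [dif_neg h]; rfl

theorem oph_map {i j : V} (h : i ≠ j) (x : Option (Om V L Z)) :
    ((oph σ i j).1 x).map Subtype.val = (x.map Subtype.val).bind (rop σ i j) := by
  rw [oph_val σ h]
  rcases x with _ | ω
  · rfl
  · exact opS_map σ h ω

theorem map_inj {x y : Option (Om V L Z)} (h : x.map Subtype.val = y.map Subtype.val) : x = y :=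
  Option.map_injective Subtype.val_injective h

theorem bind_bind' {α : Type*} (x : Option α) (f g : α → Option α) :
    (x.bind f).bind g = x.bind (fun a => (f a).bind g) := by
  cases x <;> rfl

variable {σ} (hσ : σ * σ = 1)
include hσ

theorem hookSys_oph : HookSys (oph (L := L) σ : V → V → ROp (Om V L Z)) := by
  constructor
  · intro i j
    by_cases h : i = j
    · rw [h]
    · apply ROp.ext
      intro ω
      apply map_inj
      rw [oph_map σ h, oph_map σ (Ne.symm h)]
      change rop σ i j ω.1 = rop σ j i ω.1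
      exact rop_symm σ h ω.2.1
  · intro i j h
    apply ROp.ext
    intro ω
    apply map_inj
    rw [ROp.mul_val, oph_map σ h, oph_map σ h]
    change (rop σ i j ω.1).bind (rop σ i j) = rop σ i j ω.1
    obtain ⟨⟨w, ε⟩, hw⟩ := ω
    by_cases hn : nz w i j
    · rw [rop_pos σ hn]
      exact rop_matched σ (hk_fpi (inl_neV h) hw.1) (hk_left _ _ _)
    · rw [rop_neg σ hn]; rfl
  · intro i j k l ij ik il jk jl kl
    apply ROp.ext
    intro ω
    apply map_inj
    rw [ROp.mul_val, ROp.mul_val, oph_map σ kl, oph_map σ ij, oph_map σ ij, oph_map σ kl]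
    exact rop_comm ij ik il jk jl kl ω.2.1
  · intro i j k ij ik jk
    apply ROp.ext
    intro ω
    apply map_inj
    rw [ROp.mul_val, ROp.mul_val, oph_map σ ij, oph_map σ jk, oph_map σ ij]
    change ((rop σ i j ω.1).bind (rop σ j k)).bind (rop σ i j) = rop σ i j ω.1
    obtain ⟨⟨w, ε⟩, hw⟩ := ω
    by_cases hn : nz w i j
    · rw [rop_pos σ hn]
      exact rop_back hσ (hk_fpi (inl_neV ij) hw.1) (hk_left _ _ _) ik jk
    · rw [rop_neg σ hn]; rfl
  · intro a b c d ab ac ad bc bd cd
    apply ROp.ext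
    intro ω
    apply map_inj
    simp only [ROp.mul_val]
    rw [oph_map σ bc, oph_map σ cd, oph_map σ ab, oph_map σ bc, oph_map σ ad, oph_map σ bc]
    change ((((rop σ b c ω.1).bind (rop σ a b)).bind (rop σ c d))).bind (rop σ b c) =
      (rop σ b c ω.1).bind (rop σ a d)
    obtain ⟨⟨w, ε⟩, hw⟩ := ω
    by_cases hn : nz w b c
    · rw [rop_pos σ hn]
      exact rop_r4 hσ ab ac ad bc bd cd (hk_fpi (inl_neV bc) hw.1) (hk_left _ _ _)
    · rw [rop_neg σ hn]; rfl
  · intro a b c d ab ac ad bc bd cd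
    apply ROp.ext
    intro ω
    apply map_inj
    simp only [ROp.mul_val]
    rw [oph_map σ ad, oph_map σ bc, oph_map σ cd, oph_map σ ab]
    change (((rop σ a b ω.1).bind (rop σ c d))).bind (rop σ b c) =
      ((((rop σ a b ω.1).bind (rop σ c d))).bind (rop σ b c)).bind (rop σ a d)
    obtain ⟨⟨w, ε⟩, hw⟩ := ω
    by_cases hn : nz w a b
    · rw [rop_pos σ hn]
      have f1 := hk_fpi (inl_neV (L := L) ab) hw.1
      change (rop σ c d (_, _)).bind _ = ((rop σ c d (_, _)).bind _).bind _
      by_cases hn2 : nz (hk (inl a) (inl b) w) c d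
      · rw [rop_pos σ hn2]
        have f2 := hk_fpi (inl_neV (L := L) cd) f1
        have e1 : hk (inl c) (inl d) (hk (inl a) (inl b) w) (inl a) = inl b := by
          rw [hk_keep f1 (inl_neV ac) (inl_neV ad) (by rw [hk_left]; exact inl_neV bc)
            (by rw [hk_left]; exact inl_neV bd), hk_left]
        have e2 : hk (inl c) (inl d) (hk (inl a) (inl b) w) (inl c) = inl d := hk_left _ _ _
        change rop σ b c (_, _) = (rop σ b c (_, _)).bind _
        rw [rop_pos σ (Or.inr ⟨d, e2⟩)]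
        exact (rop_matched σ (hk_fpi (inl_neV bc) f2)
          (hk_byprod f2 e1 e2 (inl_neV ac) (inl_neV bc))).symm
      · rw [rop_neg σ hn2]; rfl
    · rw [rop_neg σ hn]; rfl
  · intro a b c d ab ac ad bc bd cd
    apply ROp.ext
    intro ω
    apply map_inj
    simp only [ROp.mul_val]
    rw [oph_map σ cd, oph_map σ ab, oph_map σ bc, oph_map σ cd, oph_map σ ab, oph_map σ bc,
      oph_map σ ad]
    change (((rop σ b c ω.1).bind (rop σ a b))).bind (rop σ c d) =
      ((((rop σ a d ω.1).bind (rop σ b c))).bind (rop σ a b)).bind (rop σ c d)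
    obtain ⟨⟨w, ε⟩, hw⟩ := ω
    rw [rop_comm ad ab ac bd.symm cd.symm bc hw.1]
    by_cases hn : nz w b c
    · rw [rop_pos σ hn]
      exact (rop_s4'' hσ ab ac ad bc bd cd (hk_fpi (inl_neV bc) hw.1) (hk_left _ _ _)).symm
    · rw [rop_neg σ hn]; rfl

end

end Pool.Agent.W_MP_aeed81_al
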