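import Pool.Agent.W_MP_aeed81_al.Hk

set_option linter.unusedVariables false

namespace Pool.Agent.W_MP_aeed81_al

variable {W : Type*} [DecidableEq W]

/-- An abstract set with hook operators over the states, in which the relations of the
singular part of the Brauer monoid hold. -/
structure Rep {X : Type*} (V : Finset W) (A : W → W → X → X) (Good : X → (W → W) → Prop) :
    Prop where
  fpi : ∀ {x w}, Good x w → FPI w
  step : ∀ {x w i j}, Good x w → i ∈ V → j ∈ V → i ≠ j → (w i ∈ V ∨ w j ∈ V) →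
    Good (A i j x) (hk i j w)
  symm : ∀ i j x, A i j x = A j i x
  ovr : ∀ {x w i j}, Good x w → i ∈ V → j ∈ V → w i = j → A i j x = x
  comm : ∀ {i j k l} x, i ∈ V → j ∈ V → k ∈ V → l ∈ V → i ≠ j → i ≠ k → i ≠ l → j ≠ k → j ≠ l →
    k ≠ l → A i j (A k l x) = A k l (A i j x)
  back : ∀ {x w i j k}, Good x w → i ∈ V → j ∈ V → k ∈ V → i ≠ k → j ≠ k → w i = j →
    A i j (A j k x) = x
  exch : ∀ {x w i j b c}, Good x w → i ∈ V → j ∈ V → b ∈ V → c ∈ V → i ≠ j → w i = b → w j = c →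
    b ≠ j → A i j x = A b c x
  F1 : ∀ {x w i j k}, Good x w → i ∈ V → j ∈ V → k ∈ V → i ≠ k → j ≠ k → w i = j →
    A j k (A i k x) = A j k x
  F2 : ∀ {x w i j k l}, Good x w → i ∈ V → j ∈ V → k ∈ V → l ∈ V → i ≠ k → j ≠ k → i ≠ l →
    j ≠ l → k ≠ l → w i = j → A k l (A j k x) = A k l (A i l x)

/-- States that agree with `w0` away from `A`. -/
def Cls (A : Finset W) (w0 w : W → W) : Prop :=
  FPI w ∧ ∀ x, x ∉ A → (w0 x ∉ A → w x = w0 x) ∧ (w0 x ∈ A → w x ∈ A)

theorem Cls.hk {A : Finset W} {w0 w : W → W} (h : Cls A w0 w) {i j : W} (hi : i ∈ A) (hj : j ∈ A)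
    (hij : i ≠ j) (hn : w i ∈ A ∨ w j ∈ A) : Cls A w0 (hk i j w) := by
  obtain ⟨hf, hc⟩ := h
  refine ⟨hk_fpi hij hf, ?_⟩
  intro x hx
  have hx' := hc x hx
  have xi : x ≠ i := fun e => hx (e ▸ hi)
  have xj : x ≠ j := fun e => hx (e ▸ hj)
  have e1 := hf.inv x
  have e2 := hf.inv i
  have e3 := hf.inv j
  have e1' := hf.ne x
  have e2' := hf.ne i
  have e3' := hf.ne j
  simp only [Pool.Agent.W_MP_aeed81_al.hk]
  constructor
  · intro h0
    have := hx'.1 h0
    grind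
  · intro h0
    have := hx'.2 h0
    grind

theorem Cls.mem_iff {A : Finset W} {w0 w : W → W} (h0 : FPI w0) (h : Cls A w0 w) {x : W}
    (hx : x ∉ A) : w x ∈ A ↔ w0 x ∈ A := by
  constructor
  · intro h1
    by_contra h2
    exact h2 ((h.2 x hx).1 h2 ▸ h1)
  · exact (h.2 x hx).2

/-- number of edges inside `A` is constant -/
theorem Cls.exists_edge {A : Finset W} {w0 w : W → W} (h0 : FPI w0) (h : Cls A w0 w)
    (he : ∃ a ∈ A, w0 a ∈ A) : ∃ a ∈ A, w a ∈ A := by
  by_contra hcon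
  push Not at hcon
  have e1 : (A.filter (fun a => w a ∉ A)).image w = (A.filter (fun a => w0 a ∉ A)).image w0 := by
    ext x
    simp only [Finset.mem_image, Finset.mem_filter]
    constructor
    · rintro ⟨a, ⟨ha, hb⟩, rfl⟩
      refine ⟨w0 (w a), ⟨?_, ?_⟩, h0.inv _⟩
      · rw [← h.mem_iff h0 hb, h.1.inv]; exact ha
      · rw [h0.inv]; exact hb
    · rintro ⟨a, ⟨ha, hb⟩, rfl⟩
      refine ⟨w (w0 a), ⟨?_, ?_⟩, h.1.inv _⟩
      · rw [h.mem_iff h0 hb, h0.inv]; exact ha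
      · rw [h.1.inv]; exact hb
  have inj : ∀ {v : W → W}, FPI v → Function.Injective v := fun hv => by
    intro a b hab
    rw [← hv.inv a, hab, hv.inv]
  have e2 := congrArg Finset.card e1
  rw [Finset.card_image_of_injective _ (inj h.1), Finset.card_image_of_injective _ (inj h0)] at e2
  have e3 : A.filter (fun a => w a ∉ A) = A := Finset.filter_true_of_mem hcon
  rw [e3] at e2
  obtain ⟨a, ha, hb⟩ := he
  have e4 : A.filter (fun a => w0 a ∉ A) ⊂ A := by
    rw [Finset.ssubset_iff_of_subset (Finset.filter_subset _ _)]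
    exact ⟨a, ha, by simp [hb]⟩
  have := Finset.card_lt_card e4
  omega

theorem hk_exch {i j b c : W} {w : W → W} (h : FPI w) (hij : i ≠ j) (hb : w i = b) (hc : w j = c)
    (hbj : b ≠ j) : hk i j w = hk b c w := by
  obtain ⟨h1, h2⟩ := h
  funext x
  have a1 := h1 x
  have a2 := h1 i
  have a3 := h1 j
  have b1 := h2 x
  have b2 := h2 i
  have b3 := h2 j
  clear h1 h2
  simp only [hk]
  grind (splits := 40)

end Pool.Agent.W_MP_aeed81_al
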