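import Pool.Agent.W_MP_aeed81_al.Section

set_option linter.unusedVariables false
set_option linter.unusedSectionVars false

namespace Pool.Agent.W_MP_aeed81_al

variable {W : Type*} [DecidableEq W]

/-- the section property -/
def IsSec {X : Type*} (Act : W → W → X → X) (Good : X → (W → W) → Prop) (A : Finset W)
    (x0 : X) (w0 : W → W) (y : (W → W) → X) : Prop :=
  y w0 = x0 ∧ (∀ w, Cls A w0 w → Good (y w) w) ∧
    ∀ w, Cls A w0 w → ∀ i ∈ A, ∀ j ∈ A, i ≠ j → (w i ∈ A ∨ w j ∈ A) →
      y (hk i j w) = Act i j (y w)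

theorem Cls.refl {A : Finset W} {w0 : W → W} (h : FPI w0) : Cls A w0 w0 :=
  ⟨h, fun _ _ => ⟨fun _ => rfl, id⟩⟩

section Step2

variable {X : Type*} {V : Finset W} {Act : W → W → X → X} {Good : X → (W → W) → Prop}
  (R : Rep V Act Good) {A : Finset W} (hAV : A ⊆ V) {n α : W} {x0 : X} {w0 : W → W}
  (h0 : FPI w0) (hn : n ∈ A) (hα : α ∉ A) (hnα : w0 n = α) {y' : (W → W) → X}
  (hy' : IsSec Act Good (A.erase n) x0 w0 y')

omit [DecidableEq W] in
theorem inv_of {w : W → W} (h : FPI w) {a b : W} (e : w a = b) : w b = a := by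
  rw [← e, h.inv]

include h0 hn hα hnα in
theorem cls_erase {w : W → W} : Cls (A.erase n) w0 w ↔ Cls A w0 w ∧ w n = α := by
  have h1 := inv_of h0 hnα
  constructor
  · rintro ⟨hf, hc⟩
    have hwn : w n = α := by
      rw [← hnα]
      exact (hc n (by simp)).1 (by simp [hnα, hα])
    have hwα : w α = n := inv_of hf hwn
    refine ⟨⟨hf, fun x hx => ⟨fun hx0 => ?_, fun hx0 => ?_⟩⟩, hwn⟩
    · exact (hc x (fun h => hx (Finset.mem_of_mem_erase h))).1
        (fun h => hx0 (Finset.mem_of_mem_erase h))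
    · by_cases e : w0 x = n
      · have : x = α := by rw [← hnα, ← e, h0.inv]
        rw [this, hwα]; exact hn
      · exact Finset.mem_of_mem_erase
          ((hc x (fun h => hx (Finset.mem_of_mem_erase h))).2 (Finset.mem_erase.2 ⟨e, hx0⟩))
  · rintro ⟨⟨hf, hc⟩, hwn⟩
    have hwα : w α = n := inv_of hf hwn
    refine ⟨hf, fun x hx => ⟨fun hx0 => ?_, fun hx0 => ?_⟩⟩
    · by_cases xn : x = n
      · rw [xn, hwn, hnα]
      · have hxA : x ∉ A := fun h => hx (Finset.mem_erase.2 ⟨xn, h⟩)
        by_cases e : w0 x = n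
        · have : x = α := by rw [← hnα, ← e, h0.inv]
          rw [this, hwα, h1]
        · exact (hc x hxA).1 (fun h => hx0 (Finset.mem_erase.2 ⟨e, h⟩))
    · by_cases xn : x = n
      · rw [xn, hnα] at hx0
        exact absurd (Finset.mem_of_mem_erase hx0) hα
      · have hxA : x ∉ A := fun h => hx (Finset.mem_erase.2 ⟨xn, h⟩)
        have h2 := (hc x hxA).2 (Finset.mem_of_mem_erase hx0)
        refine Finset.mem_erase.2 ⟨?_, h2⟩
        intro e
        have : x = α := by rw [← hwn, ← e, hf.inv]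
        rw [this, h1] at hx0
        simp at hx0

/-- The section on states with `n` matched to `α` or into `A`. -/
def yB (Act : W → W → X → X) (n α : W) (y' : (W → W) → X) (w : W → W) : X :=
  if w n = α then y' w else Act n (w n) (y' (hk (w α) (w n) w))

theorem yB_A {w : W → W} (h : w n = α) : yB Act n α y' w = y' w := by simp [yB, h]

theorem yB_B {w : W → W} (h : w n ≠ α) :
    yB Act n α y' w = Act n (w n) (y' (hk (w α) (w n) w)) := by simp [yB, h]

include h0 hn hα hnα in
theorem wα_mem {w : W → W} (hw : Cls A w0 w) : w α ∈ A := by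
  have h1 := inv_of h0 hnα
  exact (hw.2 α hα).2 (by rw [h1]; exact hn)

include h0 hn hα hnα in
/-- The data of a state of type B. -/
theorem tildeB {w : W → W} (hw : Cls A w0 w) (hB : w n ∈ A) :
    Cls (A.erase n) w0 (hk (w α) (w n) w) ∧ hk (w α) (w n) w n = α ∧
      hk (w α) (w n) w (w α) = w n ∧ hk (w α) (w n) w (w n) = w α ∧
      w α ∈ A.erase n ∧ w n ∈ A.erase n ∧ w α ≠ w n := by
  have hf := hw.1
  have hu := wα_mem h0 hn hα hnα hw
  have nα : n ≠ α := fun e => hα (e ▸ hn)
  have hne : w α ≠ w n := by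
    intro e
    exact nα (by rw [← hf.inv n, ← e, hf.inv])
  have hun : w α ≠ n := by
    intro e
    apply hα
    rw [← hf.inv α, e]
    exact hB
  have e1 : hk (w α) (w n) w n = α := by
    simp only [hk]
    have a1 := hf.inv α
    have a2 := hf.inv n
    have a3 := hf.ne n
    grind
  refine ⟨?_, e1, hk_left _ _ _, hk_right hne _, Finset.mem_erase.2 ⟨hun, hu⟩,
    Finset.mem_erase.2 ⟨hf.ne n, hB⟩, hne⟩
  rw [cls_erase h0 hn hα hnα]
  refine ⟨hw.hk hu hB hne ?_, e1⟩
  right
  rw [hf.inv]; exact hn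

include R hAV h0 hn hα hnα hy' in
theorem goodB {w : W → W} (hw : Cls A w0 w) (hB : w n ∈ A ∨ w n = α) :
    Good (yB Act n α y' w) w := by
  by_cases hA : w n = α
  · rw [yB_A hA]
    exact hy'.2.1 w ((cls_erase h0 hn hα hnα).2 ⟨hw, hA⟩)
  · have hB' : w n ∈ A := by tauto
    rw [yB_B hA]
    obtain ⟨t1, t2, t3, t4, t5, t6, t7⟩ := tildeB h0 hn hα hnα hw hB'
    have g := hy'.2.1 _ t1
    have hf := hw.1
    have nα : n ≠ α := fun e => hα (e ▸ hn)
    have hun : n ≠ w α := fun e => (Finset.mem_erase.1 t5).1 e.symm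
    have g2 := R.step g (hAV hn) (hAV hB') (Ne.symm (hf.ne n)) (Or.inr (by rw [t4]; exact hAV (Finset.mem_of_mem_erase t5)))
    rw [I1 hf rfl rfl nα hun] at g2
    exact g2

/-- hook property at one pair -/
def HP (Act : W → W → X → X) (A : Finset W) (n α : W) (y' : (W → W) → X) (w : W → W)
    (i j : W) : Prop :=
  (w i ∈ A ∨ w j ∈ A) → (hk i j w n ∈ A ∨ hk i j w n = α) →
    yB Act n α y' (hk i j w) = Act i j (yB Act n α y' w)

include R in
theorem HP_symm {w : W → W} (hf : FPI w) {i j : W} (hij : i ≠ j)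
    (h : HP Act A n α y' w i j) : HP Act A n α y' w j i := by
  intro h1 h2
  rw [hk_symm hij.symm hf] at h2 ⊢
  rw [R.symm j i]
  exact h h1.symm h2

include R hAV h0 hn hα hnα hy' in
theorem hooksA {w : W → W} (hw : Cls A w0 w) (hA : w n = α) {i j : W} (hi : i ∈ A)
    (hj : j ∈ A) (hij : i ≠ j) : HP Act A n α y' w i j := by
  have hf := hw.1
  have hα' := inv_of hf hA
  have key : ∀ j ∈ A, n ≠ j → HP Act A n α y' w n j := by
    intro j hj hnj h1 h2
    have hjA : w j ∈ A := by
      rcases h1 with h1 | h1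
      · rw [hA] at h1; exact absurd h1 hα
      · exact h1
    have jα : j ≠ α := fun e => hα (e ▸ hj)
    obtain ⟨e1, e2⟩ := IA hf hA rfl hnj.symm jα
    have e3 : hk n j w n ≠ α := by rw [hk_left]; exact jα
    rw [yB_B e3, yB_A hA, hk_left, e1, e2]
  by_cases hin : i = n
  · subst hin; exact key j hj hij
  by_cases hjn : j = n
  · subst hjn; exact HP_symm R hf (Ne.symm hij) (key i hi (Ne.symm hij))
  intro h1 h2
  have hi' : i ∈ A.erase n := Finset.mem_erase.2 ⟨hin, hi⟩
  have hj' : j ∈ A.erase n := Finset.mem_erase.2 ⟨hjn, hj⟩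
  have hcl := (cls_erase h0 hn hα hnα).2 ⟨hw, hA⟩
  have nn : w i ∈ A.erase n ∨ w j ∈ A.erase n := by
    have iα : i ≠ α := fun e => hα (e ▸ hi)
    have jα : j ≠ α := fun e => hα (e ▸ hj)
    rcases h1 with h1 | h1
    · left
      refine Finset.mem_erase.2 ⟨fun e => iα ?_, h1⟩
      rw [← hA, ← e, hf.inv]
    · right
      refine Finset.mem_erase.2 ⟨fun e => jα ?_, h1⟩
      rw [← hA, ← e, hf.inv]
  have e1 : hk i j w n = α :=
    ((cls_erase h0 hn hα hnα).1 (hcl.hk hi' hj' hij nn)).2
  rw [yB_A e1, yB_A hA]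
  exact hy'.2.2 w hcl i hi' j hj' hij nn

include R hAV h0 hn hα hnα hy' in
/-- type B, hooks listed in one order -/
theorem hooksB_aux {w : W → W} (hw : Cls A w0 w) (hB : w n ∈ A) {i j : W} (hi : i ∈ A)
    (hj : j ∈ A) (hij : i ≠ j)
    (hc : (i = w α ∧ j = w n) ∨ (i = n ∧ j = w α) ∨ (i = w α ∧ j ≠ n ∧ j ≠ w n) ∨
      (i = w n ∧ j ≠ n ∧ j ≠ w α) ∨ (i = n ∧ j ≠ w n ∧ j ≠ w α) ∨
      (i ≠ n ∧ i ≠ w n ∧ i ≠ w α ∧ j ≠ n ∧ j ≠ w n ∧ j ≠ w α)) :
    HP Act A n α y' w i j := by
  have hf := hw.1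
  have nα : n ≠ α := fun e => hα (e ▸ hn)
  have hBα : w n ≠ α := fun e => hα (e ▸ hB)
  obtain ⟨t1, t2, t3, t4, t5, t6, t7⟩ := tildeB h0 hn hα hnα hw hB
  have g := hy'.2.1 _ t1
  have gw := goodB R hAV h0 hn hα hnα hy' hw (Or.inl hB)
  set u := w α with hu
  set B := w n with hBdef
  have uA : u ∈ A := Finset.mem_of_mem_erase t5
  have un : u ≠ n := (Finset.mem_erase.1 t5).1
  have Bn : B ≠ n := hf.ne n
  have ey : yB Act n α y' w = Act n B (y' (hk u B w)) := yB_B hBα
  have wu : w u = α := hf.inv α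
  have wB : w B = n := hf.inv n
  have iα : i ≠ α := fun e => hα (e ▸ hi)
  have jα : j ≠ α := fun e => hα (e ▸ hj)
  intro h1 h2
  rcases hc with ⟨rfl, rfl⟩ | ⟨rfl, rfl⟩ | ⟨rfl, hjn, hjB⟩ | ⟨rfl, hjn, hju⟩ | ⟨rfl, hjB, hju⟩ |
    ⟨hin, hiB, hiu, hjn, hjB, hju⟩
  · -- (B2)
    rw [yB_A t2, ey, R.symm n B]
    exact (R.back g (hAV uA) (hAV hB) (hAV hn) un Bn t3).symm
  · -- (B3)
    have e1 : hk i u w α = B := by
      simp only [hk]; grind
    have e2 : hk i u w i ≠ α := by rw [hk_left]; exact jα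
    have := R.F1 g (hAV hB) (hAV uA) (hAV hn) Bn un t4
    rw [yB_B e2, hk_left, e1, I3 hf rfl rfl nα hij, ey, R.symm i B, R.symm i u, R.symm i u]
    exact this.symm
  · -- (B4)
    have hC : w j ∈ A := by
      rcases h1 with h1 | h1
      · rw [wu] at h1; exact absurd h1 hα
      · exact h1
    have e1 : hk u j w α = w j := by
      simp only [hk]; grind
    have e0 : hk u j w n = B := by
      simp only [hk]
      have := hf.inv j
      grind
    have e2 : hk u j w n ≠ α := by rw [e0]; exact hBα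
    rw [yB_B e2, e0, e1, I4 hf rfl rfl rfl nα un.symm hjn hjB (Ne.symm hij) jα, ey]
    rw [hy'.2.2 _ t1 u t5 j (Finset.mem_erase.2 ⟨hjn, hj⟩) hij (Or.inl (by rw [t3]; exact t6))]
    exact R.comm _ (hAV hn) (hAV hB) (hAV uA) (hAV hj) Bn.symm un.symm (Ne.symm hjn) t7.symm
      (Ne.symm hjB) hij
  · -- (B5)
    have e0 : hk B j w n = w j := by
      simp only [hk]; grind
    have hC : w j ∈ A := by
      rw [e0] at h2
      rcases h2 with h2 | h2
      · exact h2
      · exact absurd (by rw [hu, ← h2, hf.inv]) hju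
    have hCn : w j ≠ n := by
      intro e; apply hij; rw [hBdef, ← e, hf.inv]
    have hCu : w j ≠ u := by
      intro e; apply jα; rw [← hf.inv j, e, wu]
    have hCB : w j ≠ B := by
      intro e; apply hjn; rw [← hf.inv j, e, wB]
    have e1 : hk B j w α = u := by
      simp only [hk]; have := hf.inv j; grind
    have e2 : hk B j w n ≠ α := by rw [e0]; intro e; exact hα (e ▸ hC)
    rw [yB_B e2, e0, e1, I5 hf rfl rfl rfl nα un.symm hjn (Ne.symm hij) hju jα, ey]
    rw [hy'.2.2 _ t1 B t6 j (Finset.mem_erase.2 ⟨hjn, hj⟩) hij (Or.inl (by rw [t4]; exact t5))]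
    have tj : hk u B w j = w j := by
      simp only [hk]; grind
    -- A n C (A B j x) = A n C (A u C x) = A n C (A B n x) = A B j (A n B x)
    have x1 : Act B j (y' (hk u B w)) = Act u (w j) (y' (hk u B w)) :=
      R.exch g (hAV hB) (hAV hj) (hAV uA) (hAV hC) hij t4 tj (Ne.symm hju)
    have x2 := R.F2 g (hAV uA) (hAV hB) (hAV hn) (hAV hC) un Bn (Ne.symm hCu) (Ne.symm hCB)
      (Ne.symm hCn) t3
    have x3 : Act B j (yB Act n α y' w) = Act n (w j) (yB Act n α y' w) :=
      R.exch gw (hAV hB) (hAV hj) (hAV hn) (hAV hC) hij wB rfl (Ne.symm hjn)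
    rw [ey] at x3
    rw [x1, x3, ← x2, R.symm n B]
  · -- (B6)
    have e0 : hk i j w i ≠ α := by rw [hk_left]; exact jα
    have e1 : hk i j w α = u := by
      simp only [hk]; have := hf.inv j; grind
    rw [yB_B e0, hk_left, e1, I6 hf rfl rfl nα un.symm (Ne.symm hij) hjB hju jα, ey]
    rw [hy'.2.2 _ t1 u t5 j (Finset.mem_erase.2 ⟨Ne.symm hij, hj⟩) (Ne.symm hju)
      (Or.inl (by rw [t3]; exact t6))]
    have := R.F2 g (hAV uA) (hAV hB) (hAV hn) (hAV hj) un Bn (Ne.symm hju) (Ne.symm hjB) hij t3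
    rw [R.symm i B]
    exact this.symm
  · -- (B7)
    have e0 : hk i j w n = B := by
      simp only [hk]; have := hf.inv j; have := hf.inv i; grind
    have e1 : hk i j w α = u := by
      simp only [hk]; have := hf.inv j; have := hf.inv i; grind
    have e2 : hk i j w n ≠ α := by rw [e0]; exact hBα
    rw [yB_B e2, e0, e1, ey, hk_comm t7 (Ne.symm hiu) (Ne.symm hju) (Ne.symm hiB) (Ne.symm hjB)
      hij hf]
    have ti : hk u B w i = w i := by
      simp only [hk]; grind
    have tj : hk u B w j = w j := by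
      simp only [hk]; grind
    rw [hy'.2.2 _ t1 i (Finset.mem_erase.2 ⟨hin, hi⟩) j (Finset.mem_erase.2 ⟨hjn, hj⟩) hij ?_]
    · exact R.comm _ (hAV hn) (hAV hB) (hAV hi) (hAV hj) Bn.symm (Ne.symm hin) (Ne.symm hjn)
        (Ne.symm hiB) (Ne.symm hjB) hij
    · rw [ti, tj]
      rcases h1 with h1 | h1
      · left
        refine Finset.mem_erase.2 ⟨fun e => hiB ?_, h1⟩
        rw [hBdef, ← e, hf.inv]
      · right
        refine Finset.mem_erase.2 ⟨fun e => hjB ?_, h1⟩
        rw [hBdef, ← e, hf.inv]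

include R hAV h0 hn hα hnα hy' in
theorem hooksAB {w : W → W} (hw : Cls A w0 w) (hB : w n ∈ A ∨ w n = α) {i j : W} (hi : i ∈ A)
    (hj : j ∈ A) (hij : i ≠ j) : HP Act A n α y' w i j := by
  have hf := hw.1
  by_cases hA : w n = α
  · exact hooksA R hAV h0 hn hα hnα hy' hw hA hi hj hij
  have hB' : w n ∈ A := by tauto
  by_cases hwij : w i = j
  · -- (B1)
    intro h1 h2
    rw [hk_of_eq hf hwij]
    exact (R.ovr (goodB R hAV h0 hn hα hnα hy' hw hB) (hAV hi) (hAV hj) hwij).symm
  have hwji : w j ≠ i := fun e => hwij (by rw [← e, hf.inv])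
  have hun : w α ≠ n := by
    intro e
    exact hA (by rw [← e, hf.inv])
  have key := fun {i j : W} (hi : i ∈ A) (hj : j ∈ A) (hij : i ≠ j) =>
    hooksB_aux R hAV h0 hn hα hnα hy' hw hB' hi hj hij
  by_cases h1 : i = n
  · subst h1
    by_cases h2 : j = w α
    · exact key hi hj hij (Or.inr (Or.inl ⟨rfl, h2⟩))
    · exact key hi hj hij (Or.inr (Or.inr (Or.inr (Or.inr (Or.inl ⟨rfl, Ne.symm hwij, h2⟩)))))
  by_cases h2 : j = n
  · subst h2
    apply HP_symm R hf hij.symm
    by_cases h2 : i = w α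
    · exact key hj hi hij.symm (Or.inr (Or.inl ⟨rfl, h2⟩))
    · exact key hj hi hij.symm
        (Or.inr (Or.inr (Or.inr (Or.inr (Or.inl ⟨rfl, Ne.symm hwji, h2⟩)))))
  by_cases h3 : i = w α
  · by_cases h4 : j = w n
    · exact key hi hj hij (Or.inl ⟨h3, h4⟩)
    · exact key hi hj hij (Or.inr (Or.inr (Or.inl ⟨h3, h2, h4⟩)))
  by_cases h4 : j = w α
  · apply HP_symm R hf hij.symm
    by_cases h5 : i = w n
    · exact key hj hi hij.symm (Or.inl ⟨h4, h5⟩)
    · exact key hj hi hij.symm (Or.inr (Or.inr (Or.inl ⟨h4, h1, h5⟩)))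
  by_cases h5 : i = w n
  · exact key hi hj hij (Or.inr (Or.inr (Or.inr (Or.inl ⟨h5, h2, h4⟩))))
  by_cases h6 : j = w n
  · apply HP_symm R hf hij.symm
    exact key hj hi hij.symm (Or.inr (Or.inr (Or.inr (Or.inl ⟨h6, h1, h3⟩))))
  exact key hi hj hij (Or.inr (Or.inr (Or.inr (Or.inr (Or.inr ⟨h1, h5, h3, h2, h6, h4⟩)))))

/-- value at a state of type C computed through the edge at `c` -/
def yC (Act : W → W → X → X) (n α : W) (y' : (W → W) → X) (w : W → W) (c : W) : X :=
  Act c (w c) (yB Act n α y' (hk n c w))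

include R hAV h0 hn hα hnα hy' in
theorem yC_facts {w : W → W} (hw : Cls A w0 w) (hC : w n ∉ A) (hC' : w n ≠ α) {c : W} (hc : c ∈ A)
    (hd : w c ∈ A) :
    c ≠ n ∧ w c ≠ n ∧ Cls A w0 (hk n c w) ∧ hk n c w n = c ∧ hk n c w c = n ∧
      hk n c w (w c) = w n ∧ Good (yB Act n α y' (hk n c w)) (hk n c w) := by
  have hf := hw.1
  have cn : c ≠ n := fun e => hC (e ▸ hd)
  have dn : w c ≠ n := by
    intro e
    apply hC
    rw [← e, hf.inv]; exact hc
  have h1 := hw.hk hn hc cn.symm (Or.inr hd)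
  have h2 : hk n c w n = c := hk_left _ _ _
  refine ⟨cn, dn, h1, h2, hk_right cn.symm _, ?_, ?_⟩
  · simp only [hk]
    have := hf.inv c
    have := hf.inv n
    have := hf.ne c
    have := hf.ne n
    grind
  · exact goodB R hAV h0 hn hα hnα hy' h1 (Or.inl (by rw [h2]; exact hc))

include R hAV h0 hn hα hnα hy' in
theorem yC_rev {w : W → W} (hw : Cls A w0 w) (hC : w n ∉ A) (hC' : w n ≠ α) {c : W} (hc : c ∈ A)
    (hd : w c ∈ A) : yC Act n α y' w (w c) = yC Act n α y' w c := by
  have hf := hw.1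
  obtain ⟨cn, dn, f1, f2, f3, f4, f5⟩ := yC_facts R hAV h0 hn hα hnα hy' hw hC hC' hc hd
  unfold yC
  rw [hf.inv, ← ICrev hf rfl cn dn]
  have h3 : hk n (w c) (hk n c w) n = w c := hk_left _ _ _
  rw [hooksAB R hAV h0 hn hα hnα hy' f1 (Or.inl (by rw [f2]; exact hc)) hn hd dn.symm
    (Or.inl (by rw [f2]; exact hc)) (Or.inl (by rw [h3]; exact hd))]
  have := R.F1 f5 (hAV hn) (hAV hc) (hAV hd) dn.symm (Ne.symm (hf.ne c)) f2
  rw [R.symm (w c) c]
  exact this

include R hAV h0 hn hα hnα hy' in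
theorem yC_indep {w : W → W} (hw : Cls A w0 w) (hC : w n ∉ A) (hC' : w n ≠ α) {c : W}
    (hc : c ∈ A) (hd : w c ∈ A) {c' : W} (hc' : c' ∈ A) (hd' : w c' ∈ A) :
    yC Act n α y' w c' = yC Act n α y' w c := by
  have hf := hw.1
  by_cases e1 : c' = c
  · rw [e1]
  by_cases e2 : c' = w c
  · rw [e2]; exact yC_rev R hAV h0 hn hα hnα hy' hw hC hC' hc hd
  obtain ⟨cn, dn, f1, f2, f3, f4, f5⟩ := yC_facts R hAV h0 hn hα hnα hy' hw hC hC' hc hd
  obtain ⟨cn', dn', _, _, _, _, _⟩ := yC_facts R hAV h0 hn hα hnα hy' hw hC hC' hc' hd'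
  have d'c : w c' ≠ c := fun e => e2 (by rw [← e, hf.inv])
  have d'd : w c' ≠ w c := fun e => e1 (by rw [← hf.inv c', e, hf.inv])
  unfold yC
  rw [← ICoth hf rfl rfl cn dn cn' dn' e1 e2]
  have g1 : hk n c w c' = w c' := by
    simp only [hk]; have := hf.inv c'; have := hf.inv n; grind
  have g2 : hk n c w (w c') = c' := by
    simp only [hk]; have := hf.inv c'; have := hf.inv n; have := hf.inv c; grind
  -- first hook [d c']
  have k1 : yB Act n α y' (hk (w c) c' (hk n c w)) = Act (w c) c' (yB Act n α y' (hk n c w)) := by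
    apply hooksAB R hAV h0 hn hα hnα hy' f1 (Or.inl (by rw [f2]; exact hc)) hd hc' (Ne.symm e2)
      (Or.inr (by rw [g1]; exact hd'))
    left
    have : hk (w c) c' (hk n c w) n = c := by
      have h5 := (hk_fpi cn.symm hf).inv c'
      have h6 := (hk_fpi cn.symm hf).inv (w c)
      have h7 := (hk_fpi cn.symm hf).inv n
      unfold hk at f2 f3 f4 g1 g2 h5 h6 h7 ⊢
      grind (splits := 40)
    rw [this]; exact hc
  have f1' : Cls A w0 (hk (w c) c' (hk n c w)) :=
    f1.hk hd hc' (Ne.symm e2) (Or.inr (by rw [g1]; exact hd'))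
  have p1 : hk (w c) c' (hk n c w) n = c := by
    have h5 := (hk_fpi cn.symm hf).inv c'
    have h6 := (hk_fpi cn.symm hf).inv (w c)
    have h7 := (hk_fpi cn.symm hf).inv n
    unfold hk at f2 f3 f4 g1 g2 h5 h6 h7 ⊢
    grind (splits := 40)
  have p2 : hk (w c) c' (hk n c w) (w c) = c' := hk_left _ _ _
  have k2 : yB Act n α y' (hk c (w c) (hk (w c) c' (hk n c w))) =
      Act c (w c) (yB Act n α y' (hk (w c) c' (hk n c w))) := by
    apply hooksAB R hAV h0 hn hα hnα hy' f1' (Or.inl (by rw [p1]; exact hc)) hc hd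
      (Ne.symm (hf.ne c)) (Or.inr (by rw [p2]; exact hc'))
    left
    have : hk c (w c) (hk (w c) c' (hk n c w)) n = c' := by
      rw [ICoth hf rfl rfl cn dn cn' dn' e1 e2, hk_left]
    rw [this]; exact hc'
  rw [k2, k1]
  rw [R.comm _ (hAV hc') (hAV hd') (hAV hc) (hAV hd) (Ne.symm (hf.ne c')) e1 e2 d'c d'd
    (Ne.symm (hf.ne c))]
  congr 1
  have := R.back f5 (hAV hd') (hAV hc') (hAV hd) d'd e2 g2
  rw [R.symm c' (w c'), R.symm (w c) c']
  exact this

open Classical in
/-- The whole section. -/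
noncomputable def yF (Act : W → W → X → X) (A : Finset W) (n α : W) (y' : (W → W) → X)
    (w : W → W) : X :=
  if w n ∈ A ∨ w n = α then yB Act n α y' w else
    if h : ∃ c ∈ A, w c ∈ A then yC Act n α y' w h.choose else y' w

theorem yF_AB {w : W → W} (h : w n ∈ A ∨ w n = α) : yF Act A n α y' w = yB Act n α y' w := by
  simp [yF, h]

include R hAV h0 hn hα hnα hy' in
theorem yF_C {w : W → W} (hw : Cls A w0 w) (hC : w n ∉ A) (hC' : w n ≠ α) {c : W} (hc : c ∈ A)
    (hd : w c ∈ A) : yF Act A n α y' w = yC Act n α y' w c := by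
  have h : ∃ c ∈ A, w c ∈ A := ⟨c, hc, hd⟩
  have h1 : ¬ (w n ∈ A ∨ w n = α) := by tauto
  unfold yF
  rw [if_neg h1, dif_pos h]
  exact yC_indep R hAV h0 hn hα hnα hy' hw hC hC' hc hd h.choose_spec.1 h.choose_spec.2

include R hAV h0 hn hα hnα hy' in
theorem step2 (he : ∃ a ∈ A, w0 a ∈ A) : IsSec Act Good A x0 w0 (yF Act A n α y') := by
  refine ⟨?_, ?_, ?_⟩
  · rw [yF_AB (Or.inr hnα), yB_A hnα]
    exact hy'.1
  · intro w hw
    by_cases h1 : w n ∈ A ∨ w n = α
    · rw [yF_AB h1]; exact goodB R hAV h0 hn hα hnα hy' hw h1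
    · push Not at h1
      obtain ⟨c, hc, hd⟩ := hw.exists_edge h0 he
      obtain ⟨cn, dn, f1, f2, f3, f4, f5⟩ := yC_facts R hAV h0 hn hα hnα hy' hw h1.1 h1.2 hc hd
      rw [yF_C R hAV h0 hn hα hnα hy' hw h1.1 h1.2 hc hd]
      unfold yC
      have := R.step f5 (hAV hc) (hAV hd) (Ne.symm (hw.1.ne c)) (Or.inl (by rw [f3]; exact hAV hn))
      have e : hk c (w c) (hk n c w) = w := by
        have := hw.1
        obtain ⟨h1, h2⟩ := this
        have a1 := h1 n
        have a2 := h1 c
        have b1 := h2 n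
        have b2 := h2 c
        funext x
        have a3 := h1 x
        have b3 := h2 x
        clear h1 h2
        simp only [hk]
        grind (splits := 40)
      rw [e] at this
      exact this
  · intro w hw i hi j hj hij hnz
    have hf := hw.1
    have hw' : Cls A w0 (hk i j w) := hw.hk hi hj hij hnz
    by_cases h1 : w n ∈ A ∨ w n = α
    · rw [yF_AB h1]
      by_cases h2 : hk i j w n ∈ A ∨ hk i j w n = α
      · rw [yF_AB h2]
        exact hooksAB R hAV h0 hn hα hnα hy' hw h1 hi hj hij hnz h2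
      · -- exit to type C
        push Not at h2
        have key : ∀ i ∈ A, ∀ j ∈ A, i ≠ j → (w i ∈ A ∨ w j ∈ A) →
            hk i j w n ∉ A → hk i j w n ≠ α → w n = i →
            yF Act A n α y' (hk i j w) = Act i j (yB Act n α y' w) := by
          intro i hi j hj hij hnz h3 h4 h5
          have hw' : Cls A w0 (hk i j w) := hw.hk hi hj hij hnz
          have jn : j ≠ n := by
            rintro rfl
            apply h3
            rw [hk_right hij]; exact hi
          have e1 : hk i j w i = j := hk_left _ _ _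
          rw [yF_C R hAV h0 hn hα hnα hy' hw' h3 h4 hi (by rw [e1]; exact hj)]
          unfold yC
          rw [e1, ICexit hf h5 jn (Ne.symm hij)]
        -- n must be the partner of i or j
        have hor : w n = i ∨ w n = j := by
          by_contra hcon
          push Not at hcon
          have : i ≠ n := by
            rintro rfl
            apply h2.1; rw [hk_left]; exact hj
          have : j ≠ n := by
            rintro rfl
            apply h2.1; rw [hk_right hij]; exact hi
          have e : hk i j w n = w n := by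
            simp only [hk]
            have := hf.inv i
            have := hf.inv j
            grind
          rw [e] at h2
          tauto
        rcases hor with h5 | h5
        · exact key i hi j hj hij hnz h2.1 h2.2 h5
        · rw [hk_symm hij hf] at h2 ⊢
          rw [R.symm i j]
          exact key j hj i hi hij.symm hnz.symm h2.1 h2.2 h5
    · push Not at h1
      obtain ⟨hC, hC'⟩ := h1
      -- type C
      have key : ∀ i ∈ A, ∀ j ∈ A, i ≠ j → w i ∈ A →
          yF Act A n α y' (hk i j w) = Act i j (yF Act A n α y' w) := by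
        intro i hi j hj hij hwi
        obtain ⟨cn, dn, f1, f2, f3, f4, f5⟩ := yC_facts R hAV h0 hn hα hnα hy' hw hC hC' hi hwi
        by_cases e1 : w i = j
        · -- C0
          rw [hk_of_eq hf e1]
          have g : Good (yF Act A n α y' w) w := by
            rw [yF_C R hAV h0 hn hα hnα hy' hw hC hC' hi hwi]
            unfold yC
            have := R.step f5 (hAV hi) (hAV hwi) (Ne.symm (hw.1.ne i))
              (Or.inl (by rw [f3]; exact hAV hn))
            have e : hk i (w i) (hk n i w) = w := by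
              have := hw.1
              obtain ⟨h1, h2⟩ := this
              have a1 := h1 n
              have a2 := h1 i
              have b1 := h2 n
              have b2 := h2 i
              funext x
              have a3 := h1 x
              have b3 := h2 x
              clear h1 h2
              simp only [hk]
              grind (splits := 40)
            rw [e] at this
            exact this
          exact (R.ovr g (hAV hi) (hAV hj) e1).symm
        by_cases e2 : j = n
        · -- C1 : hook [i n]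
          subst e2
          have e3 : hk i j w j = i := hk_right hij _
          rw [yF_AB (Or.inl (by rw [e3]; exact hi)),
            yF_C R hAV h0 hn hα hnα hy' hw hC hC' hi hwi]
          unfold yC
          rw [hk_symm hij hf, R.symm i j]
          exact (R.back f5 (hAV hn) (hAV hi) (hAV hwi) dn.symm (Ne.symm (hf.ne i)) f2).symm
        · -- C4
          have hw' : Cls A w0 (hk i j w) := hw.hk hi hj hij (Or.inl hwi)
          have e3 : hk i j w n = w n := by
            simp only [hk]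
            have := hf.inv i
            have := hf.inv j
            have : w n ≠ j := by rintro rfl; exact hC hj
            have : w n ≠ i := by rintro rfl; exact hC hi
            grind
          have e4 : hk i j w j = i := hk_right hij _
          rw [yF_C R hAV h0 hn hα hnα hy' hw' (by rw [e3]; exact hC) (by rw [e3]; exact hC') hj
            (by rw [e4]; exact hi)]
          obtain ⟨cn', dn', g1, g2, g3, g4, g5⟩ :=
            yC_facts R hAV h0 hn hα hnα hy' hw hC hC' hwi (by rw [hf.inv]; exact hi)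
          rw [yF_C R hAV h0 hn hα hnα hy' hw hC hC' hwi (by rw [hf.inv]; exact hi)]
          unfold yC
          rw [e4, hf.inv, IC4 hf rfl cn e2 dn hij e1]
          have h5 : hk n j (hk n (w i) w) n = j := hk_left _ _ _
          rw [hooksAB R hAV h0 hn hα hnα hy' g1 (Or.inl (by rw [g2]; exact hwi)) hn hj
            (Ne.symm e2) (Or.inl (by rw [g2]; exact hwi)) (Or.inl (by rw [h5]; exact hj))]
          have := R.F2 g5 (hAV hn) (hAV hwi) (hAV hi) (hAV hj) (Ne.symm cn) (hf.ne i)
            (Ne.symm e2) e1 hij g2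
          rw [R.symm j i]
          exact this.symm
      rcases hnz with h3 | h3
      · exact key i hi j hj hij h3
      · rw [hk_symm hij hf, R.symm i j]
        exact key j hj i hi hij.symm h3

end Step2

end Pool.Agent.W_MP_aeed81_al
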