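import Pool.Agent.W_MP_aeed81_al.Section2

set_option linter.unusedVariables false

namespace Pool.Agent.W_MP_aeed81_al

variable {W : Type*} [DecidableEq W]

theorem step1 {X : Type*} {V : Finset W} {Act : W → W → X → X} {Good : X → (W → W) → Prop}
    (R : Rep V Act Good) {A : Finset W} (hAV : A ⊆ V) {n : W} {x0 : X} {w0 : W → W}
    (h0 : FPI w0) (hn : n ∈ A) (hpres : ∀ a ∈ A, w0 a ∈ A) {y : (W → W) → X}
    (hy : IsSec Act Good (A.erase n) x0 w0 y) : IsSec Act Good A x0 w0 y := by
  have hpres' : ∀ a, a ∉ A → w0 a ∉ A := fun a ha hb => ha (by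
    have := hpres _ hb
    rwa [h0.inv] at this)
  have cls_pres : ∀ w, Cls A w0 w → ∀ a ∈ A, w a ∈ A := by
    intro w hw a ha
    by_contra hcon
    have h1 := (hw.2 _ hcon).1 (hpres' _ hcon)
    rw [hw.1.inv] at h1
    exact hpres' _ hcon (h1 ▸ ha)
  have cls_to : ∀ w, Cls A w0 w → Cls (A.erase n) w0 w := by
    intro w hw
    refine ⟨hw.1, fun x hx => ?_⟩
    by_cases xn : x = n
    · subst xn
      refine ⟨fun h => absurd (Finset.mem_erase.2 ⟨h0.ne x, hpres x hn⟩) h, fun _ => ?_⟩
      exact Finset.mem_erase.2 ⟨hw.1.ne x, cls_pres w hw x hn⟩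
    · have hxA : x ∉ A := fun h => hx (Finset.mem_erase.2 ⟨xn, h⟩)
      refine ⟨fun _ => (hw.2 x hxA).1 (hpres' x hxA), fun h => ?_⟩
      exact absurd (Finset.mem_of_mem_erase h) (hpres' x hxA)
  refine ⟨hy.1, fun w hw => hy.2.1 w (cls_to w hw), ?_⟩
  intro w hw i hi j hj hij hnz
  have hf := hw.1
  have g := hy.2.1 w (cls_to w hw)
  have key : ∀ j ∈ A, n ≠ j → y (hk n j w) = Act n j (y w) := by
    intro j hj hnj
    by_cases e : w n = j
    · rw [hk_of_eq hf e, R.ovr g (hAV hn) (hAV hj) e]
    · have hB := cls_pres w hw n hn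
      have hC := cls_pres w hw j hj
      rw [hk_exch hf hnj rfl rfl e, R.exch g (hAV hn) (hAV hj) (hAV hB) (hAV hC) hnj rfl rfl e]
      have hBC : w n ≠ w j := by
        intro e2
        apply hnj
        rw [← hf.inv n, e2, hf.inv]
      have hCn : w j ≠ n := fun e2 => e (by rw [← e2, hf.inv])
      apply hy.2.2 w (cls_to w hw) _ (Finset.mem_erase.2 ⟨hf.ne n, hB⟩) _
        (Finset.mem_erase.2 ⟨hCn, hC⟩) hBC
      right
      rw [hf.inv]
      exact Finset.mem_erase.2 ⟨hnj.symm, hj⟩
  by_cases h1 : i = n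
  · subst h1; exact key j hj hij
  by_cases h2 : j = n
  · subst h2
    rw [hk_symm hij hf, R.symm i j]
    exact key i hi hij.symm
  · apply hy.2.2 w (cls_to w hw) i (Finset.mem_erase.2 ⟨h1, hi⟩) j (Finset.mem_erase.2 ⟨h2, hj⟩) hij
    by_cases h3 : w i = n
    · right
      refine Finset.mem_erase.2 ⟨fun e => ?_, cls_pres w hw j hj⟩
      apply hij
      rw [← hf.inv i, h3, ← e, hf.inv]
    · left
      exact Finset.mem_erase.2 ⟨h3, cls_pres w hw i hi⟩

theorem section_exists {X : Type*} {V : Finset W} {Act : W → W → X → X}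
    {Good : X → (W → W) → Prop} (R : Rep V Act Good) :
    ∀ (m : ℕ) (A : Finset W), A.card = m → A ⊆ V → ∀ (x0 : X) (w0 : W → W), Good x0 w0 →
      (∃ a ∈ A, w0 a ∈ A) → ∃ y : (W → W) → X, IsSec Act Good A x0 w0 y := by
  intro m
  induction m using Nat.strong_induction_on with
  | _ m ih =>
    intro A hm hAV x0 w0 hg he
    have h0 := R.fpi hg
    by_cases hpres : ∀ a ∈ A, w0 a ∈ A
    · obtain ⟨n, hn, hn'⟩ := he
      by_cases hbig : ∃ a ∈ A, a ≠ n ∧ a ≠ w0 n
      · obtain ⟨a, ha, han, haw⟩ := hbig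
        have hc : (A.erase n).card < m := by
          rw [Finset.card_erase_of_mem hn, hm]
          have : 0 < A.card := Finset.card_pos.2 ⟨n, hn⟩
          omega
        obtain ⟨y, hy⟩ := ih _ hc (A.erase n) rfl ((Finset.erase_subset _ _).trans hAV) x0 w0 hg
          ⟨a, Finset.mem_erase.2 ⟨han, ha⟩, Finset.mem_erase.2
            ⟨fun e => haw (by rw [← e, h0.inv]), hpres a ha⟩⟩
        exact ⟨y, step1 R hAV h0 hn hpres hy⟩
      · push Not at hbig
        -- A = {n, w0 n}
        have hw : ∀ w, Cls A w0 w → w = w0 := by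
          intro w hw
          have hpres' : ∀ a, a ∉ A → w0 a ∉ A := fun a ha hb => ha (by
            have := hpres _ hb
            rwa [h0.inv] at this)
          have hin : ∀ a ∈ A, w a ∈ A := by
            intro a ha
            by_contra hcon
            have h1 := (hw.2 _ hcon).1 (hpres' _ hcon)
            rw [hw.1.inv] at h1
            exact hpres' _ hcon (h1 ▸ ha)
          have hwn : w n = w0 n := by
            by_contra h
            exact h (hbig _ (hin n hn) (hw.1.ne n))
          funext x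
          by_cases hx : x ∈ A
          · by_cases hxn : x = n
            · rw [hxn, hwn]
            · have : x = w0 n := hbig x hx hxn
              rw [this, h0.inv, ← hwn, hw.1.inv]
          · exact (hw.2 x hx).1 (hpres' x hx)
        refine ⟨fun _ => x0, rfl, fun w h => by rw [hw w h]; exact hg, ?_⟩
        intro w h i hi j hj hij _
        rw [hw w h]
        have : w0 i = j := by
          by_cases hin : i = n
          · subst hin
            exact (hbig j hj hij.symm).symm
          · have h1 := hbig i hi hin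
            rw [h1, h0.inv]
            by_contra hcon
            exact hij (h1.trans (hbig j hj (Ne.symm hcon)).symm)
        exact (R.ovr hg (hAV hi) (hAV hj) this).symm
    · push Not at hpres
      obtain ⟨n, hn, hα⟩ := hpres
      have hc : (A.erase n).card < m := by
        rw [Finset.card_erase_of_mem hn, hm]
        have : 0 < A.card := Finset.card_pos.2 ⟨n, hn⟩
        omega
      have he' : ∃ a ∈ A.erase n, w0 a ∈ A.erase n := by
        obtain ⟨a, ha, hb⟩ := he
        refine ⟨a, Finset.mem_erase.2 ⟨?_, ha⟩, Finset.mem_erase.2 ⟨?_, hb⟩⟩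
        · rintro rfl; exact hα hb
        · intro e
          apply hα
          rw [← e, h0.inv]; exact ha
      obtain ⟨y, hy⟩ := ih _ hc (A.erase n) rfl ((Finset.erase_subset _ _).trans hAV) x0 w0 hg he'
      exact ⟨_, step2 R hAV h0 hn hα rfl hy he⟩

end Pool.Agent.W_MP_aeed81_al
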