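import Pool.Agent.W_MP_aeed81_al.Upper

set_option linter.unusedVariables false
set_option linter.unusedSectionVars false

namespace Pool.Agent.W_MP_aeed81_al

open Sum

variable {V L M : Type*} [DecidableEq V] [DecidableEq L] [Semigroup M]
variable {h : V → V → M} (H : HookSys h) {e : M} {w0 : V ⊕ L → V ⊕ L} (f0 : FPI w0)
  (l0 : LV w0) (he : ∀ i j, w0 (inl i) = inl j → e * h i j = e) (hee : e * e = e)
  (hE : ∀ s, (∀ i j, w0 (inl i) = inl j → s * h i j = s) → s * e = s)
  [Fintype V] [Fintype L] (hc : Fintype.card L + 4 ≤ Fintype.card V)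
  (h5 : 5 ≤ Fintype.card V)

theorem inl_ne {i j : V} (hij : i ≠ j) : (inl i : V ⊕ L) ≠ inl j := by simpa using hij

include f0 in
/-- The triangle returns to the state. -/
theorem tri_good {s : M} {w : V ⊕ L → V ⊕ L} (g : Good h e w0 s w) {i c j : V}
    (hic : w (inl i) = inl c) (ji : j ≠ i) (jc : j ≠ c) : Good h e w0 (Tri h s i c j) w := by
  have hf := g.fpi f0
  have ic := ne_of_w hf hic
  have g1 := g.step (Ne.symm ji) (Or.inl ⟨c, hic⟩)
  have hf1 := g1.fpi f0
  have e1 : hk (inl i) (inl j) w (inl j) = inl i := hk_right (inl_ne (Ne.symm ji)) _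
  have g2 := g1.step (Ne.symm jc) (Or.inr ⟨i, e1⟩)
  have hf2 := g2.fpi f0
  have e2 : hk (inl c) (inl j) (hk (inl i) (inl j) w) (inl c) = inl j := hk_left _ _ _
  have g3 := g2.step ic (Or.inr ⟨j, e2⟩)
  have e3 : hk (inl i) (inl c) (hk (inl c) (inl j) (hk (inl i) (inl j) w)) = w := by
    obtain ⟨h1, h2⟩ := hf
    have a1 := h1 (inl i)
    have a2 := h1 (inl c)
    have a3 := h1 (inl j)
    have b1 := h2 (inl i)
    have b2 := h2 (inl c)
    have b3 := h2 (inl j)
    have c1 := inl_ne (L := L) ic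
    have c2 := inl_ne (L := L) ji
    have c3 := inl_ne (L := L) jc
    funext x
    have a4 := h1 x
    have b4 := h2 x
    clear h1 h2 g g1 g2 g3 hf1 hf2
    generalize (inl i : V ⊕ L) = i' at *
    generalize (inl c : V ⊕ L) = c' at *
    generalize (inl j : V ⊕ L) = j' at *
    simp only [hk]
    grind (splits := 60)
  rw [e3] at g3
  exact g3

include H f0 he hE hc h5 in
theorem tri_zeta {i0 c0 j0 : V} (z1 : w0 (inl i0) = inl c0) (z2 : j0 ≠ i0) (z3 : j0 ≠ c0)
    {s : M} {w : V ⊕ L → V ⊕ L} (g : Good h e w0 s w) :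
    ∀ {i c j : V}, w (inl i) = inl c → j ≠ i → j ≠ c →
      Tri h s i c j = Tri h e i0 c0 j0 * s := by
  induction g with
  | base =>
    intro i c j hic ji jc
    have g0 : Good h e w0 e w0 := Good.base
    rw [tri_all H f0 he hc h5 g0 hic ji jc z1 z2 z3]
    have g1 := tri_good f0 g0 z1 z2 z3
    exact (hE _ (fun i j hij => g1.ovr H f0 he hij)).symm
  | @step s w i j g hij hn ih =>
    intro i' c' j' hic' ji' jc'
    have g' := g.step hij hn
    have hf := g.fpi f0
    by_cases hw : w (inl i) = inl j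
    · have e1 : s * h i j = s := g.ovr H f0 he hw
      rw [hk_of_eq hf hw] at hic'
      rw [e1]
      exact ih hic' ji' jc'
    · rcases hn with ⟨c, hcc⟩ | ⟨c, hcc⟩
      · have cj : c ≠ j := by rintro rfl; exact hw hcc
        have ic := ne_of_w hf hcc
        have e1 : hk (inl i) (inl j) w (inl j) = inl i := hk_right (inl_ne hij) _
        rw [tri_all H f0 he hc h5 g' hic' ji' jc' e1 cj ic.symm]
        have := ih hcc (Ne.symm hij) cj.symm
        rw [← mul_assoc, ← this]
        unfold Tri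
        rw [H.symm j c, H.symm j i]
      · have ci : c ≠ i := by
          rintro rfl
          exact hw (by rw [← hcc, hf.inv])
        have jc := ne_of_w hf hcc
        have e1 : hk (inl i) (inl j) w (inl i) = inl j := hk_left _ _ _
        rw [tri_all H f0 he hc h5 g' hic' ji' jc' e1 ci jc.symm]
        have := ih hcc hij ci.symm
        rw [← mul_assoc, ← this]
        unfold Tri
        rw [H.symm i c, H.symm j i]

include H f0 he hE hc h5 in
theorem zeta_sq {i0 c0 j0 : V} (z1 : w0 (inl i0) = inl c0) (z2 : j0 ≠ i0) (z3 : j0 ≠ c0) :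
    Tri h e i0 c0 j0 * Tri h e i0 c0 j0 = e := by
  have g1 : Good h e w0 (Tri h e i0 c0 j0) w0 := tri_good f0 Good.base z1 z2 z3
  have z1' : w0 (inl c0) = inl i0 := by rw [← z1, f0.inv]
  have ic := ne_of_w f0 z1
  rw [← tri_zeta H f0 he hE hc h5 z1 z2 z3 g1 z1' z3 z2]
  unfold Tri
  -- e[ij][cj][ic][cj][ij][ci]
  have o1 : (e * h i0 j0 * h c0 j0) * h c0 j0 = e * h i0 j0 * h c0 j0 := H.over_self z3.symm
  have b1 : e * h i0 j0 * h c0 j0 * h i0 c0 * h c0 j0 = e * h i0 j0 * h c0 j0 := by
    rw [H.symm i0 c0]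
    exact H.back' z3.symm ic.symm z2 o1
  have b2 : e * h i0 j0 * h c0 j0 * h i0 j0 = e * h i0 j0 := by
    rw [H.symm c0 j0]
    exact H.back z2.symm ic z3 (H.over_self z2.symm)
  have b3 : e * h i0 j0 * h c0 i0 = e := by
    have := H.back' ic z2.symm z3.symm (he i0 c0 z1)
    rw [H.symm c0 i0]; exact this
  rw [b1, b2, b3]

include H f0 he hE hc h5 in
theorem F1_zeta {i0 c0 j0 : V} (z1 : w0 (inl i0) = inl c0) (z2 : j0 ≠ i0) (z3 : j0 ≠ c0)
    {s : M} {w : V ⊕ L → V ⊕ L} (g : Good h e w0 s w) {i j k : V} (hij : w (inl i) = inl j)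
    (ki : k ≠ i) (kj : k ≠ j) :
    s * h i k * h j k = Tri h e i0 c0 j0 * (s * h j k) := by
  have hf := g.fpi f0
  have ij := ne_of_w hf hij
  rw [← mul_assoc, ← tri_zeta H f0 he hE hc h5 z1 z2 z3 g hij ki kj]
  unfold Tri
  have := H.back' (s := s * h i k * h j k) kj.symm ij.symm ki (H.over_self kj.symm)
  rw [H.symm i j]
  exact this.symm

include H f0 he hc in
theorem F2_exact {s : M} {w : V ⊕ L → V ⊕ L} (g : Good h e w0 s w) {i j k l : V}
    (hij : w (inl i) = inl j) (ki : k ≠ i) (kj : k ≠ j) (li : l ≠ i) (lj : l ≠ j) (kl : k ≠ l) :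
    s * h j k * h k l = s * h i l * h k l := by
  have hf := g.fpi f0
  have ij := ne_of_w hf hij
  have ov := fun {k l : V} => g.ovr H f0 he (k := k) (l := l)
  obtain ⟨c, d, hcd, ci, cj⟩ := other_edge hc hf i j
  obtain ⟨di, dj, cd⟩ := edge_facts hf hij hcd ci cj
  -- auxiliary: the case where `k` is in an edge `{k,c}` with `c ≠ l`
  have caseK : ∀ c, w (inl k) = inl c → c ≠ l → s * h j k * h k l = s * h i l * h k l := by
    intro c hkc cl
    obtain ⟨ci, cj, kc⟩ := edge_facts hf hij hkc ki kj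
    -- s[jk] = s[ic]
    have e1 : s * h j k = s * h i c := by
      have := H.exch (s := s) (i := j) (j := k) (b := i) (c := c) kj.symm ij.symm cj.symm ki kc
        ci.symm (H.over_symm (ov hij)) (ov hkc)
      exact this
    have e2 : s * h i c * h k l = s * h k l * h i c := H.commR ci.symm ki.symm li.symm kc.symm cl kl
    -- theta over {c,k}: t[k l][c i] = t[l i][k l]
    have e3 := H.theta (s := s) (i := c) (j := k) (k := l) (l := i) kc.symm cl ci kl ki li
      (H.over_symm (ov hkc))
    rw [e1, e2, H.symm i c, ← e3, H.symm l i]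
  have caseL : ∀ c, w (inl l) = inl c → c ≠ k → s * h j k * h k l = s * h i l * h k l := by
    intro c hlc ck
    obtain ⟨ci, cj, lc⟩ := edge_facts hf hij hlc li lj
    -- s[il] = s[jc]
    have e1 : s * h i l = s * h j c := by
      exact H.exch (s := s) (i := i) (j := l) (b := j) (c := c) li.symm ij ci.symm lj lc
        cj.symm (ov hij) (ov hlc)
    have e2 : s * h j c * h k l = s * h k l * h j c := H.commR cj.symm kj.symm lj.symm ck lc.symm kl
    -- theta over {c,l}: s[lk][cj] = s[kj][lk]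
    have e3 := H.theta (s := s) (i := c) (j := l) (k := k) (l := j) lc.symm ck cj kl.symm lj kj
      (H.over_symm (ov hlc))
    rw [e1, e2, H.symm j c, H.symm k l, ← e3, H.symm k j]
  by_cases hkl : w (inl k) = inl l
  · have e1 := ov hkl
    have b1 : s * h j k * h k l = s := by
      have := H.back' kl kj lj e1
      rw [H.symm j k]; exact this
    have b2 : s * h i l * h k l = s := by
      have := H.back kl ki li e1
      rw [H.symm i l]; exact this
    rw [b1, b2]
  by_cases kc : k = c
  · subst kc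
    exact caseK d hcd (by rintro rfl; exact hkl hcd)
  by_cases kd : k = d
  · subst kd
    have e1 : w (inl k) = inl c := by rw [← hcd, hf.inv]
    exact caseK c e1 (by rintro rfl; exact hkl e1)
  by_cases lc : l = c
  · subst lc
    exact caseL d hcd (by rintro rfl; exact kd rfl)
  by_cases ld : l = d
  · subst ld
    have e1 : w (inl l) = inl c := by rw [← hcd, hf.inv]
    exact caseL c e1 (by rintro rfl; exact kc rfl)
  exact H.f2gen ij ki.symm li.symm ci.symm di.symm kj.symm lj.symm cj.symm dj.symm kl kc kd lc ld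
    cd (ov hij) (ov hcd)

end Pool.Agent.W_MP_aeed81_al
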